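import Pool.Agent.H.MP_0ec261_nt.AA.Maj3

/-!
Preparation of the mean square estimate.
-/

open Finset Filter

namespace Pool.Agent.H.MP_0ec261_nt.AA

lemma MajP_mono {N : ℕ} {K K' α : ℝ} (h : K ≤ K') (hα : MajP N K α) : MajP N K' α := by
  obtain ⟨q, a, h1, h2, h3⟩ := hα
  refine ⟨q, a, h1, h2.trans h, h3.trans ?_⟩
  exact div_le_div_of_nonneg_right h (Nat.cast_nonneg _)

lemma MajP_half {N e : ℕ} (he : e = 1 ∨ e = 2) {K α : ℝ} (hK : 0 ≤ K) (h : MajP N K (e * α)) :
    MajP N (2 * K) α := by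
  rcases he with rfl | rfl
  · rw [Nat.cast_one, one_mul] at h
    exact MajP_mono (by linarith) h
  · obtain ⟨q, a, h1, h2, h3⟩ := h
    have hq : (0 : ℝ) < q := by exact_mod_cast h1
    refine ⟨2 * q, a, by omega, by push_cast; linarith, ?_⟩
    have e1 : α - (a : ℝ) / ((2 * q : ℕ) : ℝ) = (((2 : ℕ) : ℝ) * α - a / q) / 2 := by
      push_cast
      field_simp
    rw [e1, abs_div, abs_two]
    have h4 : 0 ≤ K / N := by positivity
    have h5 : 2 * K / N = 2 * (K / N) := by ring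
    rw [h5]
    have := abs_nonneg (((2 : ℕ) : ℝ) * α - a / q)
    linarith

/-- the sum over the primes of a class -/
noncomputable def Fs (N W b : ℕ) (α : ℝ) : ℂ := Fh (Icc 1 N) (fun n => ((fb N W b n : ℝ) : ℂ)) α

/-- the sum of the model -/
noncomputable def Gs (N W b : ℕ) (α : ℝ) : ℂ := Fh (Icc 1 N) (fun n => ((gb W b n : ℝ) : ℂ)) α

lemma Ds_eq (N W b : ℕ) (α : ℝ) : Fs N W b α - Gs N W b α =
    ∑ n ∈ Icc 1 N, (((fb N W b n - gb W b n : ℝ)) : ℂ) * ee (n * α) := by
  unfold Fs Gs Fh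
  rw [← sum_sub_distrib]
  apply sum_congr rfl
  intro n _
  push_cast
  ring

/-- the support of `fb` -/
def PW (N W b : ℕ) : Finset ℕ := (PP N).filter (fun n => n % W = b)

lemma sum_fb {N W b : ℕ} {β : Type*} [AddCommMonoid β] (φ : ℕ → ℝ → β) (h0 : ∀ n, φ n 0 = 0) :
    ∑ n ∈ Icc 1 N, φ n (fb N W b n) = ∑ n ∈ PW N W b, φ n (Real.log n) := by
  have h1 : PW N W b = (Icc 1 N).filter (fun n => n ∈ PP N ∧ n % W = b) := by
    unfold PW
    ext n
    rw [mem_filter, mem_filter, mem_Icc]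
    constructor
    · rintro ⟨h2, h3⟩
      have := mem_PP.1 h2
      exact ⟨⟨this.2.1.pos, this.1⟩, h2, h3⟩
    · rintro ⟨_, h2, h3⟩
      exact ⟨h2, h3⟩
  rw [h1, sum_filter]
  apply sum_congr rfl
  intro n _
  unfold fb
  split_ifs
  · rfl
  · exact h0 n

lemma Fs_eq (N W b : ℕ) (α : ℝ) : Fs N W b α = Fh (PW N W b) (fun n => (Real.log n : ℂ)) α := by
  unfold Fs Fh
  exact sum_fb (fun n x => ((x : ℝ) : ℂ) * ee (n * α)) (fun n => by simp)

lemma Fs_avg {N W b : ℕ} (hW : 0 < W) (hb : b < W) (α : ℝ) :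
    (W : ℝ) * ‖Fs N W b α‖ ≤ ∑ j ∈ range W, ‖FF N (α + (j : ℝ) / W)‖ := by
  have hWr : (0 : ℝ) < W := by exact_mod_cast hW
  have h1 : (W : ℂ) * Fs N W b α = ∑ j ∈ range W, ee (-((j : ℝ) * b / W)) * FF N (α + (j : ℝ) / W) := by
    rw [Fs_eq]
    unfold Fh FF PW
    rw [sum_filter, mul_sum]
    simp_rw [mul_sum]
    rw [sum_comm]
    apply sum_congr rfl
    intro p _
    have e1 : ∀ j ∈ range W, ee (-((j : ℝ) * b / W)) * ((Real.log p : ℂ) * ee (p * (α + (j : ℝ) / W))) =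
        ((Real.log p : ℂ) * ee (p * α)) * ee (j * ((((p : ℤ) - b : ℤ) : ℝ) / W)) := by
      intro j _
      have e2 : ee (p * (α + (j : ℝ) / W)) = ee (p * α) * ee (p * ((j : ℝ) / W)) := by
        rw [← ee_add]; congr 1; ring
      have e3 : ee (j * ((((p : ℤ) - b : ℤ) : ℝ) / W)) = ee (p * ((j : ℝ) / W)) * ee (-((j : ℝ) * b / W)) := by
        rw [← ee_add]; congr 1; push_cast; ring
      rw [e2, e3]
      ring
    rw [sum_congr rfl e1, ← mul_sum, sum_ee_range hW]
    have e4 : ((W : ℤ) ∣ ((p : ℤ) - b)) ↔ p % W = b := by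
      constructor
      · intro h
        have h4 : b ≡ p [MOD W] := (Int.natCast_modEq_iff).1 ((Int.modEq_iff_dvd).2 h)
        have h5 : b % W = p % W := h4
        rw [Nat.mod_eq_of_lt hb] at h5
        exact h5.symm
      · intro h
        have h4 : b ≡ p [MOD W] := by
          show b % W = p % W
          rw [Nat.mod_eq_of_lt hb, h]
        exact (Int.modEq_iff_dvd).1 ((Int.natCast_modEq_iff).2 h4)
    by_cases h : p % W = b
    · rw [if_pos h, if_pos (e4.2 h)]; ring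
    · rw [if_neg h, if_neg (fun h' => h (e4.1 h'))]; ring
  have h2 : (W : ℝ) * ‖Fs N W b α‖ = ‖(W : ℂ) * Fs N W b α‖ := by
    rw [norm_mul, Complex.norm_natCast]
  rw [h2, h1]
  refine (norm_sum_le _ _).trans (le_of_eq ?_)
  apply sum_congr rfl
  intro j _
  rw [norm_mul, norm_ee, one_mul]

lemma Gs_le {N W b : ℕ} (hW : 0 < W) (hb0 : 0 < b) (hbW : b < W) (α : ℝ) :
    ‖Gs N W b α‖ * (2 * nd (W * α)) ≤ (W : ℝ) / W.totient := by
  have hWr : (0 : ℝ) < W := by exact_mod_cast hW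
  have hφ : (0 : ℝ) < W.totient := by exact_mod_cast Nat.totient_pos.2 hW
  have h1 : Gs N W b α = (((W : ℝ) / W.totient : ℝ) : ℂ) *
      ∑ n ∈ (Icc 1 N).filter (fun n => n % W = b), ee (n * α) := by
    unfold Gs Fh gb
    rw [sum_filter, mul_sum]
    apply sum_congr rfl
    intro n _
    beta_reduce
    by_cases h : n % W = b
    · rw [if_pos h, if_pos h]
    · rw [if_neg h, if_neg h]
      simp
  have h2 : ∑ n ∈ (Icc 1 N).filter (fun n => n % W = b), ee (n * α) =
      ∑ m ∈ Ico 0 (if b ≤ N then (N - b) / W + 1 else 0), ee (b * α + m * (W * α)) := by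
    apply sum_nbij' (fun n => n / W) (fun m => b + W * m)
    · intro n hn
      rw [mem_filter, mem_Icc] at hn
      obtain ⟨⟨h3, h4⟩, h5⟩ := hn
      have h6 := Nat.mod_add_div n W
      rw [h5] at h6
      have hbN : b ≤ N := by omega
      rw [mem_Ico, if_pos hbN]
      refine ⟨Nat.zero_le _, ?_⟩
      have : n / W ≤ (N - b) / W := by
        rw [Nat.le_div_iff_mul_le hW, mul_comm]
        omega
      omega
    · intro m hm
      rw [mem_Ico] at hm
      split_ifs at hm with hbN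
      · have h3 : m ≤ (N - b) / W := by omega
        rw [Nat.le_div_iff_mul_le hW, mul_comm] at h3
        rw [mem_filter, mem_Icc]
        refine ⟨⟨by omega, by omega⟩, ?_⟩
        rw [Nat.add_mul_mod_self_left, Nat.mod_eq_of_lt hbW]
      · omega
    · intro n hn
      rw [mem_filter] at hn
      have h6 := Nat.mod_add_div n W
      rw [hn.2] at h6
      exact h6
    · intro m _
      rw [Nat.add_mul_div_left _ _ hW, Nat.div_eq_of_lt hbW, zero_add]
    · intro n hn
      rw [mem_filter] at hn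
      have h6 := Nat.mod_add_div n W
      rw [hn.2] at h6
      obtain ⟨m, hm⟩ : ∃ m, m = n / W := ⟨_, rfl⟩
      rw [← hm] at h6 ⊢
      congr 1
      rw [← h6]
      push_cast
      ring
  rw [h1, h2, norm_mul, Complex.norm_real, Real.norm_of_nonneg (by positivity), mul_assoc]
  have h3 := geom_shift 0 (if b ≤ N then (N - b) / W + 1 else 0) (W * α) (b * α)
  calc (W : ℝ) / W.totient * (‖∑ m ∈ Ico 0 (if b ≤ N then (N - b) / W + 1 else 0), ee (b * α + m * (W * α))‖ *
        (2 * nd (W * α))) ≤ (W : ℝ) / W.totient * 1 := by gcongr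
    _ = _ := mul_one _

/-- **Outside the major arcs.** -/
theorem off_major : ∃ C : ℝ, 1 ≤ C ∧ ∃ N₀ : ℕ, ∀ N : ℕ, N₀ ≤ N → ∀ (W b : ℕ) (K α : ℝ), 0 < b → b < W →
    (W : ℝ) ≤ K → K ≤ (Real.log N) ^ 12 → ¬ MajP N K α →
    ‖Fs N W b α - Gs N W b α‖ ≤ C * ((K / W) ^ (-(1 / 5) : ℝ) + (Real.log N) ^ (-(9 / 10) : ℝ)) * N := by
  obtain ⟨C, hC, N1, h1⟩ := sup_F
  refine ⟨C + 1, by linarith, max N1 1, ?_⟩
  intro N hN W b K α hb0 hbW hWK hKT hα
  have hN1 : N1 ≤ N := le_trans (le_max_left _ _) hN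
  have hN0 : 1 ≤ N := le_trans (le_max_right _ _) hN
  have hNr : (0 : ℝ) < N := by exact_mod_cast hN0
  have hW : 0 < W := by omega
  have hWr : (0 : ℝ) < W := by exact_mod_cast hW
  have hW1 : (1 : ℝ) ≤ W := by exact_mod_cast hW
  have hφ1 : (1 : ℝ) ≤ W.totient := by exact_mod_cast Nat.totient_pos.2 hW
  have hK0 : 0 < K := by linarith
  have hKW : 1 ≤ K / W := by rw [le_div_iff₀ hWr]; linarith
  have hKW2 : K / W ≤ K := div_le_self hK0.le hW1
  have hFF : ∀ j ∈ range W, ‖FF N (α + (j : ℝ) / W)‖ ≤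
      C * ((K / W) ^ (-(1 / 5) : ℝ) + (Real.log N) ^ (-(9 / 10) : ℝ)) * N := by
    intro j _
    apply h1 N hN1 (K / W) _ hKW (hKW2.trans hKT)
    intro q a hq hqK
    by_contra hcon
    push Not at hcon
    apply hα
    have hqr : (0 : ℝ) < q := by exact_mod_cast hq
    refine ⟨q * W, a * W - j * q, Nat.mul_pos hq hW, ?_, ?_⟩
    · rw [le_div_iff₀ hWr] at hqK
      push_cast
      exact hqK
    · have e : α - ((a * W - j * q : ℤ) : ℝ) / ((q * W : ℕ) : ℝ) = α + (j : ℝ) / W - a / q := by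
        push_cast
        field_simp
        ring
      rw [e]
      refine hcon.trans ?_
      exact div_le_div_of_nonneg_right hKW2 hNr.le
  have hF : ‖Fs N W b α‖ ≤ C * ((K / W) ^ (-(1 / 5) : ℝ) + (Real.log N) ^ (-(9 / 10) : ℝ)) * N := by
    have h2 := Fs_avg (N := N) hW hbW α
    have h3 := sum_le_sum hFF
    rw [sum_const, card_range, nsmul_eq_mul] at h3
    exact le_of_mul_le_mul_left (h2.trans h3) hWr
  have hnd : W * K / N ≤ nd (W * α) := by
    obtain ⟨a, ha⟩ := exists_nd (W * α)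
    rw [ha]
    by_contra hcon
    push Not at hcon
    apply hα
    refine ⟨W, a, hW, hWK, ?_⟩
    have e : α - (a : ℝ) / W = (W * α - a) / W := by field_simp
    rw [e, abs_div, abs_of_pos hWr, div_le_iff₀ hWr]
    refine hcon.le.trans (le_of_eq ?_)
    ring
  have hG : ‖Gs N W b α‖ ≤ (K / W) ^ (-(1 / 5) : ℝ) * N := by
    have h2 := Gs_le (N := N) hW hb0 hbW α
    have h3 : ‖Gs N W b α‖ * (2 * (W * K / N)) ≤ W := by
      calc ‖Gs N W b α‖ * (2 * (W * K / N)) ≤ ‖Gs N W b α‖ * (2 * nd (W * α)) := by gcongr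
        _ ≤ (W : ℝ) / W.totient := h2
        _ ≤ W := div_le_self hWr.le hφ1
    have h4 : ‖Gs N W b α‖ ≤ (1 / K) * N := by
      have h5 : ‖Gs N W b α‖ * (2 * (W * K / N)) ≤ (1 / K * N) * (2 * (W * K / N)) := by
        have : (1 / K * N) * (2 * (W * K / N)) = 2 * W := by field_simp
        rw [this]
        linarith
      exact le_of_mul_le_mul_right h5 (by positivity)
    refine h4.trans ?_
    apply mul_le_mul_of_nonneg_right _ hNr.le
    have h5 : 1 / K ≤ 1 / (K / W) := one_div_le_one_div_of_le (by linarith) hKW2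
    refine h5.trans ?_
    rw [one_div, ← Real.rpow_neg_one]
    exact Real.rpow_le_rpow_of_exponent_le hKW (by norm_num)
  have hℓ9 : 0 ≤ (Real.log N) ^ (-(9 / 10) : ℝ) := Real.rpow_nonneg (Real.log_natCast_nonneg N) _
  refine (norm_sub_le _ _).trans ?_
  have e : (C + 1) * ((K / W) ^ (-(1 / 5) : ℝ) + (Real.log N) ^ (-(9 / 10) : ℝ)) * N =
      C * ((K / W) ^ (-(1 / 5) : ℝ) + (Real.log N) ^ (-(9 / 10) : ℝ)) * N +
      ((K / W) ^ (-(1 / 5) : ℝ) * N + (Real.log N) ^ (-(9 / 10) : ℝ) * N) := by ring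
  rw [e]
  have : 0 ≤ (Real.log N) ^ (-(9 / 10) : ℝ) * N := by positivity
  linarith

/-- Parseval with a dilation -/
lemma parsevalE {M e : ℕ} (hM : 0 < M) (he : 0 < e) {A : Finset ℕ} (hA : ∀ n ∈ A, e * n < M) (c : ℕ → ℂ) :
    ∑ t ∈ range M, ‖Fh A c (e * ((t : ℝ) / M))‖ ^ 2 = M * ∑ n ∈ A, ‖c n‖ ^ 2 := by
  have hinj : Set.InjOn (fun n => e * n) (A : Set ℕ) := by
    intro x _ y _ h
    exact Nat.eq_of_mul_eq_mul_left he h
  have h1 : ∀ α : ℝ, Fh A c (e * α) = Fh (A.image (fun n => e * n)) (fun m => c (m / e)) α := by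
    intro α
    unfold Fh
    rw [sum_image hinj]
    apply sum_congr rfl
    intro n _
    beta_reduce
    rw [Nat.mul_div_cancel_left _ he]
    congr 2
    push_cast
    ring
  simp_rw [h1]
  rw [parseval hM]
  · rw [sum_image hinj]
    congr 1
    apply sum_congr rfl
    intro n _
    rw [Nat.mul_div_cancel_left _ he]
  · intro m hm
    rw [mem_image] at hm
    obtain ⟨n, hn, rfl⟩ := hm
    exact hA n hn

/-- the square sum of `fb` -/
lemma fb_sq (W b : ℕ) (hW : 0 < W) (hbW : b < W) (hb : Nat.Coprime b W) : ∀ᶠ N : ℕ in atTop,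
    ∑ n ∈ PW N W b, ‖(Real.log n : ℂ)‖ ^ 2 ≤ 2 * Real.log N * N / W.totient := by
  have hφ : (0 : ℝ) < W.totient := by exact_mod_cast Nat.totient_pos.2 hW
  filter_upwards [thn_ev W b hW hbW (η := 1 / W.totient) (by positivity)] with N hN
  have h1 := hN N le_rfl
  rw [if_pos hb.symm] at h1
  have h2 : thn W b N ≤ 2 * N / W.totient := by
    have h3 := (abs_le.1 h1).2
    have h4 : 2 * (N : ℝ) / W.totient = 1 / W.totient * N + 1 / W.totient * N := by ring
    linarith
  have hlogN : 0 ≤ Real.log N := Real.log_natCast_nonneg N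
  have h3 : ∑ n ∈ PW N W b, Real.log n ≤ thn W b N := by
    unfold thn PW
    apply sum_le_sum_of_subset_of_nonneg
    · intro n hn
      rw [mem_filter] at hn
      have h4 := mem_PP.1 hn.1
      rw [mem_filter, mem_Icc]
      exact ⟨⟨h4.2.1.pos, h4.1⟩, h4.2.1, hn.2⟩
    · intro n _ _
      exact Real.log_natCast_nonneg n
  calc ∑ n ∈ PW N W b, ‖(Real.log n : ℂ)‖ ^ 2 ≤ ∑ n ∈ PW N W b, Real.log N * Real.log n := by
        apply sum_le_sum
        intro n hn
        unfold PW at hn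
        rw [mem_filter] at hn
        have h4 := mem_PP.1 hn.1
        have h5 : Real.log n ≤ Real.log N := by
          apply Real.log_le_log
          · exact_mod_cast h4.2.1.pos
          · exact_mod_cast h4.1
        have h6 := Real.log_natCast_nonneg n
        rw [Complex.norm_real, Real.norm_of_nonneg h6, sq]
        exact mul_le_mul_of_nonneg_right h5 h6
    _ = Real.log N * ∑ n ∈ PW N W b, Real.log n := by rw [mul_sum]
    _ ≤ Real.log N * (2 * N / W.totient) := mul_le_mul_of_nonneg_left (h3.trans h2) hlogN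
    _ = _ := by ring

/-- the square sum of `gb` -/
lemma gb_sq {N W b : ℕ} (hW : 0 < W) (hbW : b < W) (hWN : W ≤ N) :
    ∑ n ∈ Icc 1 N, ‖((gb W b n : ℝ) : ℂ)‖ ^ 2 ≤ 2 * N * W / (W.totient : ℝ) ^ 2 := by
  have hφ : (0 : ℝ) < W.totient := by exact_mod_cast Nat.totient_pos.2 hW
  have hWr : (0 : ℝ) < W := by exact_mod_cast hW
  have h1 : ∀ n ∈ Icc 1 N, ‖((gb W b n : ℝ) : ℂ)‖ ^ 2 = if n % W = b then ((W : ℝ) / W.totient) ^ 2 else 0 := by
    intro n _
    unfold gb
    split_ifs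
    · rw [Complex.norm_real, Real.norm_of_nonneg (by positivity)]
    · simp
  rw [sum_congr rfl h1, ← sum_filter, sum_const, nsmul_eq_mul]
  have h2 := cnt_mod W b N hW hbW
  have h3 : (((Icc 1 N).filter (fun n => n % W = b)).card : ℝ) ≤ 2 * N / W := by
    have h4 := (abs_le.1 h2).2
    have h5 : (1 : ℝ) ≤ N / W := by
      rw [le_div_iff₀ hWr, one_mul]
      exact_mod_cast hWN
    have h6 : 2 * (N : ℝ) / W = N / W + N / W := by ring
    linarith
  calc _ ≤ (2 * N / W) * ((W : ℝ) / W.totient) ^ 2 := by gcongr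
    _ = _ := by field_simp

end Pool.Agent.H.MP_0ec261_nt.AA
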