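import Pool.Agent.H.MP_0ec261_nt.AA.Asm1

/-!
The mean square estimate.
-/

open Finset Filter

namespace Pool.Agent.H.MP_0ec261_nt.AA

open Classical in
/-- summation over nested regions -/
lemma chain {S : Finset ℕ} {v s : ℕ → ℝ} (hv : ∀ t, 0 ≤ v t) (hs : ∀ t, 0 ≤ s t) {P : ℕ → ℕ → Prop}
    {σ V : ℕ → ℝ} {σ0 : ℝ} (hσ0 : 0 ≤ σ0) (I : ℕ) (hσp : ∀ i, 0 ≤ σ i)
    (h0 : ∀ t ∈ S, P 0 t → s t ≤ σ0) (hσ : ∀ i < I, ∀ t ∈ S, ¬ P i t → s t ≤ σ i)
    (hV : ∀ i ≤ I, ∑ t ∈ S.filter (fun t => P i t), v t ≤ V i) :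
    ∑ t ∈ S.filter (fun t => P I t), v t * s t ≤ σ0 * V 0 + ∑ i ∈ range I, σ i * V (i + 1) := by
  induction I with
  | zero =>
    rw [range_zero, sum_empty, add_zero]
    calc ∑ t ∈ S.filter (fun t => P 0 t), v t * s t ≤ ∑ t ∈ S.filter (fun t => P 0 t), σ0 * v t := by
          apply sum_le_sum
          intro t ht
          rw [mem_filter] at ht
          rw [mul_comm σ0]
          exact mul_le_mul_of_nonneg_left (h0 t ht.1 ht.2) (hv t)
      _ = σ0 * ∑ t ∈ S.filter (fun t => P 0 t), v t := by rw [mul_sum]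
      _ ≤ σ0 * V 0 := mul_le_mul_of_nonneg_left (hV 0 le_rfl) hσ0
  | succ I ih =>
    have ih' := ih (fun i hi => hσ i (by omega)) (fun i hi => hV i (by omega))
    rw [sum_range_succ, ← add_assoc]
    have h1 : ∑ t ∈ (S.filter (fun t => P (I + 1) t)).filter (fun t => P I t), v t * s t ≤
        ∑ t ∈ S.filter (fun t => P I t), v t * s t := by
      apply sum_le_sum_of_subset_of_nonneg _ (fun t _ _ => mul_nonneg (hv t) (hs t))
      intro t ht
      rw [mem_filter, mem_filter] at ht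
      rw [mem_filter]
      exact ⟨ht.1.1, ht.2⟩
    have h2 : ∑ t ∈ (S.filter (fun t => P (I + 1) t)).filter (fun t => ¬ P I t), v t * s t ≤
        σ I * V (I + 1) := by
      calc _ ≤ ∑ t ∈ (S.filter (fun t => P (I + 1) t)).filter (fun t => ¬ P I t), σ I * v t := by
            apply sum_le_sum
            intro t ht
            rw [mem_filter, mem_filter] at ht
            rw [mul_comm (σ I)]
            exact mul_le_mul_of_nonneg_left (hσ I (by omega) t ht.1.1 ht.2) (hv t)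
        _ = σ I * ∑ t ∈ (S.filter (fun t => P (I + 1) t)).filter (fun t => ¬ P I t), v t := by rw [mul_sum]
        _ ≤ σ I * V (I + 1) := by
            apply mul_le_mul_of_nonneg_left _ (hσp I)
            refine le_trans ?_ (hV (I + 1) le_rfl)
            exact sum_le_sum_of_subset_of_nonneg (filter_subset _ _) (fun t _ _ => hv t)
    rw [← sum_filter_add_sum_filter_not (S.filter (fun t => P (I + 1) t)) (fun t => P I t)]
    linarith

lemma rp5 {x : ℝ} (hx : 0 < x) : (x ^ 5) ^ (-(1 / 5) : ℝ) = x⁻¹ := by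
  rw [← Real.rpow_natCast, ← Real.rpow_mul hx.le, ← Real.rpow_neg_one]
  norm_num

/-- thresholds -/
noncomputable def Kq (W i : ℕ) : ℝ := (2 : ℝ) ^ (20 * i) * (W : ℝ) ^ 21

lemma Kq_div {W : ℕ} (hW : 0 < W) (i : ℕ) : (Kq W i / W) ^ (-(1 / 5) : ℝ) = ((2 : ℝ) ^ (4 * i) * (W : ℝ) ^ 4)⁻¹ := by
  have hWr : (0 : ℝ) < W := by exact_mod_cast hW
  have : Kq W i / W = ((2 : ℝ) ^ (4 * i) * (W : ℝ) ^ 4) ^ 5 := by
    unfold Kq
    rw [mul_pow, ← pow_mul, ← pow_mul]
    have : 4 * i * 5 = 20 * i := by ring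
    rw [this]
    field_simp
  rw [this, rp5 (by positivity)]

lemma log_Kq {W : ℕ} (hW : 0 < W) (i : ℕ) : Real.log (2 * Kq W i) ≤ 21 * Real.log (2 * W) * (1 + i) := by
  have hWr : (0 : ℝ) < W := by exact_mod_cast hW
  have hW1 : (1 : ℝ) ≤ W := by exact_mod_cast hW
  have h1 : 2 * Kq W i ≤ (2 * (W : ℝ)) ^ 21 * 2 ^ (20 * i) := by
    unfold Kq
    have h2 : (2 : ℝ) * W ^ 21 ≤ (2 * W) ^ 21 := by
      have : (2 * (W : ℝ)) ^ 21 = (2 * W ^ 21) * 2 ^ 20 := by ring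
      rw [this]
      exact le_mul_of_one_le_right (by positivity) (by norm_num)
    calc 2 * ((2 : ℝ) ^ (20 * i) * (W : ℝ) ^ 21) = (2 * W ^ 21) * 2 ^ (20 * i) := by ring
      _ ≤ _ := by gcongr
  have h2 : (0 : ℝ) < 2 * Kq W i := by unfold Kq; positivity
  refine (Real.log_le_log h2 h1).trans ?_
  rw [Real.log_mul (by positivity) (by positivity), Real.log_pow, Real.log_pow]
  push_cast
  have h3 : Real.log 2 ≤ Real.log (2 * W) := by
    apply Real.log_le_log (by norm_num)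
    linarith
  have h4 : 0 < Real.log 2 := Real.log_pos (by norm_num)
  have hi : (0 : ℝ) ≤ i := Nat.cast_nonneg _
  nlinarith

lemma sum_geo (I : ℕ) : ∑ i ∈ range I, ((2 : ℝ) ^ (8 * i))⁻¹ * (1 + i) ≤ 2 := by
  refine le_trans ?_ (sum_geometric_two_le I)
  apply sum_le_sum
  intro i _
  have h1 : (1 : ℝ) + i ≤ 2 ^ i := by
    have : 1 + i ≤ 2 ^ i := by
      have := Nat.lt_two_pow_self (n := i)
      omega
    exact_mod_cast this
  have h2 : ((2 : ℝ) ^ (8 * i))⁻¹ * (1 + i) ≤ ((2 : ℝ) ^ (8 * i))⁻¹ * 2 ^ i := by gcongr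
  refine h2.trans ?_
  rw [one_div, inv_pow, inv_mul_le_iff₀ (by positivity)]
  have h3 : (2 : ℝ) ^ (8 * i) * (2 ^ i)⁻¹ = 2 ^ (7 * i) := by
    have : (2 : ℝ) ^ (8 * i) = 2 ^ (7 * i) * 2 ^ i := by rw [← pow_add]; congr 1; ring
    rw [this]
    field_simp
  rw [h3]
  exact pow_le_pow_right₀ (by norm_num) (by omega)

open Classical in
/-- the mean square over the region near the rationals with small denominators -/
lemma V_bd {N W b e : ℕ} {Cl : ℝ} (he : e = 1 ∨ e = 2) {K : ℝ} (hK : 1 ≤ K)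
    (hl2 : ∀ A : Finset ℕ, A ⊆ PP N → ∀ c : ℕ → ℂ,
      ∑ t ∈ (range N.factorial).filter (fun t : ℕ => MajP N (2 * K) ((t : ℝ) / N.factorial)),
      ‖Fh A c ((t : ℝ) / N.factorial)‖ ^ 2 ≤
      Cl * (Real.log (2 * K) / Real.log N) * (N.factorial * ∑ n ∈ A, ‖c n‖ ^ 2))
    (hfb : ∑ n ∈ PW N W b, ‖(Real.log n : ℂ)‖ ^ 2 ≤ 2 * Real.log N * N / W.totient) (hCl : 0 ≤ Cl)
    (hℓ : 0 < Real.log N) :
    ∑ t ∈ (range N.factorial).filter (fun t : ℕ => MajP N K (e * ((t : ℝ) / N.factorial))),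
      ‖Fs N W b ((t : ℝ) / N.factorial)‖ ^ 2 ≤ 2 * Cl * Real.log (2 * K) * (N.factorial * N / W.totient) := by
  have h1 := hl2 (PW N W b) (filter_subset _ _) (fun n => (Real.log n : ℂ))
  simp_rw [Fs_eq]
  have h2 : ∑ t ∈ (range N.factorial).filter (fun t : ℕ => MajP N K (e * ((t : ℝ) / N.factorial))),
      ‖Fh (PW N W b) (fun n => (Real.log n : ℂ)) ((t : ℝ) / N.factorial)‖ ^ 2 ≤
      ∑ t ∈ (range N.factorial).filter (fun t : ℕ => MajP N (2 * K) ((t : ℝ) / N.factorial)),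
      ‖Fh (PW N W b) (fun n => (Real.log n : ℂ)) ((t : ℝ) / N.factorial)‖ ^ 2 := by
    apply sum_le_sum_of_subset_of_nonneg _ (fun _ _ _ => by positivity)
    intro t ht
    rw [mem_filter] at ht ⊢
    exact ⟨ht.1, MajP_half he (by linarith) ht.2⟩
  refine h2.trans ?_
  have hlogK : 0 ≤ Real.log (2 * K) := Real.log_nonneg (by linarith)
  have h3 : ∑ t ∈ (range N.factorial).filter (fun t : ℕ => MajP N (2 * K) ((t : ℝ) / N.factorial)),
      ‖Fh (PW N W b) (fun n => (Real.log n : ℂ)) ((t : ℝ) / N.factorial)‖ ^ 2 ≤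
      Cl * (Real.log (2 * K) / Real.log N) * (N.factorial * (2 * Real.log N * N / W.totient)) := by
    refine h1.trans ?_
    gcongr
  refine h3.trans (le_of_eq ?_)
  field_simp

end Pool.Agent.H.MP_0ec261_nt.AA
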