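import Pool.Agent.H.MP_0ec261_nt.AA.Asm2

/-!
The mean square estimate.
-/

open Finset Filter

namespace Pool.Agent.H.MP_0ec261_nt.AA

lemma sq_add_le (x y : ℝ) : (x + y) ^ 2 ≤ 2 * (x ^ 2 + y ^ 2) := by nlinarith [sq_nonneg (x - y)]

/-- numerical estimate, first region -/
lemma num0 {N w φ W Cl L M : ℝ} (hN : 0 < N) (hw : 2 ≤ w) (hφ : 1 ≤ φ) (hφW : φ ≤ W) (hCl : 1 ≤ Cl)
    (hL : L ≤ 21 * (3 * w)) (hM : 0 < M) :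
    (2 / (w * φ) * N) ^ 2 * (2 * Cl * L * (M * N / φ)) ≤ 504 * Cl / w * (M * N ^ 3 * W / φ ^ 4) := by
  have hφ0 : 0 < φ := by linarith
  have hw0 : 0 < w := by linarith
  calc (2 / (w * φ) * N) ^ 2 * (2 * Cl * L * (M * N / φ)) ≤
      (2 / (w * φ) * N) ^ 2 * (2 * Cl * (21 * (3 * w)) * (M * N / φ)) := by gcongr
    _ = 504 * Cl / w * (M * N ^ 3 * φ / φ ^ 4) := by field_simp; ring
    _ ≤ 504 * Cl / w * (M * N ^ 3 * W / φ ^ 4) := by gcongr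

/-- numerical estimate, `N² Y₀ ≤ W² Y` -/
lemma numY {N φ W M : ℝ} (hN : 0 < N) (hφ : 1 ≤ φ) (hφW : φ ≤ W) (hM : 0 < M) :
    N ^ 2 * (M * N / φ) ≤ W ^ 2 * (M * N ^ 3 * W / φ ^ 4) := by
  have hφ0 : 0 < φ := by linarith
  have hW0 : 0 < W := by linarith
  have h1 : N ^ 2 * (M * N / φ) = (M * N ^ 3 / φ ^ 4) * φ ^ 3 := by field_simp
  have h2 : W ^ 2 * (M * N ^ 3 * W / φ ^ 4) = (M * N ^ 3 / φ ^ 4) * W ^ 3 := by ring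
  rw [h1, h2]
  gcongr

lemma num2 {w W ε ℓ : ℝ} (hw : 2 ≤ w) (hwW : w ≤ W) (hℓ : 1 ≤ ℓ) (h : ε ^ 2 * ℓ * W ^ 4 ≤ 1 / w) :
    ε ^ 2 * ℓ * W ^ 2 ≤ 1 / w ∧ ε ^ 2 * W ^ 2 ≤ 1 / w ∧ W ^ 2 * (W ^ 7)⁻¹ ≤ 1 / w ∧ W ^ 2 * (W ^ 8)⁻¹ ≤ 1 / w := by
  have hw0 : 0 < w := by linarith
  have hW0 : 0 < W := by linarith
  have hW1 : 1 ≤ W := by linarith
  have h1 : ε ^ 2 * ℓ * W ^ 2 ≤ ε ^ 2 * ℓ * W ^ 4 := by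
    apply mul_le_mul_of_nonneg_left (pow_le_pow_right₀ hW1 (by norm_num)) (by positivity)
  have h2 : ε ^ 2 * W ^ 2 ≤ ε ^ 2 * ℓ * W ^ 2 := by
    apply mul_le_mul_of_nonneg_right _ (by positivity)
    exact le_mul_of_one_le_right (by positivity) hℓ
  have h3 : ∀ n : ℕ, 3 ≤ n → W ^ 2 * (W ^ n)⁻¹ ≤ 1 / w := by
    intro n hn
    rw [← div_eq_mul_inv, div_le_div_iff₀ (by positivity) hw0, one_mul]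
    calc W ^ 2 * w ≤ W ^ 2 * W := by gcongr
      _ = W ^ 3 := by ring
      _ ≤ W ^ n := pow_le_pow_right₀ hW1 hn
  exact ⟨h1.trans h, (h2.trans h1).trans h, h3 7 (by norm_num), h3 8 (by norm_num)⟩

/-- numerical estimate, intermediate regions -/
lemma num1 {N w φ W Cl Cs M ε ℓ LL LW : ℝ} (I : ℕ) (lg : ℕ → ℝ) (hN : 0 < N) (hw : 2 ≤ w) (hwW : w ≤ W) (hφ : 1 ≤ φ)
    (hφW : φ ≤ W) (hCl : 1 ≤ Cl) (hCs : 1 ≤ Cs) (hM : 0 < M) (hε : 0 ≤ ε) (hℓ : 1 ≤ ℓ)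
    (h : ε ^ 2 * ℓ * W ^ 4 ≤ 1 / w) (hLL : 0 ≤ LL) (hI : (I : ℝ) ≤ 12 * LL) (hLL2 : 156 * LL ^ 2 ≤ ℓ)
    (hLW : LW ≤ 2 * W) (hLW0 : 0 ≤ LW) (hlg1 : ∀ i < I, lg (i + 1) ≤ 42 * LW * (1 + i)) (hlg2 : ∀ i < I, lg (i + 1) ≤ 13 * LL)
    (hlg0 : ∀ i, 0 ≤ lg i) :
    ∑ i ∈ range I, (Cs * (((2 : ℝ) ^ (4 * i) * W ^ 4)⁻¹ + ε) * N) ^ 2 * (2 * Cl * lg (i + 1) * (M * N / φ)) ≤
      676 * Cs ^ 2 * Cl / w * (M * N ^ 3 * W / φ ^ 4) := by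
  have hφ0 : 0 < φ := by linarith
  have hw0 : 0 < w := by linarith
  have hW0 : 0 < W := by linarith
  obtain ⟨n1, n2, n3, n4⟩ := num2 hw hwW hℓ h
  have h1 : ∀ i ∈ range I, (Cs * (((2 : ℝ) ^ (4 * i) * W ^ 4)⁻¹ + ε) * N) ^ 2 * (2 * Cl * lg (i + 1) * (M * N / φ)) ≤
      (4 * Cs ^ 2 * Cl * (N ^ 2 * (M * N / φ))) *
        ((((2 : ℝ) ^ (8 * i))⁻¹ * (1 + i)) * (42 * LW * (W ^ 8)⁻¹) + ε ^ 2 * (13 * LL)) := by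
    intro i hi
    rw [mem_range] at hi
    have h2 := sq_add_le (((2 : ℝ) ^ (4 * i) * W ^ 4)⁻¹) ε
    have h3 : (((2 : ℝ) ^ (4 * i) * W ^ 4)⁻¹) ^ 2 = ((2 : ℝ) ^ (8 * i))⁻¹ * (W ^ 8)⁻¹ := by
      rw [inv_pow, mul_pow, mul_inv, ← pow_mul, ← pow_mul]
      congr 2
      congr 1
      ring
    rw [h3] at h2
    have h4 : (Cs * (((2 : ℝ) ^ (4 * i) * W ^ 4)⁻¹ + ε) * N) ^ 2 =
        Cs ^ 2 * N ^ 2 * (((2 : ℝ) ^ (4 * i) * W ^ 4)⁻¹ + ε) ^ 2 := by ring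
    rw [h4]
    have hl := hlg0 (i + 1)
    have h5 : (((2 : ℝ) ^ (8 * i))⁻¹ * (W ^ 8)⁻¹ + ε ^ 2) * lg (i + 1) ≤
        (((2 : ℝ) ^ (8 * i))⁻¹ * (1 + i)) * (42 * LW * (W ^ 8)⁻¹) + ε ^ 2 * (13 * LL) := by
      rw [add_mul]
      apply add_le_add
      · calc ((2 : ℝ) ^ (8 * i))⁻¹ * (W ^ 8)⁻¹ * lg (i + 1) ≤ ((2 : ℝ) ^ (8 * i))⁻¹ * (W ^ 8)⁻¹ * (42 * LW * (1 + i)) := by
              apply mul_le_mul_of_nonneg_left (hlg1 i hi) (by positivity)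
          _ = _ := by ring
      · exact mul_le_mul_of_nonneg_left (hlg2 i hi) (by positivity)
    calc Cs ^ 2 * N ^ 2 * (((2 : ℝ) ^ (4 * i) * W ^ 4)⁻¹ + ε) ^ 2 * (2 * Cl * lg (i + 1) * (M * N / φ)) ≤
        Cs ^ 2 * N ^ 2 * (2 * (((2 : ℝ) ^ (8 * i))⁻¹ * (W ^ 8)⁻¹ + ε ^ 2)) * (2 * Cl * lg (i + 1) * (M * N / φ)) := by
          gcongr
      _ = (4 * Cs ^ 2 * Cl * (N ^ 2 * (M * N / φ))) * ((((2 : ℝ) ^ (8 * i))⁻¹ * (W ^ 8)⁻¹ + ε ^ 2) * lg (i + 1)) := by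
          ring
      _ ≤ _ := by gcongr
  refine (sum_le_sum h1).trans ?_
  rw [← mul_sum, sum_add_distrib, ← sum_mul, sum_const, card_range, nsmul_eq_mul]
  have h2 : (∑ i ∈ range I, (((2 : ℝ) ^ (8 * i))⁻¹ * (1 + i))) * (42 * LW * (W ^ 8)⁻¹) ≤ 168 * (W ^ 7)⁻¹ := by
    calc (∑ i ∈ range I, (((2 : ℝ) ^ (8 * i))⁻¹ * (1 + i))) * (42 * LW * (W ^ 8)⁻¹) ≤
        2 * (42 * (2 * W) * (W ^ 8)⁻¹) := by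
          apply mul_le_mul (sum_geo I) _ (by positivity) (by norm_num)
          gcongr
      _ = 168 * (W ^ 7)⁻¹ := by field_simp; norm_num
  have h3 : (I : ℝ) * (ε ^ 2 * (13 * LL)) ≤ ε ^ 2 * ℓ := by
    calc (I : ℝ) * (ε ^ 2 * (13 * LL)) ≤ (12 * LL) * (ε ^ 2 * (13 * LL)) := by gcongr
      _ = ε ^ 2 * (156 * LL ^ 2) := by ring
      _ ≤ ε ^ 2 * ℓ := by gcongr
  have hY := numY hN hφ hφW hM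
  have hY0 : 0 < M * N ^ 3 * W / φ ^ 4 := by positivity
  calc (4 * Cs ^ 2 * Cl * (N ^ 2 * (M * N / φ))) *
        ((∑ i ∈ range I, (((2 : ℝ) ^ (8 * i))⁻¹ * (1 + i))) * (42 * LW * (W ^ 8)⁻¹) + I * (ε ^ 2 * (13 * LL))) ≤
      (4 * Cs ^ 2 * Cl * (W ^ 2 * (M * N ^ 3 * W / φ ^ 4))) * (168 * (W ^ 7)⁻¹ + ε ^ 2 * ℓ) := by
        apply mul_le_mul _ (add_le_add h2 h3) _ (by positivity)
        · gcongr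
        · have : 0 ≤ ∑ i ∈ range I, (((2 : ℝ) ^ (8 * i))⁻¹ * (1 + (i : ℝ))) := sum_nonneg (fun _ _ => by positivity)
          positivity
    _ = (4 * Cs ^ 2 * Cl * (M * N ^ 3 * W / φ ^ 4)) * (168 * (W ^ 2 * (W ^ 7)⁻¹) + ε ^ 2 * ℓ * W ^ 2) := by ring
    _ ≤ (4 * Cs ^ 2 * Cl * (M * N ^ 3 * W / φ ^ 4)) * (168 * (1 / w) + 1 / w) := by gcongr
    _ = _ := by ring

/-- numerical estimate, last region -/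
lemma num3 {N w φ W Cs M ε ℓ x : ℝ} (hN : 0 < N) (hw : 2 ≤ w) (hwW : w ≤ W) (hφ : 1 ≤ φ)
    (hφW : φ ≤ W) (hCs : 1 ≤ Cs) (hM : 0 < M) (hℓ : 1 ≤ ℓ)
    (h : ε ^ 2 * ℓ * W ^ 4 ≤ 1 / w) (hx0 : 0 ≤ x) (hx : x ≤ ε) :
    (Cs * (x + ε) * N) ^ 2 * (M * (2 * ℓ * N / φ)) ≤ 8 * Cs ^ 2 / w * (M * N ^ 3 * W / φ ^ 4) := by
  have hφ0 : 0 < φ := by linarith
  have hw0 : 0 < w := by linarith
  have hW0 : 0 < W := by linarith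
  have hε : 0 ≤ ε := by linarith
  obtain ⟨n1, n2, n3, n4⟩ := num2 hw hwW hℓ h
  have hY := numY hN hφ hφW hM
  have hY0 : 0 < M * N ^ 3 * W / φ ^ 4 := by positivity
  calc (Cs * (x + ε) * N) ^ 2 * (M * (2 * ℓ * N / φ)) ≤ (Cs * (ε + ε) * N) ^ 2 * (M * (2 * ℓ * N / φ)) := by
        gcongr
    _ = 8 * Cs ^ 2 * (ε ^ 2 * ℓ) * (N ^ 2 * (M * N / φ)) := by ring
    _ ≤ 8 * Cs ^ 2 * (ε ^ 2 * ℓ) * (W ^ 2 * (M * N ^ 3 * W / φ ^ 4)) := by gcongr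
    _ = 8 * Cs ^ 2 * (ε ^ 2 * ℓ * W ^ 2) * (M * N ^ 3 * W / φ ^ 4) := by ring
    _ ≤ 8 * Cs ^ 2 * (1 / w) * (M * N ^ 3 * W / φ ^ 4) := by gcongr
    _ = _ := by ring

/-- numerical estimate, second term -/
lemma num4 {N w φ W Cs M ε ℓ : ℝ} (hN : 0 < N) (hw : 2 ≤ w) (hwW : w ≤ W) (hφ : 1 ≤ φ)
    (hφW : φ ≤ W) (hCs : 1 ≤ Cs) (hM : 0 < M) (hℓ : 1 ≤ ℓ)
    (h : ε ^ 2 * ℓ * W ^ 4 ≤ 1 / w) :
    ((2 / (w * φ) * N) ^ 2 + (Cs * ((W ^ 4)⁻¹ + ε) * N) ^ 2) * (M * (2 * N * W / φ ^ 2)) ≤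
      16 * Cs ^ 2 / w * (M * N ^ 3 * W / φ ^ 4) := by
  have hφ0 : 0 < φ := by linarith
  have hw0 : 0 < w := by linarith
  have hW0 : 0 < W := by linarith
  obtain ⟨n1, n2, n3, n4⟩ := num2 hw hwW hℓ h
  have hY0 : 0 < M * N ^ 3 * W / φ ^ 4 := by positivity
  have h1 : (2 / (w * φ) * N) ^ 2 * (M * (2 * N * W / φ ^ 2)) ≤ 8 / w * (M * N ^ 3 * W / φ ^ 4) := by
    have e : (2 / (w * φ) * N) ^ 2 * (M * (2 * N * W / φ ^ 2)) = 8 / (w * w) * (M * N ^ 3 * W / φ ^ 4) := by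
      field_simp; ring
    rw [e]
    apply mul_le_mul_of_nonneg_right _ hY0.le
    apply div_le_div_of_nonneg_left (by norm_num) hw0
    nlinarith
  have h2 : (Cs * ((W ^ 4)⁻¹ + ε) * N) ^ 2 * (M * (2 * N * W / φ ^ 2)) ≤ 8 * Cs ^ 2 / w * (M * N ^ 3 * W / φ ^ 4) := by
    have h3 := sq_add_le ((W ^ 4)⁻¹) ε
    have h4 : ((W ^ 4)⁻¹) ^ 2 = (W ^ 8)⁻¹ := by rw [inv_pow, ← pow_mul]
    rw [h4] at h3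
    calc (Cs * ((W ^ 4)⁻¹ + ε) * N) ^ 2 * (M * (2 * N * W / φ ^ 2)) =
        Cs ^ 2 * N ^ 2 * (((W ^ 4)⁻¹ + ε) ^ 2) * (M * (2 * N * W / φ ^ 2)) := by ring
      _ ≤ Cs ^ 2 * N ^ 2 * (2 * ((W ^ 8)⁻¹ + ε ^ 2)) * (M * (2 * N * W / φ ^ 2)) := by gcongr
      _ = 4 * Cs ^ 2 * ((W ^ 8)⁻¹ * φ ^ 2 + ε ^ 2 * φ ^ 2) * (M * N ^ 3 * W / φ ^ 4) := by field_simp; ring
      _ ≤ 4 * Cs ^ 2 * ((W ^ 8)⁻¹ * W ^ 2 + ε ^ 2 * W ^ 2) * (M * N ^ 3 * W / φ ^ 4) := by gcongr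
      _ = 4 * Cs ^ 2 * (W ^ 2 * (W ^ 8)⁻¹ + ε ^ 2 * W ^ 2) * (M * N ^ 3 * W / φ ^ 4) := by ring
      _ ≤ 4 * Cs ^ 2 * (1 / w + 1 / w) * (M * N ^ 3 * W / φ ^ 4) := by gcongr
      _ = _ := by ring
  rw [add_mul]
  have h3 : 8 / w * (M * N ^ 3 * W / φ ^ 4) ≤ 8 * Cs ^ 2 / w * (M * N ^ 3 * W / φ ^ 4) := by
    gcongr
    nlinarith
  have h4 : 16 * Cs ^ 2 / w * (M * N ^ 3 * W / φ ^ 4) = 8 * Cs ^ 2 / w * (M * N ^ 3 * W / φ ^ 4) +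
      8 * Cs ^ 2 / w * (M * N ^ 3 * W / φ ^ 4) := by ring
  rw [h4]
  linarith

end Pool.Agent.H.MP_0ec261_nt.AA
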