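import Pool.Agent.H.MP_0ec261_nt.AA.Asm3

/-!
The mean square estimate.
-/

open Finset Filter

namespace Pool.Agent.H.MP_0ec261_nt.AA

lemma tends_log : Tendsto (fun N : ℕ => Real.log N) atTop atTop :=
  Real.tendsto_log_atTop.comp tendsto_natCast_atTop_atTop

lemma ev_eps (c d : ℝ) (hc : 0 < c) (hd : 0 < d) : ∀ᶠ N : ℕ in atTop,
    ((Real.log N) ^ (-(9 / 10) : ℝ)) ^ 2 * Real.log N * c ≤ d := by
  have h1 : ∀ᶠ u : ℝ in atTop, (u ^ (-(9 / 10) : ℝ)) ^ 2 * u * c ≤ d := by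
    have h2 := (tendsto_rpow_neg_atTop (y := 4 / 5) (by norm_num)).eventually (gt_mem_nhds (show 0 < d / c by positivity))
    filter_upwards [h2, eventually_gt_atTop 0] with u hu hu0
    have h3 : (u ^ (-(9 / 10) : ℝ)) ^ 2 * u = u ^ (-(4 / 5) : ℝ) := by
      rw [← Real.rpow_natCast, ← Real.rpow_mul hu0.le, ← Real.rpow_add_one hu0.ne']
      norm_num
    rw [h3]
    rw [lt_div_iff₀ hc] at hu
    exact hu.le
  exact tends_log.eventually h1

lemma ev_loglog : ∀ᶠ N : ℕ in atTop, 156 * (Real.log (Real.log N)) ^ 2 ≤ Real.log N := by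
  have h1 : ∀ᶠ u : ℝ in atTop, 156 * (Real.log u) ^ 2 ≤ u := by
    have h2 := (Real.isLittleO_pow_log_id_atTop (n := 2)).bound (c := 1 / 156) (by norm_num)
    filter_upwards [h2, eventually_ge_atTop 1] with u hu hu1
    have hlog : 0 ≤ Real.log u := Real.log_nonneg hu1
    rw [Real.norm_of_nonneg (by positivity), id, Real.norm_of_nonneg (by linarith)] at hu
    linarith
  exact tends_log.eventually h1

set_option maxHeartbeats 8000000 in
/-- **The mean square estimate.** -/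
theorem asm : ∃ C : ℝ, 1 ≤ C ∧ ∀ (w W : ℕ), 2 ≤ w → w ≤ W → Real.log (2 * W) ≤ 3 * w →
    (∀ p, p.Prime → ¬ p ∣ W → w < p) → ∀ (e b1 b2 : ℕ), (e = 1 ∨ e = 2) →
    0 < b1 → b1 < W → Nat.Coprime b1 W → 0 < b2 → b2 < W → Nat.Coprime b2 W → ∀ᶠ N : ℕ in atTop,
    ∑ t ∈ range N.factorial, ‖Fs N W b1 ((t : ℝ) / N.factorial) * Fs N W b2 (e * ((t : ℝ) / N.factorial)) -
      Gs N W b1 ((t : ℝ) / N.factorial) * Gs N W b2 (e * ((t : ℝ) / N.factorial))‖ ^ 2 ≤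
      C / w * (N.factorial * (N : ℝ) ^ 3 * W / (W.totient : ℝ) ^ 4) := by
  classical
  obtain ⟨Cs, hCs, N1, h1⟩ := off_major
  obtain ⟨Cl, hCl, N2, h2⟩ := l2_bound
  refine ⟨2408 * Cs ^ 2 * Cl, ?_, ?_⟩
  · have h3 : (1 : ℝ) ≤ Cs ^ 2 := one_le_pow₀ hCs
    have h4 : (1 : ℝ) ≤ Cs ^ 2 * Cl := one_le_mul_of_one_le_of_one_le h3 hCl
    linarith
  intro w W hw hwW hlogW hprime e b1 b2 he hb10 hb1W hb1 hb20 hb2W hb2
  have hW : 0 < W := by omega
  have hWr : (0 : ℝ) < W := by exact_mod_cast hW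
  have hW1 : (1 : ℝ) ≤ W := by exact_mod_cast hW
  have hφ1 : (1 : ℝ) ≤ W.totient := by exact_mod_cast Nat.totient_pos.2 hW
  have hφ0 : (0 : ℝ) < W.totient := by linarith
  have hφW : (W.totient : ℝ) ≤ W := by exact_mod_cast Nat.totient_le W
  have hwr : (2 : ℝ) ≤ w := by exact_mod_cast hw
  have hw0r : (0 : ℝ) < w := by linarith
  have hwWr : (w : ℝ) ≤ W := by exact_mod_cast hwW
  have ev1 := maj_bound W b1 w (W ^ 21) hW hb1W hb1 hprime (by omega) (by positivity)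
  have ev2 := maj_bound W b2 w (W ^ 21) hW hb2W hb2 hprime (by omega) (by positivity)
  have ev3 := fb_sq W b1 hW hb1W hb1
  have ev4 := ev_eps ((W : ℝ) ^ 4) (1 / w) (by positivity) (by positivity)
  have ev5 := ev_loglog
  have ev6 := tends_log.eventually_ge_atTop ((W : ℝ) ^ 21 * 2 ^ 20)
  filter_upwards [ev1, ev2, ev3, ev4, ev5, ev6, eventually_ge_atTop (max (max N1 N2) (max W 4))] with N g1 g2 g3 g4 g5 g6 g7
  have hNN1 : N1 ≤ N := le_trans (le_trans (le_max_left _ _) (le_max_left _ _)) g7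
  have hNN2 : N2 ≤ N := le_trans (le_trans (le_max_right _ _) (le_max_left _ _)) g7
  have hNW : W ≤ N := le_trans (le_trans (le_max_left _ _) (le_max_right _ _)) g7
  have hN4 : 4 ≤ N := le_trans (le_trans (le_max_right _ _) (le_max_right _ _)) g7
  have hNr : (0 : ℝ) < N := by exact_mod_cast (by omega : 0 < N)
  have hOff := h1 N hNN1
  have hL2 := h2 N hNN2
  obtain ⟨M, hM⟩ : ∃ M : ℕ, M = N.factorial := ⟨_, rfl⟩
  have hM0 : 0 < M := by rw [hM]; exact Nat.factorial_pos _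
  have hMr : (0 : ℝ) < M := by exact_mod_cast hM0
  obtain ⟨ℓ, hℓ⟩ : ∃ ℓ : ℝ, ℓ = Real.log N := ⟨_, rfl⟩
  rw [← hℓ] at g3 g4 g5 g6
  have h220 : (1 : ℝ) ≤ 2 ^ 20 := by norm_num
  have hW21 : (1 : ℝ) ≤ (W : ℝ) ^ 21 := one_le_pow₀ hW1
  have hℓbig : (2 : ℝ) ^ 20 ≤ ℓ := by
    refine le_trans ?_ g6
    exact le_mul_of_one_le_left (by norm_num) hW21
  have hℓ2 : (2 : ℝ) ≤ ℓ := le_trans (by norm_num) hℓbig
  have hℓ0 : 0 < ℓ := by linarith
  have hWℓ : (W : ℝ) ^ 21 ≤ ℓ := by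
    refine le_trans ?_ g6
    exact le_mul_of_one_le_right (by positivity) h220
  have hℓ12 : ℓ ≤ ℓ ^ 12 := by
    calc ℓ = ℓ ^ 1 := (pow_one _).symm
      _ ≤ ℓ ^ 12 := pow_le_pow_right₀ (by linarith) (by norm_num)
  -- ε
  obtain ⟨ε, hε⟩ : ∃ ε : ℝ, ε = ℓ ^ (-(9 / 10) : ℝ) := ⟨_, rfl⟩
  have hε0 : 0 < ε := by rw [hε]; positivity
  rw [← hε] at g4
  -- number of regions
  obtain ⟨I, hI1, hI2⟩ := exists_nat_pow_near (x := ℓ ^ 12 / (W : ℝ) ^ 21) (y := (2 : ℝ) ^ 20)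
    (by rw [le_div_iff₀ (by positivity), one_mul]; linarith) (by norm_num)
  rw [le_div_iff₀ (by positivity), ← pow_mul] at hI1
  rw [div_lt_iff₀ (by positivity)] at hI2
  have hKI : Kq W I ≤ ℓ ^ 12 := hI1
  have hKmono : ∀ i ≤ I, Kq W i ≤ Kq W I := by
    intro i hi
    unfold Kq
    apply mul_le_mul_of_nonneg_right _ (by positivity)
    exact pow_le_pow_right₀ (by norm_num) (by omega)
  have hKle : ∀ i ≤ I, Kq W i ≤ ℓ ^ 12 := fun i hi => (hKmono i hi).trans hKI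
  have hKge : ∀ i, (W : ℝ) ^ 21 ≤ Kq W i := by
    intro i
    unfold Kq
    exact le_mul_of_one_le_left (by positivity) (one_le_pow₀ (by norm_num))
  have hKW : ∀ i, (W : ℝ) ≤ Kq W i := by
    intro i
    refine le_trans ?_ (hKge i)
    calc (W : ℝ) = (W : ℝ) ^ 1 := (pow_one _).symm
      _ ≤ (W : ℝ) ^ 21 := pow_le_pow_right₀ hW1 (by norm_num)
  have hK1 : ∀ i, 1 ≤ Kq W i := fun i => hW21.trans (hKge i)
  have hlogℓ0 : 0 ≤ Real.log ℓ := Real.log_nonneg (by linarith)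
  have hl2 := Real.log_two_gt_d9
  have hIlog : (I : ℝ) ≤ 12 * Real.log ℓ := by
    have h3 : (2 : ℝ) ^ (20 * I) ≤ ℓ ^ 12 := by
      refine le_trans ?_ hI1
      exact le_mul_of_one_le_right (by positivity) hW21
    have h4 := Real.log_le_log (by positivity) h3
    rw [Real.log_pow, Real.log_pow] at h4
    push_cast at h4
    have hI0 : (0 : ℝ) ≤ I := Nat.cast_nonneg _
    nlinarith only [h4, hl2, hI0]
  have hlg2 : ∀ i ≤ I, Real.log (2 * Kq W i) ≤ 13 * Real.log ℓ := by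
    intro i hi
    have h3 : 2 * Kq W i ≤ ℓ ^ 13 := by
      have : ℓ ^ 13 = ℓ * ℓ ^ 12 := by ring
      rw [this]
      exact mul_le_mul hℓ2 (hKle i hi) (by linarith [hK1 i]) hℓ0.le
    have h4 := Real.log_le_log (by linarith [hK1 i]) h3
    rw [Real.log_pow] at h4
    exact_mod_cast h4
  -- frequencies
  set v : ℕ → ℝ := fun t => ‖Fs N W b1 ((t : ℝ) / M)‖ ^ 2 with hv
  set s : ℕ → ℝ := fun t => ‖Fs N W b2 (e * ((t : ℝ) / M)) - Gs N W b2 (e * ((t : ℝ) / M))‖ ^ 2 with hs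
  set P : ℕ → ℕ → Prop := fun i t => MajP N (Kq W i) (e * ((t : ℝ) / M)) with hP
  set σ : ℕ → ℝ := fun i => (Cs * (((2 : ℝ) ^ (4 * i) * (W : ℝ) ^ 4)⁻¹ + ε) * N) ^ 2 with hσ
  set V : ℕ → ℝ := fun i => 2 * Cl * Real.log (2 * Kq W i) * (M * N / W.totient) with hV
  have hv0 : ∀ t, 0 ≤ v t := fun t => by rw [hv]; positivity
  have hs0 : ∀ t, 0 ≤ s t := fun t => by rw [hs]; positivity
  have hσ0 : ∀ i, 0 ≤ σ i := fun i => by rw [hσ]; positivity
  have hMajK : ∀ (b : ℕ), (∀ α : ℝ, MajP N ((W ^ 21 : ℕ) : ℝ) α →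
      ‖∑ n ∈ Icc 1 N, (((fb N W b n - gb W b n : ℝ)) : ℂ) * ee (n * α)‖ ≤ 2 / (w * W.totient) * N) →
      ∀ α : ℝ, MajP N (Kq W 0) α → ‖Fs N W b α - Gs N W b α‖ ^ 2 ≤ (2 / (w * W.totient) * N) ^ 2 := by
    intro b hb α hα
    apply pow_le_pow_left₀ (norm_nonneg _)
    rw [Ds_eq]
    apply hb
    have : ((W ^ 21 : ℕ) : ℝ) = Kq W 0 := by unfold Kq; push_cast; simp
    rw [this]
    exact hα
  have hOffK : ∀ b : ℕ, 0 < b → b < W → ∀ i ≤ I, ∀ α : ℝ, ¬ MajP N (Kq W i) α →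
      ‖Fs N W b α - Gs N W b α‖ ≤ Cs * ((Kq W i / W) ^ (-(1 / 5) : ℝ) + ε) * N := by
    intro b hb0 hbW i hi α hα
    have h3 := hOff W b (Kq W i) α hb0 hbW (hKW i) (by rw [← hℓ]; exact hKle i hi) hα
    rw [← hℓ, ← hε] at h3
    exact h3
  have hOffσ : ∀ b : ℕ, 0 < b → b < W → ∀ i ≤ I, ∀ α : ℝ, ¬ MajP N (Kq W i) α →
      ‖Fs N W b α - Gs N W b α‖ ^ 2 ≤ σ i := by
    intro b hb0 hbW i hi α hα
    rw [hσ]
    apply pow_le_pow_left₀ (norm_nonneg _)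
    rw [← Kq_div hW i]
    exact hOffK b hb0 hbW i hi α hα
  -- term I
  have hVbd : ∀ i ≤ I, ∑ t ∈ (range M).filter (fun t => P i t), v t ≤ V i := by
    intro i hi
    have h3 := V_bd (N := N) (W := W) (b := b1) (e := e) (Cl := Cl) he (hK1 i)
      (by
        intro A hA c
        have h4 := hL2 (2 * Kq W i) (by linarith [hK1 i]) (by
          rw [← hℓ]
          have : ℓ ^ 13 = ℓ * ℓ ^ 12 := by ring
          rw [this]
          exact mul_le_mul hℓ2 (hKle i hi) (by linarith [hK1 i]) hℓ0.le) A hA c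
        exact h4)
      (by rw [← hℓ]; exact g3) (by linarith) (by rw [← hℓ]; exact hℓ0)
    subst hM
    exact h3
  have hchain := chain (S := range M) (v := v) (s := s) hv0 hs0 (P := P) (σ := σ) (V := V)
    (σ0 := (2 / (w * W.totient) * N) ^ 2) (by positivity) I hσ0
    (fun t _ ht => hMajK b2 g2 _ ht)
    (fun i hi t _ ht => hOffσ b2 hb20 hb2W i hi.le _ ht) hVbd
  have hA0 : (2 / ((w : ℝ) * W.totient) * N) ^ 2 * V 0 ≤
      504 * Cl / w * (M * (N : ℝ) ^ 3 * W / (W.totient : ℝ) ^ 4) := by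
    rw [hV]
    apply num0 hNr hwr hφ1 hφW hCl _ hMr
    have h3 := log_Kq hW 0
    rw [Nat.cast_zero, add_zero, mul_one] at h3
    exact h3.trans (mul_le_mul_of_nonneg_left hlogW (by norm_num))
  have hA1 : ∑ i ∈ range I, σ i * V (i + 1) ≤
      676 * Cs ^ 2 * Cl / w * (M * (N : ℝ) ^ 3 * W / (W.totient : ℝ) ^ 4) := by
    rw [hσ, hV]
    have hlW : Real.log (2 * W) ≤ 2 * W := by
      have := Real.log_le_sub_one_of_pos (show (0 : ℝ) < 2 * W by positivity)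
      linarith
    have hlW0 : 0 ≤ Real.log (2 * W) := Real.log_nonneg (by linarith)
    apply num1 I (fun i => Real.log (2 * Kq W i)) hNr hwr hwWr hφ1 hφW hCl hCs hMr hε0.le (by linarith) g4
      hlogℓ0 hIlog g5 hlW hlW0
    · intro i _
      have h3 := log_Kq hW (i + 1)
      refine h3.trans ?_
      push_cast
      have hi0 : (0 : ℝ) ≤ i := Nat.cast_nonneg _
      nlinarith only [hlW0, hi0]
    · intro i hi
      exact hlg2 (i + 1) (by omega)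
    · intro i
      exact Real.log_nonneg (by linarith [hK1 i])
  -- last region
  have hKIW : (Kq W I / W) ^ (-(1 / 5) : ℝ) ≤ ε := by
    have h3 : ℓ ^ 5 ≤ Kq W I / W := by
      rw [le_div_iff₀ hWr]
      have h4 : ℓ ^ 12 < Kq W I * 2 ^ 20 := by
        unfold Kq
        rw [← pow_mul] at hI2
        have h5 : (2 : ℝ) ^ (20 * (I + 1)) * (W : ℝ) ^ 21 = 2 ^ (20 * I) * (W : ℝ) ^ 21 * 2 ^ 20 := by
          rw [mul_add, mul_one, pow_add]; ring
        rw [h5] at hI2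
        exact hI2
      have h5 : ℓ ^ 5 * W * 2 ^ 20 ≤ ℓ ^ 12 := by
        have h6 : (W : ℝ) * 2 ^ 20 ≤ ℓ := by
          refine le_trans ?_ g6
          apply mul_le_mul_of_nonneg_right _ (by norm_num)
          calc (W : ℝ) = (W : ℝ) ^ 1 := (pow_one _).symm
            _ ≤ (W : ℝ) ^ 21 := pow_le_pow_right₀ hW1 (by norm_num)
        calc ℓ ^ 5 * W * 2 ^ 20 = ℓ ^ 5 * (W * 2 ^ 20) := by ring
          _ ≤ ℓ ^ 5 * ℓ := by gcongr
          _ = ℓ ^ 6 := by ring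
          _ ≤ ℓ ^ 12 := pow_le_pow_right₀ (by linarith) (by norm_num)
      have h6 : ℓ ^ 5 * W * 2 ^ 20 < Kq W I * 2 ^ 20 := lt_of_le_of_lt h5 h4
      exact (lt_of_mul_lt_mul_right h6 (by norm_num)).le
    have h4 : (Kq W I / W) ^ (-(1 / 5) : ℝ) ≤ (ℓ ^ 5) ^ (-(1 / 5) : ℝ) :=
      Real.rpow_le_rpow_of_nonpos (by positivity) h3 (by norm_num)
    rw [rp5 hℓ0] at h4
    refine h4.trans ?_
    rw [hε, ← Real.rpow_neg_one]
    exact Real.rpow_le_rpow_of_exponent_le (by linarith) (by norm_num)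
  have hMN : ∀ n ∈ Icc 1 N, e * n < M := by
    intro n hn
    rw [mem_Icc] at hn
    have h3 : 2 * N < N.factorial := by
      obtain ⟨m, rfl⟩ : ∃ m, N = m + 1 := ⟨N - 1, by omega⟩
      rw [Nat.factorial_succ]
      have h4 : m ≤ m.factorial := Nat.self_le_factorial m
      have h5 : (m + 1) * 3 ≤ (m + 1) * m.factorial := Nat.mul_le_mul_left _ (by omega)
      omega
    have h4 : e * n ≤ 2 * N := Nat.mul_le_mul (by omega) hn.2
    omega
  have hvtot : ∑ t ∈ range M, v t ≤ M * (2 * ℓ * N / W.totient) := by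
    have h3 : ∑ t ∈ range M, v t = M * ∑ n ∈ PW N W b1, ‖(Real.log n : ℂ)‖ ^ 2 := by
      rw [← parseval hM0]
      · apply sum_congr rfl
        intro t _
        rw [hv]
        simp only
        rw [Fs_eq]
      · intro n hn
        unfold PW at hn
        rw [mem_filter] at hn
        have h4 := mem_PP.1 hn.1
        have h5 := hMN n (mem_Icc.2 ⟨h4.2.1.pos, h4.1⟩)
        have h6 : n ≤ e * n := Nat.le_mul_of_pos_left n (by omega)
        omega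
    rw [h3]
    exact mul_le_mul_of_nonneg_left g3 hMr.le
  have hA2 : ∑ t ∈ (range M).filter (fun t => ¬ P I t), v t * s t ≤
      8 * Cs ^ 2 / w * (M * (N : ℝ) ^ 3 * W / (W.totient : ℝ) ^ 4) := by
    have hx0 : 0 ≤ (Kq W I / W) ^ (-(1 / 5) : ℝ) := Real.rpow_nonneg (div_nonneg (by linarith [hK1 I]) hWr.le) _
    refine le_trans ?_ (num3 hNr hwr hwWr hφ1 hφW hCs hMr (by linarith) g4 hx0 hKIW)
    calc ∑ t ∈ (range M).filter (fun t => ¬ P I t), v t * s t ≤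
        ∑ t ∈ (range M).filter (fun t => ¬ P I t), (Cs * ((Kq W I / W) ^ (-(1 / 5) : ℝ) + ε) * N) ^ 2 * v t := by
          apply sum_le_sum
          intro t ht
          rw [mem_filter] at ht
          rw [mul_comm (v t)]
          apply mul_le_mul_of_nonneg_right _ (hv0 t)
          exact pow_le_pow_left₀ (norm_nonneg _) (hOffK b2 hb20 hb2W I le_rfl _ ht.2) 2
      _ = (Cs * ((Kq W I / W) ^ (-(1 / 5) : ℝ) + ε) * N) ^ 2 * ∑ t ∈ (range M).filter (fun t => ¬ P I t), v t := by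
          rw [mul_sum]
      _ ≤ _ := by
          apply mul_le_mul_of_nonneg_left _ (by positivity)
          refine le_trans ?_ hvtot
          exact sum_le_sum_of_subset_of_nonneg (filter_subset _ _) (fun t _ _ => hv0 t)
  have hTI : ∑ t ∈ range M, v t * s t ≤
      (504 * Cl / w + 676 * Cs ^ 2 * Cl / w + 8 * Cs ^ 2 / w) * (M * (N : ℝ) ^ 3 * W / (W.totient : ℝ) ^ 4) := by
    rw [← sum_filter_add_sum_filter_not (range M) (fun t => P I t)]
    rw [add_mul, add_mul]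
    linarith
  -- term II
  have hD1 : ∀ α : ℝ, ‖Fs N W b1 α - Gs N W b1 α‖ ^ 2 ≤ (2 / (w * W.totient) * N) ^ 2 +
      (Cs * (((W : ℝ) ^ 4)⁻¹ + ε) * N) ^ 2 := by
    intro α
    by_cases hα : MajP N (Kq W 0) α
    · have h3 := hMajK b1 g1 α hα
      have h4 : 0 ≤ (Cs * (((W : ℝ) ^ 4)⁻¹ + ε) * N) ^ 2 := by positivity
      linarith
    · have h3 := hOffσ b1 hb10 hb1W 0 (Nat.zero_le _) α hα
      rw [hσ] at h3
      simp only [mul_zero, pow_zero, one_mul] at h3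
      have h4 : 0 ≤ (2 / ((w : ℝ) * W.totient) * N) ^ 2 := by positivity
      linarith
  have hG2 : ∑ t ∈ range M, ‖Gs N W b2 (e * ((t : ℝ) / M))‖ ^ 2 ≤ M * (2 * N * W / (W.totient : ℝ) ^ 2) := by
    unfold Gs
    rw [parsevalE hM0 (by omega) hMN]
    exact mul_le_mul_of_nonneg_left (gb_sq hW hb2W hNW) hMr.le
  have hTII : ∑ t ∈ range M, ‖Fs N W b1 ((t : ℝ) / M) - Gs N W b1 ((t : ℝ) / M)‖ ^ 2 *
      ‖Gs N W b2 (e * ((t : ℝ) / M))‖ ^ 2 ≤ 16 * Cs ^ 2 / w * (M * (N : ℝ) ^ 3 * W / (W.totient : ℝ) ^ 4) := by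
    refine le_trans ?_ (num4 hNr hwr hwWr hφ1 hφW hCs hMr (by linarith) g4)
    calc _ ≤ ∑ t ∈ range M, ((2 / (w * W.totient) * N) ^ 2 + (Cs * (((W : ℝ) ^ 4)⁻¹ + ε) * N) ^ 2) *
          ‖Gs N W b2 (e * ((t : ℝ) / M))‖ ^ 2 := by
          apply sum_le_sum
          intro t _
          exact mul_le_mul_of_nonneg_right (hD1 _) (by positivity)
      _ = ((2 / (w * W.totient) * N) ^ 2 + (Cs * (((W : ℝ) ^ 4)⁻¹ + ε) * N) ^ 2) *
          ∑ t ∈ range M, ‖Gs N W b2 (e * ((t : ℝ) / M))‖ ^ 2 := by rw [mul_sum]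
      _ ≤ _ := mul_le_mul_of_nonneg_left hG2 (by positivity)
  -- conclusion
  rw [← hM]
  have hfin : ∀ t ∈ range M, ‖Fs N W b1 ((t : ℝ) / M) * Fs N W b2 (e * ((t : ℝ) / M)) -
      Gs N W b1 ((t : ℝ) / M) * Gs N W b2 (e * ((t : ℝ) / M))‖ ^ 2 ≤
      2 * (v t * s t + ‖Fs N W b1 ((t : ℝ) / M) - Gs N W b1 ((t : ℝ) / M)‖ ^ 2 *
      ‖Gs N W b2 (e * ((t : ℝ) / M))‖ ^ 2) := by
    intro t _
    have e1 : Fs N W b1 ((t : ℝ) / M) * Fs N W b2 (e * ((t : ℝ) / M)) -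
      Gs N W b1 ((t : ℝ) / M) * Gs N W b2 (e * ((t : ℝ) / M)) =
      Fs N W b1 ((t : ℝ) / M) * (Fs N W b2 (e * ((t : ℝ) / M)) - Gs N W b2 (e * ((t : ℝ) / M))) +
      (Fs N W b1 ((t : ℝ) / M) - Gs N W b1 ((t : ℝ) / M)) * Gs N W b2 (e * ((t : ℝ) / M)) := by ring
    rw [e1]
    have h3 := norm_add_le (Fs N W b1 ((t : ℝ) / M) * (Fs N W b2 (e * ((t : ℝ) / M)) - Gs N W b2 (e * ((t : ℝ) / M))))
      ((Fs N W b1 ((t : ℝ) / M) - Gs N W b1 ((t : ℝ) / M)) * Gs N W b2 (e * ((t : ℝ) / M)))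
    rw [norm_mul, norm_mul] at h3
    refine (pow_le_pow_left₀ (norm_nonneg _) h3 2).trans ?_
    refine (sq_add_le _ _).trans (le_of_eq ?_)
    rw [mul_pow, mul_pow]
  refine (sum_le_sum hfin).trans ?_
  rw [← mul_sum, sum_add_distrib]
  obtain ⟨Y, hY⟩ : ∃ Y : ℝ, Y = (M * (N : ℝ) ^ 3 * W / (W.totient : ℝ) ^ 4) := ⟨_, rfl⟩
  have hY0 : 0 < Y := by rw [hY]; positivity
  rw [← hY] at hTI hTII ⊢
  have hCs2 : (1 : ℝ) ≤ Cs ^ 2 := one_le_pow₀ hCs
  have hc1 : Cl ≤ Cs ^ 2 * Cl := le_mul_of_one_le_left (by linarith) hCs2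
  have hc2 : Cs ^ 2 ≤ Cs ^ 2 * Cl := le_mul_of_one_le_right (by linarith) hCl
  have hsum : 2 * ((504 * Cl / w + 676 * Cs ^ 2 * Cl / w + 8 * Cs ^ 2 / w) * Y + 16 * Cs ^ 2 / w * Y) ≤
      2408 * Cs ^ 2 * Cl / w * Y := by
    have e1 : 2 * ((504 * Cl / w + 676 * Cs ^ 2 * Cl / w + 8 * Cs ^ 2 / w) * Y + 16 * Cs ^ 2 / w * Y) =
        (1008 * Cl + 1352 * (Cs ^ 2 * Cl) + 48 * Cs ^ 2) * (Y / w) := by ring
    have e2 : 2408 * Cs ^ 2 * Cl / w * Y = (2408 * (Cs ^ 2 * Cl)) * (Y / w) := by ring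
    rw [e1, e2]
    apply mul_le_mul_of_nonneg_right _ (by positivity)
    linarith
  linarith

end Pool.Agent.H.MP_0ec261_nt.AA
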