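import Pool.Agent.H.MP_0ec261_nt.AA.Blk

/-!
Total of the bilinear sums, two estimates.
-/

open Finset

namespace Pool.Agent.H.MP_0ec261_nt.AA

lemma card_Bl (X t k : ℕ) : ((Bl X t k).card : ℝ) ≤ (Nat.log 2 X + 1) * 2 ^ k := by
  have : (Bl X t k).card ≤ (Nat.log 2 X + 1) * 2 ^ k := by
    unfold Bl
    refine (card_filter_le _ _).trans ?_
    rw [card_product, Nat.card_Icc, Nat.card_Ico]
    apply Nat.mul_le_mul
    · omega
    · rw [pow_succ]; omega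
  exact_mod_cast this

lemma low_R {k l a : ℕ} (hkl : k ≤ l) (ha : 2 ^ k ≤ a) : 2 ^ l ≤ a * 2 ^ (l - k) := by
  calc 2 ^ l = 2 ^ k * 2 ^ (l - k) := by rw [← pow_add]; congr 1; omega
    _ ≤ a * 2 ^ (l - k) := Nat.mul_le_mul_right _ ha

/-- savings from the denominator -/
theorem bilIa {X t k w q : ℕ} {a0 : ℤ} {β : ℝ} (hw : 1000001 ≤ w) (hwt : 245 * w + k ≤ t) (hq : 0 < q)
    (hqw : q < 2 ^ (w - 1)) (ha0 : IsCoprime a0 (q : ℤ)) :
    ∑ b ∈ Bl X t k, ‖∑ p ∈ Ib k b.1 b.2 ×ˢ Kb X (b.2 * 2 ^ (b.1 - k)),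
      ee (((p.1 * p.2 : ℕ) : ℝ) * (a0 / q + β))‖ ≤
      (Nat.log 2 X + 1) * ((2 * C1) ^ 2 * X * (Real.sqrt q / q.totient) / (w : ℝ) ^ 2) +
      (Nat.log 2 X + 1) * (2 * Real.pi * (X : ℝ) ^ 2 * |β| / 2 ^ k) := by
  have hφ : (0 : ℝ) < q.totient := by exact_mod_cast Nat.totient_pos.2 hq
  have hq0 : (0 : ℝ) < q := by exact_mod_cast hq
  have hw0 : (0 : ℝ) < w := by exact_mod_cast (by omega : 0 < w)
  have hC := C1_pos
  have hpow1 : 2 ^ (244 * w) * q ≤ 2 ^ (t - k) := by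
    calc 2 ^ (244 * w) * q ≤ 2 ^ (244 * w) * 2 ^ w := by
          apply Nat.mul_le_mul_left
          exact hqw.le.trans (Nat.pow_le_pow_right (by norm_num) (by omega))
      _ = 2 ^ (245 * w) := by rw [← pow_add]; congr 1; omega
      _ ≤ _ := Nat.pow_le_pow_right (by norm_num) (by omega)
  have hblock : ∀ b ∈ Bl X t k, ‖∑ p ∈ Ib k b.1 b.2 ×ˢ Kb X (b.2 * 2 ^ (b.1 - k)),
      ee (((p.1 * p.2 : ℕ) : ℝ) * (a0 / q + β))‖ ≤
      ((2 * C1) ^ 2 * X * (Real.sqrt q / q.totient) / (w : ℝ) ^ 2) / 2 ^ k +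
        (2 * Real.pi * (X : ℝ) ^ 2 * |β| / 2 ^ k) / 2 ^ k := by
    rintro ⟨l, a⟩ hb
    rw [mem_Bl] at hb
    obtain ⟨⟨hb1, hb2⟩, ⟨hb3, hb4⟩, hb5⟩ := hb
    simp only at hb1 hb2 hb3 hb4 hb5 ⊢
    have hkl : k ≤ l := by omega
    have hlow := low_R hkl hb3
    have hqt : q < 2 ^ l := lt_of_lt_of_le hqw (Nat.pow_le_pow_right (by norm_num) (by omega))
    have hpow2 : 2 ^ (t - k) ≤ 2 ^ (l - k) := Nat.pow_le_pow_right (by norm_num) (by omega)
    have hpow3 : 2 ^ (t - k) ≤ 2 ^ l := Nat.pow_le_pow_right (by norm_num) (by omega)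
    have hR0 : 0 < a * 2 ^ (l - k) := lt_of_lt_of_le (by positivity) hlow
    have hXR : a * 2 ^ (l - k) ≤ X / (a * 2 ^ (l - k)) := by
      rw [Nat.le_div_iff_mul_le hR0]; exact hb5
    have hXH : X / (a * 2 ^ (l - k)) ≤ X / 2 ^ l := Nat.div_le_div_left hlow (by positivity)
    have h1 := blk (X := X) (k := k) (l := l) (a := a) (q := q) (a0 := a0) (β := β) hq hqt hkl hb3
      (fun b => Ib_card b hw (by omega) hkl hb3 hq hqw (hpow1.trans hpow2))
    have h2 := FB_sq1 (X := X) (k := k) (l := l) (q := q) (a := a) (H := X / 2 ^ l) (w := w) (β := β) ha0 hw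
      ((Nat.pow_le_pow_right (by norm_num) (by omega : w ≤ l)).trans hlow) hXH hq hqw (by omega)
    refine h1.trans ?_
    have ha2 : (2 : ℝ) ^ k ≤ a := by exact_mod_cast hb3
    apply add_le_add
    · have hH : ((X / 2 ^ l : ℕ) : ℝ) ≤ (X : ℝ) / 2 ^ l := by
        have : ((X / 2 ^ l : ℕ) : ℝ) ≤ (X : ℝ) / ((2 ^ l : ℕ) : ℝ) := Nat.cast_div_le
        push_cast at this
        exact this
      have hexp : (2 : ℝ) ^ l = 2 ^ k * 2 ^ (l - k) := by rw [← pow_add]; congr 1; omega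
      calc 2 * C1 * ((2 ^ (l - k) : ℕ) : ℝ) / (q.totient * w) *
            ∑ b ∈ (range q).filter (fun b => Nat.Coprime q b), ‖FB X k l q a0 β a b‖ ≤
          2 * C1 * ((2 ^ (l - k) : ℕ) : ℝ) / (q.totient * w) *
            (Real.sqrt q * (2 * C1 * ((X / 2 ^ l : ℕ) : ℝ)) / w) := by
            apply mul_le_mul_of_nonneg_left h2 (by positivity)
        _ ≤ 2 * C1 * ((2 ^ (l - k) : ℕ) : ℝ) / (q.totient * w) *
            (Real.sqrt q * (2 * C1 * ((X : ℝ) / 2 ^ l)) / w) := by gcongr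
        _ = _ := by
            rw [hexp]
            push_cast
            field_simp
    · rw [div_div, ← sq]
      apply div_le_div_of_nonneg_left (by positivity) (by positivity)
      exact pow_le_pow_left₀ (by positivity) ha2 2
  refine (sum_le_sum hblock).trans ?_
  rw [sum_const, nsmul_eq_mul]
  have hc := card_Bl X t k
  calc ((Bl X t k).card : ℝ) * (((2 * C1) ^ 2 * X * (Real.sqrt q / q.totient) / (w : ℝ) ^ 2) / 2 ^ k +
        (2 * Real.pi * (X : ℝ) ^ 2 * |β| / 2 ^ k) / 2 ^ k) ≤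
      ((Nat.log 2 X + 1) * 2 ^ k) * (((2 * C1) ^ 2 * X * (Real.sqrt q / q.totient) / (w : ℝ) ^ 2) / 2 ^ k +
        (2 * Real.pi * (X : ℝ) ^ 2 * |β| / 2 ^ k) / 2 ^ k) := by
        apply mul_le_mul_of_nonneg_right hc (by positivity)
    _ = _ := by field_simp

lemma Kb_anti {X R R' : ℕ} (hR : 0 < R) (h : R ≤ R') : Kb X R' ⊆ Kb X R := by
  intro j hj
  rw [mem_Kb] at hj ⊢
  refine ⟨⟨hj.1.1, hj.1.2.trans (Nat.div_le_div_left h hR)⟩, hj.2.1, hj.2.2.1, ?_⟩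
  intro p hp hpj
  exact h.trans (hj.2.2.2 p hp hpj)

/-- mean square over the frequencies `a` -/
lemma FB_sq2 {X k l q w : ℕ} {a0 : ℤ} {β κ : ℝ} (b : ℕ) (hw : 1000001 ≤ w) (hkl : 245 * w + k ≤ l)
    (hlX : 2 ^ l * 2 ^ l ≤ X) (hκ1 : 1 ≤ κ) (hκ2 : κ ≤ 2 ^ w) (hκ3 : κ ^ 2 ≤ X * |β|)
    (hβ : 2 * (X * |β|) ≤ 2 ^ k) :
    ∑ a ∈ Ico (2 ^ k) (2 ^ (k + 1)), ‖FB X k l q a0 β a b‖ ^ 2 ≤
      4 * 2 ^ k * (2 * C1 * ((X / 2 ^ l : ℕ) : ℝ) / w) ^ 2 / κ := by
  have hw0 : (0 : ℝ) < w := by exact_mod_cast (by omega : 0 < w)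
  have hC := C1_pos
  have hκ0 : 0 < κ := by linarith
  set H := X / 2 ^ l with hH
  set Kk := 2 ^ (l - k) with hKk
  have hKk0 : 0 < Kk := by positivity
  have h2l : 2 ^ l = 2 ^ k * Kk := by rw [hKk, ← pow_add]; congr 1; omega
  have hHl : 2 ^ l ≤ H := by
    rw [hH, Nat.le_div_iff_mul_le (by positivity)]; exact hlX
  have hH0 : (0 : ℝ) < H := by
    have : 0 < H := lt_of_lt_of_le (by positivity) hHl
    exact_mod_cast this
  have hHκ : (2 : ℝ) ^ (244 * w) ≤ H / κ := by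
    rw [le_div_iff₀ hκ0]
    calc (2 : ℝ) ^ (244 * w) * κ ≤ 2 ^ (244 * w) * 2 ^ w := by gcongr
      _ = 2 ^ (245 * w) := by rw [← pow_add]; congr 1; omega
      _ ≤ 2 ^ l := pow_le_pow_right₀ (by norm_num) (by omega)
      _ ≤ H := by exact_mod_cast hHl
  have hHκ1 : 1 ≤ (H : ℝ) / κ := le_trans (one_le_pow₀ (by norm_num)) hHκ
  set Δ := ⌊(H : ℝ) / κ⌋₊ with hΔ
  have hΔ1 : (Δ : ℝ) ≤ H / κ := Nat.floor_le (by positivity)
  have hΔ2 : (H : ℝ) / κ < Δ + 1 := Nat.lt_floor_add_one _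
  have hΔ3 : 2 ^ (244 * w) ≤ Δ := by
    rw [hΔ]
    apply Nat.le_floor
    push_cast
    exact hHκ
  set γ : ℝ := (Kk : ℝ) * β with hγ
  have hKkr : (0 : ℝ) < Kk := by exact_mod_cast hKk0
  have hH1 : (H : ℝ) ≤ X / 2 ^ l := by
    have : ((X / 2 ^ l : ℕ) : ℝ) ≤ (X : ℝ) / ((2 ^ l : ℕ) : ℝ) := Nat.cast_div_le
    push_cast at this
    exact this
  have hH2 : (X : ℝ) / (2 * 2 ^ l) ≤ H := by
    have h1 := Nat.lt_mul_div_succ X (show 0 < 2 ^ l by positivity)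
    have h2 : X ≤ 2 ^ l * (2 * H) := by
      have : 1 ≤ H := le_trans (Nat.one_le_pow _ _ (by norm_num)) hHl
      calc X ≤ 2 ^ l * (H + 1) := h1.le
        _ ≤ 2 ^ l * (2 * H) := Nat.mul_le_mul_left _ (by omega)
    have h3 : (X : ℝ) ≤ 2 ^ l * (2 * H) := by exact_mod_cast h2
    rw [div_le_iff₀ (by positivity)]
    linarith
  have hexp : (2 : ℝ) ^ l = 2 ^ k * Kk := by exact_mod_cast h2l
  have hβ0 : 0 < |β| := by
    by_contra h
    push Not at h
    have h' : |β| = 0 := le_antisymm h (abs_nonneg _)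
    rw [h', mul_zero] at hκ3
    nlinarith
  have hX0 : (0 : ℝ) < X := by
    by_contra h
    push Not at h
    have : (X : ℝ) = 0 := le_antisymm h (Nat.cast_nonneg _)
    rw [this, zero_mul] at hκ3
    nlinarith
  have key := mean_sq (2 ^ k) (2 ^ (k + 1)) (Nat.pow_le_pow_right (by norm_num) (by omega))
    (fun a => Kb X (max a (2 ^ k) * Kk))
    (fun a b' hab => Kb_anti (by positivity) (Nat.mul_le_mul_right _ (max_le_max hab le_rfl)))
    (Kb X (2 ^ l))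
    (fun a _ => Kb_anti (by positivity) (by rw [h2l]; exact Nat.mul_le_mul_right _ (le_max_right _ _)))
    (fun j => ee (b * ((j : ℝ) * a0 / q))) (fun j => (norm_ee _).le) γ Δ (2 ^ k / κ) (by positivity) (by
      intro i hi j hj hij
      have hi' := mem_Kb.1 hi
      have hj' := mem_Kb.1 hj
      have hd1 : (Δ : ℝ) + 1 ≤ |(i : ℝ) - j| := by
        rcases hij with h | h
        · have : (i : ℝ) + Δ + 1 ≤ j := by exact_mod_cast h
          rw [abs_sub_comm, abs_of_nonneg (by linarith [(Nat.cast_nonneg Δ : (0 : ℝ) ≤ Δ)])]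
          linarith
        · have : (j : ℝ) + Δ + 1 ≤ i := by exact_mod_cast h
          rw [abs_of_nonneg (by linarith [(Nat.cast_nonneg Δ : (0 : ℝ) ≤ Δ)])]
          linarith
      have hd2 : |(i : ℝ) - j| ≤ H := by
        have e1 : (i : ℝ) ≤ H := by exact_mod_cast hi'.1.2
        have e2 : (j : ℝ) ≤ H := by exact_mod_cast hj'.1.2
        have e3 : (0 : ℝ) ≤ i := Nat.cast_nonneg _
        have e4 : (0 : ℝ) ≤ j := Nat.cast_nonneg _
        rw [abs_le]; constructor <;> linarith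
      have habs : |((i : ℝ) - j) * γ| = |(i : ℝ) - j| * (Kk * |β|) := by
        rw [abs_mul, hγ, abs_mul, Nat.abs_cast]
      have hle : |((i : ℝ) - j) * γ| ≤ 1 / 2 := by
        rw [habs]
        have e1 : |(i : ℝ) - j| * (Kk * |β|) ≤ (X / 2 ^ l) * (Kk * |β|) := by
          apply mul_le_mul_of_nonneg_right (hd2.trans hH1) (by positivity)
        have e2 : ((X : ℝ) / 2 ^ l) * (Kk * |β|) = X * |β| / 2 ^ k := by
          rw [hexp]; field_simp
        rw [e2] at e1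
        refine e1.trans ?_
        rw [div_le_iff₀ (by positivity)]
        linarith
      rw [nd_eq_abs hle, habs]
      have e3 : κ / (2 * 2 ^ k) ≤ |(i : ℝ) - j| * (Kk * |β|) := by
        have e4 : (H : ℝ) / κ * (Kk * |β|) ≤ |(i : ℝ) - j| * (Kk * |β|) := by
          apply mul_le_mul_of_nonneg_right (by linarith) (by positivity)
        refine le_trans ?_ e4
        have e5 : (X : ℝ) / (2 * 2 ^ l) / κ * (Kk * |β|) ≤ (H : ℝ) / κ * (Kk * |β|) := by gcongr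
        refine le_trans ?_ e5
        have e6 : (X : ℝ) / (2 * 2 ^ l) / κ * (Kk * |β|) = (X * |β|) / (2 * 2 ^ k * κ) := by
          rw [hexp]; field_simp
        rw [e6, div_le_div_iff₀ (by positivity) (by positivity)]
        nlinarith [pow_pos (two_pos : (0 : ℝ) < 2) k]
      calc (1 : ℝ) = 2 ^ k / κ * (2 * (κ / (2 * 2 ^ k))) := by field_simp
        _ ≤ _ := by gcongr)
  have e1 : ∑ a ∈ Ico (2 ^ k) (2 ^ (k + 1)), ‖FB X k l q a0 β a b‖ ^ 2 =
      ∑ a ∈ Ico (2 ^ k) (2 ^ (k + 1)), ‖∑ j ∈ Kb X (max a (2 ^ k) * Kk),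
        ee (b * ((j : ℝ) * a0 / q)) * ee (a * ((j : ℝ) * γ))‖ ^ 2 := by
    apply sum_congr rfl
    intro a ha
    rw [mem_Ico] at ha
    unfold FB
    rw [max_eq_left ha.1]
    congr 2
    apply sum_congr rfl
    intro j _
    rw [mul_comm]
  rw [e1]
  refine key.trans ?_
  have c1 := Kb_close (X := X) (R := 2 ^ l) (H := H) (w := w) (Δ := Δ) hw
    (Nat.pow_le_pow_right (by norm_num) (by omega)) le_rfl
    (le_trans (Nat.pow_le_pow_right (by norm_num) (by omega)) hHl) (by omega)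
  have c2 := Kb_card1 (X := X) (R := 2 ^ l) (H := H) (w := w) hw
    (Nat.pow_le_pow_right (by norm_num) (by omega)) le_rfl
    (le_trans (Nat.pow_le_pow_right (by norm_num) (by omega)) hHl)
  have c3 : ((2 ^ (k + 1) - 2 ^ k : ℕ) : ℝ) = 2 ^ k := by
    have : 2 ^ (k + 1) - 2 ^ k = 2 ^ k := by rw [pow_succ]; omega
    rw [this]; push_cast; rfl
  rw [c3]
  have c4 : ((2 * Δ + 1 : ℕ) : ℝ) ≤ 3 * H / κ := by
    push_cast
    have : 3 * (H : ℝ) / κ = 2 * (H / κ) + H / κ := by ring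
    rw [this]
    linarith
  set Y := 2 * C1 * (H : ℝ) / w with hY
  have hY0 : 0 ≤ Y := by positivity
  have c5 : ((((Kb X (2 ^ l) ×ˢ Kb X (2 ^ l)).filter (fun p => ¬ (p.1 + Δ < p.2 ∨ p.2 + Δ < p.1))).card : ℕ) : ℝ) ≤
      3 * Y ^ 2 / κ := by
    refine c1.trans ?_
    calc Y * (2 * C1 * ((2 * Δ + 1 : ℕ) : ℝ) / w) ≤ Y * (2 * C1 * (3 * H / κ) / w) := by gcongr
      _ = _ := by rw [hY]; field_simp
  calc 2 ^ k * ((((Kb X (2 ^ l) ×ˢ Kb X (2 ^ l)).filter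
        (fun p => ¬ (p.1 + Δ < p.2 ∨ p.2 + Δ < p.1))).card : ℕ) : ℝ) + 2 ^ k / κ * ((Kb X (2 ^ l)).card : ℝ) ^ 2
      ≤ 2 ^ k * (3 * Y ^ 2 / κ) + 2 ^ k / κ * Y ^ 2 := by gcongr
    _ = _ := by ring

/-- savings from the distance to the rational number -/
theorem bilIb {X t k w q : ℕ} {a0 : ℤ} {β κ : ℝ} (hw : 1000001 ≤ w) (hwt : 245 * w + k ≤ t) (hq : 0 < q)
    (hqw : q < 2 ^ (w - 1)) (hκ1 : 1 ≤ κ) (hκ2 : κ ≤ 2 ^ w) (hκ3 : κ ^ 2 ≤ X * |β|)
    (hβ : 2 * (X * |β|) ≤ 2 ^ k) :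
    ∑ b ∈ Bl X t k, ‖∑ p ∈ Ib k b.1 b.2 ×ˢ Kb X (b.2 * 2 ^ (b.1 - k)),
      ee (((p.1 * p.2 : ℕ) : ℝ) * (a0 / q + β))‖ ≤
      (Nat.log 2 X + 1) * ((2 * C1) ^ 2 * X * (2 / Real.sqrt κ) / (w : ℝ) ^ 2) +
      (Nat.log 2 X + 1) * (2 * Real.pi * (X : ℝ) ^ 2 * |β| / 2 ^ k) := by
  have hφ : (0 : ℝ) < q.totient := by exact_mod_cast Nat.totient_pos.2 hq
  have hq0 : (0 : ℝ) < q := by exact_mod_cast hq
  have hw0 : (0 : ℝ) < w := by exact_mod_cast (by omega : 0 < w)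
  have hC := C1_pos
  have hκ0 : 0 < κ := by linarith
  have hpow1 : 2 ^ (244 * w) * q ≤ 2 ^ (t - k) := by
    calc 2 ^ (244 * w) * q ≤ 2 ^ (244 * w) * 2 ^ w := by
          apply Nat.mul_le_mul_left
          exact hqw.le.trans (Nat.pow_le_pow_right (by norm_num) (by omega))
      _ = 2 ^ (245 * w) := by rw [← pow_add]; congr 1; omega
      _ ≤ _ := Nat.pow_le_pow_right (by norm_num) (by omega)
  set f : ℕ × ℕ → ℝ := fun b => ‖∑ p ∈ Ib k b.1 b.2 ×ˢ Kb X (b.2 * 2 ^ (b.1 - k)),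
      ee (((p.1 * p.2 : ℕ) : ℝ) * (a0 / q + β))‖ with hf
  have hf0 : ∀ b, 0 ≤ f b := fun b => norm_nonneg _
  -- all `a` for the same `l`
  have h1 : ∑ b ∈ Bl X t k, f b ≤
      ∑ l ∈ (Icc t (Nat.log 2 X)).filter (fun l => 2 ^ l * 2 ^ l ≤ X), ∑ a ∈ Ico (2 ^ k) (2 ^ (k + 1)), f (l, a) := by
    rw [← sum_product']
    apply sum_le_sum_of_subset_of_nonneg
    · rintro ⟨l, a⟩ hb
      rw [mem_Bl] at hb
      rw [mem_product, mem_filter, mem_Icc, mem_Ico]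
      refine ⟨⟨hb.1, ?_⟩, hb.2.1⟩
      have hlow := low_R (k := k) (l := l) (a := a) (by have := hb.1.1; simp only at this; omega) hb.2.1.1
      exact (Nat.mul_le_mul hlow hlow).trans hb.2.2
    · intro b _ _; exact hf0 b
  refine h1.trans ?_
  have h2 : ∀ l ∈ (Icc t (Nat.log 2 X)).filter (fun l => 2 ^ l * 2 ^ l ≤ X),
      ∑ a ∈ Ico (2 ^ k) (2 ^ (k + 1)), f (l, a) ≤
      ((2 * C1) ^ 2 * X * (2 / Real.sqrt κ) / (w : ℝ) ^ 2) + (2 * Real.pi * (X : ℝ) ^ 2 * |β| / 2 ^ k) := by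
    intro l hl
    rw [mem_filter, mem_Icc] at hl
    obtain ⟨⟨hl1, hl2⟩, hl3⟩ := hl
    have hkl : k ≤ l := by omega
    have hqt : q < 2 ^ l := lt_of_lt_of_le hqw (Nat.pow_le_pow_right (by norm_num) (by omega))
    have hpow2 : 2 ^ (t - k) ≤ 2 ^ (l - k) := Nat.pow_le_pow_right (by norm_num) (by omega)
    set D := 2 * C1 * ((2 ^ (l - k) : ℕ) : ℝ) / (q.totient * w) with hD
    have hD0 : 0 ≤ D := by positivity
    have h3 : ∀ a ∈ Ico (2 ^ k) (2 ^ (k + 1)), f (l, a) ≤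
        D * ∑ b ∈ (range q).filter (fun b => Nat.Coprime q b), ‖FB X k l q a0 β a b‖ +
          (2 * Real.pi * (X : ℝ) ^ 2 * |β| / 2 ^ k) / 2 ^ k := by
      intro a ha
      rw [mem_Ico] at ha
      have h4 := blk (X := X) (k := k) (l := l) (a := a) (q := q) (a0 := a0) (β := β) hq hqt hkl ha.1
        (fun b => Ib_card b hw (by omega) hkl ha.1 hq hqw (hpow1.trans hpow2))
      refine h4.trans ?_
      apply add_le_add (le_refl _)
      rw [div_div, ← sq]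
      apply div_le_div_of_nonneg_left (by positivity) (by positivity)
      have ha2 : (2 : ℝ) ^ k ≤ a := by exact_mod_cast ha.1
      exact pow_le_pow_left₀ (by positivity) ha2 2
    refine (sum_le_sum h3).trans ?_
    rw [sum_add_distrib, ← mul_sum, sum_const, nsmul_eq_mul, Nat.card_Ico]
    have c3 : ((2 ^ (k + 1) - 2 ^ k : ℕ) : ℝ) = 2 ^ k := by
      have : 2 ^ (k + 1) - 2 ^ k = 2 ^ k := by rw [pow_succ]; omega
      rw [this]; push_cast; rfl
    rw [c3]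
    apply add_le_add
    · -- Cauchy-Schwarz
      set Y := 2 * C1 * ((X / 2 ^ l : ℕ) : ℝ) / w with hY
      have hY0 : 0 ≤ Y := by positivity
      have h5 : ∑ a ∈ Ico (2 ^ k) (2 ^ (k + 1)), ∑ b ∈ (range q).filter (fun b => Nat.Coprime q b),
          ‖FB X k l q a0 β a b‖ ≤ 2 ^ k * q.totient * Y * (2 / Real.sqrt κ) := by
        apply (pow_le_pow_iff_left₀ (sum_nonneg (fun _ _ => sum_nonneg (fun _ _ => norm_nonneg _)))
          (by positivity) two_ne_zero).1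
        rw [← sum_product' (f := fun a b => ‖FB X k l q a0 β a b‖)]
        refine (sq_sum_le_card_mul_sum_sq).trans ?_
        rw [card_product, Nat.card_Ico]
        have h6 : ∑ i ∈ Ico (2 ^ k) (2 ^ (k + 1)) ×ˢ (range q).filter (fun b => Nat.Coprime q b),
            ‖FB X k l q a0 β i.1 i.2‖ ^ 2 ≤ q.totient * (4 * 2 ^ k * Y ^ 2 / κ) := by
          rw [sum_product_right]
          calc _ ≤ ∑ b ∈ (range q).filter (fun b => Nat.Coprime q b), (4 * 2 ^ k * Y ^ 2 / κ) := by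
                apply sum_le_sum
                intro b _
                exact FB_sq2 b hw (by omega) hl3 hκ1 hκ2 hκ3 hβ
            _ = _ := by rw [sum_const, nsmul_eq_mul, Nat.totient]
        have h7 : (((2 ^ (k + 1) - 2 ^ k) * ((range q).filter (fun b => Nat.Coprime q b)).card : ℕ) : ℝ) =
            2 ^ k * q.totient := by
          rw [Nat.cast_mul, c3, Nat.totient]
        rw [h7]
        calc (2 ^ k * (q.totient : ℝ)) * ∑ i ∈ Ico (2 ^ k) (2 ^ (k + 1)) ×ˢ (range q).filter (fun b => Nat.Coprime q b),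
            ‖FB X k l q a0 β i.1 i.2‖ ^ 2 ≤ (2 ^ k * (q.totient : ℝ)) * (q.totient * (4 * 2 ^ k * Y ^ 2 / κ)) := by
              apply mul_le_mul_of_nonneg_left h6 (by positivity)
          _ = _ := by
              have e8 : (2 / Real.sqrt κ) ^ 2 = 4 / κ := by
                rw [div_pow, Real.sq_sqrt hκ0.le]; norm_num
              rw [mul_pow _ (2 / Real.sqrt κ), e8]
              ring
      have hH : ((X / 2 ^ l : ℕ) : ℝ) ≤ (X : ℝ) / 2 ^ l := by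
        have : ((X / 2 ^ l : ℕ) : ℝ) ≤ (X : ℝ) / ((2 ^ l : ℕ) : ℝ) := Nat.cast_div_le
        push_cast at this
        exact this
      have hexp : (2 : ℝ) ^ l = 2 ^ k * 2 ^ (l - k) := by rw [← pow_add]; congr 1; omega
      have hsq : 0 < Real.sqrt κ := Real.sqrt_pos.2 hκ0
      calc D * ∑ a ∈ Ico (2 ^ k) (2 ^ (k + 1)), ∑ b ∈ (range q).filter (fun b => Nat.Coprime q b),
          ‖FB X k l q a0 β a b‖ ≤ D * (2 ^ k * q.totient * Y * (2 / Real.sqrt κ)) :=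
            mul_le_mul_of_nonneg_left h5 hD0
        _ ≤ D * (2 ^ k * q.totient * (2 * C1 * ((X : ℝ) / 2 ^ l) / w) * (2 / Real.sqrt κ)) := by
            rw [hY]; gcongr
        _ = _ := by
            rw [hD, hexp]
            push_cast
            field_simp
    · apply le_of_eq; field_simp
  refine (sum_le_sum h2).trans ?_
  rw [sum_const, nsmul_eq_mul, ← mul_add]
  apply mul_le_mul_of_nonneg_right _ (by positivity)
  have : ((Icc t (Nat.log 2 X)).filter (fun l => 2 ^ l * 2 ^ l ≤ X)).card ≤ Nat.log 2 X + 1 := by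
    refine (card_filter_le _ _).trans ?_
    rw [Nat.card_Icc]
    omega
  exact_mod_cast this

end Pool.Agent.H.MP_0ec261_nt.AA
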