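import Pool.Agent.H.MP_0ec261_nt.Block

/-!
Decomposition of a sum over primes into a sum over rough numbers and bilinear sums (Buchstab),
for arbitrary bounded weights.
-/

open Finset

namespace Pool.Agent.H.MP_0ec261_nt.AA

variable {X : ℕ} {φ : ℕ → ℂ}

/-- products exceeding `X` -/
lemma overflow {k l a : ℕ} (ha : 0 < a) :
    ((((Ib k l a ×ˢ Kb X (a * 2 ^ (l - k))).filter (fun p => ¬ p.1 * p.2 ≤ X)).card : ℕ) : ℝ) ≤
      (X : ℝ) / (a : ℝ) ^ 2 + ((2 ^ (l - k) : ℕ) : ℝ) := by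
  set K := 2 ^ (l - k) with hK
  set R := a * K with hR
  have hK0 : 0 < K := by positivity
  have hR0 : 0 < R := Nat.mul_pos ha hK0
  have hKr : (0 : ℝ) < K := by exact_mod_cast hK0
  have hRr : (0 : ℝ) < R := by exact_mod_cast hR0
  have har : (0 : ℝ) < a := by exact_mod_cast ha
  have h1 : ((Ib k l a ×ˢ Kb X R).filter (fun p => ¬ p.1 * p.2 ≤ X)) ⊆
      (Ib k l a).biUnion (fun r => ({r} : Finset ℕ) ×ˢ Ioc (X / r) (X / R)) := by
    intro p hp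
    rw [mem_filter, mem_product] at hp
    rw [mem_biUnion]
    refine ⟨p.1, hp.1.1, ?_⟩
    rw [mem_product, mem_singleton, mem_Ioc]
    refine ⟨rfl, ?_, (mem_Kb.1 hp.1.2).1.2⟩
    by_contra hcon
    push Not at hcon
    apply hp.2
    have hr := (mem_Ib.1 hp.1.1).2.pos
    rw [Nat.le_div_iff_mul_le hr] at hcon
    rw [mul_comm]
    exact hcon
  have h2 : ∀ r ∈ Ib k l a, ((({r} : Finset ℕ) ×ˢ Ioc (X / r) (X / R)).card : ℝ) ≤ (X : ℝ) / (a ^ 2 * K) + 1 := by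
    intro r hr
    rw [mem_Ib] at hr
    have hr0 : (0 : ℝ) < r := by exact_mod_cast hr.2.pos
    have hRr' : (R : ℝ) ≤ r := by exact_mod_cast hr.1.1
    have hrK : (r : ℝ) ≤ R + K := by exact_mod_cast hr.1.2.le
    rw [card_product, card_singleton, one_mul, Nat.card_Ioc]
    have h3 : ((X / R - X / r : ℕ) : ℝ) ≤ (X : ℝ) / R - X / r + 1 := by
      have h4 : X / r ≤ X / R := Nat.div_le_div_left hr.1.1 hR0
      rw [Nat.cast_sub h4]
      have h5 : ((X / R : ℕ) : ℝ) ≤ (X : ℝ) / R := Nat.cast_div_le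
      have h6 : (X : ℝ) / r < ((X / r : ℕ) : ℝ) + 1 := by
        rw [div_lt_iff₀ hr0]
        have := Nat.lt_mul_div_succ X hr.2.pos
        have : (X : ℝ) < r * (((X / r : ℕ) : ℝ) + 1) := by exact_mod_cast this
        linarith
      linarith
    refine h3.trans ?_
    have h7 : (X : ℝ) / R - X / r ≤ X / (a ^ 2 * K) := by
      have e1 : (X : ℝ) / R - X / r = X * (r - R) / (R * r) := by field_simp
      rw [e1]
      have e2 : (X : ℝ) / (a ^ 2 * K) = X * K / (R * R) := by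
        rw [hR]; push_cast; field_simp
      rw [e2]
      apply div_le_div₀ (by positivity) _ (by positivity) (by gcongr)
      apply mul_le_mul_of_nonneg_left (by linarith) (Nat.cast_nonneg _)
    linarith
  have h4 : (Ib k l a).card ≤ K := by
    unfold Ib
    refine (card_filter_le _ _).trans ?_
    rw [Nat.card_Ico]
    omega
  calc _ ≤ ((((Ib k l a).biUnion (fun r => ({r} : Finset ℕ) ×ˢ Ioc (X / r) (X / R))).card : ℕ) : ℝ) := by
        exact_mod_cast card_le_card h1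
    _ ≤ ∑ r ∈ Ib k l a, ((({r} : Finset ℕ) ×ˢ Ioc (X / r) (X / R)).card : ℝ) := by
        exact_mod_cast card_biUnion_le
    _ ≤ ∑ r ∈ Ib k l a, ((X : ℝ) / (a ^ 2 * K) + 1) := sum_le_sum h2
    _ = ((Ib k l a).card : ℝ) * ((X : ℝ) / (a ^ 2 * K) + 1) := by rw [sum_const, nsmul_eq_mul]
    _ ≤ (K : ℝ) * ((X : ℝ) / (a ^ 2 * K) + 1) := by
        apply mul_le_mul_of_nonneg_right _ (by positivity)
        exact_mod_cast h4
    _ = _ := by field_simp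

/-- passage to the bilinear sum -/
lemma block_leC (hφ : ∀ m, ‖φ m‖ ≤ 1) {t k l a : ℕ} (hkt : k ≤ t) (ht : 2 ≤ t) (htl : t ≤ l) (ha : 2 ^ k ≤ a)
    (ha' : a < 2 ^ (k + 1)) :
    ‖∑ m ∈ Cb X t k l a, φ m‖ ≤
      ‖∑ p ∈ Ib k l a ×ˢ Kb X (a * 2 ^ (l - k)), φ (p.1 * p.2)‖ +
        (2 * (X : ℝ) / (a : ℝ) ^ 2 + ((2 ^ (l - k) : ℕ) : ℝ)) := by
  have ha0 : 0 < a := lt_of_lt_of_le (by positivity) ha
  set 𝒦 := Kb X (a * 2 ^ (l - k)) with h𝒦
  set N : ℕ → ℕ := fun m => ((Ib k l a ×ˢ 𝒦).filter (fun p => p.1 * p.2 = m)).card with hN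
  have hr2 : ∀ r ∈ Ib k l a, r ≠ 2 := by
    intro r hr
    rw [mem_Ib] at hr
    have h1 : 2 ^ l ≤ a * 2 ^ (l - k) := by
      calc 2 ^ l = 2 ^ k * 2 ^ (l - k) := by rw [← pow_add]; congr 1; omega
        _ ≤ a * 2 ^ (l - k) := Nat.mul_le_mul_right _ ha
    have h2 : 2 ^ 2 ≤ 2 ^ l := Nat.pow_le_pow_right (by norm_num) (by omega)
    omega
  have e0 : ∑ p ∈ Ib k l a ×ˢ 𝒦, φ (p.1 * p.2) =
      ∑ p ∈ (Ib k l a ×ˢ 𝒦).filter (fun p => p.1 * p.2 ≤ X), φ (p.1 * p.2) +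
      ∑ p ∈ (Ib k l a ×ˢ 𝒦).filter (fun p => ¬ p.1 * p.2 ≤ X), φ (p.1 * p.2) :=
    (sum_filter_add_sum_filter_not _ _ _).symm
  have hmaps : ∀ p ∈ (Ib k l a ×ˢ 𝒦).filter (fun p => p.1 * p.2 ≤ X), p.1 * p.2 ∈ Cb X t k l a := by
    intro p hp
    rw [mem_filter, mem_product] at hp
    have := prod_block (t := t) (by omega : k ≤ l) htl ha ha' hp.1.1 hp.1.2 hp.2 (hr2 _ hp.1.1)
    unfold Cb
    rw [mem_filter]
    exact this
  have e1 : ∑ p ∈ (Ib k l a ×ˢ 𝒦).filter (fun p => p.1 * p.2 ≤ X), φ (p.1 * p.2) =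
      ∑ m ∈ Cb X t k l a, (N m : ℂ) * φ m := by
    rw [← sum_fiberwise_of_maps_to hmaps]
    apply sum_congr rfl
    intro m hm
    have hmX : m ≤ X := by
      unfold Cb at hm
      rw [mem_filter, mem_Cmp] at hm
      exact hm.1.1.2
    have e3 : ((Ib k l a ×ˢ 𝒦).filter (fun p => p.1 * p.2 ≤ X)).filter (fun p => p.1 * p.2 = m) =
        (Ib k l a ×ˢ 𝒦).filter (fun p => p.1 * p.2 = m) := by
      ext p
      simp only [mem_filter]
      constructor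
      · rintro ⟨⟨h1, _⟩, h2⟩; exact ⟨h1, h2⟩
      · rintro ⟨h1, h2⟩; exact ⟨⟨h1, by omega⟩, h2⟩
    rw [e3, hN]
    simp only
    rw [← nsmul_eq_mul, ← sum_const]
    apply sum_congr rfl
    intro p hp
    rw [(mem_filter.1 hp).2]
  have hN1 : ∀ m ∈ Cb X t k l a, 1 ≤ N m := by
    intro m hm
    unfold Cb at hm
    rw [mem_filter] at hm
    have h1 := rep_block hkt hm.1 hm.2
    rw [hN]
    simp only
    apply card_pos.2
    refine ⟨(m.minFac, m / m.minFac), ?_⟩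
    rw [mem_filter, mem_product]
    exact ⟨⟨h1.1, h1.2.1⟩, h1.2.2.1⟩
  have e4 : ∑ m ∈ Cb X t k l a, φ m = ∑ p ∈ Ib k l a ×ˢ 𝒦, φ (p.1 * p.2) -
      (∑ p ∈ (Ib k l a ×ˢ 𝒦).filter (fun p => ¬ p.1 * p.2 ≤ X), φ (p.1 * p.2) +
      ∑ m ∈ Cb X t k l a, ((N m : ℂ) - 1) * φ m) := by
    rw [e0, e1]
    have : ∑ m ∈ Cb X t k l a, ((N m : ℂ) - 1) * φ m =
        ∑ m ∈ Cb X t k l a, (N m : ℂ) * φ m - ∑ m ∈ Cb X t k l a, φ m := by
      rw [← sum_sub_distrib]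
      apply sum_congr rfl
      intro m _
      ring
    rw [this]
    ring
  rw [e4]
  refine (norm_sub_le _ _).trans ?_
  apply add_le_add (le_refl _)
  refine (norm_add_le _ _).trans ?_
  have b1 : ‖∑ p ∈ (Ib k l a ×ˢ 𝒦).filter (fun p => ¬ p.1 * p.2 ≤ X), φ (p.1 * p.2)‖ ≤
      (X : ℝ) / (a : ℝ) ^ 2 + ((2 ^ (l - k) : ℕ) : ℝ) := by
    refine le_trans ?_ (overflow (X := X) (k := k) (l := l) ha0)
    calc _ ≤ ∑ p ∈ (Ib k l a ×ˢ 𝒦).filter (fun p => ¬ p.1 * p.2 ≤ X), ‖φ (p.1 * p.2)‖ := norm_sum_le _ _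
      _ ≤ ∑ p ∈ (Ib k l a ×ˢ 𝒦).filter (fun p => ¬ p.1 * p.2 ≤ X), (1 : ℝ) := sum_le_sum (fun _ _ => hφ _)
      _ = _ := by rw [sum_const, nsmul_eq_mul, mul_one]
  have b2 : ‖∑ m ∈ Cb X t k l a, ((N m : ℂ) - 1) * φ m‖ ≤ (X : ℝ) / (a : ℝ) ^ 2 := by
    calc ‖∑ m ∈ Cb X t k l a, ((N m : ℂ) - 1) * φ m‖ ≤
        ∑ m ∈ Cb X t k l a, ‖((N m : ℂ) - 1) * φ m‖ := norm_sum_le _ _
      _ ≤ ∑ m ∈ Cb X t k l a, ((Pool.Agent.H.MP_0ec261_nt.PP k l a m).card : ℝ) := by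
          apply sum_le_sum
          intro m hm
          have h1 := hN1 m hm
          have hm0 : m ≠ 0 := by
            unfold Cb at hm
            rw [mem_filter, mem_Cmp] at hm
            omega
          have h2 := card_rep_le (k := k) (l := l) (a := a) hm0 𝒦
          have h3 : (1 : ℝ) ≤ N m := by exact_mod_cast h1
          have h4 : (N m : ℝ) ≤ (Pool.Agent.H.MP_0ec261_nt.PP k l a m).card + 1 := by exact_mod_cast h2
          rw [norm_mul]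
          have h5 : ‖(N m : ℂ) - 1‖ = (N m : ℝ) - 1 := by
            have : (N m : ℂ) - 1 = (((N m : ℝ) - 1 : ℝ) : ℂ) := by push_cast; ring
            rw [this, Complex.norm_real, Real.norm_of_nonneg (by linarith)]
          rw [h5]
          calc ((N m : ℝ) - 1) * ‖φ m‖ ≤ ((N m : ℝ) - 1) * 1 :=
                mul_le_mul_of_nonneg_left (hφ m) (by linarith)
            _ ≤ _ := by linarith
      _ ≤ ∑ m ∈ Icc 1 X, ((Pool.Agent.H.MP_0ec261_nt.PP k l a m).card : ℝ) := by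
          apply sum_le_sum_of_subset_of_nonneg
          · intro m hm
            unfold Cb at hm
            rw [mem_filter, mem_Cmp] at hm
            rw [mem_Icc]
            exact hm.1.1
          · intro i _ _; positivity
      _ ≤ (X : ℝ) / (a : ℝ) ^ 2 := sum_PP ha0
  have e5 : 2 * (X : ℝ) / (a : ℝ) ^ 2 = (X : ℝ) / (a : ℝ) ^ 2 + (X : ℝ) / (a : ℝ) ^ 2 := by ring
  rw [e5]
  linarith

/-- the index set of the blocks -/
def Bl (X t k : ℕ) : Finset (ℕ × ℕ) :=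
  ((Icc t (Nat.log 2 X)) ×ˢ (Ico (2 ^ k) (2 ^ (k + 1)))).filter
    (fun b => (b.2 * 2 ^ (b.1 - k)) * (b.2 * 2 ^ (b.1 - k)) ≤ X)

lemma mem_Bl {X t k : ℕ} {b : ℕ × ℕ} : b ∈ Bl X t k ↔ (t ≤ b.1 ∧ b.1 ≤ Nat.log 2 X) ∧
    (2 ^ k ≤ b.2 ∧ b.2 < 2 ^ (k + 1)) ∧ (b.2 * 2 ^ (b.1 - k)) * (b.2 * 2 ^ (b.1 - k)) ≤ X := by
  unfold Bl
  rw [mem_filter, mem_product, mem_Icc, mem_Ico]
  tauto

/-- sums over the composite rough numbers, block by block -/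
lemma sum_Cmp (f : ℕ → ℂ) {t k : ℕ} (hkt : k ≤ t) :
    ∑ m ∈ Cmp (2 ^ t) X, f m = ∑ b ∈ Bl X t k, ∑ m ∈ Cb X t k b.1 b.2, f m := by
  have hmaps : ∀ m ∈ Cmp (2 ^ t) X, gb k m ∈ Bl X t k := by
    intro m hm
    obtain ⟨h1, h2, h3, h4, h5, h6, h7⟩ := rep_block hkt hm (l := (gb k m).1) (a := (gb k m).2) rfl
    rw [mem_Bl]
    refine ⟨⟨h4, ?_⟩, ⟨h5, h6⟩, h7⟩
    have hm' := mem_Cmp.1 hm
    show Nat.log 2 m.minFac ≤ Nat.log 2 X
    apply Nat.log_mono_right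
    exact (Nat.minFac_le hm'.1.1).trans hm'.1.2
  rw [← sum_fiberwise_of_maps_to hmaps]
  apply sum_congr rfl
  intro b _
  unfold Cb
  rfl

open Classical in
/-- **Decomposition** -/
theorem decomp (hφ : ∀ m, ‖φ m‖ ≤ 1) {t k : ℕ} (hkt : k ≤ t) (ht : 2 ≤ t) :
    ‖∑ p ∈ (Icc 1 X).filter (fun p => p.Prime ∧ 2 ^ t ≤ p), φ p‖ ≤
      ‖∑ m ∈ (Icc 1 X).filter (fun m => Rgh (2 ^ t) m ∧ m ≠ 1), φ m‖ +
      ∑ b ∈ Bl X t k, ‖∑ p ∈ Ib k b.1 b.2 ×ˢ Kb X (b.2 * 2 ^ (b.1 - k)), φ (p.1 * p.2)‖ +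
      (Nat.log 2 X + 1) * (2 * (X : ℝ) / 2 ^ k + Real.sqrt X) := by
  have e1 : ∑ m ∈ (Icc 1 X).filter (fun m => Rgh (2 ^ t) m ∧ m ≠ 1), φ m =
      ∑ p ∈ (Icc 1 X).filter (fun p => p.Prime ∧ 2 ^ t ≤ p), φ p + ∑ m ∈ Cmp (2 ^ t) X, φ m := by
    rw [← sum_filter_add_sum_filter_not _ Nat.Prime]
    congr 1
    · apply sum_congr _ (fun _ _ => rfl)
      ext p
      simp only [mem_filter, mem_Icc]
      constructor
      · rintro ⟨⟨h1, h2, h3⟩, h4⟩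
        exact ⟨h1, h4, h2 p h4 (dvd_refl p)⟩
      · rintro ⟨h1, h2, h3⟩
        refine ⟨⟨h1, ?_, h2.one_lt.ne'⟩, h2⟩
        intro q hq hqp
        rw [(Nat.prime_dvd_prime_iff_eq hq h2).1 hqp]
        exact h3
    · apply sum_congr _ (fun _ _ => rfl)
      ext m
      simp only [mem_filter, mem_Icc, mem_Cmp]
      constructor
      · rintro ⟨⟨h1, h2, h3⟩, h4⟩
        refine ⟨h1, ?_, h2, h3, h4⟩
        rw [← Nat.not_even_iff_odd]
        intro he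
        have h5 := h2 2 Nat.prime_two he.two_dvd
        have h6 : 2 ^ 2 ≤ 2 ^ t := Nat.pow_le_pow_right (by norm_num) ht
        omega
      · rintro ⟨h1, _, h2, h3, h4⟩
        exact ⟨⟨h1, h2, h3⟩, h4⟩
  have e2 : ∑ p ∈ (Icc 1 X).filter (fun p => p.Prime ∧ 2 ^ t ≤ p), φ p =
      ∑ m ∈ (Icc 1 X).filter (fun m => Rgh (2 ^ t) m ∧ m ≠ 1), φ m - ∑ m ∈ Cmp (2 ^ t) X, φ m := by
    rw [e1]; ring
  rw [e2]
  refine (norm_sub_le _ _).trans ?_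
  rw [add_assoc]
  apply add_le_add (le_refl _)
  rw [sum_Cmp φ hkt]
  refine (norm_sum_le _ _).trans ?_
  have h1 : ∀ b ∈ Bl X t k, ‖∑ m ∈ Cb X t k b.1 b.2, φ m‖ ≤
      ‖∑ p ∈ Ib k b.1 b.2 ×ˢ Kb X (b.2 * 2 ^ (b.1 - k)), φ (p.1 * p.2)‖ +
        (2 * (X : ℝ) / (b.2 : ℝ) ^ 2 + ((2 ^ (b.1 - k) : ℕ) : ℝ)) := by
    intro b hb
    rw [mem_Bl] at hb
    exact block_leC hφ hkt ht hb.1.1 hb.2.1.1 hb.2.1.2
  refine (sum_le_sum h1).trans ?_
  rw [sum_add_distrib]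
  apply add_le_add (le_refl _)
  have hX0 : (0 : ℝ) ≤ X := Nat.cast_nonneg _
  have h2 : ∀ b ∈ Bl X t k, 2 * (X : ℝ) / (b.2 : ℝ) ^ 2 + ((2 ^ (b.1 - k) : ℕ) : ℝ) ≤
      2 * (X : ℝ) / ((2 : ℝ) ^ k) ^ 2 + Real.sqrt X / 2 ^ k := by
    intro b hb
    rw [mem_Bl] at hb
    have h3 : (2 : ℝ) ^ k ≤ b.2 := by exact_mod_cast hb.2.1.1
    apply add_le_add
    · apply div_le_div_of_nonneg_left (by positivity) (by positivity)
      exact pow_le_pow_left₀ (by positivity) h3 2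
    · rw [le_div_iff₀ (by positivity)]
      have h4 : ((b.2 * 2 ^ (b.1 - k) : ℕ) : ℝ) ≤ Real.sqrt X := by
        apply Real.le_sqrt_of_sq_le
        have := hb.2.2
        rw [sq]
        exact_mod_cast this
      refine le_trans ?_ h4
      push_cast
      rw [mul_comm]
      apply mul_le_mul_of_nonneg_right h3 (by positivity)
  refine (sum_le_sum h2).trans ?_
  rw [sum_const, nsmul_eq_mul]
  have h5 : ((Bl X t k).card : ℝ) ≤ (Nat.log 2 X + 1) * 2 ^ k := by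
    have : (Bl X t k).card ≤ (Nat.log 2 X + 1) * 2 ^ k := by
      unfold Bl
      refine (card_filter_le _ _).trans ?_
      rw [card_product, Nat.card_Icc, Nat.card_Ico]
      apply Nat.mul_le_mul
      · omega
      · rw [pow_succ]; omega
    exact_mod_cast this
  calc ((Bl X t k).card : ℝ) * (2 * (X : ℝ) / ((2 : ℝ) ^ k) ^ 2 + Real.sqrt X / 2 ^ k) ≤
      ((Nat.log 2 X + 1) * 2 ^ k) * (2 * (X : ℝ) / ((2 : ℝ) ^ k) ^ 2 + Real.sqrt X / 2 ^ k) := by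
        apply mul_le_mul_of_nonneg_right h5 (by positivity)
    _ = _ := by field_simp

end Pool.Agent.H.MP_0ec261_nt.AA
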