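import Pool.Agent.H.MP_0ec261_nt.AA.Ee

/-!
Orthogonality relations and mean squares of exponential sums.
-/

open Finset

namespace Pool.Agent.H.MP_0ec261_nt.AA

lemma sum_ee_range {q : ℕ} (hq : 0 < q) (m : ℤ) :
    ∑ b ∈ range q, ee (b * ((m : ℝ) / q)) = if (q : ℤ) ∣ m then (q : ℂ) else 0 := by
  have hq0 : (q : ℝ) ≠ 0 := by exact_mod_cast hq.ne'
  split_ifs with h
  · obtain ⟨c, rfl⟩ := h
    have : ∀ b ∈ range q, ee (b * (((q * c : ℤ) : ℝ) / q)) = 1 := by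
      intro b _
      have e : (b : ℝ) * (((q * c : ℤ) : ℝ) / q) = ((b * c : ℤ) : ℝ) := by
        push_cast; field_simp
      rw [e, ee_int]
    rw [sum_congr rfl this]
    simp
  · have h1 : ∀ n : ℕ, ee (n * ((m : ℝ) / q)) = ee ((m : ℝ) / q) ^ n := fun n => ee_natMul n _
    simp_rw [h1]
    have hne : ee ((m : ℝ) / q) ≠ 1 := by
      intro heq
      apply h
      unfold ee at heq
      rw [Complex.exp_eq_one_iff] at heq
      obtain ⟨n, hn⟩ := heq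
      have hpi : (2 * Real.pi * Complex.I : ℂ) ≠ 0 := Complex.two_pi_I_ne_zero
      have h2 : (((m : ℝ) / q : ℝ) : ℂ) = n := by
        have h3 : ((2 * Real.pi * ((m : ℝ) / q) : ℝ) : ℂ) * Complex.I =
            (((m : ℝ) / q : ℝ) : ℂ) * (2 * Real.pi * Complex.I) := by push_cast; ring
        rw [h3] at hn
        exact mul_right_cancel₀ hpi hn
      have h4 : ((m : ℝ) / q : ℝ) = n := by exact_mod_cast h2
      rw [div_eq_iff hq0] at h4
      have h5 : m = n * q := by exact_mod_cast h4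
      exact ⟨n, by rw [h5]; ring⟩
    have h2 := geom_sum_eq hne q
    rw [h2]
    have h3 : ee ((m : ℝ) / q) ^ q = 1 := by
      rw [← ee_natMul]
      have : (q : ℝ) * ((m : ℝ) / q) = m := by field_simp
      rw [this, ee_int]
    rw [h3, sub_self, zero_div]

lemma normsq_sum (S : Finset ℕ) (c : ℕ → ℂ) :
    ((‖∑ j ∈ S, c j‖ ^ 2 : ℝ) : ℂ) = ∑ p ∈ S ×ˢ S, c p.1 * (starRingEnd ℂ) (c p.2) := by
  rw [← Complex.normSq_eq_norm_sq, ← Complex.mul_conj, map_sum, sum_mul_sum, ← sum_product']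

/-- mean square over the residues -/
lemma orth {q : ℕ} (hq : 0 < q) {a0 : ℤ} (ha : IsCoprime a0 (q : ℤ)) (S : Finset ℕ) (c : ℕ → ℂ)
    (hc : ∀ j, ‖c j‖ ≤ 1) :
    ∑ b ∈ range q, ‖∑ j ∈ S, c j * ee (b * ((j : ℝ) * a0 / q))‖ ^ 2 ≤
      q * (((S ×ˢ S).filter (fun p => p.1 % q = p.2 % q)).card : ℝ) := by
  have h1 : ((∑ b ∈ range q, ‖∑ j ∈ S, c j * ee (b * ((j : ℝ) * a0 / q))‖ ^ 2 : ℝ) : ℂ) =
      ∑ p ∈ (S ×ˢ S).filter (fun p => p.1 % q = p.2 % q), (q : ℂ) * (c p.1 * (starRingEnd ℂ) (c p.2)) := by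
    rw [Complex.ofReal_sum]
    simp_rw [normsq_sum]
    rw [sum_comm, sum_filter]
    apply sum_congr rfl
    intro p _
    have e1 : ∀ b ∈ range q, c p.1 * ee (b * ((p.1 : ℝ) * a0 / q)) *
        (starRingEnd ℂ) (c p.2 * ee (b * ((p.2 : ℝ) * a0 / q))) =
        (c p.1 * (starRingEnd ℂ) (c p.2)) * ee (b * ((((((p.1 : ℤ) - p.2) * a0 : ℤ)) : ℝ) / q)) := by
      intro b _
      rw [map_mul, ← ee_neg]
      have : ee (b * ((((((p.1 : ℤ) - p.2) * a0 : ℤ)) : ℝ) / q)) =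
          ee (b * ((p.1 : ℝ) * a0 / q)) * ee (-(b * ((p.2 : ℝ) * a0 / q))) := by
        rw [← ee_add]
        congr 1
        push_cast
        ring
      rw [this]
      ring
    rw [sum_congr rfl e1, ← mul_sum, sum_ee_range hq]
    have e2 : ((q : ℤ) ∣ ((p.1 : ℤ) - p.2) * a0) ↔ p.1 % q = p.2 % q := by
      constructor
      · intro h
        have h2 : (q : ℤ) ∣ (p.1 : ℤ) - p.2 := (ha.symm).dvd_of_dvd_mul_right h
        have h3 : (p.2 : ℤ) ≡ p.1 [ZMOD q] := (Int.modEq_iff_dvd).2 h2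
        have h4 : p.2 ≡ p.1 [MOD q] := (Int.natCast_modEq_iff).1 h3
        exact h4.symm
      · intro h
        have h4 : p.2 ≡ p.1 [MOD q] := h.symm
        have h3 : (p.2 : ℤ) ≡ p.1 [ZMOD q] := (Int.natCast_modEq_iff).2 h4
        exact Dvd.dvd.mul_right ((Int.modEq_iff_dvd).1 h3) _
    by_cases h : p.1 % q = p.2 % q
    · rw [if_pos (e2.2 h), if_pos h]; ring
    · rw [if_neg (fun h' => h (e2.1 h')), if_neg h, mul_zero]
  have h2 : (∑ b ∈ range q, ‖∑ j ∈ S, c j * ee (b * ((j : ℝ) * a0 / q))‖ ^ 2 : ℝ) =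
      ‖((∑ b ∈ range q, ‖∑ j ∈ S, c j * ee (b * ((j : ℝ) * a0 / q))‖ ^ 2 : ℝ) : ℂ)‖ := by
    rw [Complex.norm_real, Real.norm_of_nonneg]
    exact sum_nonneg (fun _ _ => by positivity)
  rw [h2, h1]
  calc _ ≤ ∑ p ∈ (S ×ˢ S).filter (fun p => p.1 % q = p.2 % q), ‖(q : ℂ) * (c p.1 * (starRingEnd ℂ) (c p.2))‖ :=
        norm_sum_le _ _
    _ ≤ ∑ p ∈ (S ×ˢ S).filter (fun p => p.1 % q = p.2 % q), (q : ℝ) := by
        apply sum_le_sum
        intro p _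
        rw [norm_mul, norm_mul, Complex.norm_natCast, RCLike.norm_conj]
        calc (q : ℝ) * (‖c p.1‖ * ‖c p.2‖) ≤ q * (1 * 1) := by
              apply mul_le_mul_of_nonneg_left _ (Nat.cast_nonneg _)
              exact mul_le_mul (hc _) (hc _) (norm_nonneg _) zero_le_one
          _ = q := by ring
    _ = _ := by rw [sum_const, nsmul_eq_mul, mul_comm]

/-- initial segments -/
lemma init_seg (P : ℕ → Prop) [DecidablePred P] (hP : ∀ a b, a ≤ b → P b → P a) (m n : ℕ) :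
    ∃ n', (Ico m n).filter P = Ico m n' := by
  by_cases h : ∀ a ∈ Ico m n, P a
  · exact ⟨n, filter_true_of_mem h⟩
  · push Not at h
    have hex : ∃ a, a ∈ Ico m n ∧ ¬ P a := h
    refine ⟨Nat.find hex, ?_⟩
    have h1 := Nat.find_spec hex
    rw [mem_Ico] at h1
    ext a
    rw [mem_filter, mem_Ico, mem_Ico]
    constructor
    · rintro ⟨h2, h3⟩
      refine ⟨h2.1, ?_⟩
      by_contra hge
      push Not at hge
      exact h1.2 (hP _ _ hge h3)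
    · rintro ⟨h2, h3⟩
      have h4 : a ∈ Ico m n := by rw [mem_Ico]; omega
      refine ⟨by omega, ?_⟩
      by_contra hPa
      exact Nat.find_min hex h3 ⟨h4, hPa⟩

/-- mean square over an arithmetic progression of frequencies -/
lemma mean_sq (m n : ℕ) (hmn : m ≤ n) (S : ℕ → Finset ℕ) (hS : ∀ a b, a ≤ b → S b ⊆ S a) (S0 : Finset ℕ)
    (hS0 : ∀ a, m ≤ a → S a ⊆ S0) (c : ℕ → ℂ) (hc : ∀ j, ‖c j‖ ≤ 1) (γ : ℝ) (Δ : ℕ) (E : ℝ) (hE : 0 ≤ E)
    (hΔ : ∀ i ∈ S0, ∀ j ∈ S0, i + Δ < j ∨ j + Δ < i → 1 ≤ E * (2 * nd (((i : ℝ) - j) * γ))) :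
    ∑ a ∈ Ico m n, ‖∑ j ∈ S a, c j * ee (a * ((j : ℝ) * γ))‖ ^ 2 ≤
      ((n - m : ℕ) : ℝ) * (((S0 ×ˢ S0).filter (fun p => ¬ (p.1 + Δ < p.2 ∨ p.2 + Δ < p.1))).card : ℝ) +
      E * ((S0.card : ℝ)) ^ 2 := by
  classical
  have h1 : ((∑ a ∈ Ico m n, ‖∑ j ∈ S a, c j * ee (a * ((j : ℝ) * γ))‖ ^ 2 : ℝ) : ℂ) =
      ∑ p ∈ S0 ×ˢ S0, (c p.1 * (starRingEnd ℂ) (c p.2)) *
        ∑ a ∈ (Ico m n).filter (fun a => p.1 ∈ S a ∧ p.2 ∈ S a), ee (a * (((p.1 : ℝ) - p.2) * γ)) := by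
    rw [Complex.ofReal_sum]
    simp_rw [normsq_sum, mul_sum, sum_filter]
    rw [sum_comm]
    apply sum_congr rfl
    intro a ha
    rw [mem_Ico] at ha
    rw [← sum_filter]
    have hsub : (S0 ×ˢ S0).filter (fun p => p.1 ∈ S a ∧ p.2 ∈ S a) = S a ×ˢ S a := by
      ext p
      rw [mem_filter, mem_product, mem_product]
      exact ⟨fun h => h.2, fun h => ⟨⟨hS0 a ha.1 h.1, hS0 a ha.1 h.2⟩, h⟩⟩
    rw [hsub]
    apply sum_congr rfl
    intro p _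
    rw [map_mul, ← ee_neg]
    have : ee (a * (((p.1 : ℝ) - p.2) * γ)) = ee (a * ((p.1 : ℝ) * γ)) * ee (-(a * ((p.2 : ℝ) * γ))) := by
      rw [← ee_add]
      congr 1
      ring
    rw [this]
    ring
  have h2 : (∑ a ∈ Ico m n, ‖∑ j ∈ S a, c j * ee (a * ((j : ℝ) * γ))‖ ^ 2 : ℝ) =
      ‖((∑ a ∈ Ico m n, ‖∑ j ∈ S a, c j * ee (a * ((j : ℝ) * γ))‖ ^ 2 : ℝ) : ℂ)‖ := by
    rw [Complex.norm_real, Real.norm_of_nonneg]
    exact sum_nonneg (fun _ _ => by positivity)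
  rw [h2, h1]
  set Q : ℕ × ℕ → Prop := fun p => (p.1 + Δ < p.2 ∨ p.2 + Δ < p.1) with hQ
  have h3 : ∀ p ∈ S0 ×ˢ S0, ‖(c p.1 * (starRingEnd ℂ) (c p.2)) *
        ∑ a ∈ (Ico m n).filter (fun a => p.1 ∈ S a ∧ p.2 ∈ S a), ee (a * (((p.1 : ℝ) - p.2) * γ))‖ ≤
      (if ¬ Q p then ((n - m : ℕ) : ℝ) else 0) + E := by
    intro p hp
    rw [mem_product] at hp
    rw [norm_mul, norm_mul, RCLike.norm_conj]
    have h4 : ‖c p.1‖ * ‖c p.2‖ ≤ 1 := mul_le_one₀ (hc _) (norm_nonneg _) (hc _)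
    refine (mul_le_of_le_one_left (norm_nonneg _) h4).trans ?_
    by_cases hq : Q p
    · rw [if_neg (not_not.2 hq), zero_add]
      obtain ⟨n', hn'⟩ := init_seg (fun a => p.1 ∈ S a ∧ p.2 ∈ S a)
        (fun a b hab h => ⟨hS a b hab h.1, hS a b hab h.2⟩) m n
      rw [hn']
      have h5 := geom_Ico m n' (((p.1 : ℝ) - p.2) * γ)
      have h6 := hΔ p.1 hp.1 p.2 hp.2 hq
      set x := ‖∑ a ∈ Ico m n', ee (a * (((p.1 : ℝ) - p.2) * γ))‖ with hx
      set y := 2 * nd (((p.1 : ℝ) - p.2) * γ) with hy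
      have hy0 : 0 ≤ y := by rw [hy]; linarith [nd_nonneg (((p.1 : ℝ) - p.2) * γ)]
      have hy1 : 0 < y := by
        rcases hy0.lt_or_eq with h | h
        · exact h
        · rw [← h, mul_zero] at h6; linarith
      have h7 : x * y ≤ E * y := h5.trans h6
      exact le_of_mul_le_mul_right h7 hy1
    · rw [if_pos hq]
      have h5 : ‖∑ a ∈ (Ico m n).filter (fun a => p.1 ∈ S a ∧ p.2 ∈ S a), ee (a * (((p.1 : ℝ) - p.2) * γ))‖ ≤
          ((n - m : ℕ) : ℝ) := by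
        refine (norm_sum_ee_le _ _).trans ?_
        have := card_filter_le (Ico m n) (fun a => p.1 ∈ S a ∧ p.2 ∈ S a)
        rw [Nat.card_Ico] at this
        exact_mod_cast this
      linarith
  refine (norm_sum_le _ _).trans ((sum_le_sum h3).trans ?_)
  rw [sum_add_distrib, ← sum_filter, sum_const, sum_const, nsmul_eq_mul, nsmul_eq_mul, card_product]
  push_cast
  rw [mul_comm ((n - m : ℕ) : ℝ)]
  apply add_le_add (le_refl _)
  rw [sq, mul_comm]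

end Pool.Agent.H.MP_0ec261_nt.AA
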