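import Pool.Agent.H.MP_0ec261_nt.AA.Cnt
import Pool.Agent.H.MP_0ec261_nt.AA.Orth
import Pool.Agent.H.MP_0ec261_nt.AA.Dec

/-!
The bilinear sums for frequencies close to a rational number with a small denominator.
-/

open Finset

namespace Pool.Agent.H.MP_0ec261_nt.AA

/-- the inner sum of a block -/
noncomputable def FB (X k l q : ℕ) (a0 : ℤ) (β : ℝ) (a b : ℕ) : ℂ :=
  ∑ j ∈ Kb X (a * 2 ^ (l - k)),
    ee (a * ((j : ℝ) * (((2 ^ (l - k) : ℕ) : ℝ) * β))) * ee (b * ((j : ℝ) * a0 / q))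

lemma blk {X k l a q : ℕ} {a0 : ℤ} {β D : ℝ} (hq : 0 < q) (hql : q < 2 ^ l) (hkl : k ≤ l) (ha : 2 ^ k ≤ a)
    (hD : ∀ b, ((((Ib k l a).filter (fun r => r % q = b)).card : ℕ) : ℝ) ≤ D) :
    ‖∑ p ∈ Ib k l a ×ˢ Kb X (a * 2 ^ (l - k)), ee (((p.1 * p.2 : ℕ) : ℝ) * (a0 / q + β))‖ ≤
      D * ∑ b ∈ (range q).filter (fun b => Nat.Coprime q b), ‖FB X k l q a0 β a b‖ +
        2 * Real.pi * (X : ℝ) ^ 2 * |β| / (a : ℝ) ^ 2 := by
  set K := 2 ^ (l - k) with hK
  set R := a * K with hR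
  have ha0 : 0 < a := lt_of_lt_of_le (by positivity) ha
  have hK0 : 0 < K := by positivity
  have hR0 : 0 < R := Nat.mul_pos ha0 hK0
  have hKr : (0 : ℝ) < K := by exact_mod_cast hK0
  have hRr : (0 : ℝ) < R := by exact_mod_cast hR0
  have har : (0 : ℝ) < a := by exact_mod_cast ha0
  have hqr : (0 : ℝ) < q := by exact_mod_cast hq
  have hlow : 2 ^ l ≤ R := by
    calc 2 ^ l = 2 ^ k * 2 ^ (l - k) := by rw [← pow_add]; congr 1; omega
      _ ≤ a * 2 ^ (l - k) := Nat.mul_le_mul_right _ ha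
  have hRcast : (R : ℝ) = a * K := by rw [hR]; push_cast; ring
  -- replacement of the inner sum
  have h1 : ∀ r ∈ Ib k l a, ∀ j ∈ Kb X R,
      ‖ee (((r * j : ℕ) : ℝ) * (a0 / q + β)) -
        ee (a * ((j : ℝ) * ((K : ℝ) * β))) * ee ((r % q : ℕ) * ((j : ℝ) * a0 / q))‖ ≤
        2 * Real.pi * ((X : ℝ) / a * |β|) := by
    intro r hr j hj
    rw [mem_Ib] at hr
    have hj' := mem_Kb.1 hj
    obtain ⟨i, hi⟩ : ∃ i, i = r / q := ⟨_, rfl⟩
    have hmod : (r : ℝ) = q * (i : ℝ) + ((r % q : ℕ) : ℝ) := by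
      have := Nat.div_add_mod r q
      rw [← hi] at this
      exact_mod_cast this.symm
    have e1 : ee (((r * j : ℕ) : ℝ) * (a0 / q + β)) =
        ee ((r % q : ℕ) * ((j : ℝ) * a0 / q) + (r : ℝ) * j * β) := by
      have e0 : (r : ℝ) * ((j : ℝ) * a0 / q) = i * j * a0 + ((r % q : ℕ) : ℝ) * ((j : ℝ) * a0 / q) := by
        rw [hmod]
        field_simp
      have : ((r * j : ℕ) : ℝ) * (a0 / q + β) =
          ((r % q : ℕ) * ((j : ℝ) * a0 / q) + (r : ℝ) * j * β) + (((i : ℤ) * j * a0 : ℤ) : ℝ) := by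
        push_cast
        have : (r : ℝ) * j * (a0 / q + β) = (r : ℝ) * ((j : ℝ) * a0 / q) + r * j * β := by ring
        rw [this, e0]
        ring
      rw [this, ee_add_int]
    rw [e1, ← ee_add]
    refine (norm_ee_sub _ _).trans ?_
    apply mul_le_mul_of_nonneg_left _ (by positivity)
    have e2 : ((r % q : ℕ) : ℝ) * ((j : ℝ) * a0 / q) + (r : ℝ) * j * β -
        (a * ((j : ℝ) * ((K : ℝ) * β)) + ((r % q : ℕ) : ℝ) * ((j : ℝ) * a0 / q)) = (j : ℝ) * (r - R) * β := by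
      rw [hRcast]; ring
    rw [e2, abs_mul]
    apply mul_le_mul_of_nonneg_right _ (abs_nonneg _)
    rw [abs_mul, Nat.abs_cast]
    have h3 : |(r : ℝ) - R| ≤ K := by
      have h4 : (R : ℝ) ≤ r := by exact_mod_cast hr.1.1
      have h5 : (r : ℝ) ≤ R + K := by exact_mod_cast hr.1.2.le
      rw [abs_of_nonneg (by linarith)]
      linarith
    have h4 : (j : ℝ) ≤ (X : ℝ) / R := by
      have : (j : ℝ) ≤ ((X / R : ℕ) : ℝ) := by exact_mod_cast hj'.1.2
      exact this.trans Nat.cast_div_le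
    calc (j : ℝ) * |(r : ℝ) - R| ≤ ((X : ℝ) / R) * K := mul_le_mul h4 h3 (abs_nonneg _) (by positivity)
      _ = (X : ℝ) / a := by rw [hRcast]; field_simp
  have h2 : ‖∑ p ∈ Ib k l a ×ˢ Kb X R, ee (((p.1 * p.2 : ℕ) : ℝ) * (a0 / q + β)) -
      ∑ r ∈ Ib k l a, FB X k l q a0 β a (r % q)‖ ≤ 2 * Real.pi * (X : ℝ) ^ 2 * |β| / (a : ℝ) ^ 2 := by
    have e5 : ∑ p ∈ Ib k l a ×ˢ Kb X R, ee (((p.1 * p.2 : ℕ) : ℝ) * (a0 / q + β)) -
        ∑ r ∈ Ib k l a, FB X k l q a0 β a (r % q) = ∑ r ∈ Ib k l a, ∑ j ∈ Kb X R, (ee (((r * j : ℕ) : ℝ) * (a0 / q + β)) -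
          ee (a * ((j : ℝ) * ((K : ℝ) * β))) * ee ((r % q : ℕ) * ((j : ℝ) * a0 / q))) := by
      rw [sum_product, ← sum_sub_distrib]
      apply sum_congr rfl
      intro r _
      unfold FB
      rw [← sum_sub_distrib]
    rw [e5]
    calc _ ≤ ∑ r ∈ Ib k l a, ‖∑ j ∈ Kb X R, (ee (((r * j : ℕ) : ℝ) * (a0 / q + β)) -
          ee (a * ((j : ℝ) * ((K : ℝ) * β))) * ee ((r % q : ℕ) * ((j : ℝ) * a0 / q)))‖ := norm_sum_le _ _
      _ ≤ ∑ r ∈ Ib k l a, ∑ j ∈ Kb X R, ‖(ee (((r * j : ℕ) : ℝ) * (a0 / q + β)) -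
          ee (a * ((j : ℝ) * ((K : ℝ) * β))) * ee ((r % q : ℕ) * ((j : ℝ) * a0 / q)))‖ :=
          sum_le_sum (fun _ _ => norm_sum_le _ _)
      _ ≤ ∑ r ∈ Ib k l a, ∑ j ∈ Kb X R, 2 * Real.pi * ((X : ℝ) / a * |β|) :=
          sum_le_sum (fun r hr => sum_le_sum (fun j hj => h1 r hr j hj))
      _ = ((Ib k l a).card : ℝ) * (((Kb X R).card : ℝ) * (2 * Real.pi * ((X : ℝ) / a * |β|))) := by
          simp only [sum_const, nsmul_eq_mul]
      _ ≤ (K : ℝ) * (((X : ℝ) / R) * (2 * Real.pi * ((X : ℝ) / a * |β|))) := by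
          have h3 : (Ib k l a).card ≤ K := by
            unfold Ib
            refine (card_filter_le _ _).trans ?_
            rw [Nat.card_Ico]
            omega
          have h4 : ((Kb X R).card : ℝ) ≤ (X : ℝ) / R := by
            have : (Kb X R).card ≤ X / R := by
              have hs : Kb X R ⊆ Icc 1 (X / R) := by
                intro j hj
                rw [mem_Kb] at hj
                rw [mem_Icc]
                exact hj.1
              have := card_le_card hs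
              rwa [Nat.card_Icc, Nat.add_sub_cancel] at this
            have h5 : ((Kb X R).card : ℝ) ≤ ((X / R : ℕ) : ℝ) := by exact_mod_cast this
            exact h5.trans Nat.cast_div_le
          have h5 : 0 ≤ 2 * Real.pi * ((X : ℝ) / a * |β|) := by positivity
          apply mul_le_mul (by exact_mod_cast h3) _ (by positivity) hKr.le
          exact mul_le_mul_of_nonneg_right h4 h5
      _ = _ := by rw [hRcast]; field_simp
  -- grouping
  have h3 : ‖∑ r ∈ Ib k l a, FB X k l q a0 β a (r % q)‖ ≤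
      D * ∑ b ∈ (range q).filter (fun b => Nat.Coprime q b), ‖FB X k l q a0 β a b‖ := by
    have hmaps : ∀ r ∈ Ib k l a, r % q ∈ (range q).filter (fun b => Nat.Coprime q b) := by
      intro r hr
      rw [mem_Ib] at hr
      rw [mem_filter, mem_range]
      refine ⟨Nat.mod_lt _ hq, ?_⟩
      have h2 : Nat.Coprime r q := by
        rw [hr.2.coprime_iff_not_dvd]
        intro h3
        have h4 := Nat.le_of_dvd hq h3
        have h5 : R ≤ r := hr.1.1
        omega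
      unfold Nat.Coprime at h2 ⊢
      rw [Nat.gcd_comm, ← Nat.gcd_rec, Nat.gcd_comm]
      exact h2
    calc _ ≤ ∑ r ∈ Ib k l a, ‖FB X k l q a0 β a (r % q)‖ := norm_sum_le _ _
      _ = ∑ b ∈ (range q).filter (fun b => Nat.Coprime q b), ∑ r ∈ (Ib k l a).filter (fun r => r % q = b),
          ‖FB X k l q a0 β a (r % q)‖ := (sum_fiberwise_of_maps_to hmaps _).symm
      _ = ∑ b ∈ (range q).filter (fun b => Nat.Coprime q b),
          (((Ib k l a).filter (fun r => r % q = b)).card : ℝ) * ‖FB X k l q a0 β a b‖ := by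
          apply sum_congr rfl
          intro b _
          rw [← nsmul_eq_mul, ← sum_const]
          apply sum_congr rfl
          intro r hr
          rw [(mem_filter.1 hr).2]
      _ ≤ ∑ b ∈ (range q).filter (fun b => Nat.Coprime q b), D * ‖FB X k l q a0 β a b‖ := by
          apply sum_le_sum
          intro b _
          exact mul_le_mul_of_nonneg_right (hD b) (norm_nonneg _)
      _ = _ := by rw [mul_sum]
  have e3 : ∑ p ∈ Ib k l a ×ˢ Kb X R, ee (((p.1 * p.2 : ℕ) : ℝ) * (a0 / q + β)) =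
      (∑ p ∈ Ib k l a ×ˢ Kb X R, ee (((p.1 * p.2 : ℕ) : ℝ) * (a0 / q + β)) -
      ∑ r ∈ Ib k l a, FB X k l q a0 β a (r % q)) + ∑ r ∈ Ib k l a, FB X k l q a0 β a (r % q) := by ring
  rw [e3]
  refine (norm_add_le _ _).trans ?_
  linarith

/-- mean square over the residue classes -/
lemma FB_sq1 {X k l q a H w : ℕ} {a0 : ℤ} {β : ℝ} (ha0 : IsCoprime a0 (q : ℤ)) (hw : 1000001 ≤ w)
    (hwR : 2 ^ w ≤ a * 2 ^ (l - k)) (hXH : X / (a * 2 ^ (l - k)) ≤ H) (hq : 0 < q)
    (hqw : q < 2 ^ (w - 1)) (hH : 2 ^ (244 * w) * q ≤ H) :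
    ∑ b ∈ (range q).filter (fun b => Nat.Coprime q b), ‖FB X k l q a0 β a b‖ ≤
      Real.sqrt q * (2 * C1 * (H : ℝ)) / w := by
  have hφ : (0 : ℝ) < q.totient := by exact_mod_cast Nat.totient_pos.2 hq
  have hq0 : (0 : ℝ) < q := by exact_mod_cast hq
  have hw0 : (0 : ℝ) < w := by exact_mod_cast (by omega : 0 < w)
  have hC := C1_pos
  have h1 : ∑ b ∈ (range q).filter (fun b => Nat.Coprime q b), ‖FB X k l q a0 β a b‖ ^ 2 ≤
      q * ((2 * C1 * (H : ℝ)) ^ 2 / (q.totient * (w : ℝ) ^ 2)) := by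
    calc _ ≤ ∑ b ∈ range q, ‖FB X k l q a0 β a b‖ ^ 2 :=
          sum_le_sum_of_subset_of_nonneg (filter_subset _ _) (fun _ _ _ => sq_nonneg _)
      _ ≤ q * (((Kb X (a * 2 ^ (l - k)) ×ˢ Kb X (a * 2 ^ (l - k))).filter (fun p => p.1 % q = p.2 % q)).card : ℝ) := by
          unfold FB
          exact orth hq ha0 (Kb X (a * 2 ^ (l - k))) (fun j => ee (a * ((j : ℝ) * (((2 ^ (l - k) : ℕ) : ℝ) * β))))
            (fun j => (norm_ee _).le)
      _ ≤ _ := by
          apply mul_le_mul_of_nonneg_left _ hq0.le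
          exact Kb_pairs hw hwR hXH hq hqw hH
  have h2 : (∑ b ∈ (range q).filter (fun b => Nat.Coprime q b), ‖FB X k l q a0 β a b‖) ^ 2 ≤
      (q.totient : ℝ) * ∑ b ∈ (range q).filter (fun b => Nat.Coprime q b), ‖FB X k l q a0 β a b‖ ^ 2 := by
    have := sq_sum_le_card_mul_sum_sq (s := (range q).filter (fun b => Nat.Coprime q b))
      (f := fun b => ‖FB X k l q a0 β a b‖)
    exact this
  apply (pow_le_pow_iff_left₀ (sum_nonneg (fun _ _ => norm_nonneg _)) (by positivity) two_ne_zero).1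
  refine h2.trans ((mul_le_mul_of_nonneg_left h1 hφ.le).trans (le_of_eq ?_))
  rw [div_pow, mul_pow (Real.sqrt q), Real.sq_sqrt hq0.le]
  field_simp

end Pool.Agent.H.MP_0ec261_nt.AA
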