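import Pool.Agent.H.MP_0ec261_nt.AA.Core
import Pool.Agent.H.MP_3e6494_nt.helper50.T3Cnt

/-!
The exponential sum over primes near a rational number with a small denominator.
-/

open Finset Filter

namespace Pool.Agent.H.MP_0ec261_nt.AA

lemma tot_bound : ∃ C : ℝ, 1 ≤ C ∧ ∀ q : ℕ, 0 < q → (q : ℝ) / q.totient ≤ C * (q : ℝ) ^ (1 / 4 : ℝ) := by
  obtain ⟨C, hC1, hC⟩ := Pool.Agent.H.MP_3e6494_nt.T3Cnt.divisor_bound (1 / 4) (by norm_num)
  refine ⟨C, hC1, fun q hq => ?_⟩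
  refine le_trans ?_ (hC q hq.ne')
  have hφ : (0 : ℝ) < q.totient := by exact_mod_cast Nat.totient_pos.2 hq
  rw [div_le_iff₀ hφ]
  have h1 : (2 : ℝ) ^ q.primeFactors.card ≤ (q.divisors.card : ℝ) := by
    exact_mod_cast two_pow_omega_le hq.ne'
  have h2 : (q.totient : ℝ) = q * ∏ p ∈ q.primeFactors, (1 - (p : ℝ)⁻¹) := by
    have := Nat.totient_eq_mul_prod_factors q
    have h3 : ((q.totient : ℚ) : ℝ) = ((q * ∏ p ∈ q.primeFactors, (1 - (p : ℚ)⁻¹) : ℚ) : ℝ) := by rw [this]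
    push_cast at h3
    exact h3
  have h3 : (1 / 2 : ℝ) ^ q.primeFactors.card ≤ ∏ p ∈ q.primeFactors, (1 - (p : ℝ)⁻¹) := by
    rw [← prod_const]
    apply Finset.prod_le_prod
    · intro p _; norm_num
    · intro p hp
      have hp2 : (2 : ℝ) ≤ p := by exact_mod_cast (Nat.prime_of_mem_primeFactors hp).two_le
      have : (p : ℝ)⁻¹ ≤ 2⁻¹ := inv_anti₀ (by norm_num) hp2
      linarith
  have hq0 : (0 : ℝ) < q := by exact_mod_cast hq
  have h4 : (q : ℝ) ≤ 2 ^ q.primeFactors.card * q.totient := by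
    rw [h2]
    have h5 : (2 : ℝ) ^ q.primeFactors.card * (1 / 2) ^ q.primeFactors.card = 1 := by
      rw [← mul_pow]; norm_num
    calc (q : ℝ) = q * (2 ^ q.primeFactors.card * (1 / 2) ^ q.primeFactors.card) := by rw [h5, mul_one]
      _ ≤ q * (2 ^ q.primeFactors.card * ∏ p ∈ q.primeFactors, (1 - (p : ℝ)⁻¹)) := by gcongr
      _ = _ := by ring
  exact h4.trans (mul_le_mul_of_nonneg_right h1 hφ.le)

lemma exists_pow_two {y : ℝ} (hy : 1 ≤ y) : ∃ k : ℕ, y ≤ 2 ^ k ∧ (2 : ℝ) ^ k ≤ 2 * y := by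
  obtain ⟨n, hn1, hn2⟩ := exists_nat_pow_near hy (by norm_num : (1 : ℝ) < 2)
  refine ⟨n + 1, hn2.le, ?_⟩
  rw [pow_succ]
  linarith

lemma log_two_bounds {X : ℕ} (hX : 3 ≤ Real.log X) :
    Real.log X ≤ Nat.log 2 X ∧ ((Nat.log 2 X : ℕ) : ℝ) ≤ 2 * Real.log X := by
  have hX0 : X ≠ 0 := by
    rintro rfl
    simp at hX
    linarith
  have hXr : (0 : ℝ) < X := by exact_mod_cast Nat.pos_of_ne_zero hX0
  have l1 := Real.log_two_gt_d9
  have l2 := Real.log_two_lt_d9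
  constructor
  · have h1 : X < 2 ^ (Nat.log 2 X + 1) := Nat.lt_pow_succ_log_self (by norm_num) X
    have h2 : Real.log X ≤ ((Nat.log 2 X + 1 : ℕ) : ℝ) * Real.log 2 := by
      rw [← Real.log_pow]
      apply Real.log_le_log hXr
      exact_mod_cast h1.le
    push_cast at h2
    nlinarith
  · have h1 : 2 ^ (Nat.log 2 X) ≤ X := Nat.pow_log_le_self 2 hX0
    have h2 : ((Nat.log 2 X : ℕ) : ℝ) * Real.log 2 ≤ Real.log X := by
      rw [← Real.log_pow]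
      apply Real.log_le_log (by positivity)
      exact_mod_cast h1
    have : (0 : ℝ) ≤ (Nat.log 2 X : ℕ) := Nat.cast_nonneg _
    nlinarith

/-- the two eventual conditions -/
lemma ev_cond : ∀ᶠ X : ℕ in atTop, 10000 * (Real.log X) ^ 120 ≤ X ∧
    4000 * (492 + 48 * Real.log (Real.log X)) ≤ (Real.log X) ^ (1 / 20 : ℝ) ∧ 3 ≤ Real.log X := by
  have e1 : Tendsto (fun X : ℕ => Real.log X) atTop atTop :=
    Real.tendsto_log_atTop.comp tendsto_natCast_atTop_atTop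
  have h1 : ∀ᶠ X : ℕ in atTop, 10000 * (Real.log X) ^ 120 ≤ X := by
    have h1 := (Real.isLittleO_pow_log_id_atTop (n := 120)).bound (c := (10000 : ℝ)⁻¹) (by positivity)
    have h2 := tendsto_natCast_atTop_atTop (R := ℝ) |>.eventually h1
    filter_upwards [h2, eventually_ge_atTop 1] with X hX hX1
    have hlog : 0 ≤ Real.log X := Real.log_nonneg (by exact_mod_cast hX1)
    rw [Real.norm_of_nonneg (by positivity), id, Real.norm_of_nonneg (by positivity)] at hX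
    linarith
  have h2 : ∀ᶠ u : ℝ in atTop, 4000 * (492 + 48 * Real.log u) ≤ u ^ (1 / 20 : ℝ) := by
    have a1 := (isLittleO_log_rpow_atTop (r := 1 / 20) (by norm_num)).bound (c := 1 / 400000) (by norm_num)
    have a2 := (tendsto_rpow_atTop (y := 1 / 20) (by norm_num)).eventually_ge_atTop (4000000 : ℝ)
    filter_upwards [a1, a2, eventually_ge_atTop 1] with u h3 h4 h5
    have h6 : 0 ≤ Real.log u := Real.log_nonneg h5
    have h7 : 0 ≤ u ^ (1 / 20 : ℝ) := by positivity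
    rw [Real.norm_of_nonneg h6, Real.norm_of_nonneg h7] at h3
    linarith
  filter_upwards [h1, e1.eventually h2, e1.eventually_ge_atTop 3] with X a b c
  exact ⟨a, b, c⟩

lemma aux1 {l L s t : ℝ} (h2 : L < 2 * s * (t + 1)) (h : l ≤ L) (h3 : 4 * s ≤ l) : l ≤ t * (4 * s) := by
  nlinarith

lemma aux2 {v s c : ℝ} (h : 0 ≤ c) (h2 : s * 4000 ≤ v) : 1000 * c * (4 * s) ≤ c * v := by
  nlinarith

lemma aux3 {k l2 L : ℝ} (h : k * l2 ≤ l2 + 36 * L) (hl : 0.6931471803 < l2) (hL : 0 ≤ L) : k ≤ 1 + 60 * L := by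
  nlinarith

lemma aux4 {v w l2 L : ℝ} (h4 : v ≤ w) (h5 : 192000 * L ≤ v) (hv : 0 < v) (hl : 0.6931471803 < l2) :
    12 * L < w * l2 := by
  nlinarith

lemma aux5 {x a b : ℝ} (h1 : x ≤ a) (h2 : 2 ≤ b) (h3 : 0 ≤ a) : 2 * x ≤ a * b := by
  nlinarith

lemma aux6 {c a b : ℝ} (hc : 1 ≤ c) (h : a ≤ b) (hb : 0 ≤ b) : c * a ≤ 2 * c * b := by
  nlinarith

lemma aux7 {a : ℝ} (h : 1 ≤ a) : a ≤ a ^ 2 := by
  nlinarith

lemma aux8 {c b : ℝ} (hc : 1 ≤ c) (hb : 0 ≤ b) : 2 * b ≤ 2 * c * b := by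
  nlinarith

lemma aux9 {l s t l2 : ℝ} (h3 : l ≤ 4 * s * t) (h5 : 0 ≤ 4 * s * t) (hl : 0.6931471803 < l2) :
    l ≤ 4 * s * (2 * t * l2) := by
  nlinarith

lemma aux10 {s t : ℕ} (h : 488 ≤ s) : 2 * t ≤ t * s := by
  nlinarith

set_option maxHeartbeats 8000000 in
/-- **Primes near a rational with a small denominator, no loss of logarithms.** -/
theorem caseI : ∃ C : ℝ, 1 ≤ C ∧ ∃ X₀ : ℕ, ∀ X : ℕ, X₀ ≤ X → ∀ (q : ℕ) (a0 : ℤ) (β K : ℝ), 0 < q →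
    IsCoprime a0 (q : ℤ) → (q : ℝ) ≤ (Real.log X) ^ 12 → X * |β| ≤ (Real.log X) ^ 12 → 1 ≤ K →
    (K ≤ q ∨ K ≤ X * |β|) →
    ‖∑ p ∈ (Icc 1 X).filter Nat.Prime, ee (p * (a0 / q + β))‖ ≤
      C * (K ^ (-(1 / 5) : ℝ) + (Real.log X) ^ (-(9 / 10) : ℝ)) * (X / Real.log X) := by
  obtain ⟨Cτ, hCτ, hτ⟩ := tot_bound
  obtain ⟨X₀, hX₀⟩ := ev_cond.exists_forall_of_atTop
  have hC1 := C1_pos
  set A1 : ℝ := 4 * Real.exp 17 * 2100 * (1 + Cτ) with hA1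
  set A2 : ℝ := 6 * (2 * C1) ^ 2 * Cτ * 1960 ^ 2 * 2100 ^ 2 with hA2
  have hA10 : 0 < A1 := by positivity
  have hA20 : 0 < A2 := by positivity
  refine ⟨A1 + A2 + 100, by linarith, X₀, ?_⟩
  intro X hX q a0 β K hq ha0 hqT hβT hK1 hKcase
  obtain ⟨hE2, hE1, hℓ3⟩ := hX₀ X hX
  set ℓ := Real.log X with hℓ
  obtain ⟨hLg1, hLg2⟩ := log_two_bounds hℓ3
  obtain ⟨Lg, hLg⟩ : ∃ Lg : ℕ, Lg = Nat.log 2 X := ⟨_, rfl⟩
  rw [← hLg] at hLg1 hLg2
  have hℓ0 : 0 < ℓ := by linarith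
  have hX0 : (0 : ℝ) < X := by
    have : (0 : ℝ) < 10000 * ℓ ^ 120 := by positivity
    linarith
  have hφ : (0 : ℝ) < q.totient := by exact_mod_cast Nat.totient_pos.2 hq
  have hq0 : (0 : ℝ) < q := by exact_mod_cast hq
  have hq1 : (1 : ℝ) ≤ q := by exact_mod_cast hq
  have hKT : K ≤ ℓ ^ 12 := by
    rcases hKcase with h | h <;> linarith
  have hK0 : 0 < K := by linarith
  have hlogK0 : 0 ≤ Real.log K := Real.log_nonneg hK1
  -- size of log K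
  have hlogK : Real.log K ≤ 12 * Real.log ℓ := by
    have := Real.log_le_log hK0 hKT
    rw [Real.log_pow] at this
    exact_mod_cast this
  have hℓ120 : (1968000 : ℝ) ≤ ℓ ^ (1 / 20 : ℝ) := by
    have : 0 ≤ Real.log ℓ := Real.log_nonneg (by linarith)
    linarith
  have hlogℓ0 : 0 ≤ Real.log ℓ := Real.log_nonneg (by linarith)
  -- ℓ is large
  set v := ℓ ^ (1 / 20 : ℝ) with hv
  have hv0 : 0 < v := by positivity
  have hv20 : v ^ 20 = ℓ := by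
    rw [hv, ← Real.rpow_natCast, ← Real.rpow_mul hℓ0.le]
    norm_num
  have hvℓ : v ≤ ℓ := by
    rw [← hv20]
    calc v = v ^ 1 := (pow_one v).symm
      _ ≤ v ^ 20 := pow_le_pow_right₀ (by linarith) (by norm_num)
  -- sieve parameters
  obtain ⟨R, hR⟩ : ∃ R : ℕ, R = 115 + ⌈Real.log K⌉₊ := ⟨_, rfl⟩
  obtain ⟨s, hs⟩ : ∃ s : ℕ, s = 4 * R + 28 := ⟨_, rfl⟩
  have hceil1 : Real.log K ≤ ⌈Real.log K⌉₊ := Nat.le_ceil _
  have hceil2 : (⌈Real.log K⌉₊ : ℝ) < Real.log K + 1 := Nat.ceil_lt_add_one hlogK0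
  have hs1 : (s : ℝ) ≤ 492 + 4 * Real.log K := by
    rw [hs, hR]; push_cast; linarith
  have hs2 : (s : ℝ) * 4000 ≤ v := by linarith
  have hs3 : (s : ℝ) ≤ 2100 * K ^ (1 / 400 : ℝ) := by
    have h1 := Real.log_le_rpow_div hK0.le (show (0 : ℝ) < 1 / 400 by norm_num)
    have h2 : 1 ≤ K ^ (1 / 400 : ℝ) := Real.one_le_rpow hK1 (by norm_num)
    have h3 : K ^ (1 / 400 : ℝ) / (1 / 400) = 400 * K ^ (1 / 400 : ℝ) := by ring
    rw [h3] at h1
    linarith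
  have hs0 : 488 ≤ s := by rw [hs, hR]; omega
  have hs0r : (488 : ℝ) ≤ s := by exact_mod_cast hs0
  obtain ⟨t, ht⟩ : ∃ t : ℕ, t = Lg / (2 * s) := ⟨_, rfl⟩
  have ht1 : ℓ / (4 * s) ≤ t := by
    have h1 := Nat.lt_mul_div_succ Lg (show 0 < 2 * s by omega)
    rw [← ht] at h1
    have h2 : (Lg : ℝ) < 2 * s * ((t : ℝ) + 1) := by exact_mod_cast h1
    have h3 : (4 : ℝ) * s ≤ ℓ := by linarith
    rw [div_le_iff₀ (by linarith)]
    exact aux1 h2 hLg1 h3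
  have ht2 : 1000 * v ^ 19 ≤ t := by
    refine le_trans ?_ ht1
    rw [le_div_iff₀ (by linarith), ← hv20]
    have : v ^ 20 = v ^ 19 * v := by ring
    rw [this]
    have h4 : 0 < v ^ 19 := by positivity
    exact aux2 h4.le hs2
  have hv19 : v ≤ v ^ 19 := by
    calc v = v ^ 1 := (pow_one v).symm
      _ ≤ v ^ 19 := pow_le_pow_right₀ (by linarith) (by norm_num)
  have ht3 : (1000000000 : ℝ) ≤ t := by linarith
  have ht4 : 1000000000 ≤ t := by exact_mod_cast ht3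
  obtain ⟨w, hw⟩ : ∃ w : ℕ, w = t / 245 := ⟨_, rfl⟩
  have hw1 : (t : ℝ) / 490 ≤ w := by
    have h1 := Nat.lt_mul_div_succ t (show 0 < 245 by norm_num)
    rw [← hw] at h1
    have h2 : (t : ℝ) < 245 * ((w : ℝ) + 1) := by exact_mod_cast h1
    rw [div_le_iff₀ (by norm_num)]
    linarith
  have hw2 : 1000001 ≤ w := by rw [hw]; omega
  have hw3 : 245 * w ≤ t := by rw [hw]; exact Nat.mul_div_le t 245
  have hw0 : (0 : ℝ) < w := by exact_mod_cast (by omega : 0 < w)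
  -- the number of blocks
  obtain ⟨k, hk1, hk2⟩ := exists_pow_two (y := ℓ ^ 36) (one_le_pow₀ (by linarith))
  have hl2 := Real.log_two_gt_d9
  have hkt : k ≤ t := by
    have h1 : (k : ℝ) * Real.log 2 ≤ Real.log 2 + 36 * Real.log ℓ := by
      rw [← Real.log_pow, show (36 : ℝ) * Real.log ℓ = Real.log (ℓ ^ 36) by rw [Real.log_pow]; norm_num,
        ← Real.log_mul (by norm_num) (by positivity)]
      exact Real.log_le_log (by positivity) hk2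
    have h2 : (k : ℝ) ≤ 1 + 60 * Real.log ℓ := by
      have hk0 : (0 : ℝ) ≤ k := Nat.cast_nonneg _
      exact aux3 h1 hl2 hlogℓ0
    have h3 : (k : ℝ) ≤ t := by
      have : 60 * Real.log ℓ ≤ v := by linarith
      linarith
    exact_mod_cast h3
  have hqw : q < 2 ^ (w - 1) := by
    have h1 : (q : ℝ) < 2 ^ (w - 1) := by
      refine lt_of_le_of_lt hqT ?_
      have h2 : (12 : ℝ) * Real.log ℓ < ((w - 1 : ℕ) : ℝ) * Real.log 2 := by
        have h3 : ((w - 1 : ℕ) : ℝ) = (w : ℝ) - 1 := by rw [Nat.cast_sub (by omega)]; norm_num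
        rw [h3]
        have h4 : v ≤ (w : ℝ) - 1 := by
          have : (t : ℝ) / 490 ≥ 2 * v := by
            rw [ge_iff_le, le_div_iff₀ (by norm_num)]
            linarith
          linarith
        have h5 : 192000 * Real.log ℓ ≤ v := by linarith
        exact aux4 h4 h5 hv0 hl2
      rw [← Real.log_lt_log_iff (by positivity) (by positivity), Real.log_pow, Real.log_pow]
      exact_mod_cast h2
    exact_mod_cast h1
  have hqt : q < 2 ^ (2 * t) := lt_of_lt_of_le hqw (Nat.pow_le_pow_right (by norm_num) (by omega))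
  have hwt : 245 * w + k ≤ 2 * t := by omega
  -- square root of X
  have hsqX : 100 * ℓ ^ 60 ≤ Real.sqrt X := by
    apply Real.le_sqrt_of_sq_le
    calc (100 * ℓ ^ 60) ^ 2 = 10000 * ℓ ^ 120 := by ring
      _ ≤ _ := hE2
  have hsqX2 : Real.sqrt X * Real.sqrt X = X := Real.mul_self_sqrt hX0.le
  have hsqX0 : 0 < Real.sqrt X := Real.sqrt_pos.2 hX0
  have hLgX : (2 : ℝ) ^ Lg ≤ X := by
    have : 2 ^ Lg ≤ X := by
      rw [hLg]
      exact Nat.pow_log_le_self 2 (by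
        have : X ≠ 0 := by
          intro h; rw [h] at hX0; simp at hX0
        exact this)
    exact_mod_cast this
  have hts : t * s * 2 ≤ Lg := by
    have := Nat.div_mul_le_self Lg (2 * s)
    rw [← ht] at this
    calc t * s * 2 = t * (2 * s) := by ring
      _ ≤ Lg := this
  have hpow_ts : (2 : ℝ) ^ (t * s) ≤ Real.sqrt X := by
    apply Real.le_sqrt_of_sq_le
    rw [← pow_mul]
    exact (pow_le_pow_right₀ (by norm_num) hts).trans hLgX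
  have hℓ48 : 2 * ℓ ^ 48 ≤ Real.sqrt X := by
    have : ℓ ^ 48 ≤ ℓ ^ 60 := pow_le_pow_right₀ (by linarith) (by norm_num)
    have : 0 < ℓ ^ 48 := by positivity
    linarith
  have hq2k : ((q * 2 ^ k : ℕ) : ℝ) ≤ 2 * ℓ ^ 48 := by
    push_cast
    calc (q : ℝ) * 2 ^ k ≤ ℓ ^ 12 * (2 * ℓ ^ 36) := by gcongr
      _ = _ := by ring
  have hy : 2 ^ (t * (4 * R + 28)) ≤ X / (q * 2 ^ k) := by
    rw [Nat.le_div_iff_mul_le (by positivity)]
    have h1 : ((2 ^ (t * (4 * R + 28)) * (q * 2 ^ k) : ℕ) : ℝ) ≤ X := by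
      rw [Nat.cast_mul]
      have h2 : ((2 ^ (t * (4 * R + 28)) : ℕ) : ℝ) ≤ Real.sqrt X := by
        push_cast
        rw [← hs]
        exact hpow_ts
      calc _ ≤ Real.sqrt X * Real.sqrt X := by
            apply mul_le_mul h2 (hq2k.trans hℓ48) (Nat.cast_nonneg _) hsqX0.le
        _ = X := hsqX2
    exact_mod_cast h1
  -- δ
  set δ := K ^ (-(1 / 4) : ℝ) + ℓ ^ (-(19 / 20) : ℝ) with hδ
  have hδ0 : 0 < δ := by positivity
  have hv19' : ℓ ^ (-(19 / 20) : ℝ) = (v ^ 19)⁻¹ := by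
    rw [hv, ← Real.rpow_natCast, ← Real.rpow_mul hℓ0.le, ← Real.rpow_neg hℓ0.le]
    norm_num
  have hδt : 1000 ≤ δ * t := by
    have h1 : ℓ ^ (-(19 / 20) : ℝ) ≤ δ := by rw [hδ]; linarith [Real.rpow_pos_of_pos hK0 (-(1 / 4))]
    rw [hv19'] at h1
    have h2 : 0 < v ^ 19 := by positivity
    calc (1000 : ℝ) = (v ^ 19)⁻¹ * (1000 * v ^ 19) := by field_simp
      _ ≤ δ * t := by gcongr
  have hR2 : 60 ≤ δ * 42 ^ R := by
    have h1 : K ^ (-(1 / 4) : ℝ) ≤ δ := by rw [hδ]; linarith [Real.rpow_pos_of_pos hℓ0 (-(19 / 20))]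
    have h2 : K ≤ (42 : ℝ) ^ ⌈Real.log K⌉₊ := by
      have h3 : K = Real.exp (Real.log K) := (Real.exp_log hK0).symm
      rw [h3]
      calc Real.exp (Real.log K) ≤ Real.exp ⌈Real.log K⌉₊ := Real.exp_le_exp.2 hceil1
        _ = Real.exp 1 ^ ⌈Real.log K⌉₊ := by rw [← Real.exp_nat_mul, mul_one]
        _ ≤ 42 ^ ⌈Real.log K⌉₊ := by
            apply pow_le_pow_left₀ (Real.exp_pos _).le
            have := Real.exp_one_lt_d9
            linarith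
        _ = 42 ^ ⌈Real.log (Real.exp (Real.log K))⌉₊ := by rw [Real.exp_log hK0]
    have h4 : (1 : ℝ) ≤ K ^ (-(1 / 4) : ℝ) * K := by
      rw [← Real.rpow_add_one hK0.ne']
      apply Real.one_le_rpow hK1
      norm_num
    rw [hR, pow_add]
    have h5 : (60 : ℝ) ≤ 42 ^ 115 := by norm_num
    calc (60 : ℝ) ≤ 42 ^ 115 * 1 := by rw [mul_one]; exact h5
      _ ≤ 42 ^ 115 * (K ^ (-(1 / 4) : ℝ) * K) := by gcongr
      _ ≤ 42 ^ 115 * (δ * 42 ^ ⌈Real.log K⌉₊) := by gcongr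
      _ = _ := by ring
  -- β
  have h2k0 : (0 : ℝ) < 2 ^ k := by positivity
  have hβ2 : 2 * (X * |β|) ≤ 2 ^ k := by
    refine le_trans ?_ hk1
    have h1 : ℓ ^ 36 = ℓ ^ 12 * ℓ ^ 24 := by ring
    have h2 : (2 : ℝ) ≤ ℓ ^ 24 := by
      calc (2 : ℝ) ≤ ℓ := by linarith
        _ = ℓ ^ 1 := (pow_one _).symm
        _ ≤ ℓ ^ 24 := pow_le_pow_right₀ (by linarith) (by norm_num)
    rw [h1]
    have h3 : 0 < ℓ ^ 12 := by positivity
    exact aux5 hβT h2 h3.le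
  have hBle : ((q * (X / (q * 2 ^ k)) : ℕ) : ℝ) * 2 ^ k ≤ X := by
    have h1 := Nat.mul_div_le X (q * 2 ^ k)
    have h2 : (q * (X / (q * 2 ^ k))) * 2 ^ k ≤ X := by
      calc (q * (X / (q * 2 ^ k))) * 2 ^ k = q * 2 ^ k * (X / (q * 2 ^ k)) := by ring
        _ ≤ X := h1
    exact_mod_cast h2
  set B := ((q * (X / (q * 2 ^ k)) : ℕ) : ℝ) with hB
  have hB0 : 0 ≤ B := Nat.cast_nonneg _
  -- θ
  have hqφ := hτ q hq
  have hθ : ‖∑ i ∈ range (2 ^ k), ee (i * (B * β))‖ * (B / q.totient) ≤ X * (Cτ * K ^ (-(3 / 4) : ℝ)) := by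
    rcases hKcase with h | h
    · have h1 : ‖∑ i ∈ range (2 ^ k), ee (i * (B * β))‖ ≤ 2 ^ k := by
        have := norm_sum_ee_le (range (2 ^ k)) (fun i => (i : ℝ) * (B * β))
        rw [card_range] at this
        push_cast at this
        exact this
      have h2 : (1 : ℝ) / q.totient ≤ Cτ * K ^ (-(3 / 4) : ℝ) := by
        have h3 : (1 : ℝ) / q.totient = (q / q.totient) * (q : ℝ)⁻¹ := by field_simp
        rw [h3]
        calc (q : ℝ) / q.totient * (q : ℝ)⁻¹ ≤ (Cτ * (q : ℝ) ^ (1 / 4 : ℝ)) * (q : ℝ)⁻¹ := by gcongr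
          _ = Cτ * (q : ℝ) ^ (-(3 / 4) : ℝ) := by
              rw [mul_assoc, ← Real.rpow_neg_one, ← Real.rpow_add hq0]
              norm_num
          _ ≤ Cτ * K ^ (-(3 / 4) : ℝ) := by
              apply mul_le_mul_of_nonneg_left _ (by linarith)
              exact Real.rpow_le_rpow_of_nonpos hK0 h (by norm_num)
      calc _ ≤ (2 : ℝ) ^ k * (B / q.totient) := by gcongr
        _ = (B * 2 ^ k) * (1 / q.totient) := by ring
        _ ≤ X * (Cτ * K ^ (-(3 / 4) : ℝ)) := by gcongr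
    · have h1 := geom_Ico 0 (2 ^ k) (B * β)
      rw [← range_eq_Ico] at h1
      have hBβ : |B * β| ≤ 1 / 2 := by
        rw [abs_mul, abs_of_nonneg hB0]
        have h3 : B ≤ X / 2 ^ k := by rw [le_div_iff₀ h2k0]; exact hBle
        calc B * |β| ≤ (X / 2 ^ k) * |β| := by gcongr
          _ = X * |β| / 2 ^ k := by ring
          _ ≤ 1 / 2 := by rw [div_le_iff₀ h2k0]; linarith
      rw [nd_eq_abs hBβ, abs_mul, abs_of_nonneg hB0] at h1
      have hβ0 : 0 < |β| := by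
        by_contra hcon
        push Not at hcon
        have : |β| = 0 := le_antisymm hcon (abs_nonneg _)
        rw [this, mul_zero] at h
        linarith
      set Z := ‖∑ i ∈ range (2 ^ k), ee (i * (B * β))‖ with hZ
      have hZ0 : 0 ≤ Z := norm_nonneg _
      have h4 : Z * B ≤ X * (1 / K) := by
        have h5 : Z * B * (2 * |β|) ≤ 1 := by linarith
        have h6 : X * (1 / K) * (2 * |β|) ≥ 1 := by
          have : X * (1 / K) * (2 * |β|) = 2 * ((X * |β|) / K) := by ring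
          rw [this]
          have : 1 ≤ (X * |β|) / K := by rw [le_div_iff₀ hK0]; linarith
          linarith
        have h7 : Z * B * (2 * |β|) ≤ X * (1 / K) * (2 * |β|) := by linarith
        exact le_of_mul_le_mul_right h7 (by positivity)
      have h8 : (1 : ℝ) ≤ q.totient := by exact_mod_cast Nat.totient_pos.2 hq
      have h9 : 1 / K ≤ Cτ * K ^ (-(3 / 4) : ℝ) := by
        have h10 : 1 / K = K ^ (-1 : ℝ) := by rw [Real.rpow_neg_one, one_div]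
        rw [h10]
        calc K ^ (-1 : ℝ) ≤ K ^ (-(3 / 4) : ℝ) := Real.rpow_le_rpow_of_exponent_le hK1 (by norm_num)
          _ ≤ _ := le_mul_of_one_le_left (by positivity) hCτ
      calc Z * (B / q.totient) = (Z * B) / q.totient := by ring
        _ ≤ Z * B := div_le_self (by positivity) h8
        _ ≤ X * (1 / K) := h4
        _ ≤ _ := by gcongr
  -- bilinear sums
  have hsqq : Real.sqrt q / q.totient ≤ Cτ * (q : ℝ) ^ (-(1 / 4) : ℝ) := by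
    have h3 : Real.sqrt q / q.totient = (q / q.totient) * (q : ℝ) ^ (-(1 / 2) : ℝ) := by
      have h4 : (q : ℝ) * (q : ℝ) ^ (-(1 / 2) : ℝ) = Real.sqrt q := by
        rw [Real.sqrt_eq_rpow]
        nth_rewrite 1 [← Real.rpow_one (q : ℝ)]
        rw [← Real.rpow_add hq0]
        norm_num
      rw [← h4]; ring
    rw [h3]
    calc (q : ℝ) / q.totient * (q : ℝ) ^ (-(1 / 2) : ℝ) ≤ (Cτ * (q : ℝ) ^ (1 / 4 : ℝ)) * (q : ℝ) ^ (-(1 / 2) : ℝ) := by
          gcongr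
      _ = _ := by
          rw [mul_assoc, ← Real.rpow_add hq0]
          norm_num
  set Y := ((Lg : ℝ) + 1) * ((2 * C1) ^ 2 * X * (2 * Cτ * K ^ (-(1 / 4) : ℝ)) / (w : ℝ) ^ 2) +
      ((Lg : ℝ) + 1) * (2 * Real.pi * (X : ℝ) ^ 2 * |β| / 2 ^ k) with hYdef
  have hY : ∑ b ∈ Bl X (2 * t) k, ‖∑ p ∈ Ib k b.1 b.2 ×ˢ Kb X (b.2 * 2 ^ (b.1 - k)),
      ee (((p.1 * p.2 : ℕ) : ℝ) * (a0 / q + β))‖ ≤ Y := by
    rcases hKcase with h | h
    · refine (bilIa (X := X) (t := 2 * t) (k := k) (w := w) (β := β) hw2 hwt hq hqw ha0).trans ?_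
      rw [hYdef, ← hLg]
      apply add_le_add _ (le_refl _)
      apply mul_le_mul_of_nonneg_left _ (by positivity)
      apply div_le_div_of_nonneg_right _ (by positivity)
      apply mul_le_mul_of_nonneg_left _ (by positivity)
      refine hsqq.trans ?_
      have h5 : (q : ℝ) ^ (-(1 / 4) : ℝ) ≤ K ^ (-(1 / 4) : ℝ) := Real.rpow_le_rpow_of_nonpos hK0 h (by norm_num)
      have h6 : 0 < K ^ (-(1 / 4) : ℝ) := by positivity
      exact aux6 hCτ h5 h6.le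
    · have hκ1 : 1 ≤ Real.sqrt K := Real.one_le_sqrt.2 hK1
      have hκ2 : Real.sqrt K ≤ 2 ^ w := by
        rw [Real.sqrt_le_left (by positivity)]
        have h7 : K ≤ 2 ^ w := by
          have h8 : (ℓ ^ 12 : ℝ) ≤ 2 ^ k := by
            refine le_trans ?_ hk1
            exact pow_le_pow_right₀ (by linarith) (by norm_num)
          refine hKT.trans ?_
          have h9 : (12 : ℝ) * Real.log ℓ ≤ (w : ℝ) * Real.log 2 := by
            have h4 : v ≤ (w : ℝ) := by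
              have : (t : ℝ) / 490 ≥ 2 * v := by
                rw [ge_iff_le, le_div_iff₀ (by norm_num)]
                linarith
              linarith
            have h5 : 192000 * Real.log ℓ ≤ v := by linarith
            exact (aux4 h4 h5 hv0 hl2).le
          rw [← Real.log_le_log_iff (by positivity) (by positivity), Real.log_pow, Real.log_pow]
          exact_mod_cast h9
        calc K ≤ 2 ^ w := h7
          _ ≤ (2 ^ w) ^ 2 := by
              have : (1 : ℝ) ≤ 2 ^ w := one_le_pow₀ (by norm_num)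
              exact aux7 this
      have hκ3 : Real.sqrt K ^ 2 ≤ X * |β| := by rw [Real.sq_sqrt hK0.le]; exact h
      refine (bilIb (X := X) (t := 2 * t) (k := k) (w := w) (q := q) (a0 := a0) (β := β) hw2 hwt hq hqw hκ1 hκ2 hκ3 hβ2).trans ?_
      rw [hYdef, ← hLg]
      apply add_le_add _ (le_refl _)
      apply mul_le_mul_of_nonneg_left _ (by positivity)
      apply div_le_div_of_nonneg_right _ (by positivity)
      apply mul_le_mul_of_nonneg_left _ (by positivity)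
      have h5 : 2 / Real.sqrt (Real.sqrt K) = 2 * K ^ (-(1 / 4) : ℝ) := by
        rw [Real.sqrt_eq_rpow, Real.sqrt_eq_rpow, ← Real.rpow_mul hK0.le, div_eq_mul_inv, ← Real.rpow_neg hK0.le]
        norm_num
      rw [h5]
      have h6 : 0 < K ^ (-(1 / 4) : ℝ) := by positivity
      exact aux8 hCτ h6.le
  -- the explicit estimate
  have hcore := core (X := X) (t := t) (R := R) (k := k) (q := q) (a0 := a0) (β := β) (δ := δ)
    (θ := Cτ * K ^ (-(3 / 4) : ℝ)) (Y := Y) (by omega) hδ0 hδt (by omega) hR2 hq hqt (by omega) ha0 hy hθ hY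
  rw [← hLg] at hcore
  refine hcore.trans ?_
  -- final estimates
  have hXℓ : 0 < X / ℓ := by positivity
  have hKm : 0 < K ^ (-(1 / 4) : ℝ) := by positivity
  have hK5 : 0 < K ^ (-(1 / 5) : ℝ) := by positivity
  have hℓ9 : 0 < ℓ ^ (-(9 / 10) : ℝ) := by positivity
  have hVle : VV (2 ^ (2 * t)) ≤ 4 * Real.exp 17 * s / ℓ := by
    have h1 : 2 ≤ 2 ^ (2 * t) := by
      calc 2 = 2 ^ 1 := (pow_one 2).symm
        _ ≤ _ := Nat.pow_le_pow_right (by norm_num) (by omega)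
    refine (VV_le h1).trans ?_
    have h2 : Real.log ((2 ^ (2 * t) : ℕ) : ℝ) = 2 * t * Real.log 2 := by
      push_cast
      rw [Real.log_pow]
      push_cast
      ring
    rw [h2, div_le_div_iff₀ (by positivity) hℓ0]
    have h3 : ℓ ≤ 4 * s * t := by
      rw [div_le_iff₀ (by positivity)] at ht1
      linarith
    have h4 : ℓ ≤ 4 * s * (2 * t * Real.log 2) := by
      have h5 : (0 : ℝ) ≤ 4 * s * t := by positivity
      exact aux9 h3 h5 hl2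
    have h6 := Real.exp_pos 17
    calc Real.exp 17 * ℓ ≤ Real.exp 17 * (4 * s * (2 * t * Real.log 2)) := by gcongr
      _ = _ := by ring
  have hsK : (s : ℝ) * K ^ (-(1 / 4) : ℝ) ≤ 2100 * K ^ (-(1 / 5) : ℝ) := by
    calc (s : ℝ) * K ^ (-(1 / 4) : ℝ) ≤ (2100 * K ^ (1 / 400 : ℝ)) * K ^ (-(1 / 4) : ℝ) := by gcongr
      _ = 2100 * K ^ (1 / 400 + -(1 / 4) : ℝ) := by rw [mul_assoc, ← Real.rpow_add hK0]
      _ ≤ _ := by
          apply mul_le_mul_of_nonneg_left _ (by norm_num)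
          exact Real.rpow_le_rpow_of_exponent_le hK1 (by norm_num)
  have hsℓ : (s : ℝ) * ℓ ^ (-(19 / 20) : ℝ) ≤ 2100 * ℓ ^ (-(9 / 10) : ℝ) := by
    have h1 : K ^ (1 / 400 : ℝ) ≤ ℓ ^ (3 / 100 : ℝ) := by
      calc K ^ (1 / 400 : ℝ) ≤ (ℓ ^ 12) ^ (1 / 400 : ℝ) := Real.rpow_le_rpow hK0.le hKT (by norm_num)
        _ = ℓ ^ (3 / 100 : ℝ) := by
            rw [← Real.rpow_natCast, ← Real.rpow_mul hℓ0.le]
            norm_num
    calc (s : ℝ) * ℓ ^ (-(19 / 20) : ℝ) ≤ (2100 * ℓ ^ (3 / 100 : ℝ)) * ℓ ^ (-(19 / 20) : ℝ) := by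
          apply mul_le_mul_of_nonneg_right _ (by positivity)
          exact hs3.trans (mul_le_mul_of_nonneg_left h1 (by norm_num))
      _ = 2100 * ℓ ^ (3 / 100 + -(19 / 20) : ℝ) := by rw [mul_assoc, ← Real.rpow_add hℓ0]
      _ ≤ _ := by
          apply mul_le_mul_of_nonneg_left _ (by norm_num)
          exact Real.rpow_le_rpow_of_exponent_le (by linarith) (by norm_num)
  have hK34 : K ^ (-(3 / 4) : ℝ) ≤ K ^ (-(1 / 4) : ℝ) := Real.rpow_le_rpow_of_exponent_le hK1 (by norm_num)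
  have f1 : X * VV (2 ^ (2 * t)) * (δ + Cτ * K ^ (-(3 / 4) : ℝ)) ≤
      A1 * (K ^ (-(1 / 5) : ℝ) + ℓ ^ (-(9 / 10) : ℝ)) * (X / ℓ) := by
    have h1 : δ + Cτ * K ^ (-(3 / 4) : ℝ) ≤ (1 + Cτ) * K ^ (-(1 / 4) : ℝ) + ℓ ^ (-(19 / 20) : ℝ) := by
      rw [hδ]
      have := mul_le_mul_of_nonneg_left hK34 (by linarith : (0 : ℝ) ≤ Cτ)
      linarith
    have h0 : 0 ≤ δ + Cτ * K ^ (-(3 / 4) : ℝ) := by positivity
    calc X * VV (2 ^ (2 * t)) * (δ + Cτ * K ^ (-(3 / 4) : ℝ)) ≤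
        X * (4 * Real.exp 17 * s / ℓ) * ((1 + Cτ) * K ^ (-(1 / 4) : ℝ) + ℓ ^ (-(19 / 20) : ℝ)) := by gcongr
      _ = 4 * Real.exp 17 * ((1 + Cτ) * ((s : ℝ) * K ^ (-(1 / 4) : ℝ)) + (s : ℝ) * ℓ ^ (-(19 / 20) : ℝ)) * (X / ℓ) := by
          ring
      _ ≤ 4 * Real.exp 17 * ((1 + Cτ) * (2100 * K ^ (-(1 / 5) : ℝ)) + 2100 * ℓ ^ (-(9 / 10) : ℝ)) * (X / ℓ) := by
          gcongr
      _ ≤ 4 * Real.exp 17 * ((1 + Cτ) * (2100 * K ^ (-(1 / 5) : ℝ)) + (1 + Cτ) * (2100 * ℓ ^ (-(9 / 10) : ℝ))) *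
            (X / ℓ) := by
          have : 2100 * ℓ ^ (-(9 / 10) : ℝ) ≤ (1 + Cτ) * (2100 * ℓ ^ (-(9 / 10) : ℝ)) :=
            le_mul_of_one_le_left (by positivity) (by linarith)
          gcongr
      _ = _ := by rw [hA1]; ring
  have hLg3 : (Lg : ℝ) + 1 ≤ 3 * ℓ := by linarith
  have hws : 1 / (w : ℝ) ^ 2 ≤ (1960 * s) ^ 2 / ℓ ^ 2 := by
    have h1 : ℓ ≤ 1960 * s * w := by
      have h2 : ℓ / (4 * s) / 490 ≤ w := by
        refine le_trans ?_ hw1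
        gcongr
      rw [div_div, div_le_iff₀ (by positivity)] at h2
      linarith
    rw [div_le_div_iff₀ (by positivity) (by positivity), one_mul]
    calc ℓ ^ 2 ≤ (1960 * s * w) ^ 2 := by gcongr
      _ = _ := by ring
  have hs2K : (s : ℝ) ^ 2 * K ^ (-(1 / 4) : ℝ) ≤ 2100 ^ 2 * K ^ (-(1 / 5) : ℝ) := by
    have h1 : (K ^ (1 / 400 : ℝ)) ^ 2 = K ^ (1 / 200 : ℝ) := by
      rw [← Real.rpow_natCast, ← Real.rpow_mul hK0.le]
      norm_num
    calc (s : ℝ) ^ 2 * K ^ (-(1 / 4) : ℝ) ≤ (2100 * K ^ (1 / 400 : ℝ)) ^ 2 * K ^ (-(1 / 4) : ℝ) := by gcongr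
      _ = 2100 ^ 2 * K ^ (1 / 200 + -(1 / 4) : ℝ) := by
          rw [mul_pow, h1, mul_assoc, ← Real.rpow_add hK0]
      _ ≤ _ := by
          apply mul_le_mul_of_nonneg_left _ (by norm_num)
          exact Real.rpow_le_rpow_of_exponent_le hK1 (by norm_num)
  have f2 : ((Lg : ℝ) + 1) * ((2 * C1) ^ 2 * X * (2 * Cτ * K ^ (-(1 / 4) : ℝ)) / (w : ℝ) ^ 2) ≤
      A2 * K ^ (-(1 / 5) : ℝ) * (X / ℓ) := by
    calc ((Lg : ℝ) + 1) * ((2 * C1) ^ 2 * X * (2 * Cτ * K ^ (-(1 / 4) : ℝ)) / (w : ℝ) ^ 2) =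
        ((Lg : ℝ) + 1) * ((2 * C1) ^ 2 * X * (2 * Cτ * K ^ (-(1 / 4) : ℝ))) * (1 / (w : ℝ) ^ 2) := by ring
      _ ≤ (3 * ℓ) * ((2 * C1) ^ 2 * X * (2 * Cτ * K ^ (-(1 / 4) : ℝ))) * ((1960 * s) ^ 2 / ℓ ^ 2) := by gcongr
      _ = 6 * (2 * C1) ^ 2 * Cτ * 1960 ^ 2 * ((s : ℝ) ^ 2 * K ^ (-(1 / 4) : ℝ)) * (X / ℓ) := by
          field_simp
          ring
      _ ≤ 6 * (2 * C1) ^ 2 * Cτ * 1960 ^ 2 * (2100 ^ 2 * K ^ (-(1 / 5) : ℝ)) * (X / ℓ) := by gcongr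
      _ = _ := by rw [hA2]; ring
  -- tiny terms
  have hℓinv : 1 / ℓ ≤ ℓ ^ (-(9 / 10) : ℝ) := by
    rw [one_div, ← Real.rpow_neg_one]
    exact Real.rpow_le_rpow_of_exponent_le (by linarith) (by norm_num)
  have tiny : ∀ z : ℝ, z ≤ X / ℓ ^ 2 → z ≤ ℓ ^ (-(9 / 10) : ℝ) * (X / ℓ) := by
    intro z hz
    refine hz.trans ?_
    calc X / ℓ ^ 2 = (1 / ℓ) * (X / ℓ) := by field_simp
      _ ≤ _ := by gcongr
  have hpi : Real.pi ≤ 4 := Real.pi_le_four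
  have hpi0 := Real.pi_pos
  have hXβk : (X : ℝ) ^ 2 * |β| / 2 ^ k ≤ X / ℓ ^ 24 := by
    rw [div_le_div_iff₀ h2k0 (by positivity)]
    calc (X : ℝ) ^ 2 * |β| * ℓ ^ 24 = X * (X * |β|) * ℓ ^ 24 := by ring
      _ ≤ X * ℓ ^ 12 * ℓ ^ 24 := by gcongr
      _ = X * ℓ ^ 36 := by ring
      _ ≤ X * 2 ^ k := by gcongr
  have hpw : ∀ n : ℕ, X / ℓ ^ (n + 2) ≤ X / ℓ ^ 2 := by
    intro n
    apply div_le_div_of_nonneg_left hX0.le (by positivity)
    exact pow_le_pow_right₀ (by linarith) (by omega)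
  have g1 : ((Lg : ℝ) + 1) * (2 * Real.pi * (X : ℝ) ^ 2 * |β| / 2 ^ k) ≤ 24 * (X / ℓ ^ 2) := by
    have h1 : 2 * Real.pi * (X : ℝ) ^ 2 * |β| / 2 ^ k = 2 * Real.pi * ((X : ℝ) ^ 2 * |β| / 2 ^ k) := by ring
    rw [h1]
    calc ((Lg : ℝ) + 1) * (2 * Real.pi * ((X : ℝ) ^ 2 * |β| / 2 ^ k)) ≤ (3 * ℓ) * (2 * 4 * (X / ℓ ^ 24)) := by gcongr
      _ = 24 * (X / ℓ ^ (21 + 2)) := by field_simp; ring
      _ ≤ 24 * (X / ℓ ^ 2) := by linarith [hpw 21]
  have g2 : 4 * Real.pi * (X : ℝ) ^ 2 * |β| / 2 ^ k ≤ 16 * (X / ℓ ^ 2) := by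
    have h1 : 4 * Real.pi * (X : ℝ) ^ 2 * |β| / 2 ^ k = 4 * Real.pi * ((X : ℝ) ^ 2 * |β| / 2 ^ k) := by ring
    rw [h1]
    calc 4 * Real.pi * ((X : ℝ) ^ 2 * |β| / 2 ^ k) ≤ 4 * 4 * (X / ℓ ^ (22 + 2)) := by gcongr
      _ ≤ _ := by linarith [hpw 22]
  have hsmall : Real.sqrt X * ℓ ^ 3 ≤ X := by
    have h1 : ℓ ^ 3 ≤ Real.sqrt X := by
      have : ℓ ^ 3 ≤ ℓ ^ 60 := pow_le_pow_right₀ (by linarith) (by norm_num)
      have : 0 < ℓ ^ 3 := by positivity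
      linarith
    calc Real.sqrt X * ℓ ^ 3 ≤ Real.sqrt X * Real.sqrt X := by gcongr
      _ = X := hsqX2
  have hsm2 : Real.sqrt X * ℓ ≤ X / ℓ ^ 2 := by
    rw [le_div_iff₀ (by positivity)]
    refine le_trans (le_of_eq ?_) hsmall
    ring
  have hsm3 : Real.sqrt X ≤ X / ℓ ^ 2 := by
    refine le_trans ?_ hsm2
    exact le_mul_of_one_le_right hsqX0.le (by linarith)
  have g3 : 4 * ((q * 2 ^ k : ℕ) : ℝ) ≤ 4 * (X / ℓ ^ 2) := by
    have := hq2k.trans (hℓ48.trans hsm3)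
    linarith
  have g4 : ((Lg : ℝ) + 1) * (2 * (X : ℝ) / 2 ^ k + Real.sqrt X) ≤ 9 * (X / ℓ ^ 2) := by
    have h1 : 2 * (X : ℝ) / 2 ^ k ≤ 2 * (X / ℓ ^ 36) := by
      rw [mul_div_assoc]
      apply mul_le_mul_of_nonneg_left _ (by norm_num)
      exact div_le_div_of_nonneg_left hX0.le (by positivity) hk1
    calc ((Lg : ℝ) + 1) * (2 * (X : ℝ) / 2 ^ k + Real.sqrt X) ≤ (3 * ℓ) * (2 * (X / ℓ ^ 36) + Real.sqrt X) := by
          gcongr
      _ = 6 * (X / ℓ ^ (33 + 2)) + 3 * (Real.sqrt X * ℓ) := by field_simp; ring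
      _ ≤ 6 * (X / ℓ ^ 2) + 3 * (X / ℓ ^ 2) := by
          have := hpw 33
          gcongr
      _ = _ := by ring
  have g5 : ((2 ^ (2 * t) : ℕ) : ℝ) ≤ X / ℓ ^ 2 := by
    refine le_trans ?_ hsm3
    push_cast
    refine le_trans ?_ hpow_ts
    apply pow_le_pow_right₀ (by norm_num)
    exact aux10 hs0
  have e1 := tiny (X / ℓ ^ 2) le_rfl
  have hfin : Y = ((Lg : ℝ) + 1) * ((2 * C1) ^ 2 * X * (2 * Cτ * K ^ (-(1 / 4) : ℝ)) / (w : ℝ) ^ 2) +
      ((Lg : ℝ) + 1) * (2 * Real.pi * (X : ℝ) ^ 2 * |β| / 2 ^ k) := hYdef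
  have hAK : A2 * K ^ (-(1 / 5) : ℝ) * (X / ℓ) ≤ A2 * (K ^ (-(1 / 5) : ℝ) + ℓ ^ (-(9 / 10) : ℝ)) * (X / ℓ) := by
    gcongr
    linarith
  have hlast : ℓ ^ (-(9 / 10) : ℝ) * (X / ℓ) ≤ (K ^ (-(1 / 5) : ℝ) + ℓ ^ (-(9 / 10) : ℝ)) * (X / ℓ) := by
    gcongr
    linarith
  have htotal : (A1 + A2 + 100) * (K ^ (-(1 / 5) : ℝ) + ℓ ^ (-(9 / 10) : ℝ)) * (X / ℓ) =
      A1 * (K ^ (-(1 / 5) : ℝ) + ℓ ^ (-(9 / 10) : ℝ)) * (X / ℓ) +
      A2 * (K ^ (-(1 / 5) : ℝ) + ℓ ^ (-(9 / 10) : ℝ)) * (X / ℓ) +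
      100 * ((K ^ (-(1 / 5) : ℝ) + ℓ ^ (-(9 / 10) : ℝ)) * (X / ℓ)) := by ring
  rw [htotal, hfin]
  have hpos : 0 ≤ (K ^ (-(1 / 5) : ℝ) + ℓ ^ (-(9 / 10) : ℝ)) * (X / ℓ) := by positivity
  linarith

end Pool.Agent.H.MP_0ec261_nt.AA
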