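import Pool.Agent.H.MP_0ec261_nt.AA.Ee

/-!
Sums of `min (H, 1 / ‖γ + i α‖)` for frequencies close to a rational number.
-/

open Finset

namespace Pool.Agent.H.MP_0ec261_nt.AA

lemma nd_frac_ge {q s : ℕ} (hq : 0 < q) (hs : s ≤ q) : ((min s (q - s) : ℕ) : ℝ) / q ≤ nd ((s : ℝ) / q) := by
  obtain ⟨n, hn⟩ := exists_nd ((s : ℝ) / q)
  rw [hn]
  have hq0 : (0 : ℝ) < q := by exact_mod_cast hq
  rcases le_or_gt n 0 with h | h
  · have h1 : (n : ℝ) ≤ 0 := by exact_mod_cast h
    have h2 : (0 : ℝ) ≤ (s : ℝ) / q := by positivity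
    rw [abs_of_nonneg (by linarith)]
    have h3 : ((min s (q - s) : ℕ) : ℝ) / q ≤ (s : ℝ) / q := by
      apply div_le_div_of_nonneg_right _ hq0.le
      exact_mod_cast min_le_left _ _
    linarith
  · have h1 : (1 : ℝ) ≤ n := by exact_mod_cast h
    have h2 : (s : ℝ) / q ≤ 1 := by
      rw [div_le_one hq0]
      exact_mod_cast hs
    rw [abs_of_nonpos (by linarith)]
    have h3 : ((min s (q - s) : ℕ) : ℝ) / q ≤ ((q - s : ℕ) : ℝ) / q := by
      apply div_le_div_of_nonneg_right _ hq0.le
      exact_mod_cast min_le_right _ _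
    rw [Nat.cast_sub hs, sub_div, div_self hq0.ne'] at h3
    linarith

/-- the majorant -/
noncomputable def G1 (q : ℕ) (H : ℝ) (s : ℕ) : ℝ := if s ≤ 2 then H else (q : ℝ) / s

lemma G1_nonneg {q : ℕ} {H : ℝ} (hH : 0 ≤ H) (s : ℕ) : 0 ≤ G1 q H s := by
  unfold G1
  split_ifs
  · exact hH
  · positivity

lemma G1_sum {q : ℕ} {H : ℝ} (hH : 0 ≤ H) : ∑ s ∈ Icc 1 q, G1 q H s ≤ 2 * H + q * (1 + Real.log q) := by
  have h1 : ∀ s ∈ Icc 1 q, G1 q H s ≤ (if s ≤ 2 then H else 0) + q * ((s : ℝ))⁻¹ := by
    intro s _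
    unfold G1
    split_ifs
    · have : (0 : ℝ) ≤ q * ((s : ℝ))⁻¹ := by positivity
      linarith
    · rw [zero_add, div_eq_mul_inv]
  refine (sum_le_sum h1).trans ?_
  rw [sum_add_distrib, ← sum_filter, sum_const, nsmul_eq_mul, ← mul_sum]
  have h2 : (((Icc 1 q).filter (fun s => s ≤ 2)).card : ℝ) ≤ 2 := by
    have : ((Icc 1 q).filter (fun s => s ≤ 2)) ⊆ Icc 1 2 := by
      intro s hs
      rw [mem_filter, mem_Icc] at hs
      rw [mem_Icc]
      omega
    have := card_le_card this
    rw [Nat.card_Icc] at this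
    exact_mod_cast this
  have h3 : ∑ s ∈ Icc 1 q, ((s : ℝ))⁻¹ ≤ 1 + Real.log q := by
    have := harmonic_le_one_add_log q
    rw [harmonic_eq_sum_Icc] at this
    push_cast at this
    exact this
  have h4 : (((Icc 1 q).filter (fun s => s ≤ 2)).card : ℝ) * H ≤ 2 * H := mul_le_mul_of_nonneg_right h2 hH
  have h5 : (q : ℝ) * ∑ s ∈ Icc 1 q, ((s : ℝ))⁻¹ ≤ q * (1 + Real.log q) :=
    mul_le_mul_of_nonneg_left h3 (Nat.cast_nonneg _)
  linarith

lemma blockW {q : ℕ} (hq : 0 < q) {a0 : ℤ} (ha : IsCoprime a0 (q : ℤ)) {α : ℝ}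
    (hα : |α - a0 / q| ≤ 1 / (q : ℝ) ^ 2) (γ : ℝ) {W : ℕ → ℝ} {H : ℝ} (hH : 0 ≤ H) (hW0 : ∀ i, 0 ≤ W i)
    (hWH : ∀ i < q, W i ≤ H) (hW : ∀ i < q, W i * (2 * nd (γ + i * α)) ≤ 1) :
    ∑ i ∈ range q, W i ≤ 5 * H + 2 * q * (1 + Real.log q) := by
  have hq0 : (0 : ℝ) < q := by exact_mod_cast hq
  have hqz : (0 : ℤ) < q := by exact_mod_cast hq
  set c : ℤ := round (γ * q) with hc
  have hc1 : |γ - c / q| ≤ 1 / (2 * q) := by
    have h1 : |γ * q - c| ≤ 1 / 2 := abs_sub_round _
    have h2 : γ - c / q = (γ * q - c) / q := by field_simp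
    rw [h2, abs_div, abs_of_pos hq0, div_le_iff₀ hq0]
    refine h1.trans (le_of_eq ?_)
    field_simp
  set s : ℕ → ℕ := fun i => ((c + i * a0) % q).toNat with hs
  have hs1 : ∀ i, ((s i : ℕ) : ℤ) = (c + i * a0) % q := by
    intro i
    rw [hs]
    exact Int.toNat_of_nonneg (Int.emod_nonneg _ hqz.ne')
  have hs2 : ∀ i, s i < q := by
    intro i
    have : ((s i : ℕ) : ℤ) < q := by rw [hs1]; exact Int.emod_lt_of_pos _ hqz
    exact_mod_cast this
  have hinj : Set.InjOn s (range q : Set ℕ) := by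
    intro i hi j hj hij
    rw [mem_coe, mem_range] at hi hj
    have h1 : (c + i * a0) % q = (c + j * a0) % q := by rw [← hs1, ← hs1, hij]
    have h2 : (q : ℤ) ∣ (c + j * a0) - (c + i * a0) := Int.ModEq.dvd h1
    have h3 : (q : ℤ) ∣ ((j : ℤ) - i) * a0 := by
      have : (c + j * a0) - (c + i * a0) = ((j : ℤ) - i) * a0 := by ring
      rwa [this] at h2
    have h4 : (q : ℤ) ∣ (j : ℤ) - i := (ha.symm).dvd_of_dvd_mul_right h3
    have h5 : i ≡ j [MOD q] := (Int.natCast_modEq_iff).1 ((Int.modEq_iff_dvd).2 h4)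
    have h6 : i % q = j % q := h5
    rwa [Nat.mod_eq_of_lt hi, Nat.mod_eq_of_lt hj] at h6
  have himg : (range q).image s = range q := by
    apply eq_of_subset_of_card_le
    · intro x hx
      rw [mem_image] at hx
      obtain ⟨i, _, rfl⟩ := hx
      rw [mem_range]; exact hs2 i
    · rw [card_image_of_injOn hinj]
  have key : ∀ i ∈ range q, W i ≤ G1 q H (s i) + G1 q H (q - s i) := by
    intro i hi
    rw [mem_range] at hi
    have hsi := hs2 i
    by_cases h : s i ≤ 2 ∨ q - s i ≤ 2
    · refine (hWH i hi).trans ?_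
      rcases h with h | h
      · have h1 : G1 q H (s i) = H := if_pos h
        have h2 := G1_nonneg (q := q) hH (q - s i)
        linarith
      · have h1 : G1 q H (q - s i) = H := if_pos h
        have h2 := G1_nonneg (q := q) hH (s i)
        linarith
    · push Not at h
      obtain ⟨m, hm⟩ : ∃ m : ℤ, c + i * a0 = s i + q * m := by
        refine ⟨(c + i * a0) / q, ?_⟩
        rw [hs1]
        exact (Int.emod_add_mul_ediv _ _).symm
      have hx : ((c : ℝ) + i * a0) / q = (s i : ℝ) / q + m := by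
        have : (c : ℝ) + i * a0 = s i + q * m := by exact_mod_cast hm
        rw [this]
        field_simp
      have h1 : nd (((c : ℝ) + i * a0) / q) = nd ((s i : ℝ) / q) := by rw [hx, nd_add_int]
      have h2 := nd_frac_ge hq (s := s i) hsi.le
      have h3 := nd_sub_le (((c : ℝ) + i * a0) / q) ((γ - c / q) + i * (α - a0 / q))
      have h4 : ((c : ℝ) + i * a0) / q + ((γ - c / q) + i * (α - a0 / q)) = γ + i * α := by
        field_simp
        ring
      rw [h4, h1] at h3
      have hiq : (i : ℝ) ≤ q := by exact_mod_cast hi.le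
      have h5 : |(γ - c / q) + i * (α - a0 / q)| ≤ 3 / (2 * q) := by
        refine (abs_add_le _ _).trans ?_
        rw [abs_mul, Nat.abs_cast]
        have h6 : (i : ℝ) * |α - a0 / q| ≤ 1 / q := by
          calc (i : ℝ) * |α - a0 / q| ≤ q * (1 / (q : ℝ) ^ 2) := by gcongr
            _ = 1 / q := by field_simp
        have h7 : 3 / (2 * (q : ℝ)) = 1 / (2 * q) + 1 / q := by field_simp; norm_num
        linarith
      set M : ℕ := min (s i) (q - s i) with hM
      have hM3 : 3 ≤ M := by omega
      have hMr : (3 : ℝ) ≤ M := by exact_mod_cast hM3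
      have h6 : (M : ℝ) / (2 * q) ≤ nd (γ + i * α) := by
        have h7 : (M : ℝ) / (2 * q) + 3 / (2 * q) ≤ (M : ℝ) / q := by
          rw [← add_div, div_le_div_iff₀ (by positivity) hq0]
          nlinarith
        linarith
      have h7 := hW i hi
      have h8 : W i * (M / q) ≤ 1 := by
        refine le_trans ?_ h7
        apply mul_le_mul_of_nonneg_left _ (hW0 i)
        have : (M : ℝ) / q = 2 * (M / (2 * q)) := by field_simp
        linarith
      have h9 : W i ≤ q / M := by
        rw [le_div_iff₀ (by linarith)]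
        have : W i * M = W i * (M / q) * q := by field_simp
        rw [this]
        nlinarith
      refine h9.trans ?_
      have g1 : G1 q H (s i) = (q : ℝ) / (s i) := if_neg (by omega)
      have g2 : G1 q H (q - s i) = (q : ℝ) / ((q - s i : ℕ) : ℝ) := if_neg (by omega)
      have g3 := G1_nonneg (q := q) hH (s i)
      have g4 := G1_nonneg (q := q) hH (q - s i)
      rcases min_choice (s i) (q - s i) with h | h
      · rw [hM, h, ← g1]; linarith
      · rw [hM, h, ← g2]; linarith
  refine (sum_le_sum key).trans ?_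
  rw [sum_add_distrib]
  have e1 : ∑ i ∈ range q, G1 q H (s i) = ∑ x ∈ range q, G1 q H x := by
    rw [← sum_image (f := fun x => G1 q H x) hinj, himg]
  have e2 : ∑ i ∈ range q, G1 q H (q - s i) = ∑ x ∈ range q, G1 q H (q - x) := by
    rw [← sum_image (f := fun x => G1 q H (q - x)) hinj, himg]
  rw [e1, e2]
  have f1 : ∑ x ∈ range q, G1 q H x ≤ H + ∑ x ∈ Icc 1 q, G1 q H x := by
    have hsub : range q ⊆ insert 0 (Icc 1 q) := by
      intro x hx
      rw [mem_range] at hx
      rw [mem_insert, mem_Icc]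
      omega
    refine (sum_le_sum_of_subset_of_nonneg hsub (fun x _ _ => G1_nonneg hH x)).trans ?_
    rw [sum_insert (by simp)]
    have : G1 q H 0 = H := if_pos (by norm_num)
    rw [this]
  have f2 : ∑ x ∈ range q, G1 q H (q - x) = ∑ x ∈ Icc 1 q, G1 q H x := by
    apply sum_nbij' (fun x => q - x) (fun x => q - x)
    · intro x hx
      rw [mem_range] at hx
      rw [mem_Icc]; omega
    · intro x hx
      rw [mem_Icc] at hx
      rw [mem_range]; omega
    · intro x hx
      rw [mem_range] at hx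
      omega
    · intro x hx
      rw [mem_Icc] at hx
      omega
    · intro x _; rfl
  rw [f2]
  have f3 := G1_sum (q := q) hH
  linarith

lemma intervalW {q : ℕ} (hq : 0 < q) {a0 : ℤ} (ha : IsCoprime a0 (q : ℤ)) {α : ℝ}
    (hα : |α - a0 / q| ≤ 1 / (q : ℝ) ^ 2) (γ : ℝ) {W : ℕ → ℝ} {H : ℝ} (hH : 0 ≤ H) (n : ℕ) (hW0 : ∀ i, 0 ≤ W i)
    (hWH : ∀ i < n, W i ≤ H) (hW : ∀ i < n, W i * (2 * nd (γ + i * α)) ≤ 1) :
    ∑ i ∈ range n, W i ≤ ((n / q : ℕ) + 1 : ℝ) * (5 * H + 2 * q * (1 + Real.log q)) := by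
  set W' : ℕ → ℝ := fun i => if i < n then W i else 0 with hW'
  have h0 : ∀ i, 0 ≤ W' i := by
    intro i; rw [hW']; simp only; split_ifs
    · exact hW0 i
    · exact le_rfl
  have h1 : ∀ i, W' i ≤ H := by
    intro i; rw [hW']; simp only; split_ifs with h
    · exact hWH i h
    · exact hH
  have h2 : ∀ i, W' i * (2 * nd (γ + i * α)) ≤ 1 := by
    intro i; rw [hW']; simp only; split_ifs with h
    · exact hW i h
    · rw [zero_mul]; exact zero_le_one
  have h3 : ∀ m : ℕ, ∑ i ∈ range (m * q), W' i ≤ m * (5 * H + 2 * q * (1 + Real.log q)) := by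
    intro m
    induction m with
    | zero => simp
    | succ m ih =>
      rw [Nat.succ_mul, sum_range_add]
      have h4 := blockW hq ha hα (γ + (m * q : ℕ) * α) (W := fun i => W' (m * q + i)) hH (fun i => h0 _)
        (fun i _ => h1 _) (fun i _ => by
          have := h2 (m * q + i)
          have e : γ + (m * q : ℕ) * α + i * α = γ + ((m * q + i : ℕ) : ℝ) * α := by push_cast; ring
          rw [e]; exact this)
      push_cast
      linarith
  have h4 : ∑ i ∈ range n, W i ≤ ∑ i ∈ range ((n / q + 1) * q), W' i := by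
    have h5 : ∑ i ∈ range n, W i = ∑ i ∈ range n, W' i := by
      apply sum_congr rfl
      intro i hi
      rw [mem_range] at hi
      rw [hW']; simp only; rw [if_pos hi]
    rw [h5]
    apply sum_le_sum_of_subset_of_nonneg _ (fun i _ _ => h0 i)
    intro i hi
    rw [mem_range] at hi ⊢
    have := Nat.lt_mul_div_succ n hq
    rw [mul_comm] at this
    omega
  have h5 := h3 (n / q + 1)
  push_cast at h5
  exact h4.trans h5

/-- the sum for type I sums -/
lemma typeIW {q : ℕ} (hq : 0 < q) {a0 : ℤ} (ha : IsCoprime a0 (q : ℤ)) {α : ℝ}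
    (hα : |α - a0 / q| ≤ 1 / (q : ℝ) ^ 2) {W : ℕ → ℝ} {X : ℝ} (hX : 0 ≤ X) (D : ℕ) (hW0 : ∀ d, 0 ≤ W d)
    (hWX : ∀ d, 0 < d → W d ≤ X / d) (hW : ∀ d, W d * (2 * nd (d * α)) ≤ 1) :
    ∑ d ∈ Icc 1 D, W d ≤ 5 * q + (X / q) * (15 + 5 * Real.log (D + 1)) + 2 * (D + q) * (1 + Real.log q) := by
  have hq0 : (0 : ℝ) < q := by exact_mod_cast hq
  set W' : ℕ → ℝ := fun i => if i = 0 then 0 else W i with hW'
  have h0 : ∀ i, 0 ≤ W' i := by
    intro i; rw [hW']; simp only; split_ifs
    · exact le_rfl
    · exact hW0 i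
  have h2 : ∀ i : ℕ, W' i * (2 * nd (i * α)) ≤ 1 := by
    intro i; rw [hW']; simp only; split_ifs with h
    · rw [zero_mul]; exact zero_le_one
    · exact hW i
  -- the first block
  have hb0 : ∑ i ∈ range q, W' i ≤ 5 * (q + 2 * X / q) + 2 * q * (1 + Real.log q) := by
    apply blockW hq ha hα 0 (by positivity) h0
    · intro i hi
      rw [hW']; simp only
      split_ifs with h
      · positivity
      · have hi0 : 0 < i := Nat.pos_of_ne_zero h
        have hir : (0 : ℝ) < i := by exact_mod_cast hi0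
        by_cases h2i : 2 * i ≤ q
        · have hndvd : ∀ n : ℤ, 1 / (q : ℝ) ≤ |(i : ℝ) * a0 / q - n| := by
            intro n
            have e : (i : ℝ) * a0 / q - n = ((i * a0 - n * q : ℤ) : ℝ) / q := by
              push_cast; field_simp
            rw [e, abs_div, abs_of_pos hq0]
            apply div_le_div_of_nonneg_right _ hq0.le
            have hne : (i * a0 - n * q : ℤ) ≠ 0 := by
              intro hcon
              have h3 : (q : ℤ) ∣ (i : ℤ) * a0 := ⟨n, by linarith⟩
              have h4 : (q : ℤ) ∣ (i : ℤ) := (ha.symm).dvd_of_dvd_mul_right h3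
              have h5 : q ∣ i := by exact_mod_cast h4
              have h6 := Nat.le_of_dvd hi0 h5
              omega
            have := Int.one_le_abs hne
            exact_mod_cast this
          have h3 : 1 / (q : ℝ) ≤ nd ((i : ℝ) * a0 / q) := by
            obtain ⟨n, hn⟩ := exists_nd ((i : ℝ) * a0 / q)
            rw [hn]; exact hndvd n
          have h4 := nd_sub_le ((i : ℝ) * a0 / q) ((i : ℝ) * (α - a0 / q))
          have h5 : (i : ℝ) * a0 / q + (i : ℝ) * (α - a0 / q) = i * α := by ring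
          rw [h5, abs_mul, Nat.abs_cast] at h4
          have h6 : (i : ℝ) * |α - a0 / q| ≤ 1 / (2 * q) := by
            have h7 : (i : ℝ) ≤ q / 2 := by
              rw [le_div_iff₀ (by norm_num)]
              have : ((2 * i : ℕ) : ℝ) ≤ q := by exact_mod_cast h2i
              push_cast at this
              linarith
            calc (i : ℝ) * |α - a0 / q| ≤ (q / 2) * (1 / (q : ℝ) ^ 2) := by gcongr
              _ = _ := by field_simp
          have h7 : 1 / (2 * (q : ℝ)) ≤ nd (i * α) := by
            have : 1 / (q : ℝ) = 1 / (2 * q) + 1 / (2 * q) := by field_simp; norm_num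
            linarith
          have h8 := hW i
          have h9 : W i * (1 / q) ≤ 1 := by
            refine le_trans ?_ h8
            apply mul_le_mul_of_nonneg_left _ (hW0 i)
            have : 1 / (q : ℝ) = 2 * (1 / (2 * q)) := by field_simp
            linarith
          have h10 : W i ≤ q := by
            rw [mul_one_div, div_le_one hq0] at h9
            exact h9
          have : (0 : ℝ) ≤ 2 * X / q := by positivity
          linarith
        · refine (hWX i hi0).trans ?_
          have h3 : X / i ≤ 2 * X / q := by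
            rw [div_le_div_iff₀ hir hq0]
            have : (q : ℝ) ≤ 2 * i := by
              have : q ≤ 2 * i := by omega
              exact_mod_cast this
            nlinarith
          linarith
    · intro i _
      rw [zero_add]; exact h2 i
  have h3 : ∀ m : ℕ, ∑ i ∈ range ((m + 1) * q), W' i ≤ 5 * (q + 2 * X / q) + 2 * q * (1 + Real.log q) +
      (5 * (X / q) * ∑ j ∈ Icc 1 m, ((j : ℝ))⁻¹ + m * (2 * q * (1 + Real.log q))) := by
    intro m
    induction m with
    | zero =>
      rw [zero_add, one_mul]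
      simpa using hb0
    | succ m ih =>
      rw [Nat.succ_mul, sum_range_add]
      have hm : (0 : ℝ) < ((m + 1 : ℕ) : ℝ) := by positivity
      have h4 := blockW hq ha hα (((m + 1) * q : ℕ) * α) (W := fun i => W' ((m + 1) * q + i))
        (H := (X / q) * (((m + 1 : ℕ) : ℝ))⁻¹) (by positivity) (fun i => h0 _)
        (fun i _ => by
          have hne : (m + 1) * q + i ≠ 0 := by
            have : 0 < (m + 1) * q := by positivity
            omega
          show W' ((m + 1) * q + i) ≤ _
          rw [hW']; simp only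
          rw [if_neg hne]
          refine (hWX _ (Nat.pos_of_ne_zero hne)).trans ?_
          have e : (X / q) * (((m + 1 : ℕ) : ℝ))⁻¹ = X / (((m + 1) * q : ℕ) : ℝ) := by
            push_cast
            field_simp
          rw [e]
          apply div_le_div_of_nonneg_left hX (by positivity)
          exact_mod_cast Nat.le_add_right _ _)
        (fun i _ => by
          have := h2 ((m + 1) * q + i)
          have e : (((m + 1) * q : ℕ) : ℝ) * α + i * α = (((m + 1) * q + i : ℕ) : ℝ) * α := by push_cast; ring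
          rw [e]; exact this)
      rw [sum_Icc_succ_top (by omega)]
      push_cast at h4 ⊢
      linarith
  have h4 : ∑ d ∈ Icc 1 D, W d ≤ ∑ i ∈ range ((D / q + 1) * q), W' i := by
    have h5 : ∑ d ∈ Icc 1 D, W d = ∑ d ∈ Icc 1 D, W' d := by
      apply sum_congr rfl
      intro i hi
      rw [mem_Icc] at hi
      rw [hW']; simp only; rw [if_neg (by omega)]
    rw [h5]
    apply sum_le_sum_of_subset_of_nonneg _ (fun i _ _ => h0 i)
    intro i hi
    rw [mem_Icc] at hi
    rw [mem_range]
    have := Nat.lt_mul_div_succ D hq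
    rw [mul_comm] at this
    omega
  refine h4.trans ((h3 (D / q)).trans ?_)
  have hlogq : 0 ≤ Real.log q := Real.log_natCast_nonneg q
  have h5 : ∑ j ∈ Icc 1 (D / q), ((j : ℝ))⁻¹ ≤ 1 + Real.log (D + 1) := by
    have h6 := harmonic_le_one_add_log (D / q)
    rw [harmonic_eq_sum_Icc] at h6
    push_cast at h6
    refine h6.trans ?_
    apply add_le_add (le_refl _)
    rcases Nat.eq_zero_or_pos (D / q) with h | h
    · rw [h]; simp
      apply Real.log_nonneg
      have : (0 : ℝ) ≤ D := Nat.cast_nonneg _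
      linarith
    · apply Real.log_le_log (by exact_mod_cast h)
      have : ((D / q : ℕ) : ℝ) ≤ D := by exact_mod_cast Nat.div_le_self D q
      linarith
  have h6 : ((D / q : ℕ) : ℝ) * q ≤ D := by
    have := Nat.div_mul_le_self D q
    exact_mod_cast this
  have hXq : 0 ≤ X / q := by positivity
  have h7 : 5 * (X / q) * ∑ j ∈ Icc 1 (D / q), ((j : ℝ))⁻¹ ≤ 5 * (X / q) * (1 + Real.log (D + 1)) := by
    gcongr
  have h8 : ((D / q : ℕ) : ℝ) * (2 * q * (1 + Real.log q)) ≤ 2 * D * (1 + Real.log q) := by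
    calc ((D / q : ℕ) : ℝ) * (2 * q * (1 + Real.log q)) = (((D / q : ℕ) : ℝ) * q) * (2 * (1 + Real.log q)) := by ring
      _ ≤ D * (2 * (1 + Real.log q)) := by gcongr
      _ = _ := by ring
  have h9 : 5 * ((q : ℝ) + 2 * X / q) = 5 * q + 10 * (X / q) := by ring
  rw [h9]
  have h10 : 2 * ((D : ℝ) + q) * (1 + Real.log q) = 2 * D * (1 + Real.log q) + 2 * q * (1 + Real.log q) := by ring
  rw [h10]
  have h11 : (X / q) * (15 + 5 * Real.log (D + 1)) = 10 * (X / q) + 5 * (X / q) * (1 + Real.log (D + 1)) := by ring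
  rw [h11]
  linarith

end Pool.Agent.H.MP_0ec261_nt.AA
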