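import Pool.Agent.H.MP_0ec261_nt.AA.CaseI
import Pool.Agent.H.MP_0ec261_nt.AA.Wsum

/-!
The exponential sum over primes for frequencies far from rationals with a small denominator.
-/

open Finset Filter

namespace Pool.Agent.H.MP_0ec261_nt.AA

lemma W_le (y : ℕ) (x : ℝ) : ‖∑ i ∈ Ico 1 (y + 1), ee (i * x)‖ ≤ y := by
  refine (norm_sum_ee_le _ _).trans ?_
  rw [Nat.card_Ico]
  simp

open Classical in
lemma rough_ub {X t u q : ℕ} {a0 : ℤ} {α : ℝ} (ht : 1 ≤ t) (hq : 0 < q) (ha : IsCoprime a0 (q : ℤ))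
    (hα : |α - a0 / q| ≤ 1 / (q : ℝ) ^ 2) :
    ‖∑ m ∈ (Icc 1 X).filter (fun m => Rgh (2 ^ t) m ∧ m ≠ 1), ee (m * α)‖ ≤
      1 + X * (1 + Real.log X) ^ 4 / 2 ^ u + (5 * q + (X / q) * (15 + 5 * Real.log (((2 ^ t) ^ u : ℕ) + 1)) +
        2 * (((2 ^ t) ^ u : ℕ) + q) * (1 + Real.log q)) := by
  obtain ⟨D, hD⟩ : ∃ D : ℕ, D = (2 ^ t) ^ u := ⟨_, rfl⟩
  rw [← hD]
  have hz : 2 ≤ 2 ^ t := by
    calc 2 = 2 ^ 1 := (pow_one 2).symm
      _ ≤ _ := Nat.pow_le_pow_right (by norm_num) ht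
  set W : ℕ → ℝ := fun d => ‖∑ i ∈ Ico 1 (X / d + 1), ee (i * (d * α))‖ with hW
  have hW0 : ∀ d, 0 ≤ W d := fun d => norm_nonneg _
  have hWX : ∀ d, 0 < d → W d ≤ (X : ℝ) / d := by
    intro d _
    exact (W_le _ _).trans Nat.cast_div_le
  have hWn : ∀ d, W d * (2 * nd (d * α)) ≤ 1 := fun d => geom_Ico _ _ _
  have h1 := typeIW hq ha hα (X := X) (Nat.cast_nonneg _) D hW0 hWX hWn
  have h2 : ‖∑ m ∈ (Icc 1 X).filter (fun m => Rgh (2 ^ t) m ∧ m ≠ 1), ee (m * α) -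
      ∑ m ∈ (Icc 1 X).filter (fun m => Rgh (2 ^ t) m), ee (m * α)‖ ≤ ((0 : ℕ) : ℝ) + ((1 : ℕ) : ℝ) := by
    apply norm_sum_sdiff (f := fun n => ee (n * α)) (fun n => (norm_ee _).le)
    · rw [Nat.le_zero, card_eq_zero, sdiff_eq_empty_iff_subset]
      intro n hn
      rw [mem_filter] at hn ⊢
      exact ⟨hn.1, hn.2.1⟩
    · have : ((Icc 1 X).filter (fun m => Rgh (2 ^ t) m)) \
          ((Icc 1 X).filter (fun m => Rgh (2 ^ t) m ∧ m ≠ 1)) ⊆ {1} := by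
        intro n hn
        rw [Finset.mem_sdiff, mem_filter, mem_filter] at hn
        rw [mem_singleton]
        by_contra hcon
        exact hn.2 ⟨hn.1.1, hn.1.2, hcon⟩
      exact (card_le_card this).trans (by rw [card_singleton])
  refine (norm_le_sub (w := ∑ m ∈ (Icc 1 X).filter (fun m => Rgh (2 ^ t) m), ee (m * α))).trans ?_
  have e1 : ∑ m ∈ (Icc 1 X).filter (fun m => Rgh (2 ^ t) m), ee (m * α) =
      ∑ d ∈ Icc 1 D, ∑ m ∈ (Icc 1 X).filter (fun m => d ∣ m),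
        (if d ∣ Pr (2 ^ t) then ((mu d : ℝ) : ℂ) else 0) * ee (m * α) +
      ∑ m ∈ Icc 1 X, ((Er (2 ^ t) D m : ℝ) : ℂ) * ee (m * α) := by
    have e2 : ∑ d ∈ Icc 1 D, ∑ m ∈ (Icc 1 X).filter (fun m => d ∣ m),
        (if d ∣ Pr (2 ^ t) then ((mu d : ℝ) : ℂ) else 0) * ee (m * α) =
        ∑ m ∈ Icc 1 X, (((∑ d ∈ (Icc 1 D).filter (fun d => d ∣ m ∧ d ∣ Pr (2 ^ t)), mu d : ℝ)) : ℂ) * ee (m * α) := by
      simp_rw [sum_filter]
      rw [sum_comm]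
      apply sum_congr rfl
      intro m _
      rw [Complex.ofReal_sum, sum_mul]
      apply sum_congr rfl
      intro d _
      by_cases h1 : d ∣ m
      · by_cases h2 : d ∣ Pr (2 ^ t)
        · simp [h1, h2]
        · simp [h1, h2]
      · simp [h1]
    rw [e2, ← sum_add_distrib, sum_filter]
    apply sum_congr rfl
    intro m hm
    rw [mem_Icc] at hm
    have hm0 : m ≠ 0 := by omega
    have h3 := legendre (z := 2 ^ t) (D := D) hm0
    rw [← add_mul, ← Complex.ofReal_add, ← h3]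
    split_ifs <;> simp
  have h3 : ‖∑ m ∈ Icc 1 X, ((Er (2 ^ t) D m : ℝ) : ℂ) * ee (m * α)‖ ≤ X * (1 + Real.log X) ^ 4 / 2 ^ u := by
    refine (norm_sum_le _ _).trans ?_
    calc _ ≤ ∑ m ∈ Icc 1 X, ((m.divisors.card : ℝ)) ^ 2 / 2 ^ u := by
          apply sum_le_sum
          intro m hm
          rw [mem_Icc] at hm
          rw [norm_mul, norm_ee, mul_one, Complex.norm_real, Real.norm_eq_abs, hD]
          exact abs_Er_le hz (by omega)
      _ = (∑ m ∈ Icc 1 X, ((m.divisors.card : ℝ)) ^ 2) / 2 ^ u := by rw [sum_div]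
      _ ≤ _ := by
          apply div_le_div_of_nonneg_right _ (by positivity)
          exact sum_tau_sq X
  have h4 : ‖∑ d ∈ Icc 1 D, ∑ m ∈ (Icc 1 X).filter (fun m => d ∣ m),
        (if d ∣ Pr (2 ^ t) then ((mu d : ℝ) : ℂ) else 0) * ee (m * α)‖ ≤ ∑ d ∈ Icc 1 D, W d := by
    refine (norm_sum_le _ _).trans (sum_le_sum ?_)
    intro d hd
    rw [mem_Icc] at hd
    have hd0 : 0 < d := by omega
    rw [← mul_sum, norm_mul]
    have h5 : ‖(if d ∣ Pr (2 ^ t) then ((mu d : ℝ) : ℂ) else 0)‖ ≤ 1 := by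
      split_ifs
      · rw [Complex.norm_real, Real.norm_eq_abs]; exact abs_mu_le d
      · simp
    have h6 : ∑ m ∈ (Icc 1 X).filter (fun m => d ∣ m), ee (m * α) = ∑ i ∈ Ico 1 (X / d + 1), ee (i * (d * α)) := by
      symm
      apply sum_nbij' (fun i => d * i) (fun m => m / d)
      · intro i hi
        rw [mem_Ico] at hi
        rw [mem_filter, mem_Icc]
        refine ⟨⟨Nat.mul_pos hd0 (by omega), ?_⟩, Nat.dvd_mul_right _ _⟩
        have := Nat.mul_le_mul_left d (show i ≤ X / d by omega)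
        exact this.trans (Nat.mul_div_le _ _)
      · intro m hm
        rw [mem_filter, mem_Icc] at hm
        obtain ⟨⟨h7, h8⟩, i, rfl⟩ := hm
        rw [mem_Ico, Nat.mul_div_cancel_left _ hd0]
        constructor
        · rcases Nat.eq_zero_or_pos i with h | h
          · subst h; omega
          · exact h
        · have : i ≤ X / d := by
            rw [Nat.le_div_iff_mul_le hd0, mul_comm]; exact h8
          omega
      · intro i _
        exact Nat.mul_div_cancel_left _ hd0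
      · intro m hm
        rw [mem_filter] at hm
        exact Nat.mul_div_cancel' hm.2
      · intro i _
        congr 1
        push_cast
        ring
    rw [h6]
    exact mul_le_of_le_one_left (norm_nonneg _) h5
  rw [e1]
  have h5 := norm_add_le (∑ d ∈ Icc 1 D, ∑ m ∈ (Icc 1 X).filter (fun m => d ∣ m),
        (if d ∣ Pr (2 ^ t) then ((mu d : ℝ) : ℂ) else 0) * ee (m * α))
      (∑ m ∈ Icc 1 X, ((Er (2 ^ t) D m : ℝ) : ℂ) * ee (m * α))
  rw [← e1] at h5 ⊢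
  push_cast at h2
  linarith

lemma bil_ub {X k l a q : ℕ} {a0 : ℤ} {α : ℝ} (hq : 0 < q) (ha : IsCoprime a0 (q : ℤ))
    (hα : |α - a0 / q| ≤ 1 / (q : ℝ) ^ 2) :
    ‖∑ p ∈ Ib k l a ×ˢ Kb X (a * 2 ^ (l - k)), ee (((p.1 * p.2 : ℕ) : ℝ) * α)‖ ^ 2 ≤
      ((X / (a * 2 ^ (l - k)) : ℕ) : ℝ) * (((2 ^ (l - k) : ℕ) : ℝ) * (((2 ^ (l - k) / q : ℕ) + 1 : ℝ) *
        (5 * ((X / (a * 2 ^ (l - k)) : ℕ) : ℝ) + 2 * q * (1 + Real.log q)))) := by
  set K := 2 ^ (l - k) with hK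
  set R := a * K with hR
  set Y := X / R with hY
  have hlogq : 0 ≤ Real.log q := Real.log_natCast_nonneg q
  set T : ℕ → ℂ := fun j => ∑ r ∈ Ib k l a, ee (j * ((r : ℝ) * α)) with hT
  have e1 : ∑ p ∈ Ib k l a ×ˢ Kb X R, ee (((p.1 * p.2 : ℕ) : ℝ) * α) = ∑ j ∈ Kb X R, T j := by
    rw [sum_product_right]
    apply sum_congr rfl
    intro j _
    apply sum_congr rfl
    intro r _
    congr 1
    push_cast; ring
  have h1 : ‖∑ p ∈ Ib k l a ×ˢ Kb X R, ee (((p.1 * p.2 : ℕ) : ℝ) * α)‖ ≤ ∑ j ∈ Icc 1 Y, ‖T j‖ := by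
    rw [e1]
    refine (norm_sum_le _ _).trans ?_
    apply sum_le_sum_of_subset_of_nonneg _ (fun _ _ _ => norm_nonneg _)
    intro j hj
    rw [mem_Kb] at hj
    rw [mem_Icc]
    exact hj.1
  have h2 : (∑ j ∈ Icc 1 Y, ‖T j‖) ^ 2 ≤ (Y : ℝ) * ∑ j ∈ Icc 1 Y, ‖T j‖ ^ 2 := by
    have := sq_sum_le_card_mul_sum_sq (s := Icc 1 Y) (f := fun j => ‖T j‖)
    rwa [Nat.card_Icc, Nat.add_sub_cancel] at this
  have h3 : ∑ j ∈ Icc 1 Y, ‖T j‖ ^ 2 ≤ ∑ r ∈ Ib k l a, ∑ r' ∈ Ib k l a,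
      ‖∑ j ∈ Ico 1 (Y + 1), ee (j * (((r : ℝ) - r') * α))‖ := by
    have e2 : ((∑ j ∈ Icc 1 Y, ‖T j‖ ^ 2 : ℝ) : ℂ) = ∑ r ∈ Ib k l a, ∑ r' ∈ Ib k l a,
        ∑ j ∈ Ico 1 (Y + 1), ee (j * (((r : ℝ) - r') * α)) := by
      rw [Complex.ofReal_sum]
      simp_rw [hT, normsq_sum]
      have e3 : Icc 1 Y = Ico 1 (Y + 1) := by ext; simp
      rw [e3, sum_comm, sum_product]
      apply sum_congr rfl
      intro r _
      apply sum_congr rfl
      intro r' _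
      apply sum_congr rfl
      intro j _
      show ee (j * ((r : ℝ) * α)) * (starRingEnd ℂ) (ee (j * ((r' : ℝ) * α))) = _
      rw [← ee_sub]
      congr 1
      ring
    have e4 : (∑ j ∈ Icc 1 Y, ‖T j‖ ^ 2 : ℝ) = ‖((∑ j ∈ Icc 1 Y, ‖T j‖ ^ 2 : ℝ) : ℂ)‖ := by
      rw [Complex.norm_real, Real.norm_of_nonneg]
      exact sum_nonneg (fun _ _ => by positivity)
    rw [e4, e2]
    refine (norm_sum_le _ _).trans (sum_le_sum ?_)
    intro r _
    exact norm_sum_le _ _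
  have h4 : ∀ r ∈ Ib k l a, ∑ r' ∈ Ib k l a, ‖∑ j ∈ Ico 1 (Y + 1), ee (j * (((r : ℝ) - r') * α))‖ ≤
      ((K / q : ℕ) + 1 : ℝ) * (5 * (Y : ℝ) + 2 * q * (1 + Real.log q)) := by
    intro r _
    have h5 := intervalW hq ha hα (((R : ℝ) - r) * α)
      (W := fun i => ‖∑ j ∈ Ico 1 (Y + 1), ee (j * (((r : ℝ) - ((R + i : ℕ) : ℝ)) * α))‖)
      (H := (Y : ℝ)) (Nat.cast_nonneg _) K (fun i => norm_nonneg _) (fun i _ => W_le _ _)
      (fun i _ => by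
        have h6 := geom_Ico 1 (Y + 1) (((r : ℝ) - ((R + i : ℕ) : ℝ)) * α)
        have e : ((R : ℝ) - r) * α + i * α = -(((r : ℝ) - ((R + i : ℕ) : ℝ)) * α) := by push_cast; ring
        rw [e, nd_neg]
        exact h6)
    refine le_trans ?_ h5
    have e5 : ∑ i ∈ range K, ‖∑ j ∈ Ico 1 (Y + 1), ee (j * (((r : ℝ) - ((R + i : ℕ) : ℝ)) * α))‖ =
        ∑ r' ∈ Ico R (R + K), ‖∑ j ∈ Ico 1 (Y + 1), ee (j * (((r : ℝ) - r') * α))‖ := by
      rw [sum_Ico_eq_sum_range, Nat.add_sub_cancel_left]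
    rw [e5]
    apply sum_le_sum_of_subset_of_nonneg _ (fun _ _ _ => norm_nonneg _)
    intro r' hr'
    rw [mem_Ib] at hr'
    rw [mem_Ico]
    exact hr'.1
  have h5 : ∑ r ∈ Ib k l a, ∑ r' ∈ Ib k l a, ‖∑ j ∈ Ico 1 (Y + 1), ee (j * (((r : ℝ) - r') * α))‖ ≤
      (K : ℝ) * (((K / q : ℕ) + 1 : ℝ) * (5 * (Y : ℝ) + 2 * q * (1 + Real.log q))) := by
    refine (sum_le_sum h4).trans ?_
    rw [sum_const, nsmul_eq_mul]
    apply mul_le_mul_of_nonneg_right _ (by positivity)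
    have : (Ib k l a).card ≤ K := by
      unfold Ib
      refine (card_filter_le _ _).trans ?_
      rw [Nat.card_Ico]
      rw [Nat.add_sub_cancel_left]
    exact_mod_cast this
  calc _ ≤ (∑ j ∈ Icc 1 Y, ‖T j‖) ^ 2 := pow_le_pow_left₀ (norm_nonneg _) h1 2
    _ ≤ (Y : ℝ) * ∑ j ∈ Icc 1 Y, ‖T j‖ ^ 2 := h2
    _ ≤ _ := by
        apply mul_le_mul_of_nonneg_left _ (Nat.cast_nonneg _)
        exact h3.trans h5

end Pool.Agent.H.MP_0ec261_nt.AA
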