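import Pool.Agent.H.MP_0ec261_nt.AA.CaseII

/-!
The exponential sum over primes for frequencies far from rationals with a small denominator.
-/

open Finset Filter

namespace Pool.Agent.H.MP_0ec261_nt.AA

lemma bil_num {X ℓ K Y R q K' L P : ℝ} (hℓ3 : 3 ≤ ℓ) (hX : 0 < X) (hsq : 100 * ℓ ^ 60 ≤ Real.sqrt X)
    (hq1 : ℓ ^ 12 ≤ q) (hq2 : q * ℓ ^ 12 ≤ X) (hK0 : 0 ≤ K) (hY0 : 0 ≤ Y) (hKR : K ≤ R) (hRX : R ≤ Real.sqrt X)
    (hYR : Y * R ≤ X) (hR : ℓ ^ 12 ≤ R) (hL : 1 + L ≤ 2 * ℓ) (hL0 : 0 ≤ L) (hK' : K' ≤ K / q) (hK'0 : 0 ≤ K')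
    (hP : P * K ≤ R) (hP0 : 0 < P) :
    Y * (K * ((K' + 1) * (5 * Y + 2 * q * (1 + L)))) ≤ (X / P) * (12 * (X / ℓ ^ 11)) := by
  have hℓ0 : 0 < ℓ := by linarith
  have hℓ12 : 0 < ℓ ^ 12 := by positivity
  have hq0 : 0 < q := by linarith
  have hR0 : 0 < R := by linarith
  have hX2 : Real.sqrt X * Real.sqrt X = X := Real.mul_self_sqrt hX.le
  have hs0 : 0 < Real.sqrt X := Real.sqrt_pos.2 hX
  have h1 : Y * K ≤ X / P := by
    rw [le_div_iff₀ hP0]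
    calc Y * K * P = Y * (P * K) := by ring
      _ ≤ Y * R := by gcongr
      _ ≤ X := hYR
  have hYX : Y ≤ X / ℓ ^ 12 := by
    rw [le_div_iff₀ hℓ12]
    calc Y * ℓ ^ 12 ≤ Y * R := by gcongr
      _ ≤ X := hYR
  have hqX : q ≤ X / ℓ ^ 12 := by
    rw [le_div_iff₀ hℓ12]; exact hq2
  have hKYq : K / q * Y ≤ X / ℓ ^ 12 := by
    calc K / q * Y ≤ R / ℓ ^ 12 * Y := by gcongr
      _ = (Y * R) / ℓ ^ 12 := by ring
      _ ≤ X / ℓ ^ 12 := by gcongr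
  have hKX : K ≤ X / ℓ ^ 12 := by
    rw [le_div_iff₀ hℓ12]
    have h2 : ℓ ^ 12 ≤ ℓ ^ 60 := pow_le_pow_right₀ (by linarith) (by norm_num)
    calc K * ℓ ^ 12 ≤ Real.sqrt X * Real.sqrt X := by
          apply mul_le_mul (hKR.trans hRX) _ hℓ12.le hs0.le
          linarith
      _ = X := hX2
  have hZ : X / ℓ ^ 12 * ℓ = X / ℓ ^ 11 := by field_simp
  have hZ0 : 0 < X / ℓ ^ 12 := by positivity
  have h3 : (K' + 1) * (5 * Y + 2 * q * (1 + L)) ≤ 12 * (X / ℓ ^ 11) := by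
    have h4 : (K' + 1) * (5 * Y + 2 * q * (1 + L)) ≤ (K / q + 1) * (5 * Y + 2 * q * (2 * ℓ)) := by
      apply mul_le_mul (by linarith) _ (by positivity) (by positivity)
      have : 2 * q * (1 + L) ≤ 2 * q * (2 * ℓ) := by gcongr
      linarith
    refine h4.trans ?_
    have h5 : (K / q + 1) * (5 * Y + 2 * q * (2 * ℓ)) = 5 * (K / q * Y) + 4 * (K * ℓ) + 5 * Y + 4 * (q * ℓ) := by
      field_simp; ring
    rw [h5, ← hZ]
    have h6 : K * ℓ ≤ X / ℓ ^ 12 * ℓ := by gcongr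
    have h7 : q * ℓ ≤ X / ℓ ^ 12 * ℓ := by gcongr
    have h8 : X / ℓ ^ 12 * 3 ≤ X / ℓ ^ 12 * ℓ := by gcongr
    linarith
  calc Y * (K * ((K' + 1) * (5 * Y + 2 * q * (1 + L)))) = (Y * K) * ((K' + 1) * (5 * Y + 2 * q * (1 + L))) := by ring
    _ ≤ (X / P) * (12 * (X / ℓ ^ 11)) := by
        apply mul_le_mul h1 h3 (by positivity) (by positivity)

lemma sq_num {X ℓ S P : ℝ} (hℓ3 : 3 ≤ ℓ) (hX : 0 < X) (hP0 : 0 < P) (hP : P ≤ 2 * ℓ ^ 4)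
    (hS0 : 0 ≤ S) (hS : S ^ 2 ≤ (X / P) * (12 * (X / ℓ ^ 11))) : S ≤ 5 * X / (ℓ ^ 3 * P) := by
  have hℓ0 : 0 < ℓ := by linarith
  apply (pow_le_pow_iff_left₀ hS0 (by positivity) two_ne_zero).1
  refine hS.trans ?_
  have e1 : (X / P) * (12 * (X / ℓ ^ 11)) = (X * (12 * X)) / (ℓ ^ 11 * P) := by field_simp
  have e2 : (5 * X / (ℓ ^ 3 * P)) ^ 2 = (5 ^ 2 * X ^ 2) / ((ℓ ^ 3) ^ 2 * P ^ 2) := by
    rw [div_pow, mul_pow, mul_pow]
  rw [e1, e2, div_le_div_iff₀ (by positivity) (by positivity)]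
  have h1 : P * 12 ≤ 25 * ℓ ^ 5 := by
    have : 24 * ℓ ^ 4 ≤ 25 * ℓ ^ 5 := by
      have : ℓ ^ 5 = ℓ * ℓ ^ 4 := by ring
      rw [this]
      have : 0 < ℓ ^ 4 := by positivity
      nlinarith
    linarith
  have h2 : X * (12 * X) * ((ℓ ^ 3) ^ 2 * P ^ 2) = (P * 12) * (X ^ 2 * ℓ ^ 6 * P) := by ring
  have h3 : 5 ^ 2 * X ^ 2 * (ℓ ^ 11 * P) = (25 * ℓ ^ 5) * (X ^ 2 * ℓ ^ 6 * P) := by ring
  rw [h2, h3]
  gcongr

set_option maxHeartbeats 8000000 in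
/-- **Primes far from rationals with small denominators.** -/
theorem caseII : ∃ X₀ : ℕ, ∀ X : ℕ, X₀ ≤ X → ∀ (q : ℕ) (a0 : ℤ) (α : ℝ), 0 < q → IsCoprime a0 (q : ℤ) →
    |α - a0 / q| ≤ 1 / (q : ℝ) ^ 2 → (Real.log X) ^ 12 ≤ q → q * (Real.log X) ^ 12 ≤ X →
    ‖∑ p ∈ (Icc 1 X).filter Nat.Prime, ee (p * α)‖ ≤ 65 * (X / (Real.log X) ^ 2) := by
  classical
  obtain ⟨X₀, hX₀⟩ := ev_cond.exists_forall_of_atTop
  refine ⟨X₀, ?_⟩
  intro X hX q a0 α hq ha hα hq1 hq2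
  obtain ⟨hE2, hE1, hℓ3⟩ := hX₀ X hX
  set ℓ := Real.log X with hℓ
  obtain ⟨hLg1, hLg2⟩ := log_two_bounds hℓ3
  obtain ⟨Lg, hLg⟩ : ∃ Lg : ℕ, Lg = Nat.log 2 X := ⟨_, rfl⟩
  rw [← hLg] at hLg1 hLg2
  have hℓ0 : 0 < ℓ := by linarith
  have hX0 : (0 : ℝ) < X := by
    have : (0 : ℝ) < 10000 * ℓ ^ 120 := by positivity
    linarith
  have hq0 : (0 : ℝ) < q := by exact_mod_cast hq
  have hq1' : (1 : ℝ) ≤ q := by exact_mod_cast hq
  have hlogℓ0 : 0 ≤ Real.log ℓ := Real.log_nonneg (by linarith)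
  set v := ℓ ^ (1 / 20 : ℝ) with hv
  have hv20 : v ^ 20 = ℓ := by
    rw [hv, ← Real.rpow_natCast, ← Real.rpow_mul hℓ0.le]
    norm_num
  have hvbig : (1968000 : ℝ) ≤ v := by linarith
  obtain ⟨n, hn1, hn2⟩ := exists_pow_two (y := ℓ ^ 12) (one_le_pow₀ (by linarith))
  obtain ⟨k, hk1, hk2⟩ := exists_pow_two (y := ℓ ^ 4) (one_le_pow₀ (by linarith))
  have hl2 := Real.log_two_gt_d9
  have hkn : k ≤ n := by
    have h1 : (2 : ℝ) ^ k ≤ 2 ^ n := by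
      refine hk2.trans (le_trans ?_ hn1)
      have h2 : ℓ ^ 12 = ℓ ^ 4 * ℓ ^ 8 := by ring
      have h3 : (2 : ℝ) ≤ ℓ ^ 8 := by
        calc (2 : ℝ) ≤ ℓ ^ 1 := by rw [pow_one]; linarith
          _ ≤ ℓ ^ 8 := pow_le_pow_right₀ (by linarith) (by norm_num)
      have h4 : 0 < ℓ ^ 4 := by positivity
      rw [h2]
      nlinarith only [h3, h4]
    exact (pow_le_pow_iff_right₀ (by norm_num : (1 : ℝ) < 2)).1 h1
  have hn3 : (n : ℝ) ≤ v := by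
    have h1 : (n : ℝ) * Real.log 2 ≤ Real.log 2 + 12 * Real.log ℓ := by
      rw [← Real.log_pow, show (12 : ℝ) * Real.log ℓ = Real.log (ℓ ^ 12) by rw [Real.log_pow]; norm_num,
        ← Real.log_mul (by norm_num) (by positivity)]
      exact Real.log_le_log (by positivity) hn2
    have h2 := aux3 (h1.trans (by linarith : Real.log 2 + 12 * Real.log ℓ ≤ Real.log 2 + 36 * Real.log ℓ)) hl2 hlogℓ0
    linarith
  have hn4 : 2 ≤ n := by
    have h1 : (3 : ℝ) ^ 12 ≤ ℓ ^ 12 := pow_le_pow_left₀ (by norm_num) hℓ3 12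
    have h2 : (2 : ℝ) ^ 2 ≤ 2 ^ n := by
      refine le_trans ?_ (h1.trans hn1)
      norm_num
    exact (pow_le_pow_iff_right₀ (by norm_num : (1 : ℝ) < 2)).1 h2
  -- square root of X
  have hsqX : 100 * ℓ ^ 60 ≤ Real.sqrt X := by
    apply Real.le_sqrt_of_sq_le
    calc (100 * ℓ ^ 60) ^ 2 = 10000 * ℓ ^ 120 := by ring
      _ ≤ _ := hE2
  have hsqX2 : Real.sqrt X * Real.sqrt X = X := Real.mul_self_sqrt hX0.le
  have hsqX0 : 0 < Real.sqrt X := Real.sqrt_pos.2 hX0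
  -- D
  obtain ⟨D, hD⟩ : ∃ D : ℕ, D = (2 ^ n) ^ n := ⟨_, rfl⟩
  have hDX : (D : ℝ) ≤ Real.sqrt X := by
    apply Real.le_sqrt_of_sq_le
    have hD0 : (0 : ℝ) < D := by rw [hD]; positivity
    rw [← Real.log_le_log_iff (by positivity) hX0, Real.log_pow, hD]
    push_cast
    rw [← pow_mul, Real.log_pow]
    push_cast
    have l2 := Real.log_two_lt_d9
    have hn0 : (0 : ℝ) ≤ n := Nat.cast_nonneg _
    have h1 : (n : ℝ) * n ≤ v * v := mul_le_mul hn3 hn3 hn0 (by linarith)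
    have h2 : 2 * (v * v) ≤ ℓ := by
      rw [← hv20]
      have h3 : v ^ 20 = (v * v) * v ^ 18 := by ring
      have h4 : (2 : ℝ) ≤ v ^ 18 := by
        calc (2 : ℝ) ≤ v ^ 1 := by rw [pow_one]; linarith
          _ ≤ v ^ 18 := pow_le_pow_right₀ (by linarith) (by norm_num)
      rw [h3]
      have h5 : 0 < v * v := by nlinarith only [hvbig]
      nlinarith only [h4, h5]
    have h6 : (n : ℝ) * n * Real.log 2 ≤ n * n := by
      have : 0 ≤ (n : ℝ) * n := by positivity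
      nlinarith only [this, l2]
    rw [← hℓ]
    linarith
  -- the decomposition
  have hdec := decomp (X := X) (φ := fun m => ee (m * α)) (fun m => (norm_ee _).le) hkn hn4
  have hrough := rough_ub (X := X) (t := n) (u := n) (by omega) hq ha hα
  rw [← hD] at hrough
  rw [← hLg] at hdec
  have hX1 : (1 : ℝ) ≤ X := by
    have : (1 : ℝ) ≤ ℓ ^ 120 := one_le_pow₀ (by linarith)
    linarith
  have hlogq0 : 0 ≤ Real.log q := Real.log_natCast_nonneg q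
  have hℓ12 : 1 ≤ ℓ ^ 12 := one_le_pow₀ (by linarith)
  have hqX : (q : ℝ) ≤ X := by
    refine le_trans ?_ hq2
    exact le_mul_of_one_le_right hq0.le hℓ12
  have hlogq : Real.log q ≤ ℓ := Real.log_le_log hq0 hqX
  have hlogq2 : 1 + Real.log q ≤ 2 * ℓ := by linarith
  -- tiny quantities
  set E := X / ℓ ^ 2 with hE
  have hE0 : 0 < E := by positivity
  have hpw : ∀ m : ℕ, 2 ≤ m → X / ℓ ^ m ≤ E := by
    intro m hm
    apply div_le_div_of_nonneg_left hX0.le (by positivity)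
    exact pow_le_pow_right₀ (by linarith) hm
  have hsm2 : Real.sqrt X * ℓ ≤ E := by
    rw [hE, le_div_iff₀ (by positivity)]
    have h1 : ℓ ^ 3 ≤ Real.sqrt X := by
      have : ℓ ^ 3 ≤ ℓ ^ 60 := pow_le_pow_right₀ (by linarith) (by norm_num)
      have : 0 < ℓ ^ 3 := by positivity
      linarith
    calc Real.sqrt X * ℓ * ℓ ^ 2 = Real.sqrt X * ℓ ^ 3 := by ring
      _ ≤ Real.sqrt X * Real.sqrt X := by gcongr
      _ = X := hsqX2
  have hsm3 : Real.sqrt X ≤ E := by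
    refine le_trans ?_ hsm2
    exact le_mul_of_one_le_right hsqX0.le (by linarith)
  have hqE : (q : ℝ) ≤ X / ℓ ^ 12 := by
    rw [le_div_iff₀ (by positivity)]; exact hq2
  have hsq1 : 1 ≤ Real.sqrt X := Real.one_le_sqrt.2 hX1
  -- the rough part
  have r1 : X * (1 + Real.log X) ^ 4 / 2 ^ n ≤ 16 * E := by
    rw [← hℓ]
    have h1 : (1 + ℓ) ^ 4 ≤ (2 * ℓ) ^ 4 := pow_le_pow_left₀ (by linarith) (by linarith) 4
    calc X * (1 + ℓ) ^ 4 / 2 ^ n ≤ X * (2 * ℓ) ^ 4 / ℓ ^ 12 := by gcongr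
      _ = 16 * (X / ℓ ^ 8) := by field_simp; norm_num
      _ ≤ 16 * E := by linarith [hpw 8 (by norm_num)]
  have r2 : 5 * (q : ℝ) ≤ 5 * E := by linarith [hpw 12 (by norm_num)]
  have hDX2 : (D : ℝ) + 1 ≤ X := by
    have h1 : (100 : ℝ) ≤ Real.sqrt X := by
      have : (1 : ℝ) ≤ ℓ ^ 60 := one_le_pow₀ (by linarith)
      linarith
    have h2 : 2 * Real.sqrt X ≤ X := by
      rw [← hsqX2]
      rw [hsqX2]
      nlinarith only [h1, hsqX2, hsqX0]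
    linarith
  have hlogD : Real.log ((D : ℝ) + 1) ≤ ℓ := by
    apply Real.log_le_log _ hDX2
    have : (0 : ℝ) ≤ D := Nat.cast_nonneg _
    linarith
  have r3 : (X / q) * (15 + 5 * Real.log ((D : ℝ) + 1)) ≤ 10 * E := by
    have h1 : 15 + 5 * Real.log ((D : ℝ) + 1) ≤ 10 * ℓ := by linarith
    have h2 : (0 : ℝ) ≤ 15 + 5 * Real.log ((D : ℝ) + 1) := by
      have : 0 ≤ Real.log ((D : ℝ) + 1) := Real.log_nonneg (by
        have : (0 : ℝ) ≤ D := Nat.cast_nonneg _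
        linarith)
      linarith
    calc (X / q) * (15 + 5 * Real.log ((D : ℝ) + 1)) ≤ (X / ℓ ^ 12) * (10 * ℓ) := by gcongr
      _ = 10 * (X / ℓ ^ 11) := by field_simp
      _ ≤ 10 * E := by linarith [hpw 11 (by norm_num)]
  have r4 : 2 * ((D : ℝ) + q) * (1 + Real.log q) ≤ 8 * E := by
    calc 2 * ((D : ℝ) + q) * (1 + Real.log q) ≤ 2 * (Real.sqrt X + X / ℓ ^ 12) * (2 * ℓ) := by gcongr
      _ = 4 * (Real.sqrt X * ℓ) + 4 * (X / ℓ ^ 11) := by field_simp; ring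
      _ ≤ 8 * E := by linarith [hpw 11 (by norm_num)]
  have r5 : (1 : ℝ) ≤ E := by linarith
  -- the bilinear sums
  have hb : ∀ b ∈ Bl X n k, ‖∑ p ∈ Ib k b.1 b.2 ×ˢ Kb X (b.2 * 2 ^ (b.1 - k)), ee (((p.1 * p.2 : ℕ) : ℝ) * α)‖ ≤
      5 * X / (ℓ ^ 3 * 2 ^ k) := by
    rintro ⟨l, a⟩ hb
    obtain ⟨⟨hb1, hb2⟩, ⟨hb3, hb4⟩, hb5⟩ := mem_Bl.1 hb
    dsimp only at hb1 hb2 hb3 hb4 hb5 ⊢
    have h1 := bil_ub (X := X) (k := k) (l := l) (a := a) hq ha hα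
    apply sq_num hℓ3 hX0 (by positivity) hk2 (norm_nonneg _)
    refine h1.trans ?_
    have hKl : 2 ^ l = 2 ^ k * 2 ^ (l - k) := by rw [← pow_add]; congr 1; omega
    have hR1 : 2 ^ l ≤ a * 2 ^ (l - k) := by
      rw [hKl]; exact Nat.mul_le_mul_right _ hb3
    have h2k : 0 < 2 ^ k := by positivity
    have ha1 : 1 ≤ a := le_trans h2k hb3
    apply bil_num (R := ((a * 2 ^ (l - k) : ℕ) : ℝ)) hℓ3 hX0 hsqX hq1 hq2 (Nat.cast_nonneg _) (Nat.cast_nonneg _)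
    · exact_mod_cast Nat.le_mul_of_pos_left _ ha1
    · apply Real.le_sqrt_of_sq_le
      rw [sq]
      exact_mod_cast hb5
    · exact_mod_cast Nat.div_mul_le_self X (a * 2 ^ (l - k))
    · refine hn1.trans ?_
      have : 2 ^ n ≤ a * 2 ^ (l - k) := (Nat.pow_le_pow_right (by norm_num) hb1).trans hR1
      exact_mod_cast this
    · exact hlogq2
    · exact hlogq0
    · exact Nat.cast_div_le
    · exact Nat.cast_nonneg _
    · have : 2 ^ k * 2 ^ (l - k) ≤ a * 2 ^ (l - k) := Nat.mul_le_mul_right _ hb3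
      exact_mod_cast this
    · positivity
  have hLg3 : (Lg : ℝ) + 1 ≤ 3 * ℓ := by linarith
  have s1 : ∑ b ∈ Bl X n k, ‖∑ p ∈ Ib k b.1 b.2 ×ˢ Kb X (b.2 * 2 ^ (b.1 - k)), ee (((p.1 * p.2 : ℕ) : ℝ) * α)‖ ≤
      15 * E := by
    refine (sum_le_sum hb).trans ?_
    rw [sum_const, nsmul_eq_mul]
    have h1 := card_Bl X n k
    rw [← hLg] at h1
    have h2 : ((Bl X n k).card : ℝ) ≤ (3 * ℓ) * 2 ^ k := by
      refine h1.trans ?_
      gcongr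
    calc ((Bl X n k).card : ℝ) * (5 * X / (ℓ ^ 3 * 2 ^ k)) ≤ ((3 * ℓ) * 2 ^ k) * (5 * X / (ℓ ^ 3 * 2 ^ k)) := by
          gcongr
      _ = 15 * E := by rw [hE]; field_simp; ring
  have s2 : ((Lg : ℝ) + 1) * (2 * (X : ℝ) / 2 ^ k + Real.sqrt X) ≤ 9 * E := by
    have h1 : 2 * (X : ℝ) / 2 ^ k ≤ 2 * (X / ℓ ^ 4) := by
      rw [mul_div_assoc]
      gcongr
    calc ((Lg : ℝ) + 1) * (2 * (X : ℝ) / 2 ^ k + Real.sqrt X) ≤ (3 * ℓ) * (2 * (X / ℓ ^ 4) + Real.sqrt X) := by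
          gcongr
      _ = 6 * (X / ℓ ^ 3) + 3 * (Real.sqrt X * ℓ) := by field_simp; ring
      _ ≤ 9 * E := by linarith [hpw 3 (by norm_num)]
  have s3 : ((2 ^ n : ℕ) : ℝ) ≤ E := by
    refine le_trans ?_ hsm3
    push_cast
    have : ℓ ^ 12 ≤ ℓ ^ 60 := pow_le_pow_right₀ (by linarith) (by norm_num)
    have : 0 < ℓ ^ 12 := by positivity
    linarith
  have h3 : ‖∑ p ∈ (Icc 1 X).filter Nat.Prime, ee (p * α) -
      ∑ p ∈ (Icc 1 X).filter (fun p => p.Prime ∧ 2 ^ n ≤ p), ee (p * α)‖ ≤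
      ((2 ^ n : ℕ) : ℝ) + ((0 : ℕ) : ℝ) := by
    apply norm_sum_sdiff (f := fun n => ee (n * α)) (fun n => (norm_ee _).le)
    · have hsub : ((Icc 1 X).filter Nat.Prime) \ ((Icc 1 X).filter (fun p => p.Prime ∧ 2 ^ n ≤ p)) ⊆
          range (2 ^ n) := by
        intro m hm
        rw [Finset.mem_sdiff, mem_filter, mem_filter] at hm
        rw [mem_range]
        by_contra hcon
        push Not at hcon
        exact hm.2 ⟨hm.1.1, hm.1.2, hcon⟩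
      refine (card_le_card hsub).trans ?_
      rw [card_range]
    · rw [card_eq_zero.2]
      rw [sdiff_eq_empty_iff_subset]
      intro m hm
      rw [mem_filter] at hm ⊢
      exact ⟨hm.1, hm.2.1⟩
  refine (norm_le_sub (w := ∑ p ∈ (Icc 1 X).filter (fun p => p.Prime ∧ 2 ^ n ≤ p), ee (p * α))).trans ?_
  rw [Nat.cast_zero, add_zero] at h3
  have hdec' : ‖∑ p ∈ (Icc 1 X).filter (fun p => p.Prime ∧ 2 ^ n ≤ p), ee (p * α)‖ ≤
      ‖∑ m ∈ (Icc 1 X).filter (fun m => Rgh (2 ^ n) m ∧ m ≠ 1), ee (m * α)‖ +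
      ∑ b ∈ Bl X n k, ‖∑ p ∈ Ib k b.1 b.2 ×ˢ Kb X (b.2 * 2 ^ (b.1 - k)), ee (((p.1 * p.2 : ℕ) : ℝ) * α)‖ +
      ((Lg : ℝ) + 1) * (2 * (X : ℝ) / 2 ^ k + Real.sqrt X) := hdec
  linarith

end Pool.Agent.H.MP_0ec261_nt.AA
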