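import Pool.Agent.H.MP_0ec261_nt.AA.Sv
import Pool.Agent.H.MP_0ec261_nt.Buch

/-!
Counts of rough numbers in short intervals and residue classes.
-/

open Finset

namespace Pool.Agent.H.MP_0ec261_nt.AA

/-- the constant of the upper bound sieve -/
noncomputable def C1 : ℝ := 4 * Real.exp 17

lemma C1_pos : 0 < C1 := by unfold C1; positivity

open Classical in
lemma rough_int {w A H q b : ℕ} (hw : 1000001 ≤ w) (hq : 0 < q) (hqw : q < 2 ^ (w - 1))
    (hH : 2 ^ (244 * w) * q ≤ H) (hqA : q ≤ A) (hb : b < q) (hbq : Nat.Coprime b q) :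
    (((Ico A (A + H)).filter (fun n => n % q = b ∧ Rgh (2 ^ w) n)).card : ℝ) ≤
      2 * C1 * H / (q.totient * w) := by
  set x := b + q * ((A - b - 1) / q) with hx
  set y := H / q + 1 with hy
  have hx1 : x + 1 ≤ A := by
    have := Nat.mul_div_le (A - b - 1) q
    omega
  have hx2 : A ≤ x + q := by
    have := Nat.lt_mul_div_succ (A - b - 1) hq
    rw [mul_add, mul_one] at this
    omega
  have hxmod : x % q = b := by
    rw [hx, Nat.add_mul_mod_self_left, Nat.mod_eq_of_lt hb]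
  have hxq : Nat.Coprime x q := by
    rw [hx, Nat.coprime_add_mul_left_left]
    exact hbq
  have hHq : q ≤ H := by
    have : 1 ≤ 2 ^ (244 * w) := Nat.one_le_pow _ _ (by norm_num)
    nlinarith
  have hcard : ((Ico A (A + H)).filter (fun n => n % q = b ∧ Rgh (2 ^ w) n)).card ≤ cnt w q x y := by
    unfold cnt
    apply card_le_card_of_injOn (fun n => (n - x) / q)
    · intro n hn
      rw [mem_coe, mem_filter, mem_Ico] at hn
      have hmod : x ≡ n [MOD q] := by
        unfold Nat.ModEq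
        rw [hxmod, hn.2.1]
      have hdv : q ∣ n - x := (Nat.modEq_iff_dvd' (by omega)).1 hmod
      obtain ⟨m, hm⟩ := hdv
      have hnm : n = x + q * m := by omega
      have hm1 : 1 ≤ m := by
        rcases Nat.eq_zero_or_pos m with h | h
        · subst h; omega
        · exact h
      have hm2 : m ≤ y := by
        rw [hy]
        have h1 : q * m < q + H := by omega
        have h2 : m ≤ (q + H) / q := by
          rw [Nat.le_div_iff_mul_le hq, mul_comm]; exact h1.le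
        rw [Nat.add_div_left _ hq] at h2
        exact h2
      rw [mem_coe, mem_filter, mem_Icc]
      beta_reduce
      rw [hm, Nat.mul_div_cancel_left _ hq]
      refine ⟨⟨hm1, hm2⟩, ?_⟩
      rw [← hnm]; exact hn.2.2
    · intro n hn n' hn' h
      rw [mem_coe, mem_filter, mem_Ico] at hn hn'
      have key : ∀ n, A ≤ n → n % q = b → n = x + q * ((n - x) / q) := by
        intro n h1 h2
        have hmod : x ≡ n [MOD q] := by
          unfold Nat.ModEq
          rw [hxmod, h2]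
        have hdv : q ∣ n - x := (Nat.modEq_iff_dvd' (by omega)).1 hmod
        rw [Nat.mul_div_cancel' hdv]
        omega
      simp only at h
      rw [key n hn.1.1 hn.2.1, key n' hn'.1.1 hn'.2.1, h]
  have hyH : 2 ^ (244 * w) ≤ y := by
    have : 2 ^ (244 * w) ≤ H / q := by
      rw [Nat.le_div_iff_mul_le hq]; exact hH
    omega
  have h1 := cnt_le (t := w) (y := y) (q := q) (x := x) hw hyH hq hqw hxq
  have hφ : (0 : ℝ) < q.totient := by exact_mod_cast Nat.totient_pos.2 hq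
  have hq0 : (0 : ℝ) < q := by exact_mod_cast hq
  have hw0 : (0 : ℝ) < w := by exact_mod_cast (by omega : 0 < w)
  have hy2 : (y : ℝ) ≤ 2 * H / q := by
    rw [hy]
    push_cast
    have h2 : ((H / q : ℕ) : ℝ) ≤ (H : ℝ) / q := Nat.cast_div_le
    have h3 : (1 : ℝ) ≤ (H : ℝ) / q := by
      rw [le_div_iff₀ hq0, one_mul]
      exact_mod_cast hHq
    have h4 : 2 * (H : ℝ) / q = H / q + H / q := by ring
    linarith
  calc (((Ico A (A + H)).filter (fun n => n % q = b ∧ Rgh (2 ^ w) n)).card : ℝ) ≤ cnt w q x y := by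
        exact_mod_cast hcard
    _ ≤ 4 * Real.exp 17 * (y * (q / (q.totient : ℝ))) / w := h1
    _ ≤ 4 * Real.exp 17 * ((2 * H / q) * (q / (q.totient : ℝ))) / w := by gcongr
    _ = _ := by unfold C1; field_simp

open Classical in
lemma rough_int1 {w A H : ℕ} (hw : 1000001 ≤ w) (hH : 2 ^ (244 * w) ≤ H) (hA : 1 ≤ A) :
    (((Ico A (A + H)).filter (fun n => Rgh (2 ^ w) n)).card : ℝ) ≤ 2 * C1 * H / w := by
  have h := rough_int (w := w) (A := A) (H := H) (q := 1) (b := 0) hw one_pos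
    (Nat.one_lt_pow (by omega) (by norm_num)) (by rw [mul_one]; exact hH) hA one_pos (Nat.coprime_one_right _)
  simp only [Nat.mod_one, true_and, Nat.totient_one, Nat.cast_one, one_mul] at h
  exact h

/-- primes of a block in a residue class -/
lemma Ib_card {k l a w q : ℕ} (b : ℕ) (hw : 1000001 ≤ w) (hwl : w ≤ l) (hkl : k ≤ l) (ha : 2 ^ k ≤ a) (hq : 0 < q)
    (hqw : q < 2 ^ (w - 1)) (hH : 2 ^ (244 * w) * q ≤ 2 ^ (l - k)) :
    ((((Ib k l a).filter (fun r => r % q = b)).card : ℕ) : ℝ) ≤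
      2 * C1 * ((2 ^ (l - k) : ℕ) : ℝ) / (q.totient * w) := by
  classical
  have hC := C1_pos
  have hlow : 2 ^ l ≤ a * 2 ^ (l - k) := by
    calc 2 ^ l = 2 ^ k * 2 ^ (l - k) := by rw [← pow_add]; congr 1; omega
      _ ≤ a * 2 ^ (l - k) := Nat.mul_le_mul_right _ ha
  have hwl2 : 2 ^ w ≤ 2 ^ l := Nat.pow_le_pow_right (by norm_num) hwl
  have hw1 : 2 ^ (w - 1) ≤ 2 ^ w := Nat.pow_le_pow_right (by norm_num) (by omega)
  by_cases hb : b < q ∧ Nat.Coprime b q
  · refine le_trans ?_ (rough_int (w := w) (A := a * 2 ^ (l - k)) (H := 2 ^ (l - k)) (q := q) (b := b) hw hq hqw hH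
      (by omega) hb.1 hb.2)
    have : ((Ib k l a).filter (fun r => r % q = b)) ⊆
        (Ico (a * 2 ^ (l - k)) (a * 2 ^ (l - k) + 2 ^ (l - k))).filter (fun n => n % q = b ∧ Rgh (2 ^ w) n) := by
      intro r hr
      rw [mem_filter, mem_Ib] at hr
      rw [mem_filter, mem_Ico]
      refine ⟨hr.1.1, hr.2, ?_⟩
      intro p hp hpr
      rw [(Nat.prime_dvd_prime_iff_eq hp hr.1.2).1 hpr]
      omega
    exact_mod_cast card_le_card this
  · have : ((Ib k l a).filter (fun r => r % q = b)) = ∅ := by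
      rw [filter_eq_empty_iff]
      intro r hr hrb
      rw [mem_Ib] at hr
      apply hb
      have h1 : b < q := by rw [← hrb]; exact Nat.mod_lt _ hq
      refine ⟨h1, ?_⟩
      rw [← hrb]
      have h2 : Nat.Coprime r q := by
        rw [hr.2.coprime_iff_not_dvd]
        intro h3
        have := Nat.le_of_dvd hq h3
        omega
      unfold Nat.Coprime at h2 ⊢
      rw [← Nat.gcd_rec, Nat.gcd_comm]
      exact h2
    rw [this, card_empty]
    push_cast
    positivity

lemma Kb_ge {X R j : ℕ} (hj : j ∈ Kb X R) : R ≤ j := by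
  rw [mem_Kb] at hj
  obtain ⟨p, hp, hpj⟩ := Nat.exists_prime_and_dvd hj.2.2.1
  exact (hj.2.2.2 p hp hpj).trans (Nat.le_of_dvd hj.1.1 hpj)

lemma Kb_coprime {X R j q : ℕ} (hj : j ∈ Kb X R) (hq : 0 < q) (hqR : q < R) : Nat.Coprime j q := by
  rw [mem_Kb] at hj
  by_contra hne
  obtain ⟨p, hp, hpd⟩ := Nat.exists_prime_and_dvd hne
  have h1 := hj.2.2.2 p hp (hpd.trans (Nat.gcd_dvd_left _ _))
  have h2 := Nat.le_of_dvd hq (hpd.trans (Nat.gcd_dvd_right _ _))
  omega

/-- cofactors in a residue class -/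
lemma Kb_card {X R H w q : ℕ} (b : ℕ) (hw : 1000001 ≤ w) (hwR : 2 ^ w ≤ R) (hXH : X / R ≤ H) (hq : 0 < q)
    (hqw : q < 2 ^ (w - 1)) (hH : 2 ^ (244 * w) * q ≤ H) :
    ((((Kb X R).filter (fun r => r % q = b)).card : ℕ) : ℝ) ≤ 2 * C1 * (H : ℝ) / (q.totient * w) := by
  classical
  have hC := C1_pos
  have hw1 : 2 ^ (w - 1) ≤ 2 ^ w := Nat.pow_le_pow_right (by norm_num) (by omega)
  by_cases hb : b < q ∧ Nat.Coprime b q
  · refine le_trans ?_ (rough_int (w := w) (A := q) (H := H) (q := q) (b := b) hw hq hqw hH le_rfl hb.1 hb.2)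
    have : ((Kb X R).filter (fun r => r % q = b)) ⊆
        (Ico q (q + H)).filter (fun n => n % q = b ∧ Rgh (2 ^ w) n) := by
      intro r hr
      rw [mem_filter] at hr
      have h1 := Kb_ge hr.1
      have h2 := mem_Kb.1 hr.1
      rw [mem_filter, mem_Ico]
      refine ⟨⟨by omega, by omega⟩, hr.2, ?_⟩
      intro p hp hpr
      exact hwR.trans (h2.2.2.2 p hp hpr)
    exact_mod_cast card_le_card this
  · have : ((Kb X R).filter (fun r => r % q = b)) = ∅ := by
      rw [filter_eq_empty_iff]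
      intro r hr hrb
      apply hb
      have h1 : b < q := by rw [← hrb]; exact Nat.mod_lt _ hq
      refine ⟨h1, ?_⟩
      have h2 := Kb_coprime hr hq (by omega)
      rw [← hrb]
      unfold Nat.Coprime at h2 ⊢
      rw [← Nat.gcd_rec, Nat.gcd_comm]
      exact h2
    rw [this, card_empty]
    push_cast
    positivity

lemma Kb_card1 {X R H w : ℕ} (hw : 1000001 ≤ w) (hwR : 2 ^ w ≤ R) (hXH : X / R ≤ H)
    (hH : 2 ^ (244 * w) ≤ H) : (((Kb X R).card : ℕ) : ℝ) ≤ 2 * C1 * (H : ℝ) / w := by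
  have h := Kb_card (X := X) (R := R) (H := H) (w := w) (q := 1) 0 hw hwR hXH one_pos
    (Nat.one_lt_pow (by omega) (by norm_num)) (by rw [mul_one]; exact hH)
  simp only [Nat.mod_one, Nat.totient_one, Nat.cast_one, one_mul] at h
  rw [filter_true_of_mem (fun _ _ => trivial)] at h
  exact h

/-- pairs of cofactors in the same residue class -/
lemma Kb_pairs {X R H w q : ℕ} (hw : 1000001 ≤ w) (hwR : 2 ^ w ≤ R) (hXH : X / R ≤ H) (hq : 0 < q)
    (hqw : q < 2 ^ (w - 1)) (hH : 2 ^ (244 * w) * q ≤ H) :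
    ((((Kb X R ×ˢ Kb X R).filter (fun p => p.1 % q = p.2 % q)).card : ℕ) : ℝ) ≤
      (2 * C1 * (H : ℝ)) ^ 2 / (q.totient * (w : ℝ) ^ 2) := by
  have hC := C1_pos
  have hφ : (0 : ℝ) < q.totient := by exact_mod_cast Nat.totient_pos.2 hq
  have hw0 : (0 : ℝ) < w := by exact_mod_cast (by omega : 0 < w)
  have hw1 : 2 ^ (w - 1) ≤ 2 ^ w := Nat.pow_le_pow_right (by norm_num) (by omega)
  set Kr := Kb X R with hK
  have e1 : ((Kr ×ˢ Kr).filter (fun p => p.1 % q = p.2 % q)).card =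
      ∑ b ∈ (range q).filter (fun b => Nat.Coprime q b), ((Kr.filter (fun r => r % q = b)).card) ^ 2 := by
    have hmaps : ∀ p ∈ (Kr ×ˢ Kr).filter (fun p => p.1 % q = p.2 % q), p.1 % q ∈
        (range q).filter (fun b => Nat.Coprime q b) := by
      intro p hp
      rw [mem_filter, mem_product] at hp
      rw [mem_filter, mem_range]
      refine ⟨Nat.mod_lt _ hq, ?_⟩
      have h2 := Kb_coprime hp.1.1 hq (by omega)
      unfold Nat.Coprime at h2 ⊢
      rw [Nat.gcd_comm, ← Nat.gcd_rec, Nat.gcd_comm]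
      exact h2
    rw [card_eq_sum_card_fiberwise hmaps]
    apply sum_congr rfl
    intro b _
    rw [sq, ← card_product]
    congr 1
    ext p
    simp only [mem_filter, mem_product]
    constructor
    · rintro ⟨⟨⟨h1, h2⟩, h3⟩, h4⟩
      exact ⟨⟨h1, h4⟩, h2, by rw [← h3]; exact h4⟩
    · rintro ⟨⟨h1, h2⟩, h3, h4⟩
      exact ⟨⟨⟨h1, h3⟩, by rw [h2, h4]⟩, h2⟩
  rw [e1]
  push_cast
  calc _ ≤ ∑ b ∈ (range q).filter (fun b => Nat.Coprime q b), (2 * C1 * (H : ℝ) / (q.totient * w)) ^ 2 := by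
        apply sum_le_sum
        intro b _
        apply pow_le_pow_left₀ (Nat.cast_nonneg _)
        exact Kb_card b hw hwR hXH hq hqw hH
    _ = (q.totient : ℝ) * (2 * C1 * (H : ℝ) / (q.totient * w)) ^ 2 := by
        rw [sum_const, nsmul_eq_mul, Nat.totient]
    _ = _ := by field_simp

/-- close pairs of cofactors -/
lemma Kb_close {X R H w Δ : ℕ} (hw : 1000001 ≤ w) (hwR : 2 ^ w ≤ R) (hXH : X / R ≤ H)
    (hH : 2 ^ (244 * w) ≤ H) (hΔ : 2 ^ (244 * w) ≤ 2 * Δ + 1) :
    ((((Kb X R ×ˢ Kb X R).filter (fun p => ¬ (p.1 + Δ < p.2 ∨ p.2 + Δ < p.1))).card : ℕ) : ℝ) ≤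
      (2 * C1 * (H : ℝ) / w) * (2 * C1 * ((2 * Δ + 1 : ℕ) : ℝ) / w) := by
  classical
  have hC := C1_pos
  have hw0 : (0 : ℝ) < w := by exact_mod_cast (by omega : 0 < w)
  set Kr := Kb X R with hK
  have hmaps : ∀ p ∈ (Kr ×ˢ Kr).filter (fun p => ¬ (p.1 + Δ < p.2 ∨ p.2 + Δ < p.1)), p.1 ∈ Kr := by
    intro p hp
    rw [mem_filter, mem_product] at hp
    exact hp.1.1
  have h1 : (((Kr ×ˢ Kr).filter (fun p => ¬ (p.1 + Δ < p.2 ∨ p.2 + Δ < p.1))).card : ℝ) =
      ∑ j ∈ Kr, ((((Kr ×ˢ Kr).filter (fun p => ¬ (p.1 + Δ < p.2 ∨ p.2 + Δ < p.1))).filter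
        (fun p => p.1 = j)).card : ℝ) := by
    rw [card_eq_sum_card_fiberwise hmaps]
    push_cast
    rfl
  rw [h1]
  have h2 : ∀ j ∈ Kr, ((((Kr ×ˢ Kr).filter (fun p => ¬ (p.1 + Δ < p.2 ∨ p.2 + Δ < p.1))).filter
        (fun p => p.1 = j)).card : ℝ) ≤ 2 * C1 * ((2 * Δ + 1 : ℕ) : ℝ) / w := by
    intro j _
    refine le_trans ?_ (rough_int1 (w := w) (A := max (j - Δ) 1) (H := 2 * Δ + 1) hw hΔ (le_max_right _ _))
    have : (((Kr ×ˢ Kr).filter (fun p => ¬ (p.1 + Δ < p.2 ∨ p.2 + Δ < p.1))).filter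
        (fun p => p.1 = j)).card ≤ ((Ico (max (j - Δ) 1) (max (j - Δ) 1 + (2 * Δ + 1))).filter
          (fun n => Rgh (2 ^ w) n)).card := by
      apply card_le_card_of_injOn (fun p => p.2)
      · intro p hp
        rw [mem_coe, mem_filter, mem_filter, mem_product] at hp
        obtain ⟨⟨⟨h3, h4⟩, h5⟩, h6⟩ := hp
        have h7 := mem_Kb.1 h4
        rw [mem_coe, mem_filter, mem_Ico]
        beta_reduce
        push Not at h5
        rw [h6] at h5
        refine ⟨⟨?_, ?_⟩, fun q hq hqd => hwR.trans (h7.2.2.2 q hq hqd)⟩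
        · apply max_le
          · omega
          · exact h7.1.1
        · have := le_max_left (j - Δ) 1
          omega
      · intro p hp p' hp' h
        rw [mem_coe, mem_filter] at hp hp'
        exact Prod.ext (by rw [hp.2, hp'.2]) h
    exact_mod_cast this
  refine (sum_le_sum h2).trans ?_
  rw [sum_const, nsmul_eq_mul]
  apply mul_le_mul_of_nonneg_right _ (by positivity)
  exact Kb_card1 hw hwR hXH hH

end Pool.Agent.H.MP_0ec261_nt.AA
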