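import Pool.Agent.H.MP_0ec261_nt.AA.RghA
import Pool.Agent.H.MP_0ec261_nt.AA.BilA

/-!
The exponential sum over primes near a rational number with a small denominator: explicit form.
-/

open Finset

namespace Pool.Agent.H.MP_0ec261_nt.AA

lemma norm_le_sub {z w : ℂ} : ‖z‖ ≤ ‖w‖ + ‖z - w‖ := by
  have : z = w + (z - w) := by ring
  calc ‖z‖ = ‖w + (z - w)‖ := by rw [← this]
    _ ≤ _ := norm_add_le _ _

lemma norm_sum_sdiff {A B : Finset ℕ} {f : ℕ → ℂ} (hf : ∀ n, ‖f n‖ ≤ 1) {c d : ℕ} (hA : (A \ B).card ≤ c)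
    (hB : (B \ A).card ≤ d) : ‖∑ n ∈ A, f n - ∑ n ∈ B, f n‖ ≤ c + d := by
  rw [← sum_sdiff_sub_sum_sdiff]
  refine (norm_sub_le _ _).trans ?_
  have h : ∀ S : Finset ℕ, ‖∑ n ∈ S, f n‖ ≤ S.card := by
    intro S
    calc _ ≤ ∑ n ∈ S, ‖f n‖ := norm_sum_le _ _
      _ ≤ ∑ n ∈ S, (1 : ℝ) := sum_le_sum (fun n _ => hf n)
      _ = _ := by simp
  have h1 : ((A \ B).card : ℝ) ≤ c := by exact_mod_cast hA
  have h2 : ((B \ A).card : ℝ) ≤ d := by exact_mod_cast hB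
  exact add_le_add ((h _).trans h1) ((h _).trans h2)

open Classical in
lemma rough_full {X t R k q : ℕ} {a0 : ℤ} {β δ θ : ℝ} (ht : 500000 ≤ t) (hδ0 : 0 < δ)
    (hδ : 1000 ≤ δ * t) (hR : 115 ≤ R) (hR2 : 60 ≤ δ * 42 ^ R) (hq : 0 < q) (hqt : q < 2 ^ (2 * t))
    (ha0 : IsCoprime a0 (q : ℤ)) (hy : 2 ^ (t * (4 * R + 28)) ≤ X / (q * 2 ^ k))
    (hθ : ‖∑ i ∈ range (2 ^ k), ee (i * (((q * (X / (q * 2 ^ k)) : ℕ) : ℝ) * β))‖ *
      (((q * (X / (q * 2 ^ k)) : ℕ) : ℝ) / q.totient) ≤ X * θ) :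
    ‖∑ m ∈ (Icc 1 X).filter (fun m => Rgh (2 ^ (2 * t)) m ∧ m ≠ 1), ee (m * (a0 / q + β))‖ ≤
      X * VV (2 ^ (2 * t)) * (δ + θ) + 4 * Real.pi * (X : ℝ) ^ 2 * |β| / 2 ^ k + 4 * (q * 2 ^ k : ℕ) := by
  set y := X / (q * 2 ^ k) with hy'
  set B := q * y with hB
  have hφ : (0 : ℝ) < q.totient := by exact_mod_cast Nat.totient_pos.2 hq
  have hV0 : 0 < VV (2 ^ (2 * t)) := by
    apply VV_pos
    calc 2 = 2 ^ 1 := (pow_one 2).symm
      _ ≤ _ := Nat.pow_le_pow_right (by norm_num) (by omega)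
  set V := VV (2 ^ (2 * t)) with hV
  have hIB : 2 ^ k * B ≤ X := by
    have := Nat.mul_div_le X (q * 2 ^ k)
    calc 2 ^ k * B = q * 2 ^ k * (X / (q * 2 ^ k)) := by rw [hB]; ring
      _ ≤ X := this
  have hXB : X < 2 ^ k * B + q * 2 ^ k := by
    have := Nat.lt_mul_div_succ X (show 0 < q * 2 ^ k by positivity)
    calc X < q * 2 ^ k * (X / (q * 2 ^ k) + 1) := this
      _ = _ := by rw [hB, hy']; ring
  have h1 := rough_main (t := t) (R := R) (I := 2 ^ k) (y := y) (q := q) (a0 := a0) (β := β) (δ := δ) ht hδ0 hδ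
    hR hR2 hy hq hqt ha0
  have hq1 : q ≤ q * 2 ^ k := Nat.le_mul_of_pos_right _ (by positivity)
  have h2 : ‖∑ m ∈ (Icc 1 X).filter (fun m => Rgh (2 ^ (2 * t)) m ∧ m ≠ 1), ee (m * (a0 / q + β)) -
      ∑ n ∈ (Ico q (q + 2 ^ k * (q * y))).filter (fun n => Rgh (2 ^ (2 * t)) n), ee (n * (a0 / q + β))‖ ≤
      ((q + q * 2 ^ k : ℕ) : ℝ) + ((1 + q : ℕ) : ℝ) := by
    apply norm_sum_sdiff (f := fun n => ee (n * (a0 / q + β))) (fun n => (norm_ee _).le)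
    · have hsub : ((Icc 1 X).filter (fun m => Rgh (2 ^ (2 * t)) m ∧ m ≠ 1)) \
          ((Ico q (q + 2 ^ k * (q * y))).filter (fun n => Rgh (2 ^ (2 * t)) n)) ⊆
          range q ∪ Ico (q + 2 ^ k * B) (q + 2 ^ k * B + q * 2 ^ k) := by
        intro n hn
        rw [mem_sdiff, mem_filter, mem_filter, mem_Icc, mem_Ico] at hn
        rw [mem_union, mem_range, mem_Ico]
        by_contra hcon
        push Not at hcon
        obtain ⟨hc1, hc2⟩ := hcon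
        apply hn.2
        refine ⟨⟨hc1, ?_⟩, hn.1.2.1⟩
        by_contra hge
        push Not at hge
        have := hc2 hge
        omega
      refine (card_le_card hsub).trans ((card_union_le _ _).trans ?_)
      rw [card_range, Nat.card_Ico]
      omega
    · have hsub : ((Ico q (q + 2 ^ k * (q * y))).filter (fun n => Rgh (2 ^ (2 * t)) n)) \
          ((Icc 1 X).filter (fun m => Rgh (2 ^ (2 * t)) m ∧ m ≠ 1)) ⊆
          {1} ∪ Ico (X + 1) (X + 1 + q) := by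
        intro n hn
        rw [mem_sdiff, mem_filter, mem_filter, mem_Icc, mem_Ico] at hn
        rw [mem_union, mem_singleton, mem_Ico]
        by_contra hcon
        push Not at hcon
        obtain ⟨hc1, hc2⟩ := hcon
        apply hn.2
        refine ⟨⟨by omega, ?_⟩, hn.1.2, hc1⟩
        by_contra hge
        push Not at hge
        have := hc2 (by omega)
        have h3 := hn.1.1.2
        rw [← hB] at h3
        omega
      refine (card_le_card hsub).trans ((card_union_le _ _).trans ?_)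
      rw [card_singleton, Nat.card_Ico]
      omega
  refine (norm_le_sub (w := ∑ n ∈ (Ico q (q + 2 ^ k * (q * y))).filter (fun n => Rgh (2 ^ (2 * t)) n),
    ee (n * (a0 / q + β)))).trans ?_
  have h3 : ((q + q * 2 ^ k : ℕ) : ℝ) + ((1 + q : ℕ) : ℝ) ≤ 4 * (q * 2 ^ k : ℕ) := by
    have : (q + q * 2 ^ k) + (1 + q) ≤ 4 * (q * 2 ^ k) := by omega
    exact_mod_cast this
  have hIBr : (((2 ^ k : ℕ) : ℝ) * ((q * y : ℕ) : ℝ)) ≤ X := by exact_mod_cast hIB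
  have h4 : (((2 ^ k : ℕ) : ℝ) * ((q * y : ℕ) : ℝ)) * V * δ ≤ X * V * δ := by gcongr
  have h5 : ‖∑ i ∈ range (2 ^ k), ee (i * (((q * y : ℕ) : ℝ) * β))‖ * (((q * y : ℕ) : ℝ) * V / q.totient) ≤
      X * V * θ := by
    calc _ = (‖∑ i ∈ range (2 ^ k), ee (i * (((q * y : ℕ) : ℝ) * β))‖ * (((q * y : ℕ) : ℝ) / q.totient)) * V := by ring
      _ ≤ (X * θ) * V := mul_le_mul_of_nonneg_right hθ hV0.le
      _ = _ := by ring
  have h6 : 4 * Real.pi * (((2 ^ k : ℕ) : ℝ) * ((q * y : ℕ) : ℝ)) * (((q * y : ℕ) : ℝ) * |β|) ≤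
      4 * Real.pi * (X : ℝ) ^ 2 * |β| / 2 ^ k := by
    have h7 : ((q * y : ℕ) : ℝ) ≤ X / 2 ^ k := by
      rw [le_div_iff₀ (by positivity)]
      have : (((2 ^ k : ℕ) : ℝ) * ((q * y : ℕ) : ℝ)) = ((q * y : ℕ) : ℝ) * 2 ^ k := by push_cast; ring
      rw [← this]; exact hIBr
    calc 4 * Real.pi * (((2 ^ k : ℕ) : ℝ) * ((q * y : ℕ) : ℝ)) * (((q * y : ℕ) : ℝ) * |β|) ≤
        4 * Real.pi * X * ((X / 2 ^ k) * |β|) := by gcongr
      _ = _ := by ring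
  linarith

open Classical in
/-- explicit bound -/
theorem core {X t R k q : ℕ} {a0 : ℤ} {β δ θ Y : ℝ} (ht : 500000 ≤ t) (hδ0 : 0 < δ)
    (hδ : 1000 ≤ δ * t) (hR : 115 ≤ R) (hR2 : 60 ≤ δ * 42 ^ R) (hq : 0 < q) (hqt : q < 2 ^ (2 * t))
    (hkt : k ≤ 2 * t) (ha0 : IsCoprime a0 (q : ℤ)) (hy : 2 ^ (t * (4 * R + 28)) ≤ X / (q * 2 ^ k))
    (hθ : ‖∑ i ∈ range (2 ^ k), ee (i * (((q * (X / (q * 2 ^ k)) : ℕ) : ℝ) * β))‖ *
      (((q * (X / (q * 2 ^ k)) : ℕ) : ℝ) / q.totient) ≤ X * θ)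
    (hY : ∑ b ∈ Bl X (2 * t) k, ‖∑ p ∈ Ib k b.1 b.2 ×ˢ Kb X (b.2 * 2 ^ (b.1 - k)),
      ee (((p.1 * p.2 : ℕ) : ℝ) * (a0 / q + β))‖ ≤ Y) :
    ‖∑ p ∈ (Icc 1 X).filter Nat.Prime, ee (p * (a0 / q + β))‖ ≤
      X * VV (2 ^ (2 * t)) * (δ + θ) + Y + (4 * Real.pi * (X : ℝ) ^ 2 * |β| / 2 ^ k + 4 * (q * 2 ^ k : ℕ) +
      (Nat.log 2 X + 1) * (2 * (X : ℝ) / 2 ^ k + Real.sqrt X) + (2 ^ (2 * t) : ℕ)) := by
  have h1 := decomp (X := X) (φ := fun m => ee (m * (a0 / q + β))) (fun m => (norm_ee _).le) hkt (by omega : 2 ≤ 2 * t)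
  have h2 := rough_full (X := X) (k := k) ht hδ0 hδ hR hR2 hq hqt ha0 hy hθ
  have h3 : ‖∑ p ∈ (Icc 1 X).filter Nat.Prime, ee (p * (a0 / q + β)) -
      ∑ p ∈ (Icc 1 X).filter (fun p => p.Prime ∧ 2 ^ (2 * t) ≤ p), ee (p * (a0 / q + β))‖ ≤
      ((2 ^ (2 * t) : ℕ) : ℝ) + ((0 : ℕ) : ℝ) := by
    apply norm_sum_sdiff (f := fun n => ee (n * (a0 / q + β))) (fun n => (norm_ee _).le)
    · have hsub : ((Icc 1 X).filter Nat.Prime) \ ((Icc 1 X).filter (fun p => p.Prime ∧ 2 ^ (2 * t) ≤ p)) ⊆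
          range (2 ^ (2 * t)) := by
        intro n hn
        rw [mem_sdiff, mem_filter, mem_filter] at hn
        rw [mem_range]
        by_contra hcon
        push Not at hcon
        exact hn.2 ⟨hn.1.1, hn.1.2, hcon⟩
      refine (card_le_card hsub).trans ?_
      rw [card_range]
    · rw [card_eq_zero.2]
      rw [sdiff_eq_empty_iff_subset]
      intro n hn
      rw [mem_filter] at hn ⊢
      exact ⟨hn.1, hn.2.1⟩
  refine (norm_le_sub (w := ∑ p ∈ (Icc 1 X).filter (fun p => p.Prime ∧ 2 ^ (2 * t) ≤ p),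
    ee (p * (a0 / q + β)))).trans ?_
  have h4 : ∑ b ∈ Bl X (2 * t) k, ‖∑ p ∈ Ib k b.1 b.2 ×ˢ Kb X (b.2 * 2 ^ (b.1 - k)),
      (fun m : ℕ => ee (m * (a0 / q + β))) (p.1 * p.2)‖ ≤ Y := hY
  push_cast at h3
  push_cast
  push_cast at h2
  linarith

end Pool.Agent.H.MP_0ec261_nt.AA
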