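import Pool.Agent.H.MP_0ec261_nt.AA.Asm4

/-!
Convolutions, residue classes.
-/

open Finset Filter

namespace Pool.Agent.H.MP_0ec261_nt.AA

/-- the pairs with `x + e y = n` -/
def Pn (N e n : ℕ) : Finset (ℕ × ℕ) := (Icc 1 N ×ˢ Icc 1 N).filter (fun p => p.1 + e * p.2 = n)

/-- convolution -/
noncomputable def cv (u v : ℕ → ℝ) (N e n : ℕ) : ℝ := ∑ p ∈ Pn N e n, u p.1 * v p.2

lemma fact_gt {N : ℕ} (hN : 5 ≤ N) : 3 * N < N.factorial := by
  obtain ⟨m, rfl⟩ : ∃ m, N = m + 1 := ⟨N - 1, by omega⟩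
  rw [Nat.factorial_succ]
  have h4 : m ≤ m.factorial := Nat.self_le_factorial m
  have h5 : (m + 1) * 4 ≤ (m + 1) * m.factorial := Nat.mul_le_mul_left _ (by omega)
  omega

lemma cv_four (u v : ℕ → ℝ) {N e : ℕ} (he : e = 1 ∨ e = 2) (hN : 5 ≤ N) (α : ℝ) :
    Fh (range N.factorial) (fun n => ((cv u v N e n : ℝ) : ℂ)) α =
      Fh (Icc 1 N) (fun n => ((u n : ℝ) : ℂ)) α * Fh (Icc 1 N) (fun n => ((v n : ℝ) : ℂ)) (e * α) := by
  unfold Fh cv Pn
  rw [sum_mul_sum, ← sum_product']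
  have hmaps : ∀ p ∈ Icc 1 N ×ˢ Icc 1 N, p.1 + e * p.2 ∈ range N.factorial := by
    intro p hp
    rw [mem_product, mem_Icc, mem_Icc] at hp
    rw [mem_range]
    have h1 := fact_gt hN
    have h2 : e * p.2 ≤ 2 * N := Nat.mul_le_mul (by omega) hp.2.2
    omega
  rw [← sum_fiberwise_of_maps_to hmaps]
  apply sum_congr rfl
  intro n _
  beta_reduce
  rw [Complex.ofReal_sum, sum_mul]
  apply sum_congr rfl
  intro p hp
  rw [mem_filter] at hp
  have e1 : ee (n * α) = ee (p.1 * α) * ee (p.2 * (e * α)) := by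
    rw [← ee_add, ← hp.2]
    congr 1
    push_cast
    ring
  rw [e1]
  push_cast
  ring

/-- mean square for the convolutions -/
theorem cv_ms : ∃ C : ℝ, 1 ≤ C ∧ ∀ (w W : ℕ), 2 ≤ w → w ≤ W → Real.log (2 * W) ≤ 3 * w →
    (∀ p, p.Prime → ¬ p ∣ W → w < p) → ∀ (e b1 b2 : ℕ), (e = 1 ∨ e = 2) →
    0 < b1 → b1 < W → Nat.Coprime b1 W → 0 < b2 → b2 < W → Nat.Coprime b2 W → ∀ᶠ N : ℕ in atTop,
    ∑ n ∈ Icc 1 N, (cv (fb N W b1) (fb N W b2) N e n - cv (gb W b1) (gb W b2) N e n) ^ 2 ≤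
      C / w * ((N : ℝ) ^ 3 * W / (W.totient : ℝ) ^ 4) := by
  obtain ⟨C, hC, h⟩ := asm
  refine ⟨C, hC, ?_⟩
  intro w W hw hwW hlogW hprime e b1 b2 he hb10 hb1W hb1 hb20 hb2W hb2
  filter_upwards [h w W hw hwW hlogW hprime e b1 b2 he hb10 hb1W hb1 hb20 hb2W hb2, eventually_ge_atTop 5] with N h1 hN
  have hM0 : 0 < N.factorial := Nat.factorial_pos _
  have hMr : (0 : ℝ) < N.factorial := by exact_mod_cast hM0
  have h2 := parseval hM0 (A := range N.factorial) (fun n hn => mem_range.1 hn)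
    (fun n => (((cv (fb N W b1) (fb N W b2) N e n - cv (gb W b1) (gb W b2) N e n : ℝ)) : ℂ))
  have h3 : ∀ t ∈ range N.factorial, ‖Fh (range N.factorial)
      (fun n => (((cv (fb N W b1) (fb N W b2) N e n - cv (gb W b1) (gb W b2) N e n : ℝ)) : ℂ))
      ((t : ℝ) / N.factorial)‖ ^ 2 = ‖Fs N W b1 ((t : ℝ) / N.factorial) * Fs N W b2 (e * ((t : ℝ) / N.factorial)) -
      Gs N W b1 ((t : ℝ) / N.factorial) * Gs N W b2 (e * ((t : ℝ) / N.factorial))‖ ^ 2 := by
    intro t _
    congr 2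
    unfold Fs Gs
    rw [← cv_four (fb N W b1) (fb N W b2) he hN, ← cv_four (gb W b1) (gb W b2) he hN]
    unfold Fh
    rw [← sum_sub_distrib]
    apply sum_congr rfl
    intro n _
    push_cast
    ring
  rw [sum_congr rfl h3] at h2
  rw [h2] at h1
  have h4 : ∑ n ∈ range N.factorial, ‖(((cv (fb N W b1) (fb N W b2) N e n - cv (gb W b1) (gb W b2) N e n : ℝ)) : ℂ)‖ ^ 2 ≤
      C / w * ((N : ℝ) ^ 3 * W / (W.totient : ℝ) ^ 4) := by
    have e1 : C / w * (N.factorial * (N : ℝ) ^ 3 * W / (W.totient : ℝ) ^ 4) =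
        N.factorial * (C / w * ((N : ℝ) ^ 3 * W / (W.totient : ℝ) ^ 4)) := by ring
    rw [e1] at h1
    exact le_of_mul_le_mul_left h1 hMr
  refine le_trans ?_ h4
  calc ∑ n ∈ Icc 1 N, (cv (fb N W b1) (fb N W b2) N e n - cv (gb W b1) (gb W b2) N e n) ^ 2 =
      ∑ n ∈ Icc 1 N, ‖(((cv (fb N W b1) (fb N W b2) N e n - cv (gb W b1) (gb W b2) N e n : ℝ)) : ℂ)‖ ^ 2 := by
        apply sum_congr rfl
        intro n _
        rw [Complex.norm_real, Real.norm_eq_abs, sq_abs]
    _ ≤ _ := by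
        apply sum_le_sum_of_subset_of_nonneg _ (fun _ _ _ => by positivity)
        intro n hn
        rw [mem_Icc] at hn
        rw [mem_range]
        have := fact_gt hN
        omega

/-- lower bound for the model -/
lemma cvG_ge {N W b1 b2 e n : ℕ} (he : e = 1 ∨ e = 2) (hW : 0 < W) (hb1W : b1 < W) (hb2W : b2 < W)
    (hn : (b1 + e * b2) % W = n % W) (hnN : n ≤ N) (hn12 : 12 * W ≤ n) :
    (n : ℝ) * W / (4 * (W.totient : ℝ) ^ 2) ≤ cv (gb W b1) (gb W b2) N e n := by
  have hWr : (0 : ℝ) < W := by exact_mod_cast hW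
  have hW1 : (1 : ℝ) ≤ W := by exact_mod_cast hW
  have hφ : (0 : ℝ) < W.totient := by exact_mod_cast Nat.totient_pos.2 hW
  set S := (Icc 1 ((n - 1) / e)).filter (fun y => y % W = b2) with hS
  have he0 : 0 < e := by omega
  have hinj : S.card ≤ ((Pn N e n).filter (fun p => p.1 % W = b1 ∧ p.2 % W = b2)).card := by
    apply card_le_card_of_injOn (fun y => (n - e * y, y))
    · intro y hy
      rw [mem_coe, hS, mem_filter, mem_Icc] at hy
      obtain ⟨⟨h1, h2⟩, h3⟩ := hy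
      have h4 : e * y ≤ n - 1 := by
        rw [Nat.le_div_iff_mul_le he0, mul_comm] at h2
        exact h2
      have h5 : y ≤ e * y := Nat.le_mul_of_pos_left y he0
      rw [mem_coe, mem_filter]
      unfold Pn
      rw [mem_filter, mem_product, mem_Icc, mem_Icc]
      dsimp only
      refine ⟨⟨⟨⟨by omega, by omega⟩, by omega, by omega⟩, by omega⟩, ?_, h3⟩
      have h6 : n - e * y + e * y ≡ b1 + e * y [MOD W] := by
        have e1 : n - e * y + e * y = n := by omega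
        rw [e1]
        have h7 : b1 + e * b2 ≡ n [MOD W] := hn
        have h8 : y ≡ b2 [MOD W] := by
          show y % W = b2 % W
          rw [h3, Nat.mod_eq_of_lt hb2W]
        exact h7.symm.trans (Nat.ModEq.add_left b1 (Nat.ModEq.mul_left e h8.symm))
      have h9 := Nat.ModEq.add_right_cancel' (e * y) h6
      have h10 : (n - e * y) % W = b1 % W := h9
      rw [h10, Nat.mod_eq_of_lt hb1W]
    · intro y _ y' _ h
      simp only [Prod.mk.injEq] at h
      exact h.2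
  have hcard : (n : ℝ) / (4 * W) ≤ S.card := by
    have h1 := (abs_le.1 (cnt_mod W b2 ((n - 1) / e) hW hb2W)).1
    rw [← hS] at h1
    have h2 : (n : ℝ) ≤ 2 * (((n - 1) / e : ℕ) : ℝ) + 3 := by
      have : n ≤ 2 * ((n - 1) / e) + 3 := by
        rcases he with rfl | rfl
        · rw [Nat.div_one]; omega
        · omega
      exact_mod_cast this
    have h3 : (12 : ℝ) * W ≤ n := by exact_mod_cast hn12
    have h4 : (((n - 1) / e : ℕ) : ℝ) / W ≤ S.card + 1 := by linarith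
    rw [div_le_iff₀ hWr] at h4
    rw [div_le_iff₀ (by positivity)]
    nlinarith
  have hsum : cv (gb W b1) (gb W b2) N e n =
      (((Pn N e n).filter (fun p => p.1 % W = b1 ∧ p.2 % W = b2)).card : ℝ) * ((W : ℝ) / W.totient) ^ 2 := by
    unfold cv
    rw [← nsmul_eq_mul, ← sum_const, sum_filter]
    apply sum_congr rfl
    intro p _
    unfold gb
    by_cases h1 : p.1 % W = b1
    · by_cases h2 : p.2 % W = b2
      · rw [if_pos h1, if_pos h2, if_pos ⟨h1, h2⟩, sq]
      · have h3 : ¬ (p.1 % W = b1 ∧ p.2 % W = b2) := fun h => h2 h.2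
        rw [if_neg h2, if_neg h3, mul_zero]
    · have h3 : ¬ (p.1 % W = b1 ∧ p.2 % W = b2) := fun h => h1 h.1
      rw [if_neg h1, if_neg h3, zero_mul]
  rw [hsum]
  have h5 : (n : ℝ) / (4 * W) ≤ (((Pn N e n).filter (fun p => p.1 % W = b1 ∧ p.2 % W = b2)).card : ℝ) :=
    hcard.trans (by exact_mod_cast hinj)
  calc (n : ℝ) * W / (4 * (W.totient : ℝ) ^ 2) = (n : ℝ) / (4 * W) * ((W : ℝ) / W.totient) ^ 2 := by field_simp
    _ ≤ _ := mul_le_mul_of_nonneg_right h5 (by positivity)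

/-- the primorial -/
lemma primorial_facts {w : ℕ} (hw : w.Prime) : 2 ≤ w ∧ w ≤ primorial w ∧ Real.log (2 * primorial w) ≤ 3 * w ∧
    (∀ p, p.Prime → ¬ p ∣ primorial w → w < p) ∧ 2 ≤ primorial w := by
  have hdvd : ∀ p, p.Prime → p ≤ w → p ∣ primorial w := by
    intro p hp hpw
    unfold primorial
    apply dvd_prod_of_mem
    rw [mem_filter, mem_range]
    exact ⟨by omega, hp⟩
  have hpos : 0 < primorial w := primorial_pos w
  have h1 : w ≤ primorial w := Nat.le_of_dvd hpos (hdvd w hw le_rfl)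
  refine ⟨hw.two_le, h1, ?_, ?_, hw.two_le.trans h1⟩
  · have h2 : ((primorial w : ℕ) : ℝ) ≤ (4 : ℝ) ^ w := by exact_mod_cast primorial_le_four_pow w
    have hpr : (0 : ℝ) < primorial w := by exact_mod_cast hpos
    have h3 : Real.log (2 * primorial w) ≤ Real.log (2 * 4 ^ w) := by
      apply Real.log_le_log (by positivity)
      linarith
    refine h3.trans ?_
    rw [Real.log_mul (by norm_num) (by positivity), Real.log_pow]
    have h4 : Real.log 4 = 2 * Real.log 2 := by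
      rw [show (4 : ℝ) = 2 ^ 2 by norm_num, Real.log_pow]; norm_num
    have h5 := Real.log_two_lt_d9
    have h6 : (2 : ℝ) ≤ w := by exact_mod_cast hw.two_le
    rw [h4]
    nlinarith
  · intro p hp hnd
    by_contra hcon
    push Not at hcon
    exact hnd (hdvd p hp hcon)

/-- residues -/
lemma exists_res {w e n : ℕ} (hw : w.Prime) (hpar : (e = 1 ∧ Even n) ∨ (e = 2 ∧ Odd n)) :
    ∃ b1 b2 : ℕ, (0 < b1 ∧ b1 < primorial w ∧ Nat.Coprime b1 (primorial w)) ∧
      (0 < b2 ∧ b2 < primorial w ∧ Nat.Coprime b2 (primorial w)) ∧ (b1 + e * b2) % primorial w = n % primorial w := by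
  obtain ⟨_, _, _, _, hW2⟩ := primorial_facts hw
  set W := primorial w with hW
  have hW0 : 0 < W := by omega
  have hloc : ∀ p : ℕ, ∃ z : ℕ, p.Prime → ¬ p ∣ z ∧ ¬ (p : ℤ) ∣ ((n : ℤ) - e * z) := by
    intro p
    by_cases hp : p.Prime
    · rcases hp.eq_two_or_odd' with h2 | hodd
      · refine ⟨1, fun _ => ?_⟩
        subst h2
        refine ⟨by norm_num, ?_⟩
        rcases hpar with ⟨rfl, ⟨k, hk⟩⟩ | ⟨rfl, ⟨k, hk⟩⟩
        · push_cast; omega
        · push_cast; omega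
      · have hp3 : 3 ≤ p := by
          rcases hp.two_le.lt_or_eq with h | h
          · omega
          · rw [← h] at hodd; exact absurd hodd (by decide)
        by_cases h1 : (p : ℤ) ∣ ((n : ℤ) - e * 1)
        · refine ⟨2, fun _ => ⟨?_, ?_⟩⟩
          · intro h; have := Nat.le_of_dvd (by norm_num) h; omega
          · intro h
            have h3 : (p : ℤ) ∣ (e : ℤ) := by
              have := dvd_sub h1 h
              have e1 : ((n : ℤ) - e * 1) - ((n : ℤ) - e * ((2 : ℕ) : ℤ)) = e := by push_cast; ring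
              rwa [e1] at this
            have h4 : p ∣ e := by exact_mod_cast h3
            have := Nat.le_of_dvd (by omega) h4
            omega
        · refine ⟨1, fun _ => ⟨?_, ?_⟩⟩
          · intro h; have := Nat.le_of_dvd (by norm_num) h; omega
          · push_cast; exact h1
    · exact ⟨0, fun h => absurd h hp⟩
  choose z hz using hloc
  set T := (range (w + 1)).filter Nat.Prime with hT
  obtain ⟨y, hy⟩ := Nat.chineseRemainderOfFinset z (fun p => p) T
    (fun p hp => (mem_filter.1 hp).2.ne_zero)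
    (by
      intro p hp q hq hpq
      rw [hT, mem_coe, mem_filter] at hp hq
      exact (Nat.coprime_primes hp.2 hq.2).2 hpq)
  have hprimeT : ∀ p, p.Prime → p ∣ W → p ∈ T := by
    intro p hp hpW
    rw [hW] at hpW
    unfold primorial at hpW
    rw [hp.prime.dvd_finsetProd_iff] at hpW
    obtain ⟨q, hq, hpq⟩ := hpW
    rw [mem_filter] at hq
    rw [(Nat.prime_dvd_prime_iff_eq hp hq.2).1 hpq]
    exact mem_filter.2 hq
  have hy1 : Nat.Coprime y W := by
    by_contra hne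
    obtain ⟨p, hp, hpd⟩ := Nat.exists_prime_and_dvd (n := Nat.gcd y W) hne
    have h1 : p ∣ y := hpd.trans (Nat.gcd_dvd_left _ _)
    have h2 := hprimeT p hp (hpd.trans (Nat.gcd_dvd_right _ _))
    have h3 := hy p h2
    exact (hz p hp).1 ((h3.dvd_iff (dvd_refl p)).1 h1)
  obtain ⟨x, hx⟩ : ∃ x : ℤ, x = (n : ℤ) - e * y := ⟨_, rfl⟩
  obtain ⟨b1, hb1⟩ : ∃ b1 : ℕ, (b1 : ℤ) = x % W := by
    refine ⟨(x % W).toNat, Int.toNat_of_nonneg (Int.emod_nonneg _ (by exact_mod_cast hW0.ne'))⟩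
  have hb1W : b1 < W := by
    have : (b1 : ℤ) < W := by rw [hb1]; exact Int.emod_lt_of_pos _ (by exact_mod_cast hW0)
    exact_mod_cast this
  have hxb : (W : ℤ) ∣ x - b1 := by
    rw [hb1]
    exact Int.dvd_self_sub_emod
  have hb1c : Nat.Coprime b1 W := by
    by_contra hne
    obtain ⟨p, hp, hpd⟩ := Nat.exists_prime_and_dvd (n := Nat.gcd b1 W) hne
    have h1 : p ∣ b1 := hpd.trans (Nat.gcd_dvd_left _ _)
    have hpW : p ∣ W := hpd.trans (Nat.gcd_dvd_right _ _)
    have h2 := hprimeT p hp hpW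
    have h3 : y ≡ z p [MOD p] := hy p h2
    have h4 : (p : ℤ) ∣ x - b1 := (by exact_mod_cast hpW : (p : ℤ) ∣ (W : ℤ)).trans hxb
    have h5 : (p : ℤ) ∣ x := by
      have h6 : (p : ℤ) ∣ (b1 : ℤ) := by exact_mod_cast h1
      have := dvd_add h4 h6
      rwa [sub_add_cancel] at this
    have h6 : (p : ℤ) ∣ (z p : ℤ) - y := (Int.modEq_iff_dvd).1 ((Int.natCast_modEq_iff).2 h3)
    apply (hz p hp).2
    have h7 : (n : ℤ) - e * z p = x - e * ((z p : ℤ) - y) := by rw [hx]; ring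
    rw [h7]
    exact dvd_sub h5 (Dvd.dvd.mul_left h6 _)
  have hb10 : 0 < b1 := by
    rcases Nat.eq_zero_or_pos b1 with h | h
    · rw [h, Nat.coprime_zero_left] at hb1c
      omega
    · exact h
  have hb2c : Nat.Coprime (y % W) W := by
    unfold Nat.Coprime at hy1 ⊢
    rw [← Nat.gcd_rec, Nat.gcd_comm]
    exact hy1
  have hb20 : 0 < y % W := by
    rcases Nat.eq_zero_or_pos (y % W) with h | h
    · rw [h, Nat.coprime_zero_left] at hb2c
      omega
    · exact h
  refine ⟨b1, y % W, ⟨hb10, hb1W, hb1c⟩, ⟨hb20, Nat.mod_lt _ hW0, hb2c⟩, ?_⟩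
  have h8 : (b1 + e * (y % W)) ≡ n [MOD W] := by
    have h9 : e * (y % W) ≡ e * y [MOD W] := Nat.ModEq.mul_left e (Nat.mod_modEq y W)
    have h10 : b1 + e * y ≡ n [MOD W] := by
      apply (Int.natCast_modEq_iff).1
      apply (Int.modEq_iff_dvd).2
      have e1 : ((n : ℕ) : ℤ) - ((b1 + e * y : ℕ) : ℤ) = x - b1 := by rw [hx]; push_cast; ring
      rw [e1]
      exact hxb
    exact (Nat.ModEq.add_left b1 h9).trans h10
  exact h8

end Pool.Agent.H.MP_0ec261_nt.AA
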