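import Mathlib

/-!
Exponentials and the distance to the nearest integer.
-/

open Finset

namespace Pool.Agent.H.MP_0ec261_nt.AA

/-- `exp (2 π i x)` -/
noncomputable def ee (x : ℝ) : ℂ := Complex.exp ((2 * Real.pi * x : ℝ) * Complex.I)

lemma norm_ee (x : ℝ) : ‖ee x‖ = 1 := Complex.norm_exp_ofReal_mul_I _

lemma ee_add (x y : ℝ) : ee (x + y) = ee x * ee y := by
  unfold ee
  rw [← Complex.exp_add]
  congr 1
  push_cast
  ring

lemma ee_zero : ee 0 = 1 := by
  unfold ee; simp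

lemma ee_int (n : ℤ) : ee n = 1 := by
  unfold ee
  rw [Complex.exp_eq_one_iff]
  exact ⟨n, by push_cast; ring⟩

lemma ee_nat (n : ℕ) : ee n = 1 := by
  have := ee_int n
  simpa using this

lemma ee_add_int (x : ℝ) (n : ℤ) : ee (x + n) = ee x := by rw [ee_add, ee_int, mul_one]

lemma ee_neg (x : ℝ) : ee (-x) = (starRingEnd ℂ) (ee x) := by
  unfold ee
  rw [← Complex.exp_conj]
  congr 1
  rw [map_mul, Complex.conj_ofReal, Complex.conj_I]
  push_cast
  ring

lemma ee_sub (x y : ℝ) : ee (x - y) = ee x * (starRingEnd ℂ) (ee y) := by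
  rw [sub_eq_add_neg, ee_add, ee_neg]

lemma ee_mul_conj (x : ℝ) : ee x * (starRingEnd ℂ) (ee x) = 1 := by
  rw [← ee_sub, sub_self, ee_zero]

lemma ee_natMul (n : ℕ) (x : ℝ) : ee (n * x) = ee x ^ n := by
  induction n with
  | zero => simp [ee_zero]
  | succ n ih =>
    rw [pow_succ, ← ih, ← ee_add]
    congr 1
    push_cast; ring

lemma norm_ee_sub_one (x : ℝ) : ‖ee x - 1‖ = 2 * |Real.sin (Real.pi * x)| := by
  unfold ee
  rw [mul_comm ((2 * Real.pi * x : ℝ) : ℂ) Complex.I, Complex.norm_exp_I_mul_ofReal_sub_one]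
  rw [norm_mul, Real.norm_eq_abs, Real.norm_eq_abs, abs_two]
  congr 3
  ring

lemma norm_ee_sub_one_le (x : ℝ) : ‖ee x - 1‖ ≤ 2 * Real.pi * |x| := by
  unfold ee
  rw [mul_comm ((2 * Real.pi * x : ℝ) : ℂ) Complex.I]
  refine (Real.norm_exp_I_mul_ofReal_sub_one_le).trans (le_of_eq ?_)
  rw [Real.norm_eq_abs, abs_mul, abs_of_pos (by positivity : (0 : ℝ) < 2 * Real.pi)]

lemma norm_ee_sub (x y : ℝ) : ‖ee x - ee y‖ ≤ 2 * Real.pi * |x - y| := by
  have : ee x - ee y = ee y * (ee (x - y) - 1) := by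
    rw [mul_sub, ← ee_add, mul_one]
    congr 2
    ring
  rw [this, norm_mul, norm_ee, one_mul]
  exact norm_ee_sub_one_le _

/-- distance to the nearest integer -/
noncomputable def nd (x : ℝ) : ℝ := |x - round x|

lemma nd_nonneg (x : ℝ) : 0 ≤ nd x := abs_nonneg _

lemma nd_le_half (x : ℝ) : nd x ≤ 1 / 2 := abs_sub_round x

lemma nd_le (x : ℝ) (n : ℤ) : nd x ≤ |x - n| := round_le x n

lemma exists_nd (x : ℝ) : ∃ n : ℤ, nd x = |x - n| := ⟨round x, rfl⟩

lemma nd_neg (x : ℝ) : nd (-x) = nd x := by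
  apply le_antisymm
  · obtain ⟨n, hn⟩ := exists_nd x
    rw [hn]
    refine (nd_le _ (-n)).trans (le_of_eq ?_)
    push_cast
    rw [← abs_neg]; congr 1; ring
  · obtain ⟨n, hn⟩ := exists_nd (-x)
    rw [hn]
    refine (nd_le _ (-n)).trans (le_of_eq ?_)
    push_cast
    rw [← abs_neg]; congr 1; ring

lemma nd_abs (x : ℝ) : nd |x| = nd x := by
  rcases abs_cases x with ⟨h, _⟩ | ⟨h, _⟩
  · rw [h]
  · rw [h, nd_neg]

lemma nd_eq_abs {x : ℝ} (hx : |x| ≤ 1 / 2) : nd x = |x| := by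
  apply le_antisymm
  · have := nd_le x 0
    simpa using this
  · obtain ⟨n, hn⟩ := exists_nd x
    rw [hn]
    by_cases h0 : n = 0
    · subst h0; simp
    · have h1 : (1 : ℝ) ≤ |(n : ℝ)| := by
        have : 1 ≤ |n| := Int.one_le_abs h0
        exact_mod_cast this
      have h2 : |(n : ℝ)| ≤ |x - n| + |x| := by
        have : (n : ℝ) = -(x - n) + x := by ring
        calc |(n : ℝ)| = |-(x - n) + x| := by rw [← this]
          _ ≤ |-(x - n)| + |x| := abs_add_le _ _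
          _ = _ := by rw [abs_neg]
      linarith

lemma nd_add_int (x : ℝ) (n : ℤ) : nd (x + n) = nd x := by
  unfold nd
  rw [round_add_intCast]
  congr 1
  push_cast; ring

lemma nd_add_le (x y : ℝ) : nd (x + y) ≤ nd x + |y| := by
  obtain ⟨n, hn⟩ := exists_nd x
  rw [hn]
  refine (nd_le _ n).trans ?_
  have : x + y - n = (x - n) + y := by ring
  rw [this]
  exact abs_add_le _ _

lemma nd_sub_le (x y : ℝ) : nd x - |y| ≤ nd (x + y) := by
  have := nd_add_le (x + y) (-y)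
  rw [abs_neg, add_neg_cancel_right] at this
  linarith

lemma nd_le_norm (x : ℝ) : 4 * nd x ≤ ‖ee x - 1‖ := by
  obtain ⟨n, hn⟩ := exists_nd x
  have h1 : ee x = ee (x - n) := by
    rw [← ee_add_int (x - n) n, sub_add_cancel]
  have h2 : |x - n| ≤ 1 / 2 := by rw [← hn]; exact nd_le_half x
  rw [h1, norm_ee_sub_one, hn]
  have h3 : |Real.pi * (x - n)| ≤ Real.pi / 2 := by
    rw [abs_mul, abs_of_pos Real.pi_pos]
    have := mul_le_mul_of_nonneg_left h2 Real.pi_pos.le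
    linarith
  have h4 := Real.mul_abs_le_abs_sin h3
  rw [abs_mul, abs_of_pos Real.pi_pos] at h4
  have h5 : 2 / Real.pi * (Real.pi * |x - n|) = 2 * |x - n| := by
    field_simp
  rw [h5] at h4
  linarith

lemma nd_pos_of_ne {x : ℝ} (h : ∀ n : ℤ, x ≠ n) : 0 < nd x := by
  obtain ⟨n, hn⟩ := exists_nd x
  rw [hn]
  exact abs_pos.2 (sub_ne_zero.2 (h n))

/-- geometric sums -/
lemma geom_Ico (a b : ℕ) (x : ℝ) : ‖∑ n ∈ Ico a b, ee (n * x)‖ * (2 * nd x) ≤ 1 := by
  have h1 : (ee x - 1) * ∑ n ∈ Ico a b, ee (n * x) = if a ≤ b then ee (b * x) - ee (a * x) else 0 := by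
    split_ifs with hab
    · have h2 : ∀ n : ℕ, ee (n * x) = ee x ^ n := fun n => ee_natMul n x
      simp_rw [h2]
      rw [mul_comm]
      exact geom_sum_Ico_mul _ hab
    · rw [Ico_eq_empty (by omega), sum_empty, mul_zero]
  have h2 : ‖(ee x - 1) * ∑ n ∈ Ico a b, ee (n * x)‖ ≤ 2 := by
    rw [h1]
    split_ifs with hab
    · refine (norm_sub_le _ _).trans ?_
      rw [norm_ee, norm_ee]; norm_num
    · simp
  rw [norm_mul] at h2
  have h3 := nd_le_norm x
  have h4 := norm_nonneg (∑ n ∈ Ico a b, ee (n * x))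
  nlinarith

/-- geometric sums along progressions -/
lemma geom_shift (a b : ℕ) (x y : ℝ) : ‖∑ n ∈ Ico a b, ee (y + n * x)‖ * (2 * nd x) ≤ 1 := by
  have h1 : ∑ n ∈ Ico a b, ee (y + n * x) = ee y * ∑ n ∈ Ico a b, ee (n * x) := by
    rw [mul_sum]
    apply sum_congr rfl
    intro n _
    exact ee_add _ _
  rw [h1, norm_mul, norm_ee, one_mul]
  exact geom_Ico a b x

lemma norm_sum_ee_le {ι : Type*} (s : Finset ι) (f : ι → ℝ) : ‖∑ i ∈ s, ee (f i)‖ ≤ s.card := by
  calc _ ≤ ∑ i ∈ s, ‖ee (f i)‖ := norm_sum_le _ _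
    _ = s.card := by simp [norm_ee]

end Pool.Agent.H.MP_0ec261_nt.AA
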