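import Pool.Agent.H.MP_0ec261_nt.AA.Orth
import Pool.Agent.H.MP_0ec261_nt.Rough

/-!
Ramanujan sums for coprime arguments.
-/

open Finset

namespace Pool.Agent.H.MP_0ec261_nt.AA

lemma mu_ind {q : ℕ} (hq : 0 < q) (ρ : ℕ) :
    (if Nat.Coprime q ρ then (1 : ℂ) else 0) = ∑ d ∈ q.divisors, if d ∣ ρ then ((mu d : ℝ) : ℂ) else 0 := by
  have hg : Nat.gcd q ρ ≠ 0 := by
    intro h
    have := Nat.eq_zero_of_gcd_eq_zero_left h
    omega
  have h1 := sum_mu hg
  have h2 : (∑ d ∈ q.divisors, if d ∣ ρ then ((mu d : ℝ) : ℂ) else 0) =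
      ((∑ d ∈ (Nat.gcd q ρ).divisors, mu d : ℝ) : ℂ) := by
    rw [← sum_filter]
    push_cast
    apply sum_congr _ (fun _ _ => rfl)
    ext d
    simp only [mem_filter, Nat.mem_divisors, Nat.dvd_gcd_iff]
    constructor
    · rintro ⟨⟨a, b⟩, c⟩; exact ⟨⟨a, c⟩, hg⟩
    · rintro ⟨⟨a, b⟩, c⟩; exact ⟨⟨a, by omega⟩, b⟩
  rw [h2, h1]
  unfold Nat.Coprime
  split_ifs <;> simp

/-- **Ramanujan sums** -/
lemma ram_eq {q : ℕ} (hq : 0 < q) {n : ℤ} (hn : IsCoprime n (q : ℤ)) :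
    ∑ ρ ∈ (range q).filter (fun ρ => Nat.Coprime q ρ), ee (ρ * ((n : ℝ) / q)) = ((mu q : ℝ) : ℂ) := by
  rw [sum_filter]
  have h1 : ∀ ρ ∈ range q, (if Nat.Coprime q ρ then ee (ρ * ((n : ℝ) / q)) else 0) =
      ∑ d ∈ q.divisors, if d ∣ ρ then ((mu d : ℝ) : ℂ) * ee (ρ * ((n : ℝ) / q)) else 0 := by
    intro ρ _
    have : (if Nat.Coprime q ρ then ee (ρ * ((n : ℝ) / q)) else 0) =
        (if Nat.Coprime q ρ then (1 : ℂ) else 0) * ee (ρ * ((n : ℝ) / q)) := by
      split_ifs <;> simp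
    rw [this, mu_ind hq, sum_mul]
    apply sum_congr rfl
    intro d _
    split_ifs <;> simp
  rw [sum_congr rfl h1, sum_comm]
  have h2 : ∀ d ∈ q.divisors, (∑ ρ ∈ range q, if d ∣ ρ then ((mu d : ℝ) : ℂ) * ee (ρ * ((n : ℝ) / q)) else 0) =
      if d = q then ((mu q : ℝ) : ℂ) else 0 := by
    intro d hd
    obtain ⟨e, he⟩ := Nat.dvd_of_mem_divisors hd
    have hd0 : 0 < d := Nat.pos_of_mem_divisors hd
    have he0 : 0 < e := by
      rcases Nat.eq_zero_or_pos e with h | h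
      · subst h; simp at he; omega
      · exact h
    have hd0' : (d : ℝ) ≠ 0 := by exact_mod_cast hd0.ne'
    have he0' : (e : ℝ) ≠ 0 := by exact_mod_cast he0.ne'
    have h3 : (∑ ρ ∈ range q, if d ∣ ρ then ((mu d : ℝ) : ℂ) * ee (ρ * ((n : ℝ) / q)) else 0) =
        ((mu d : ℝ) : ℂ) * ∑ b ∈ range e, ee (b * ((n : ℝ) / e)) := by
      rw [← sum_filter, mul_sum]
      symm
      apply sum_nbij' (fun b => d * b) (fun ρ => ρ / d)
      · intro b hb
        rw [mem_range] at hb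
        rw [mem_filter, mem_range, he]
        exact ⟨Nat.mul_lt_mul_of_pos_left hb hd0, Dvd.intro _ rfl⟩
      · intro ρ hρ
        rw [mem_filter, mem_range, he] at hρ
        rw [mem_range]
        exact Nat.div_lt_of_lt_mul hρ.1
      · intro b _
        exact Nat.mul_div_cancel_left _ hd0
      · intro ρ hρ
        rw [mem_filter] at hρ
        exact Nat.mul_div_cancel' hρ.2
      · intro b _
        congr 2
        rw [he]
        push_cast
        field_simp
    rw [h3, sum_ee_range he0]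
    by_cases hdq : d = q
    · rw [if_pos hdq]
      have he1 : e = 1 := by
        rw [hdq] at he
        exact Nat.eq_of_mul_eq_mul_left hq (by omega)
      subst he1
      simp [hdq]
    · rw [if_neg hdq, if_neg, mul_zero]
      intro hdv
      have h4 : (e : ℤ) ∣ q := by
        rw [he]; push_cast; exact Dvd.intro_left _ rfl
      have h5 := hn.isUnit_of_dvd' hdv h4
      have h6 : e = 1 := by
        have := Int.isUnit_iff.1 h5
        omega
      rw [h6, mul_one] at he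
      exact hdq he.symm
  rw [sum_congr rfl h2, sum_ite_eq' q.divisors q, if_pos (Nat.mem_divisors.2 ⟨dvd_refl q, hq.ne'⟩)]

lemma ram_le {q : ℕ} (hq : 0 < q) {n : ℤ} (hn : IsCoprime n (q : ℤ)) :
    ‖∑ ρ ∈ (range q).filter (fun ρ => Nat.Coprime q ρ), ee (ρ * ((n : ℝ) / q))‖ ≤ 1 := by
  rw [ram_eq hq hn, Complex.norm_real]
  exact abs_mu_le q

end Pool.Agent.H.MP_0ec261_nt.AA
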