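import Pool.Agent.H.MP_0ec261_nt.AA.Sup
import Pool.Agent.H.MP_0ec261_nt.AA.Ram
import Pool.Agent.H.MP_711652_nt.GLower

/-!
Mean squares over the major arcs.
-/

open Finset Filter

namespace Pool.Agent.H.MP_0ec261_nt.AA

/-- the major arcs -/
def MajP (N : ℕ) (K : ℝ) (α : ℝ) : Prop := ∃ (q : ℕ) (a : ℤ), 0 < q ∧ (q : ℝ) ≤ K ∧ |α - a / q| ≤ K / N

/-- exponential sums -/
noncomputable def Fh (A : Finset ℕ) (c : ℕ → ℂ) (α : ℝ) : ℂ := ∑ n ∈ A, c n * ee (n * α)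

lemma Fh_add_int (A : Finset ℕ) (c : ℕ → ℂ) (α : ℝ) (k : ℤ) : Fh A c (α + k) = Fh A c α := by
  unfold Fh
  apply sum_congr rfl
  intro n _
  have : (n : ℝ) * (α + k) = n * α + ((n * k : ℤ) : ℝ) := by push_cast; ring
  rw [this, ee_add_int]

lemma Fh_mod {M : ℕ} (hM : 0 < M) (A : Finset ℕ) (c : ℕ → ℂ) (s : ℕ) :
    Fh A c (((s % M : ℕ) : ℝ) / M) = Fh A c ((s : ℝ) / M) := by
  have hM0 : (0 : ℝ) < M := by exact_mod_cast hM
  obtain ⟨k, hk⟩ : ∃ k : ℕ, k = s / M := ⟨_, rfl⟩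
  have h : (s : ℝ) / M = ((s % M : ℕ) : ℝ) / M + ((k : ℤ) : ℝ) := by
    have h1 := Nat.mod_add_div s M
    rw [← hk] at h1
    have h2 : ((s % M : ℕ) : ℝ) + M * (k : ℝ) = s := by exact_mod_cast h1
    rw [← h2, Int.cast_natCast]
    field_simp
  rw [h, Fh_add_int]

lemma parseval {M : ℕ} (hM : 0 < M) {A : Finset ℕ} (hA : ∀ n ∈ A, n < M) (c : ℕ → ℂ) :
    ∑ t ∈ range M, ‖Fh A c ((t : ℝ) / M)‖ ^ 2 = M * ∑ n ∈ A, ‖c n‖ ^ 2 := by
  have h1 : ((∑ t ∈ range M, ‖Fh A c ((t : ℝ) / M)‖ ^ 2 : ℝ) : ℂ) = ((M * ∑ n ∈ A, ‖c n‖ ^ 2 : ℝ) : ℂ) := by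
    rw [Complex.ofReal_sum]
    unfold Fh
    simp_rw [normsq_sum]
    rw [sum_comm]
    have e1 : ∀ p ∈ A ×ˢ A, ∑ t ∈ range M, c p.1 * ee (p.1 * ((t : ℝ) / M)) *
        (starRingEnd ℂ) (c p.2 * ee (p.2 * ((t : ℝ) / M))) =
        if p.1 = p.2 then (M : ℂ) * (c p.1 * (starRingEnd ℂ) (c p.2)) else 0 := by
      intro p hp
      rw [mem_product] at hp
      have e2 : ∀ t ∈ range M, c p.1 * ee (p.1 * ((t : ℝ) / M)) *
        (starRingEnd ℂ) (c p.2 * ee (p.2 * ((t : ℝ) / M))) =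
        (c p.1 * (starRingEnd ℂ) (c p.2)) * ee (t * (((((p.1 : ℤ) - p.2 : ℤ)) : ℝ) / M)) := by
        intro t _
        rw [map_mul, ← ee_neg]
        have : ee (t * (((((p.1 : ℤ) - p.2 : ℤ)) : ℝ) / M)) =
            ee (p.1 * ((t : ℝ) / M)) * ee (-(p.2 * ((t : ℝ) / M))) := by
          rw [← ee_add]
          congr 1
          push_cast
          ring
        rw [this]
        ring
      rw [sum_congr rfl e2, ← mul_sum, sum_ee_range hM]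
      have e3 : ((M : ℤ) ∣ ((p.1 : ℤ) - p.2)) ↔ p.1 = p.2 := by
        constructor
        · intro h
          have h4 : p.2 ≡ p.1 [MOD M] := (Int.natCast_modEq_iff).1 ((Int.modEq_iff_dvd).2 h)
          have h5 : p.2 % M = p.1 % M := h4
          rw [Nat.mod_eq_of_lt (hA _ hp.2), Nat.mod_eq_of_lt (hA _ hp.1)] at h5
          exact h5.symm
        · intro h; rw [h]; simp
      by_cases h : p.1 = p.2
      · rw [if_pos (e3.2 h), if_pos h]; ring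
      · rw [if_neg (fun h' => h (e3.1 h')), if_neg h, mul_zero]
    rw [sum_congr rfl e1, ← sum_filter]
    push_cast
    rw [mul_sum]
    symm
    apply sum_nbij' (fun n => (n, n)) (fun p => p.1)
    · intro n hn
      rw [mem_filter, mem_product]
      exact ⟨⟨hn, hn⟩, rfl⟩
    · intro p hp
      rw [mem_filter, mem_product] at hp
      exact hp.1.1
    · intro n _; rfl
    · intro p hp
      rw [mem_filter] at hp
      exact Prod.ext rfl hp.2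
    · intro n _
      show (M : ℂ) * ((‖c n‖ : ℂ)) ^ 2 = (M : ℂ) * (c n * (starRingEnd ℂ) (c n))
      rw [Complex.mul_conj, Complex.normSq_eq_norm_sq]
      push_cast
      rfl
  exact_mod_cast h1

/-- Ramanujan sums and translations by `b / r` -/
lemma shift_r {r : ℕ} (hr : 0 < r) (hsq : Squarefree r) {A : Finset ℕ} (hA : ∀ n ∈ A, Nat.Coprime n r)
    (c : ℕ → ℂ) (α : ℝ) :
    ‖Fh A c α‖ ^ 2 ≤ (r.totient : ℝ) *
      ∑ b ∈ (range r).filter (fun b => Nat.Coprime r b), ‖Fh A c (α + (b : ℝ) / r)‖ ^ 2 := by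
  have h1 : ∑ b ∈ (range r).filter (fun b => Nat.Coprime r b), Fh A c (α + (b : ℝ) / r) =
      ((mu r : ℝ) : ℂ) * Fh A c α := by
    unfold Fh
    rw [sum_comm, mul_sum]
    apply sum_congr rfl
    intro n hn
    have hn' : IsCoprime (n : ℤ) (r : ℤ) := Nat.isCoprime_iff_coprime.2 (hA n hn)
    have h2 := ram_eq hr hn'
    have e : ∀ b ∈ (range r).filter (fun b => Nat.Coprime r b), c n * ee (n * (α + (b : ℝ) / r)) =
        (c n * ee (n * α)) * ee (b * (((n : ℤ) : ℝ) / r)) := by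
      intro b _
      rw [mul_assoc, ← ee_add]
      congr 2
      push_cast
      ring
    rw [sum_congr rfl e, ← mul_sum, h2]
    ring
  have h3 : ‖((mu r : ℝ) : ℂ) * Fh A c α‖ = ‖Fh A c α‖ := by
    rw [norm_mul, Complex.norm_real]
    have : ‖mu r‖ = 1 := by
      unfold mu
      rw [Real.norm_eq_abs]
      have := ArithmeticFunction.abs_moebius_eq_one_of_squarefree hsq
      exact_mod_cast this
    rw [this, one_mul]
  rw [← h3, ← h1]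
  have h4 : ‖∑ b ∈ (range r).filter (fun b => Nat.Coprime r b), Fh A c (α + (b : ℝ) / r)‖ ≤
      ∑ b ∈ (range r).filter (fun b => Nat.Coprime r b), ‖Fh A c (α + (b : ℝ) / r)‖ := norm_sum_le _ _
  have h5 := sq_sum_le_card_mul_sum_sq (s := (range r).filter (fun b => Nat.Coprime r b))
      (f := fun b => ‖Fh A c (α + (b : ℝ) / r)‖)
  exact (pow_le_pow_left₀ (norm_nonneg _) h4 2).trans h5

/-- the translates of the major arcs are disjoint -/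
lemma disj {N R : ℕ} {K : ℝ} (hK : 1 ≤ K) (hN : 0 < N) (hKN : 2 * K ^ 3 * (R : ℝ) ^ 2 < N) {r1 r2 b1 b2 : ℕ}
    (hr1 : 0 < r1) (hr2 : 0 < r2) (hR1 : r1 ≤ R) (hR2 : r2 ≤ R) (hp1 : ∀ p, p.Prime → p ∣ r1 → K < p)
    (hp2 : ∀ p, p.Prime → p ∣ r2 → K < p) (hb1 : b1 < r1) (hb2 : b2 < r2) (hc1 : Nat.Coprime r1 b1)
    (hc2 : Nat.Coprime r2 b2) {α1 α2 : ℝ} (h1 : MajP N K α1) (h2 : MajP N K α2) {k : ℤ}
    (hk : α1 + (b1 : ℝ) / r1 = α2 + (b2 : ℝ) / r2 + k) : r1 = r2 ∧ b1 = b2 := by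
  obtain ⟨q1, a1, hq1, hqK1, ha1⟩ := h1
  obtain ⟨q2, a2, hq2, hqK2, ha2⟩ := h2
  have hNr : (0 : ℝ) < N := by exact_mod_cast hN
  have hq1r : (0 : ℝ) < q1 := by exact_mod_cast hq1
  have hq2r : (0 : ℝ) < q2 := by exact_mod_cast hq2
  have hr1r : (0 : ℝ) < r1 := by exact_mod_cast hr1
  have hr2r : (0 : ℝ) < r2 := by exact_mod_cast hr2
  have hRr1 : (r1 : ℝ) ≤ R := by exact_mod_cast hR1
  have hRr2 : (r2 : ℝ) ≤ R := by exact_mod_cast hR2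
  -- the integer
  set Z : ℤ := a1 * q2 * r1 * r2 + b1 * q1 * q2 * r2 - a2 * q1 * r1 * r2 - b2 * q1 * q2 * r1 -
    k * q1 * q2 * r1 * r2 with hZ
  have hZr : (Z : ℝ) = ((a1 : ℝ) / q1 + b1 / r1 - a2 / q2 - b2 / r2 - k) * (q1 * q2 * r1 * r2) := by
    rw [hZ]
    push_cast
    field_simp
  have hsm : |(a1 : ℝ) / q1 + b1 / r1 - a2 / q2 - b2 / r2 - k| ≤ 2 * K / N := by
    have e : (a1 : ℝ) / q1 + b1 / r1 - a2 / q2 - b2 / r2 - k = (α2 - a2 / q2) - (α1 - a1 / q1) := by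
      linarith
    rw [e]
    refine (abs_sub _ _).trans ?_
    have : 2 * K / N = K / N + K / N := by ring
    linarith
  have hZ1 : |(Z : ℝ)| < 1 := by
    rw [hZr, abs_mul, abs_of_pos (by positivity : (0 : ℝ) < q1 * q2 * r1 * r2)]
    calc |(a1 : ℝ) / q1 + b1 / r1 - a2 / q2 - b2 / r2 - k| * (q1 * q2 * r1 * r2) ≤
        (2 * K / N) * (K * K * R * R) := by gcongr
      _ = (2 * K ^ 3 * (R : ℝ) ^ 2) / N := by ring
      _ < 1 := by rw [div_lt_one hNr]; exact hKN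
  have hZ0 : Z = 0 := by
    have : |Z| < 1 := by exact_mod_cast hZ1
    exact Int.abs_lt_one_iff.1 this
  have hcopq : ∀ q r : ℕ, 0 < q → (q : ℝ) ≤ K → (∀ p, p.Prime → p ∣ r → K < p) → Nat.Coprime r q := by
    intro q r hq hqK hr
    by_contra hne
    obtain ⟨p, hp, hpd⟩ := Nat.exists_prime_and_dvd hne
    have h3 := hr p hp (hpd.trans (Nat.gcd_dvd_left _ _))
    have h4 := Nat.le_of_dvd hq (hpd.trans (Nat.gcd_dvd_right _ _))
    have h5 : (p : ℝ) ≤ q := by exact_mod_cast h4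
    linarith
  have c11 := hcopq q1 r1 hq1 hqK1 hp1
  have c12 := hcopq q2 r1 hq2 hqK2 hp1
  have c21 := hcopq q1 r2 hq1 hqK1 hp2
  have c22 := hcopq q2 r2 hq2 hqK2 hp2
  -- r1 divides r2
  have d1 : r1 ∣ r2 := by
    have h3 : (r1 : ℤ) ∣ ((b1 * q1 * q2 : ℕ) : ℤ) * r2 := by
      refine ⟨a2 * q1 * r2 + b2 * q1 * q2 + k * q1 * q2 * r2 - a1 * q2 * r2, ?_⟩
      push_cast
      linarith
    have h4 : r1 ∣ (b1 * q1 * q2) * r2 := by exact_mod_cast h3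
    exact ((hc1.mul_right c11).mul_right c12).dvd_of_dvd_mul_left h4
  have d2 : r2 ∣ r1 := by
    have h3 : (r2 : ℤ) ∣ ((b2 * q1 * q2 : ℕ) : ℤ) * r1 := by
      refine ⟨a1 * q2 * r1 + b1 * q1 * q2 - a2 * q1 * r1 - k * q1 * q2 * r1, ?_⟩
      push_cast
      linarith
    have h4 : r2 ∣ (b2 * q1 * q2) * r1 := by exact_mod_cast h3
    exact ((hc2.mul_right c21).mul_right c22).dvd_of_dvd_mul_left h4
  have hrr : r1 = r2 := Nat.dvd_antisymm d1 d2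
  refine ⟨hrr, ?_⟩
  subst hrr
  have hr1z : (r1 : ℤ) ≠ 0 := by exact_mod_cast hr1.ne'
  have h3 : (r1 : ℤ) ∣ ((b2 : ℤ) - b1) * ((q1 * q2 : ℕ) : ℤ) := by
    refine ⟨a1 * q2 - a2 * q1 - k * q1 * q2, ?_⟩
    have h4 : (r1 : ℤ) * (((b2 : ℤ) - b1) * ((q1 * q2 : ℕ) : ℤ)) =
        r1 * (r1 * (a1 * q2 - a2 * q1 - k * q1 * q2)) := by
      push_cast
      linarith
    exact mul_left_cancel₀ hr1z h4
  have h4 : IsCoprime (r1 : ℤ) ((q1 * q2 : ℕ) : ℤ) := Nat.isCoprime_iff_coprime.2 (c11.mul_right c12)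
  have h5 : (r1 : ℤ) ∣ (b2 : ℤ) - b1 := h4.dvd_of_dvd_mul_right h3
  have h6 : b1 ≡ b2 [MOD r1] := (Int.natCast_modEq_iff).1 ((Int.modEq_iff_dvd).2 h5)
  have h7 : b1 % r1 = b2 % r1 := h6
  rwa [Nat.mod_eq_of_lt hb1, Nat.mod_eq_of_lt hb2] at h7

open Classical in
/-- **Mean square over the major arcs.** -/
lemma l2maj {N M R : ℕ} {K : ℝ} (hK : 1 ≤ K) (hN : 0 < N) (hM : 0 < M) (hKN : 2 * K ^ 3 * (R : ℝ) ^ 2 < N)
    (ℛ : Finset ℕ) (hℛ : ∀ r ∈ ℛ, 0 < r ∧ r ≤ R ∧ Squarefree r ∧ r ∣ M ∧ ∀ p, p.Prime → p ∣ r → K < p)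
    {A : Finset ℕ} (hA : ∀ n ∈ A, n < M) (hcop : ∀ n ∈ A, ∀ r ∈ ℛ, Nat.Coprime n r) (c : ℕ → ℂ) :
    (∑ r ∈ ℛ, (1 : ℝ) / r.totient) * ∑ t ∈ (range M).filter (fun t : ℕ => MajP N K ((t : ℝ) / M)),
      ‖Fh A c ((t : ℝ) / M)‖ ^ 2 ≤ M * ∑ n ∈ A, ‖c n‖ ^ 2 := by
  set G := (range M).filter (fun t : ℕ => MajP N K ((t : ℝ) / M)) with hG
  have hM0 : (0 : ℝ) < M := by exact_mod_cast hM
  set I := (ℛ.sigma (fun r => (range r).filter (fun b => Nat.Coprime r b))) ×ˢ G with hI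
  set φ : ((Σ _ : ℕ, ℕ) × ℕ) → ℕ := fun x => (x.2 + x.1.2 * (M / x.1.1)) % M with hφ
  have hfrac : ∀ r ∈ ℛ, ∀ b t : ℕ, ((t + b * (M / r) : ℕ) : ℝ) / M = (t : ℝ) / M + (b : ℝ) / r := by
    intro r hr b t
    obtain ⟨h1, _, _, h4, _⟩ := hℛ r hr
    obtain ⟨m, hm⟩ := h4
    have hr0 : (0 : ℝ) < r := by exact_mod_cast h1
    have hm0 : (0 : ℝ) < m := by
      have : 0 < m := by
        rcases Nat.eq_zero_or_pos m with h | h
        · subst h; omega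
        · exact h
      exact_mod_cast this
    have h5 : M / r = m := by rw [hm]; exact Nat.mul_div_cancel_left _ h1
    rw [h5, hm]
    push_cast
    field_simp
  have hinj : Set.InjOn φ (I : Set ((Σ _ : ℕ, ℕ) × ℕ)) := by
    rintro ⟨⟨r1, b1⟩, t1⟩ h1 ⟨⟨r2, b2⟩, t2⟩ h2 heq
    rw [hI, mem_coe, mem_product, mem_sigma, hG, mem_filter, mem_filter, mem_range, mem_range] at h1 h2
    obtain ⟨⟨hr1, hb1, hc1⟩, ht1, hm1⟩ := h1
    obtain ⟨⟨hr2, hb2, hc2⟩, ht2, hm2⟩ := h2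
    dsimp only at hr1 hb1 hc1 ht1 hm1 hr2 hb2 hc2 ht2 hm2
    have heq' : (t1 + b1 * (M / r1)) % M = (t2 + b2 * (M / r2)) % M := heq
    obtain ⟨g1, g2, g3, g4, g5⟩ := hℛ r1 hr1
    obtain ⟨g1', g2', g3', g4', g5'⟩ := hℛ r2 hr2
    have h3 : (M : ℤ) ∣ ((t1 + b1 * (M / r1) : ℕ) : ℤ) - ((t2 + b2 * (M / r2) : ℕ) : ℤ) := by
      have : (t2 + b2 * (M / r2)) ≡ (t1 + b1 * (M / r1)) [MOD M] := heq'.symm
      exact (Int.modEq_iff_dvd).1 ((Int.natCast_modEq_iff).2 this)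
    obtain ⟨k, hk⟩ := h3
    have hk' : ((t1 + b1 * (M / r1) : ℕ) : ℝ) / M = ((t2 + b2 * (M / r2) : ℕ) : ℝ) / M + k := by
      have h4 : (((t1 + b1 * (M / r1) : ℕ) : ℝ)) - ((t2 + b2 * (M / r2) : ℕ) : ℝ) = M * k := by
        exact_mod_cast hk
      field_simp
      linarith
    rw [hfrac r1 hr1, hfrac r2 hr2] at hk'
    obtain ⟨e1, e2⟩ := disj hK hN hKN g1 g1' g2 g2' g5 g5' hb1 hb2 hc1 hc2 hm1 hm2 hk'
    subst e1
    subst e2
    have h4 : t1 ≡ t2 [MOD M] := Nat.ModEq.add_right_cancel' _ heq'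
    have h5 : t1 % M = t2 % M := h4
    rw [Nat.mod_eq_of_lt ht1, Nat.mod_eq_of_lt ht2] at h5
    rw [h5]
  have h1 : ∑ x ∈ I, ‖Fh A c (((φ x : ℕ) : ℝ) / M)‖ ^ 2 ≤ M * ∑ n ∈ A, ‖c n‖ ^ 2 := by
    rw [← parseval hM hA c, ← sum_image (f := fun t : ℕ => ‖Fh A c ((t : ℝ) / M)‖ ^ 2) hinj]
    apply sum_le_sum_of_subset_of_nonneg _ (fun _ _ _ => by positivity)
    intro t ht
    rw [mem_image] at ht
    obtain ⟨x, _, rfl⟩ := ht
    rw [mem_range]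
    exact Nat.mod_lt _ hM
  refine le_trans ?_ h1
  rw [hI, sum_product, sum_sigma, sum_mul]
  apply sum_le_sum
  intro r hr
  obtain ⟨g1, g2, g3, g4, g5⟩ := hℛ r hr
  rw [mul_sum, sum_comm]
  apply sum_le_sum
  intro t _
  have h2 := shift_r g1 g3 (A := A) (fun n hn => hcop n hn r hr) c ((t : ℝ) / M)
  have hφ0 : (0 : ℝ) < r.totient := by exact_mod_cast Nat.totient_pos.2 g1
  have e : ∑ b ∈ (range r).filter (fun b => Nat.Coprime r b), ‖Fh A c (((φ (⟨r, b⟩, t) : ℕ) : ℝ) / M)‖ ^ 2 =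
      ∑ b ∈ (range r).filter (fun b => Nat.Coprime r b), ‖Fh A c ((t : ℝ) / M + (b : ℝ) / r)‖ ^ 2 := by
    apply sum_congr rfl
    intro b _
    show ‖Fh A c ((((t + b * (M / r)) % M : ℕ) : ℝ) / M)‖ ^ 2 = _
    rw [Fh_mod hM, hfrac r hr]
  rw [e, div_mul_eq_mul_div, one_mul, div_le_iff₀ hφ0, mul_comm]
  exact h2

end Pool.Agent.H.MP_0ec261_nt.AA
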