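import Pool.Agent.H.MP_0ec261_nt.AA.L2a

/-!
Mean squares over the major arcs, explicit form.
-/

open Finset Filter

namespace Pool.Agent.H.MP_0ec261_nt.AA

open Pool.Agent.H.MP_3e6494_nt (prm mem_prm)

open Classical in
/-- squarefree numbers with large prime factors -/
noncomputable def Rs (Kn R : ℕ) : Finset ℕ :=
  (Icc 1 R).filter (fun r => Squarefree r ∧ ∀ p, p.Prime → p ∣ r → Kn < p)

lemma sum_inv_sq (R : ℕ) : ∑ b ∈ Icc 1 R, (1 : ℝ) / (b : ℝ) ^ 2 ≤ 2 := by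
  rcases Nat.eq_zero_or_pos R with h | h
  · subst h; simp
  · have key : ∀ n : ℕ, ∑ b ∈ Icc 1 (n + 1), (1 : ℝ) / (b : ℝ) ^ 2 ≤ 2 - 1 / ((n : ℝ) + 1) := by
      intro n
      induction n with
      | zero => norm_num
      | succ n ih =>
        rw [sum_Icc_succ_top (by omega)]
        push_cast
        have hn : (0 : ℝ) < (n : ℝ) + 1 := by positivity
        have h1 : (1 : ℝ) / ((n : ℝ) + 1 + 1) ^ 2 ≤ 1 / ((n : ℝ) + 1) - 1 / ((n : ℝ) + 1 + 1) := by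
          rw [div_sub_div _ _ hn.ne' (by positivity), div_le_div_iff₀ (by positivity) (by positivity)]
          nlinarith
        linarith
    obtain ⟨n, rfl⟩ : ∃ n, R = n + 1 := ⟨R - 1, by omega⟩
    have h1 := key n
    have : (0 : ℝ) < 1 / ((n : ℝ) + 1) := by positivity
    linarith

lemma sum_Rs_ge {Kn R : ℕ} (hK : 2 ≤ Kn) (hR : 1 ≤ R) :
    (1 / 2) * (Real.exp (-21) / Real.log Kn) * Real.log R ≤ ∑ r ∈ Rs Kn R, (1 : ℝ) / r.totient := by
  classical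
  have hlogR : 0 ≤ Real.log R := Real.log_nonneg (by exact_mod_cast hR)
  set h := ∏ p ∈ prm Kn, p with hh
  have hpr : ∀ p ∈ prm Kn, p.Prime := fun p hp => (mem_prm.1 hp).1
  have hpf : h.primeFactors = prm Kn := Nat.primeFactors_prod hpr
  have h0 : h ≠ 0 := by
    rw [hh, prod_ne_zero_iff]
    intro p hp
    exact (hpr p hp).ne_zero
  have h1 := Pool.Agent.H.MP_711652_nt.coprime_sum_ge h R h0 hR
  rw [hpf] at h1
  have h2 := VV_ge hK
  set S := (Icc 1 R).filter (fun m => m.Coprime h) with hS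
  have hex : ∀ m : ℕ, ∃ x : ℕ × ℕ, x.2 ^ 2 * x.1 = m ∧ Squarefree x.1 := by
    intro m
    obtain ⟨a, b, hab, ha⟩ := Nat.sq_mul_squarefree m
    exact ⟨(a, b), hab, ha⟩
  choose g hg1 hg2 using hex
  have hinj : Set.InjOn g (S : Set ℕ) := by
    intro m _ m' _ hmm
    rw [← hg1 m, ← hg1 m', hmm]
  have h3 : ∑ m ∈ S, (1 : ℝ) / m ≤ ∑ x ∈ Rs Kn R ×ˢ Icc 1 R, (1 : ℝ) / ((x.2 : ℝ) ^ 2 * x.1) := by
    have e1 : ∑ m ∈ S, (1 : ℝ) / m = ∑ m ∈ S, (1 : ℝ) / (((g m).2 : ℝ) ^ 2 * (g m).1) := by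
      apply sum_congr rfl
      intro m _
      congr 1
      exact_mod_cast (hg1 m).symm
    rw [e1, ← sum_image (f := fun x : ℕ × ℕ => (1 : ℝ) / ((x.2 : ℝ) ^ 2 * x.1)) hinj]
    apply sum_le_sum_of_subset_of_nonneg _ (fun _ _ _ => by positivity)
    intro x hx
    rw [mem_image] at hx
    obtain ⟨m, hm, rfl⟩ := hx
    rw [hS, mem_filter, mem_Icc] at hm
    obtain ⟨⟨hm1, hm2⟩, hm3⟩ := hm
    have e2 := hg1 m
    have hb0 : (g m).2 ≠ 0 := by
      intro hb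
      rw [hb] at e2
      simp at e2
      omega
    have ha0 : (g m).1 ≠ 0 := by
      intro ha
      rw [ha] at e2
      simp at e2
      omega
    have hb1 : 1 ≤ (g m).2 := Nat.one_le_iff_ne_zero.2 hb0
    have ha1 : 1 ≤ (g m).1 := Nat.one_le_iff_ne_zero.2 ha0
    have hle1 : (g m).1 ≤ m := by
      calc (g m).1 = 1 * (g m).1 := (one_mul _).symm
        _ ≤ (g m).2 ^ 2 * (g m).1 := Nat.mul_le_mul_right _ (Nat.one_le_pow _ _ hb1)
        _ = m := e2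
    have hle2 : (g m).2 ≤ m := by
      calc (g m).2 = (g m).2 ^ 1 * 1 := by ring
        _ ≤ (g m).2 ^ 2 * (g m).1 := Nat.mul_le_mul (Nat.pow_le_pow_right hb1 (by norm_num)) ha1
        _ = m := e2
    unfold Rs
    rw [mem_product, mem_filter, mem_Icc, mem_Icc]
    refine ⟨⟨⟨ha1, by omega⟩, hg2 m, ?_⟩, hb1, by omega⟩
    intro p hp hpd
    by_contra hcon
    push Not at hcon
    have h4 : p ∣ m := by rw [← e2]; exact Dvd.dvd.mul_left hpd _
    have h5 : p ∣ h := by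
      rw [hh]
      exact dvd_prod_of_mem _ (mem_prm.2 ⟨hp, hcon⟩)
    have h6 := Nat.dvd_gcd h4 h5
    rw [hm3] at h6
    exact hp.one_lt.ne' (Nat.dvd_one.1 h6)
  have h4 : ∑ x ∈ Rs Kn R ×ˢ Icc 1 R, (1 : ℝ) / ((x.2 : ℝ) ^ 2 * x.1) =
      (∑ r ∈ Rs Kn R, (1 : ℝ) / r) * ∑ b ∈ Icc 1 R, (1 : ℝ) / (b : ℝ) ^ 2 := by
    rw [sum_mul_sum, ← sum_product']
    apply sum_congr rfl
    intro x _
    rw [one_div_mul_one_div, mul_comm]
  have h5 : ∑ r ∈ Rs Kn R, (1 : ℝ) / r ≤ ∑ r ∈ Rs Kn R, (1 : ℝ) / r.totient := by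
    apply sum_le_sum
    intro r hr
    unfold Rs at hr
    rw [mem_filter, mem_Icc] at hr
    apply one_div_le_one_div_of_le
    · exact_mod_cast Nat.totient_pos.2 hr.1.1
    · exact_mod_cast Nat.totient_le r
  have h6 : (0 : ℝ) ≤ ∑ r ∈ Rs Kn R, (1 : ℝ) / r := sum_nonneg (fun _ _ => by positivity)
  have h7 : Real.exp (-21) / Real.log Kn * Real.log R ≤ VV Kn * Real.log R := mul_le_mul_of_nonneg_right h2 hlogR
  have h8 : VV Kn * Real.log R ≤ ∑ m ∈ S, (1 : ℝ) / m := h1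
  have h9 := mul_le_mul_of_nonneg_left (sum_inv_sq R) h6
  rw [h4] at h3
  linarith

lemma log_R {N : ℕ} (hN : 6 ≤ Real.log N) : Real.log N / 8 ≤ Real.log (Nat.sqrt (Nat.sqrt N) : ℕ) ∧
    1 ≤ Nat.sqrt (Nat.sqrt N) := by
  have hN0 : (0 : ℝ) < N := by
    rcases Nat.eq_zero_or_pos N with h | h
    · subst h; simp at hN; linarith
    · exact_mod_cast h
  have hN1 : 1 ≤ N := by exact_mod_cast hN0
  have hs1 : 1 ≤ Nat.sqrt N := Nat.le_sqrt.2 (by omega)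
  have hs2 : 1 ≤ Nat.sqrt (Nat.sqrt N) := Nat.le_sqrt.2 (by omega)
  refine ⟨?_, hs2⟩
  set R := Nat.sqrt (Nat.sqrt N) with hR
  have h1 : Nat.sqrt N < (R + 1) * (R + 1) := Nat.sqrt_lt_self_mul_self _
  have h2 : N < (Nat.sqrt N + 1) * (Nat.sqrt N + 1) := Nat.sqrt_lt_self_mul_self _
  have h3 : N < ((2 * R) * (2 * R)) * ((2 * R) * (2 * R)) := by
    have h4 : Nat.sqrt N + 1 ≤ (2 * R) * (2 * R) := by
      have : (R + 1) * (R + 1) ≤ (2 * R) * (2 * R) := Nat.mul_le_mul (by omega) (by omega)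
      omega
    exact lt_of_lt_of_le h2 (Nat.mul_le_mul h4 h4)
  have hRr : (0 : ℝ) < R := by exact_mod_cast hs2
  have h4 : (N : ℝ) ≤ 16 * (R : ℝ) ^ 4 := by
    have : (N : ℝ) ≤ ((((2 * R) * (2 * R)) * ((2 * R) * (2 * R)) : ℕ) : ℝ) := by exact_mod_cast h3.le
    push_cast at this
    linarith
  have h5 : Real.log N ≤ Real.log 16 + 4 * Real.log R := by
    have := Real.log_le_log hN0 h4
    rw [Real.log_mul (by norm_num) (by positivity), Real.log_pow] at this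
    exact_mod_cast this
  have h6 : Real.log 16 = 4 * Real.log 2 := by
    rw [show (16 : ℝ) = 2 ^ 4 by norm_num, Real.log_pow]; norm_num
  have h7 := Real.log_two_lt_d9
  linarith
where
  Nat.sqrt_lt_self_mul_self (n : ℕ) : n < (Nat.sqrt n + 1) * (Nat.sqrt n + 1) := Nat.sqrt_lt_self_mul' n
  Nat.sqrt_lt_self_mul' (n : ℕ) : n < (Nat.sqrt n + 1) * (Nat.sqrt n + 1) := Nat.lt_succ_sqrt n

open Classical in
/-- **Mean square over the major arcs.** -/
theorem l2_bound : ∃ C : ℝ, 1 ≤ C ∧ ∃ N₀ : ℕ, ∀ N : ℕ, N₀ ≤ N → ∀ K : ℝ, 2 ≤ K → K ≤ (Real.log N) ^ 13 →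
    ∀ A : Finset ℕ, A ⊆ PP N → ∀ c : ℕ → ℂ,
    ∑ t ∈ (range N.factorial).filter (fun t : ℕ => MajP N K ((t : ℝ) / N.factorial)),
      ‖Fh A c ((t : ℝ) / N.factorial)‖ ^ 2 ≤
      C * (Real.log K / Real.log N) * (N.factorial * ∑ n ∈ A, ‖c n‖ ^ 2) := by
  obtain ⟨N1, hN1⟩ := ev_cond.exists_forall_of_atTop
  have e1 : ∀ᶠ X : ℕ in atTop, (6 : ℝ) ≤ Real.log X :=
    (Real.tendsto_log_atTop.comp tendsto_natCast_atTop_atTop).eventually_ge_atTop _
  obtain ⟨N2, hN2⟩ := e1.exists_forall_of_atTop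
  refine ⟨16 * Real.exp 21, ?_, max 3 (max N1 N2), ?_⟩
  · have := Real.add_one_le_exp (21 : ℝ)
    linarith
  intro N hN K hK2 hKT A hA c
  have hN3 : 3 ≤ N := le_trans (le_max_left _ _) hN
  obtain ⟨hE2, hE1, hℓ3⟩ := hN1 N (le_trans (le_trans (le_max_left _ _) (le_max_right _ _)) hN)
  have hℓ6 := hN2 N (le_trans (le_trans (le_max_right _ _) (le_max_right _ _)) hN)
  obtain ⟨hR1, hR2⟩ := log_R hℓ6
  obtain ⟨R, hR⟩ : ∃ R : ℕ, R = Nat.sqrt (Nat.sqrt N) := ⟨_, rfl⟩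
  rw [← hR] at hR1 hR2
  set ℓ := Real.log N with hℓ
  have hℓ0 : 0 < ℓ := by linarith
  have hN0 : (0 : ℝ) < N := by exact_mod_cast (by omega : 0 < N)
  have hNf : 0 < N.factorial := Nat.factorial_pos _
  have hNfr : (0 : ℝ) < N.factorial := by exact_mod_cast hNf
  have hRR : R * R ≤ Nat.sqrt N := by rw [hR]; exact Nat.sqrt_le _
  have hRR2 : Nat.sqrt N * Nat.sqrt N ≤ N := Nat.sqrt_le _
  have hsqX : 100 * ℓ ^ 60 ≤ Real.sqrt N := by
    apply Real.le_sqrt_of_sq_le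
    calc (100 * ℓ ^ 60) ^ 2 = 10000 * ℓ ^ 120 := by ring
      _ ≤ _ := hE2
  have hsqX2 : Real.sqrt N * Real.sqrt N = N := Real.mul_self_sqrt hN0.le
  have hsqX0 : 0 < Real.sqrt N := Real.sqrt_pos.2 hN0
  have hKN : 2 * K ^ 3 * (R : ℝ) ^ 2 < N := by
    have h1 : (R : ℝ) ^ 2 ≤ Real.sqrt N := by
      have h2 : ((R * R : ℕ) : ℝ) ≤ (Nat.sqrt N : ℕ) := by exact_mod_cast hRR
      push_cast at h2
      have h3 : ((Nat.sqrt N : ℕ) : ℝ) ≤ Real.sqrt N := Real.nat_sqrt_le_real_sqrt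
      nlinarith
    have h2 : 2 * K ^ 3 < Real.sqrt N := by
      have h3 : K ^ 3 ≤ ℓ ^ 39 := by
        calc K ^ 3 ≤ (ℓ ^ 13) ^ 3 := pow_le_pow_left₀ (by linarith) hKT 3
          _ = ℓ ^ 39 := by ring
      have h4 : ℓ ^ 39 ≤ ℓ ^ 60 := pow_le_pow_right₀ (by linarith) (by norm_num)
      have h5 : 0 < ℓ ^ 60 := by positivity
      linarith
    have hR0 : (0 : ℝ) < (R : ℝ) ^ 2 := by
      have : (0 : ℝ) < R := by exact_mod_cast hR2
      positivity
    calc 2 * K ^ 3 * (R : ℝ) ^ 2 < Real.sqrt N * (R : ℝ) ^ 2 := mul_lt_mul_of_pos_right h2 hR0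
      _ ≤ Real.sqrt N * Real.sqrt N := by gcongr
      _ = N := hsqX2
  obtain ⟨Kn, hKn⟩ : ∃ Kn : ℕ, Kn = ⌊K⌋₊ := ⟨_, rfl⟩
  have hKn2 : 2 ≤ Kn := by
    rw [hKn]
    exact Nat.le_floor (by exact_mod_cast hK2)
  have hKnK : (Kn : ℝ) ≤ K := by rw [hKn]; exact Nat.floor_le (by linarith)
  have hKKn : K < (Kn : ℝ) + 1 := by rw [hKn]; exact Nat.lt_floor_add_one _
  have hRN : R ≤ N := by
    have h1 : R ≤ R * R := Nat.le_mul_self R
    have h2 : Nat.sqrt N ≤ N := Nat.sqrt_le_self N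
    omega
  have hmain := l2maj (N := N) (M := N.factorial) (R := R) (K := K) (by linarith) (by omega) hNf hKN (Rs Kn R)
    (by
      intro r hr
      unfold Rs at hr
      rw [mem_filter, mem_Icc] at hr
      obtain ⟨⟨h1, h2⟩, h3, h4⟩ := hr
      refine ⟨h1, h2, h3, Nat.dvd_factorial h1 (by omega), ?_⟩
      intro p hp hpd
      have h5 := h4 p hp hpd
      have h6 : ((Kn : ℝ) + 1) ≤ p := by exact_mod_cast h5
      linarith)
    (A := A)
    (by
      intro n hn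
      have h1 := mem_PP.1 (hA hn)
      have := Nat.lt_factorial_self hN3
      omega)
    (by
      intro n hn r hr
      have h1 := mem_PP.1 (hA hn)
      unfold Rs at hr
      rw [mem_filter, mem_Icc] at hr
      rw [h1.2.1.coprime_iff_not_dvd]
      intro h2
      have h3 := Nat.le_of_dvd hr.1.1 h2
      have h4 : n ≤ R := by omega
      have h5 : n * n ≤ R * R := Nat.mul_le_mul h4 h4
      have h6 : Nat.sqrt N ≤ N := Nat.sqrt_le_self N
      omega) c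
  have hsum := sum_Rs_ge hKn2 hR2
  have hlogK : 0 < Real.log K := Real.log_pos (by linarith)
  have hlogKn : 0 < Real.log Kn := Real.log_pos (by exact_mod_cast (by omega : 1 < Kn))
  have hlogKn2 : Real.log Kn ≤ Real.log K := Real.log_le_log (by exact_mod_cast (by omega : 0 < Kn)) hKnK
  set Y := ∑ t ∈ (range N.factorial).filter (fun t : ℕ => MajP N K ((t : ℝ) / N.factorial)),
      ‖Fh A c ((t : ℝ) / N.factorial)‖ ^ 2 with hY
  have hY0 : 0 ≤ Y := sum_nonneg (fun _ _ => by positivity)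
  set Z := (N.factorial : ℝ) * ∑ n ∈ A, ‖c n‖ ^ 2 with hZ
  have h21 : Real.exp 21 * Real.exp (-21) = 1 := by rw [← Real.exp_add]; simp
  have h1 : ℓ / (16 * Real.exp 21 * Real.log K) ≤ ∑ r ∈ Rs Kn R, (1 : ℝ) / r.totient := by
    refine le_trans ?_ hsum
    have e21 : Real.exp (-21) = (Real.exp 21)⁻¹ := Real.exp_neg 21
    have h2 : (1 / 2) * (Real.exp (-21) / Real.log K) * (ℓ / 8) ≤
        (1 / 2) * (Real.exp (-21) / Real.log Kn) * Real.log R := by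
      have : Real.exp (-21) / Real.log K ≤ Real.exp (-21) / Real.log Kn :=
        div_le_div_of_nonneg_left (Real.exp_pos _).le hlogKn hlogKn2
      gcongr
    refine le_trans (le_of_eq ?_) h2
    rw [e21]
    field_simp
    norm_num
  have h2 : ℓ / (16 * Real.exp 21 * Real.log K) * Y ≤ Z := (mul_le_mul_of_nonneg_right h1 hY0).trans hmain
  rw [div_mul_eq_mul_div, div_le_iff₀ (by positivity)] at h2
  have e : 16 * Real.exp 21 * (Real.log K / ℓ) * Z = (Z * (16 * Real.exp 21 * Real.log K)) / ℓ := by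
    field_simp
  rw [e, le_div_iff₀ hℓ0]
  linarith

end Pool.Agent.H.MP_0ec261_nt.AA
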