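import Pool.Agent.H.MP_0ec261_nt.AA.Cv
import Pool.Agent.H.MP_0ec261_nt.Fin1

/-!
`a(n)` is large for almost all `n`.
-/

open Finset Filter

namespace Pool.Agent.H.MP_0ec261_nt.AA

/-- parity condition -/
def Pa (e n : ℕ) : Prop := (e = 1 ∧ Even n) ∨ (e = 2 ∧ Odd n)

lemma cvF_le {N W b1 b2 e n : ℕ} (hN : 4 ≤ N) (hpar : Pa e n) :
    cv (fb N W b1) (fb N W b2) N e n ≤ 2 * (Real.log N) ^ 2 * rN n := by
  classical
  have hlogN : 0 ≤ Real.log N := Real.log_natCast_nonneg N
  set Q := (Pn N e n).filter (fun p => p.1 ∈ PP N ∧ p.2 ∈ PP N) with hQ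
  have hfb : ∀ b m, 0 ≤ fb N W b m := by
    intro b m
    unfold fb
    split_ifs
    · exact Real.log_natCast_nonneg m
    · exact le_rfl
  have hfb2 : ∀ b m, fb N W b m ≤ Real.log N := by
    intro b m
    unfold fb
    split_ifs with h
    · have h1 := mem_PP.1 h.1
      apply Real.log_le_log
      · exact_mod_cast h1.2.1.pos
      · exact_mod_cast h1.1
    · exact hlogN
  have h1 : cv (fb N W b1) (fb N W b2) N e n ≤ (Q.card : ℝ) * (Real.log N) ^ 2 := by
    unfold cv
    rw [← nsmul_eq_mul, ← sum_const, hQ, sum_filter]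
    apply sum_le_sum
    intro p _
    by_cases h : p.1 ∈ PP N ∧ p.2 ∈ PP N
    · rw [if_pos h, sq]
      exact mul_le_mul (hfb2 _ _) (hfb2 _ _) (hfb _ _) hlogN
    · rw [if_neg h]
      apply le_of_eq
      rw [not_and_or] at h
      rcases h with h | h
      · have : fb N W b1 p.1 = 0 := if_neg (fun h' => h h'.1)
        rw [this, zero_mul]
      · have : fb N W b2 p.2 = 0 := if_neg (fun h' => h h'.1)
        rw [this, mul_zero]
  have hne2 : ∀ m ∈ PP N, m ≠ 2 := by
    intro m hm h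
    have := (mem_PP.1 hm).2.2
    rw [h] at this
    omega
  have h2 : Q.card ≤ 2 * rN n := by
    rcases hpar with ⟨rfl, he⟩ | ⟨rfl, ho⟩
    · have hsplit : Q = Q.filter (fun p => p.2 ≤ p.1) ∪ Q.filter (fun p => ¬ p.2 ≤ p.1) :=
        (filter_union_filter_not_eq _ _).symm
      have ha : (Q.filter (fun p => p.2 ≤ p.1)).card ≤ rN n := by
        unfold rN
        apply card_le_card_of_injOn (fun p => p.2)
        · intro p hp
          rw [mem_coe, mem_filter, hQ, mem_filter] at hp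
          obtain ⟨⟨hp1, hp2, hp3⟩, hp4⟩ := hp
          unfold Pn at hp1
          rw [mem_filter, mem_product, mem_Icc, mem_Icc] at hp1
          obtain ⟨_, hp5⟩ := hp1
          rw [mem_coe, mem_filter, mem_range]
          beta_reduce
          have e1 : n - p.2 = p.1 := by omega
          refine ⟨by omega, (mem_PP.1 hp3).2.1, by omega, Or.inr ⟨he, ?_, ?_⟩⟩
          · rw [e1]; exact (mem_PP.1 hp2).2.1
          · rw [e1]; exact hne2 _ hp2
        · intro p hp p' hp' h
          rw [mem_coe, mem_filter, hQ, mem_filter] at hp hp'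
          have h3 := hp.1.1
          have h4 := hp'.1.1
          unfold Pn at h3 h4
          rw [mem_filter] at h3 h4
          simp only at h
          apply Prod.ext _ h
          omega
      have hb : (Q.filter (fun p => ¬ p.2 ≤ p.1)).card ≤ rN n := by
        unfold rN
        apply card_le_card_of_injOn (fun p => p.1)
        · intro p hp
          rw [mem_coe, mem_filter, hQ, mem_filter] at hp
          obtain ⟨⟨hp1, hp2, hp3⟩, hp4⟩ := hp
          unfold Pn at hp1
          rw [mem_filter, mem_product, mem_Icc, mem_Icc] at hp1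
          obtain ⟨_, hp5⟩ := hp1
          rw [mem_coe, mem_filter, mem_range]
          beta_reduce
          have e1 : n - p.1 = p.2 := by omega
          refine ⟨by omega, (mem_PP.1 hp2).2.1, by omega, Or.inr ⟨he, ?_, ?_⟩⟩
          · rw [e1]; exact (mem_PP.1 hp3).2.1
          · rw [e1]; exact hne2 _ hp3
        · intro p hp p' hp' h
          rw [mem_coe, mem_filter, hQ, mem_filter] at hp hp'
          have h3 := hp.1.1
          have h4 := hp'.1.1
          unfold Pn at h3 h4
          rw [mem_filter] at h3 h4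
          simp only at h
          apply Prod.ext h
          omega
      rw [hsplit]
      refine (card_union_le _ _).trans ?_
      omega
    · have ha : Q.card ≤ rN n := by
        unfold rN
        apply card_le_card_of_injOn (fun p => p.2)
        · intro p hp
          rw [mem_coe, hQ, mem_filter] at hp
          obtain ⟨hp1, hp2, hp3⟩ := hp
          unfold Pn at hp1
          rw [mem_filter, mem_product, mem_Icc, mem_Icc] at hp1
          obtain ⟨_, hp5⟩ := hp1
          rw [mem_coe, mem_filter, mem_range]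
          beta_reduce
          have e1 : n - 2 * p.2 = p.1 := by omega
          refine ⟨by omega, (mem_PP.1 hp3).2.1, by omega, Or.inl ⟨ho, ?_, ?_⟩⟩
          · rw [e1]; exact (mem_PP.1 hp2).2.1
          · rw [e1]; exact hne2 _ hp2
        · intro p hp p' hp' h
          rw [mem_coe, hQ, mem_filter] at hp hp'
          have h3 := hp.1
          have h4 := hp'.1
          unfold Pn at h3 h4
          rw [mem_filter] at h3 h4
          simp only at h
          apply Prod.ext _ h
          omega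
      omega
  have h3 : (Q.card : ℝ) ≤ 2 * rN n := by exact_mod_cast h2
  calc _ ≤ (Q.card : ℝ) * (Real.log N) ^ 2 := h1
    _ ≤ (2 * rN n) * (Real.log N) ^ 2 := mul_le_mul_of_nonneg_right h3 (by positivity)
    _ = _ := by ring

open Classical in
/-- almost all `n` have many representations -/
theorem aa_rN {e : ℕ} (he : e = 1 ∨ e = 2) {ε : ℝ} (hε : 0 < ε) : ∃ c : ℝ, 0 < c ∧ ∀ᶠ N : ℕ in atTop,
    (((Icc 1 N).filter (fun n => Pa e n ∧ (rN n : ℝ) < c * N / (Real.log N) ^ 2)).card : ℝ) ≤ ε * N := by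
  obtain ⟨C, hC, hms⟩ := cv_ms
  obtain ⟨δ, hδ⟩ : ∃ δ : ℝ, δ = ε / 2 := ⟨_, rfl⟩
  have hδ0 : 0 < δ := by rw [hδ]; linarith
  obtain ⟨w, hwge, hw⟩ := Nat.exists_infinite_primes ⌈64 * C / δ ^ 3⌉₊
  obtain ⟨hw2, hwW, hlogW, hprime, hW2⟩ := primorial_facts hw
  have hdvd2 : 2 ∣ primorial w := by
    unfold primorial
    apply dvd_prod_of_mem
    rw [mem_filter, mem_range]
    exact ⟨by omega, Nat.prime_two⟩
  obtain ⟨W, hW⟩ : ∃ W, W = primorial w := ⟨_, rfl⟩
  have hres : ∀ c0 : ℕ, ∃ b : ℕ × ℕ, Pa e c0 → (0 < b.1 ∧ b.1 < W ∧ Nat.Coprime b.1 W) ∧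
      (0 < b.2 ∧ b.2 < W ∧ Nat.Coprime b.2 W) ∧ (b.1 + e * b.2) % W = c0 % W := by
    intro c0
    by_cases hpar : Pa e c0
    · obtain ⟨b1, b2, h⟩ := exists_res hw hpar
      rw [← hW] at h
      exact ⟨(b1, b2), fun _ => h⟩
    · exact ⟨(0, 0), fun h => absurd h hpar⟩
  choose b hb using hres
  rw [← hW] at hwW hlogW hprime hW2 hdvd2
  have hW0 : 0 < W := by omega
  have hWr : (0 : ℝ) < W := by exact_mod_cast hW0
  have hφ0 : (0 : ℝ) < W.totient := by exact_mod_cast Nat.totient_pos.2 hW0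
  have hφW : (W.totient : ℝ) ≤ W := by exact_mod_cast Nat.totient_le W
  have hwr : (0 : ℝ) < w := by exact_mod_cast hw.pos
  have hwge' : 64 * C / δ ^ 3 ≤ w := (Nat.le_ceil _).trans (by exact_mod_cast hwge)
  have ev1 : ∀ᶠ N : ℕ in atTop, ∀ c0 ∈ (range W).filter (fun c0 => Pa e c0),
      ∑ n ∈ Icc 1 N, (cv (fb N W (b c0).1) (fb N W (b c0).2) N e n - cv (gb W (b c0).1) (gb W (b c0).2) N e n) ^ 2 ≤
      C / w * ((N : ℝ) ^ 3 * W / (W.totient : ℝ) ^ 4) := by
    rw [eventually_all_finset]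
    intro c0 hc0
    rw [mem_filter] at hc0
    obtain ⟨⟨h1, h2, h3⟩, ⟨h4, h5, h6⟩, _⟩ := hb c0 hc0.2
    exact hms w W hw2 hwW hlogW hprime e (b c0).1 (b c0).2 he h1 h2 h3 h4 h5 h6
  have ev2 : ∀ᶠ N : ℕ in atTop, 12 * W / δ ≤ (N : ℝ) := tendsto_natCast_atTop_atTop.eventually_ge_atTop _
  have ev3 : ∀ᶠ N : ℕ in atTop, (1 : ℝ) ≤ Real.log N := tends_log.eventually_ge_atTop _
  refine ⟨δ / (16 * W), by positivity, ?_⟩
  filter_upwards [ev1, ev2, ev3, eventually_ge_atTop 5] with N g1 g2 g3 g4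
  have hNr : (0 : ℝ) < N := by exact_mod_cast (by omega : 0 < N)
  have hlog0 : 0 < Real.log N := by linarith
  rw [div_le_iff₀ hδ0] at g2
  set θ := δ * N * W / (8 * (W.totient : ℝ) ^ 2) with hθ
  have hθ0 : 0 < θ := by rw [hθ]; positivity
  set B : ℕ → Finset ℕ := fun c0 => (Icc 1 N).filter (fun n => δ * N < n ∧ n % W = c0 ∧
    cv (fb N W (b c0).1) (fb N W (b c0).2) N e n < θ) with hB
  have hsub : (Icc 1 N).filter (fun n => Pa e n ∧ (rN n : ℝ) < δ / (16 * W) * N / (Real.log N) ^ 2) ⊆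
      (Icc 1 N).filter (fun n : ℕ => ¬ δ * N < n) ∪ ((range W).filter (fun c0 => Pa e c0)).biUnion B := by
    intro n hn
    rw [mem_filter] at hn
    obtain ⟨h1, h2, h3⟩ := hn
    rw [mem_union]
    by_cases hlt : δ * N < n
    · right
      rw [mem_biUnion]
      refine ⟨n % W, ?_, ?_⟩
      · rw [mem_filter, mem_range]
        refine ⟨Nat.mod_lt _ hW0, ?_⟩
        have h4 : n % W % 2 = n % 2 := Nat.mod_mod_of_dvd n hdvd2
        unfold Pa at h2 ⊢
        rw [Nat.even_iff, Nat.odd_iff] at h2 ⊢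
        rw [h4]
        exact h2
      · rw [hB]
        beta_reduce
        rw [mem_filter]
        refine ⟨h1, hlt, rfl, ?_⟩
        refine lt_of_le_of_lt (cvF_le (by omega) h2) ?_
        calc 2 * (Real.log N) ^ 2 * (rN n : ℝ) < 2 * (Real.log N) ^ 2 * (δ / (16 * W) * N / (Real.log N) ^ 2) := by
              apply mul_lt_mul_of_pos_left h3 (by positivity)
          _ = δ * N / (8 * W) := by field_simp; norm_num
          _ ≤ θ := by
              rw [hθ, div_le_div_iff₀ (by positivity) (by positivity)]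
              have : (W.totient : ℝ) ^ 2 ≤ W * W := by
                rw [sq]; exact mul_le_mul hφW hφW hφ0.le hWr.le
              calc δ * N * (8 * (W.totient : ℝ) ^ 2) ≤ δ * N * (8 * (W * W)) := by gcongr
                _ = _ := by ring
    · left
      rw [mem_filter]
      exact ⟨h1, hlt⟩
  have hc1 : (((Icc 1 N).filter (fun n : ℕ => ¬ δ * N < n)).card : ℝ) ≤ δ * N := by
    have h1 : (Icc 1 N).filter (fun n : ℕ => ¬ δ * N < n) ⊆ Icc 1 ⌊δ * N⌋₊ := by
      intro n hn
      rw [mem_filter, mem_Icc] at hn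
      rw [mem_Icc]
      exact ⟨hn.1.1, Nat.le_floor (not_lt.1 hn.2)⟩
    have h2 := card_le_card h1
    rw [Nat.card_Icc, Nat.add_sub_cancel] at h2
    have h3 : (⌊δ * N⌋₊ : ℝ) ≤ δ * N := Nat.floor_le (by positivity)
    exact le_trans (by exact_mod_cast h2) h3
  have hc2 : ∀ c0 ∈ (range W).filter (fun c0 => Pa e c0), ((B c0).card : ℝ) ≤ 64 * C * N / (w * δ ^ 2 * W) := by
    intro c0 hc0
    have hms0 := g1 c0 hc0
    rw [mem_filter, mem_range] at hc0
    obtain ⟨⟨h1, h2, h3⟩, ⟨h4, h5, h6⟩, h7⟩ := hb c0 hc0.2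
    have h8 : ((B c0).card : ℝ) * θ ^ 2 ≤ ∑ n ∈ Icc 1 N, (cv (fb N W (b c0).1) (fb N W (b c0).2) N e n -
        cv (gb W (b c0).1) (gb W (b c0).2) N e n) ^ 2 := by
      calc ((B c0).card : ℝ) * θ ^ 2 = ∑ n ∈ B c0, θ ^ 2 := by rw [sum_const, nsmul_eq_mul]
        _ ≤ ∑ n ∈ B c0, (cv (fb N W (b c0).1) (fb N W (b c0).2) N e n -
            cv (gb W (b c0).1) (gb W (b c0).2) N e n) ^ 2 := by
            apply sum_le_sum
            intro n hn
            rw [hB, mem_filter, mem_Icc] at hn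
            obtain ⟨⟨h9, h10⟩, h11, h12, h13⟩ := hn
            have h14 : 12 * W ≤ n := by
              have : (12 : ℝ) * W ≤ n := by linarith
              exact_mod_cast this
            have h15 := cvG_ge (N := N) (b1 := (b c0).1) (b2 := (b c0).2) (n := n) he hW0 h2 h5
              (by rw [h7, h12, Nat.mod_eq_of_lt hc0.1]) h10 h14
            have h16 : 2 * θ ≤ (n : ℝ) * W / (4 * (W.totient : ℝ) ^ 2) := by
              have e1 : 2 * θ = (δ * N) * W / (4 * (W.totient : ℝ) ^ 2) := by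
                rw [hθ]; field_simp; norm_num
              rw [e1]
              gcongr
            have h17 : θ ≤ cv (gb W (b c0).1) (gb W (b c0).2) N e n - cv (fb N W (b c0).1) (fb N W (b c0).2) N e n := by
              linarith
            have h18 := pow_le_pow_left₀ hθ0.le h17 2
            refine h18.trans (le_of_eq ?_)
            ring
        _ ≤ _ := sum_le_sum_of_subset_of_nonneg (by rw [hB]; exact filter_subset _ _) (fun _ _ _ => by positivity)
    have h9 : ((B c0).card : ℝ) * θ ^ 2 ≤ (64 * C * N / (w * δ ^ 2 * W)) * θ ^ 2 := by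
      refine (h8.trans hms0).trans (le_of_eq ?_)
      rw [hθ]
      field_simp
      norm_num
    exact le_of_mul_le_mul_right h9 (by positivity)
  have hc3 : ((((range W).filter (fun c0 => Pa e c0)).biUnion B).card : ℝ) ≤ δ * N := by
    have h1 : ((((range W).filter (fun c0 => Pa e c0)).biUnion B).card : ℝ) ≤
        ∑ c0 ∈ (range W).filter (fun c0 => Pa e c0), ((B c0).card : ℝ) := by
      exact_mod_cast card_biUnion_le
    refine (h1.trans (sum_le_sum hc2)).trans ?_
    rw [sum_const, nsmul_eq_mul]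
    have h2 : ((((range W).filter (fun c0 => Pa e c0)).card : ℕ) : ℝ) ≤ W := by
      have := card_filter_le (range W) (fun c0 => Pa e c0)
      rw [card_range] at this
      exact_mod_cast this
    calc _ ≤ (W : ℝ) * (64 * C * N / (w * δ ^ 2 * W)) := mul_le_mul_of_nonneg_right h2 (by positivity)
      _ = (64 * C / δ ^ 3) * (δ * N) / w := by field_simp
      _ ≤ w * (δ * N) / w := by gcongr
      _ = δ * N := by field_simp
  have h1 := (card_le_card hsub).trans (card_union_le _ _)
  have h2 : (((Icc 1 N).filter (fun n => Pa e n ∧ (rN n : ℝ) < δ / (16 * W) * N / (Real.log N) ^ 2)).card : ℝ) ≤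
      (((Icc 1 N).filter (fun n : ℕ => ¬ δ * N < n)).card : ℝ) +
      ((((range W).filter (fun c0 => Pa e c0)).biUnion B).card : ℝ) := by exact_mod_cast h1
  have h3 : ε * N = δ * N + δ * N := by rw [hδ]; ring
  rw [h3]
  linarith

lemma ev_exp' (K : ℝ) (hK : 0 < K) : ∀ᶠ w : ℝ in atTop, K * w ^ 4 ≤ Real.exp (w / 200) := by
  have h1 := Real.tendsto_pow_mul_exp_neg_atTop_nhds_zero 4
  have h2 : Tendsto (fun w : ℝ => w / 200) atTop atTop := tendsto_id.atTop_div_const (by norm_num)
  have h3 := h1.comp h2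
  have h4 : ∀ᶠ w : ℝ in atTop, (w / 200) ^ 4 * Real.exp (-(w / 200)) < 1 / (K * 200 ^ 4) :=
    h3.eventually (gt_mem_nhds (by positivity))
  filter_upwards [h4, eventually_ge_atTop (1 : ℝ)] with w hw hw1
  have e2 : (w / 200) ^ 4 * Real.exp (-(w / 200)) * Real.exp (w / 200) = (w / 200) ^ 4 := by
    rw [mul_assoc, ← Real.exp_add]; simp
  have e3 : (w / 200) ^ 4 ≤ 1 / (K * 200 ^ 4) * Real.exp (w / 200) := by
    rw [← e2]
    exact mul_le_mul_of_nonneg_right hw.le (Real.exp_pos _).le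
  calc K * w ^ 4 = (K * 200 ^ 4) * (w / 200) ^ 4 := by ring
    _ ≤ (K * 200 ^ 4) * (1 / (K * 200 ^ 4) * Real.exp (w / 200)) := by gcongr
    _ = _ := by field_simp

open Classical in
/-- **`a(n)` has the expected order of magnitude for almost all `n`.** -/
theorem aa_aN {ε : ℝ} (hε : 0 < ε) : ∃ c : ℝ, 0 < c ∧ ∃ N₀ : ℕ, ∀ N : ℕ, N₀ ≤ N →
    (((Icc 1 N).filter (fun n => (aN n : ℝ) < c * N / (Real.log N) ^ 2)).card : ℝ) ≤ ε * N := by
  obtain ⟨c1, hc1, ev1⟩ := aa_rN (e := 1) (Or.inl rfl) (ε := ε / 3) (by positivity)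
  obtain ⟨c2, hc2, ev2⟩ := aa_rN (e := 2) (Or.inr rfl) (ε := ε / 3) (by positivity)
  obtain ⟨N₁, h1⟩ := almost_all
  obtain ⟨c, hc⟩ : ∃ c : ℝ, c = min c1 c2 := ⟨_, rfl⟩
  have hc0 : 0 < c := by rw [hc]; exact lt_min hc1 hc2
  have hcc1 : c ≤ c1 := by rw [hc]; exact min_le_left _ _
  have hcc2 : c ≤ c2 := by rw [hc]; exact min_le_right _ _
  have ev3 := tendsto_w.eventually (ev_exp' (2 / c + 3 / ε) (by positivity))
  have ev4 : ∀ᶠ N : ℕ in atTop, (1 : ℝ) ≤ Real.log N := tends_log.eventually_ge_atTop _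
  obtain ⟨N₀, h0⟩ := (ev1.and (ev2.and (ev3.and (ev4.and ((eventually_ge_atTop N₁).and
    (eventually_ge_atTop 1)))))).exists_forall_of_atTop
  refine ⟨c / 4, by positivity, N₀, fun N hN => ?_⟩
  obtain ⟨a1, a2, a3, a4, a5, a6⟩ := h0 N hN
  have h2 := h1 N a5
  set L := Real.log N with hL
  set w := Real.sqrt L with hw
  set E := Real.exp (-(w / 200)) with hE
  have hL0 : 0 < L := by linarith
  have hN0 : (0 : ℝ) < N := by exact_mod_cast a6
  have hw2 : w ^ 2 = L := Real.sq_sqrt hL0.le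
  have hw4 : w ^ 4 = L ^ 2 := by rw [← hw2]; ring
  rw [hw4] at a3
  have hEle : E ≤ 1 / ((2 / c + 3 / ε) * L ^ 2) := by
    rw [hE, Real.exp_neg, inv_eq_one_div]
    exact one_div_le_one_div_of_le (by positivity) a3
  have hE1 : E ≤ c / (2 * L ^ 2) := by
    refine hEle.trans ?_
    have e1 : c / (2 * L ^ 2) = 1 / ((2 / c) * L ^ 2) := by field_simp
    rw [e1]
    apply one_div_le_one_div_of_le (by positivity)
    have : 0 < 3 / ε := by positivity
    gcongr
    linarith
  have hE2 : E ≤ ε / 3 := by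
    refine hEle.trans ?_
    have e1 : ε / 3 = 1 / (3 / ε) := by field_simp
    rw [e1]
    apply one_div_le_one_div_of_le (by positivity)
    have h3 : (1 : ℝ) ≤ L ^ 2 := one_le_pow₀ a4
    have h4 : 0 < 2 / c := by positivity
    calc 3 / ε ≤ 2 / c + 3 / ε := by linarith
      _ ≤ (2 / c + 3 / ε) * L ^ 2 := le_mul_of_one_le_right (by positivity) h3
  set B := (Icc 1 N).filter (fun n => (N : ℝ) * E < |2 * (aN n : ℝ) - rN n|) with hB
  set B1 := (Icc 1 N).filter (fun n => Pa 1 n ∧ (rN n : ℝ) < c1 * N / L ^ 2) with hB1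
  set B2 := (Icc 1 N).filter (fun n => Pa 2 n ∧ (rN n : ℝ) < c2 * N / L ^ 2) with hB2
  have hsub : (Icc 1 N).filter (fun n => (aN n : ℝ) < c / 4 * N / L ^ 2) ⊆ B ∪ (B1 ∪ B2) := by
    intro n hn
    rw [mem_filter] at hn
    obtain ⟨d1, d2⟩ := hn
    rw [mem_union, mem_union]
    by_cases hb : n ∈ B
    · left; exact hb
    · right
      rw [hB, mem_filter] at hb
      have d3 : |2 * (aN n : ℝ) - rN n| ≤ N * E := by
        by_contra hcon
        push Not at hcon
        exact hb ⟨d1, hcon⟩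
      have d4 := (abs_le.1 d3).1
      have d5 : (N : ℝ) * E ≤ c / 2 * N / L ^ 2 := by
        calc (N : ℝ) * E ≤ N * (c / (2 * L ^ 2)) := by gcongr
          _ = _ := by field_simp
      have d6 : (rN n : ℝ) < c * N / L ^ 2 := by
        have e1 : c * N / L ^ 2 = 2 * (c / 4 * N / L ^ 2) + c / 2 * N / L ^ 2 := by ring
        rw [e1]
        linarith
      rcases Nat.even_or_odd n with he | ho
      · left
        rw [hB1, mem_filter]
        refine ⟨d1, Or.inl ⟨rfl, he⟩, lt_of_lt_of_le d6 ?_⟩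
        gcongr
      · right
        rw [hB2, mem_filter]
        refine ⟨d1, Or.inr ⟨rfl, ho⟩, lt_of_lt_of_le d6 ?_⟩
        gcongr
  have h3 := (card_le_card hsub).trans ((card_union_le _ _).trans
    (Nat.add_le_add_left (card_union_le B1 B2) _))
  have h4 : (((Icc 1 N).filter (fun n => (aN n : ℝ) < c / 4 * N / L ^ 2)).card : ℝ) ≤
      B.card + (B1.card + B2.card) := by exact_mod_cast h3
  have h5 : (B.card : ℝ) ≤ ε / 3 * N := by
    calc (B.card : ℝ) ≤ N * E := h2
      _ ≤ N * (ε / 3) := by gcongr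
      _ = _ := by ring
  linarith

end Pool.Agent.H.MP_0ec261_nt.AA
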