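import Pool.Agent.H.MP_0ec261_nt.AA.L2b

/-!
The main term on the major arcs, after removal of the small moduli.
-/

open Finset Filter

namespace Pool.Agent.H.MP_0ec261_nt.AA

lemma sum_shift {q : ℕ} (f : ℕ → ℂ) (hf : ∀ j, f (j + q) = f j) (d : ℕ) :
    ∑ j ∈ range q, f (j + d) = ∑ j ∈ range q, f j := by
  induction d with
  | zero => rfl
  | succ d ih =>
    rw [← ih]
    have h1 : ∑ j ∈ range (q + 1), f (j + d) = ∑ j ∈ range q, f (j + d) + f (q + d) := sum_range_succ _ _
    have h2 : ∑ j ∈ range (q + 1), f (j + d) = ∑ j ∈ range q, f (j + 1 + d) + f (0 + d) := sum_range_succ' _ _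
    have h3 : f (q + d) = f (0 + d) := by rw [zero_add, add_comm]; exact hf d
    have h4 : ∑ j ∈ range q, f (j + (d + 1)) = ∑ j ∈ range q, f (j + 1 + d) := by
      apply sum_congr rfl
      intro j _
      congr 1
      omega
    rw [h4]
    rw [h1, h3] at h2
    exact (add_right_cancel h2).symm

lemma ee_eq_one {m : ℤ} {q : ℕ} (hq : 0 < q) (h : ee ((m : ℝ) / q) = 1) : (q : ℤ) ∣ m := by
  by_contra hcon
  have h1 := sum_ee_range hq m
  rw [if_neg hcon] at h1
  have h2 : ∀ b ∈ range q, ee (b * ((m : ℝ) / q)) = 1 := by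
    intro b _
    rw [ee_natMul, h, one_pow]
  rw [sum_congr rfl h2] at h1
  simp at h1
  omega

/-- twisted sums over the `j` with `d ∣ b + W j` -/
noncomputable def Ad (q W b d : ℕ) (a : ℤ) : ℂ :=
  ∑ j ∈ range q, if d ∣ b + W * j then ee (j * (((W * a : ℤ) : ℝ) / q)) else 0

lemma Ad_zero {q W b d : ℕ} {a : ℤ} (hq : 0 < q) (hd : d ∣ q) (ha : IsCoprime a (q : ℤ)) (h : ¬ q ∣ W * d) :
    Ad q W b d a = 0 := by
  have hq0 : (q : ℝ) ≠ 0 := by exact_mod_cast hq.ne'
  set f : ℕ → ℂ := fun j => if d ∣ b + W * j then ee (j * (((W * a : ℤ) : ℝ) / q)) else 0 with hf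
  have h1 : ∀ j, f (j + q) = f j := by
    intro j
    rw [hf]
    have e1 : (d ∣ b + W * (j + q)) ↔ (d ∣ b + W * j) := by
      have : b + W * (j + q) = (b + W * j) + W * q := by ring
      rw [this]
      exact Nat.dvd_add_left (Dvd.dvd.mul_left hd W)
    have e2 : ee (((j + q : ℕ) : ℝ) * (((W * a : ℤ) : ℝ) / q)) = ee (j * (((W * a : ℤ) : ℝ) / q)) := by
      have : ((j + q : ℕ) : ℝ) * (((W * a : ℤ) : ℝ) / q) = j * (((W * a : ℤ) : ℝ) / q) + ((W * a : ℤ) : ℝ) := by
        push_cast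
        field_simp
      rw [this, ee_add_int]
    simp only [e1, e2]
  have h2 : ∀ j, f (j + d) = ee ((((d * (W * a) : ℤ)) : ℝ) / q) * f j := by
    intro j
    rw [hf]
    have e1 : (d ∣ b + W * (j + d)) ↔ (d ∣ b + W * j) := by
      have : b + W * (j + d) = (b + W * j) + W * d := by ring
      rw [this]
      exact Nat.dvd_add_left (Dvd.intro_left W rfl)
    have e2 : ee (((j + d : ℕ) : ℝ) * (((W * a : ℤ) : ℝ) / q)) =
        ee ((((d * (W * a) : ℤ)) : ℝ) / q) * ee (j * (((W * a : ℤ) : ℝ) / q)) := by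
      rw [← ee_add]
      congr 1
      push_cast
      ring
    simp only [e1, e2]
    split_ifs
    · rfl
    · rw [mul_zero]
  have h3 := sum_shift f h1 d
  rw [sum_congr rfl (fun j _ => h2 j), ← mul_sum] at h3
  have h4 : ee ((((d * (W * a) : ℤ)) : ℝ) / q) ≠ 1 := by
    intro heq
    have h5 := ee_eq_one hq heq
    have h6 : (q : ℤ) ∣ ((W * d : ℕ) : ℤ) * a := by
      have : (d : ℤ) * (W * a) = ((W * d : ℕ) : ℤ) * a := by push_cast; ring
      rwa [this] at h5
    have h7 : (q : ℤ) ∣ ((W * d : ℕ) : ℤ) := (ha.symm).dvd_of_dvd_mul_right h6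
    exact h (by exact_mod_cast h7)
  have h5 : (ee ((((d * (W * a) : ℤ)) : ℝ) / q) - 1) * ∑ j ∈ range q, f j = 0 := by
    rw [sub_mul, h3, one_mul, sub_self]
  rcases mul_eq_zero.1 h5 with h6 | h6
  · exact absurd (sub_eq_zero.1 h6) h4
  · exact h6

lemma Ad_le {q W b d : ℕ} {a : ℤ} (hd : d ∣ q) (hd0 : 0 < d) (hW : Nat.Coprime d W) :
    ‖Ad q W b d a‖ ≤ ((q / d : ℕ) : ℝ) := by
  unfold Ad
  rw [← sum_filter]
  refine (norm_sum_ee_le _ _).trans ?_
  have : ((range q).filter (fun j => d ∣ b + W * j)).card ≤ (range (q / d)).card := by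
    apply card_le_card_of_injOn (fun j => j / d)
    · intro j hj
      rw [mem_coe, mem_filter, mem_range] at hj
      rw [mem_coe, mem_range]
      obtain ⟨e, rfl⟩ := hd
      rw [Nat.mul_div_cancel_left _ hd0]
      exact Nat.div_lt_of_lt_mul hj.1
    · intro j hj j' hj' h
      rw [mem_coe, mem_filter, mem_range] at hj hj'
      simp only at h
      have h1 : b + W * j ≡ b + W * j' [MOD d] :=
        ((Nat.modEq_zero_iff_dvd).2 hj.2).trans ((Nat.modEq_zero_iff_dvd).2 hj'.2).symm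
      have h2 : W * j ≡ W * j' [MOD d] := Nat.ModEq.add_left_cancel' b h1
      have h3 : j ≡ j' [MOD d] := Nat.ModEq.cancel_left_of_coprime hW h2
      have h4 : j % d = j' % d := h3
      rw [← Nat.div_add_mod j d, ← Nat.div_add_mod j' d, h, h4]
  rw [card_range] at this
  exact_mod_cast this

lemma Ad_empty {q W b d : ℕ} {a : ℤ} (hb : Nat.Coprime b W) (hW : ¬ Nat.Coprime d W) :
    Ad q W b d a = 0 := by
  unfold Ad
  apply sum_eq_zero
  intro j _
  rw [if_neg]
  intro hdv
  obtain ⟨p, hp, hpd⟩ := Nat.exists_prime_and_dvd (n := Nat.gcd d W) hW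
  have h1 : p ∣ b + W * j := (hpd.trans (Nat.gcd_dvd_left _ _)).trans hdv
  have h2 : p ∣ W := hpd.trans (Nat.gcd_dvd_right _ _)
  have h3 : p ∣ b := (Nat.dvd_add_left (Dvd.dvd.mul_right h2 j)).1 h1
  have h4 := Nat.dvd_gcd h3 h2
  rw [hb] at h4
  exact hp.one_lt.ne' (Nat.dvd_one.1 h4)

lemma totient_mul_dvd {W e : ℕ} (he : e ∣ W) (he0 : 0 < e) : (W * e).totient = e * W.totient := by
  have h := Nat.totient_gcd_mul_totient_mul W e
  rw [Nat.gcd_eq_right he] at h
  have h1 : 0 < e.totient := Nat.totient_pos.2 he0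
  have h2 : e.totient * (W * e).totient = e.totient * (e * W.totient) := by rw [h]; ring
  exact Nat.eq_of_mul_eq_mul_left h1 h2

/-- bound for the main term -/
lemma A_le {q W w b : ℕ} {a : ℤ} (hq : 0 < q) (hW0 : 0 < W) (hb : Nat.Coprime b W) (ha : IsCoprime a (q : ℤ))
    (hqW : ¬ q ∣ W) (hw : ∀ p, p.Prime → ¬ p ∣ W → w < p) (hw0 : 0 < w) :
    ‖∑ j ∈ range q, if Nat.Coprime q (b + W * j) then ee (j * (((W * a : ℤ) : ℝ) / q)) else 0‖ /
      ((W * q).totient : ℝ) ≤ 1 / (w * W.totient) := by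
  have hφW : (0 : ℝ) < W.totient := by exact_mod_cast Nat.totient_pos.2 hW0
  have hφ : (0 : ℝ) < (W * q).totient := by exact_mod_cast Nat.totient_pos.2 (Nat.mul_pos hW0 hq)
  have hw0r : (0 : ℝ) < w := by exact_mod_cast hw0
  have h1 : ∑ j ∈ range q, (if Nat.Coprime q (b + W * j) then ee (j * (((W * a : ℤ) : ℝ) / q)) else 0) =
      ∑ d ∈ q.divisors, ((mu d : ℝ) : ℂ) * Ad q W b d a := by
    unfold Ad
    have h2 : ∀ j ∈ range q, (if Nat.Coprime q (b + W * j) then ee (j * (((W * a : ℤ) : ℝ) / q)) else 0) =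
        ∑ d ∈ q.divisors, ((mu d : ℝ) : ℂ) * (if d ∣ b + W * j then ee (j * (((W * a : ℤ) : ℝ) / q)) else 0) := by
      intro j _
      have : (if Nat.Coprime q (b + W * j) then ee (j * (((W * a : ℤ) : ℝ) / q)) else 0) =
          (if Nat.Coprime q (b + W * j) then (1 : ℂ) else 0) * ee (j * (((W * a : ℤ) : ℝ) / q)) := by
        split_ifs <;> simp
      rw [this, mu_ind hq, sum_mul]
      apply sum_congr rfl
      intro d _
      split_ifs <;> simp
    rw [sum_congr rfl h2, sum_comm]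
    apply sum_congr rfl
    intro d _
    rw [mul_sum]
  rw [h1]
  obtain ⟨e, he⟩ : ∃ e, e = Nat.gcd q W := ⟨_, rfl⟩
  have heq : e ∣ q := by rw [he]; exact Nat.gcd_dvd_left _ _
  have heW : e ∣ W := by rw [he]; exact Nat.gcd_dvd_right _ _
  have he0 : 0 < e := Nat.pos_of_dvd_of_pos heq hq
  obtain ⟨d0, hd0⟩ := heq
  have hd00 : 0 < d0 := by
    rcases Nat.eq_zero_or_pos d0 with h | h
    · subst h; omega
    · exact h
  have hzero : ∀ d ∈ q.divisors, d ≠ d0 → ((mu d : ℝ) : ℂ) * Ad q W b d a = 0 := by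
    intro d hd hne
    have hdq := Nat.dvd_of_mem_divisors hd
    have hdpos : 0 < d := Nat.pos_of_mem_divisors hd
    by_cases hc : Nat.Coprime d W
    · by_cases hdv : q ∣ W * d
      · exfalso
        obtain ⟨f, hf⟩ := hdq
        have h3 : f ∣ W := by
          rw [hf, mul_comm W d] at hdv
          exact Nat.dvd_of_mul_dvd_mul_left hdpos hdv
        have h4 : Nat.gcd q W = f := by
          rw [hf, Nat.Coprime.gcd_mul_left_cancel f hc]
          exact Nat.gcd_eq_left h3
        rw [← he] at h4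
        subst h4
        apply hne
        have : e * d = e * d0 := by rw [← hd0, hf, mul_comm]
        exact Nat.eq_of_mul_eq_mul_left he0 this
      · rw [Ad_zero hq hdq ha hdv, mul_zero]
    · rw [Ad_empty hb hc, mul_zero]
  have hd0mem : d0 ∈ q.divisors := Nat.mem_divisors.2 ⟨Dvd.intro_left e hd0.symm, hq.ne'⟩
  rw [sum_eq_single_of_mem d0 hd0mem hzero, norm_mul, Complex.norm_real]
  by_cases hc : Nat.Coprime d0 W
  · have h2 : ‖Ad q W b d0 a‖ ≤ (e : ℝ) := by
      have h3 := Ad_le (W := W) (b := b) (a := a) (Nat.dvd_of_mem_divisors hd0mem) hd00 hc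
      have h4 : q / d0 = e := by rw [hd0]; exact Nat.mul_div_cancel _ hd00
      rw [h4] at h3
      exact h3
    have h3 : ((W * q).totient : ℝ) = e * W.totient * d0.totient := by
      have h4 : W * q = (W * e) * d0 := by rw [hd0]; ring
      have h5 : Nat.Coprime (W * e) d0 := (hc.symm).mul_left ((hc.coprime_dvd_right heW).symm)
      rw [h4, Nat.totient_mul h5, totient_mul_dvd heW he0]
      push_cast
      ring
    have hd1 : d0 ≠ 1 := by
      intro h
      rw [h, mul_one] at hd0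
      rw [hd0] at hqW
      exact hqW heW
    obtain ⟨p, hp, hpd⟩ := Nat.exists_prime_and_dvd hd1
    have hpW : ¬ p ∣ W := by
      intro h
      have h4 := Nat.dvd_gcd hpd h
      rw [hc] at h4
      exact hp.one_lt.ne' (Nat.dvd_one.1 h4)
    have hwp := hw p hp hpW
    have hφd : w ≤ d0.totient := by
      have h4 := Nat.le_of_dvd (Nat.totient_pos.2 hd00) (Nat.totient_dvd_of_dvd hpd)
      rw [Nat.totient_prime hp] at h4
      omega
    have hφdr : (w : ℝ) ≤ d0.totient := by exact_mod_cast hφd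
    have he0r : (0 : ℝ) < e := by exact_mod_cast he0
    have h4 : ‖mu d0‖ * ‖Ad q W b d0 a‖ ≤ e := by
      have : ‖mu d0‖ ≤ 1 := abs_mu_le d0
      calc ‖mu d0‖ * ‖Ad q W b d0 a‖ ≤ 1 * e := mul_le_mul this h2 (norm_nonneg _) zero_le_one
        _ = e := one_mul _
    rw [h3, div_le_div_iff₀ (by positivity) (by positivity), one_mul]
    calc ‖mu d0‖ * ‖Ad q W b d0 a‖ * (w * W.totient) ≤ e * (d0.totient * W.totient) := by gcongr
      _ = _ := by ring
  · rw [Ad_empty hb hc, norm_zero, mul_zero, zero_div]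
    positivity

/-- the coefficient of the main term -/
noncomputable def kap (q W b : ℕ) (a : ℤ) : ℂ :=
  ∑ j ∈ range q, ee (((b + W * j : ℕ) : ℝ) * ((a : ℝ) / q)) *
    (((if Nat.Coprime q (b + W * j) then 1 / ((W * q).totient : ℝ) else 0) - 1 / (q * W.totient) : ℝ) : ℂ)

lemma kap_le {q W w b : ℕ} {a : ℤ} (hq : 0 < q) (hW0 : 0 < W) (hb : Nat.Coprime b W) (ha : IsCoprime a (q : ℤ))
    (hw : ∀ p, p.Prime → ¬ p ∣ W → w < p) (hw0 : 0 < w) :
    ‖kap q W b a‖ ≤ 1 / (w * W.totient) := by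
  have hφW : (0 : ℝ) < W.totient := by exact_mod_cast Nat.totient_pos.2 hW0
  have hφ : (0 : ℝ) < (W * q).totient := by exact_mod_cast Nat.totient_pos.2 (Nat.mul_pos hW0 hq)
  have hw0r : (0 : ℝ) < w := by exact_mod_cast hw0
  have hq0 : (0 : ℝ) < q := by exact_mod_cast hq
  by_cases hqW : q ∣ W
  · have h1 : kap q W b a = 0 := by
      unfold kap
      apply sum_eq_zero
      intro j _
      have h2 : Nat.Coprime q (b + W * j) := by
        obtain ⟨m, hm⟩ := hqW
        have h3 : Nat.Coprime q b := (hb.coprime_dvd_right ⟨m, hm⟩).symm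
        rw [hm, mul_assoc, Nat.coprime_add_mul_left_right]
        exact h3
      rw [if_pos h2, totient_mul_dvd hqW hq]
      push_cast
      rw [sub_self, mul_zero]
    rw [h1, norm_zero]
    positivity
  · have h1 : kap q W b a = ee ((b : ℝ) * ((a : ℝ) / q)) *
        ((∑ j ∈ range q, if Nat.Coprime q (b + W * j) then ee (j * (((W * a : ℤ) : ℝ) / q)) else 0) *
          ((1 / ((W * q).totient : ℝ) : ℝ) : ℂ) -
        (∑ j ∈ range q, ee (j * (((W * a : ℤ) : ℝ) / q))) * ((1 / (q * W.totient) : ℝ) : ℂ)) := by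
      unfold kap
      rw [sum_mul, sum_mul, ← sum_sub_distrib, mul_sum]
      apply sum_congr rfl
      intro j _
      have e1 : ee (((b + W * j : ℕ) : ℝ) * ((a : ℝ) / q)) =
          ee ((b : ℝ) * ((a : ℝ) / q)) * ee (j * (((W * a : ℤ) : ℝ) / q)) := by
        rw [← ee_add]
        congr 1
        push_cast
        ring
      rw [e1]
      split_ifs
      · push_cast; ring
      · push_cast; ring
    have h2 : ∑ j ∈ range q, ee (j * (((W * a : ℤ) : ℝ) / q)) = 0 := by
      rw [sum_ee_range hq, if_neg]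
      intro h
      have h3 : (q : ℤ) ∣ (W : ℤ) := (ha.symm).dvd_of_dvd_mul_right h
      exact hqW (by exact_mod_cast h3)
    rw [h1, h2, zero_mul, sub_zero, norm_mul, norm_ee, one_mul, norm_mul, Complex.norm_real,
      Real.norm_of_nonneg (by positivity), mul_one_div]
    exact A_le hq hW0 hb ha hqW hw hw0

end Pool.Agent.H.MP_0ec261_nt.AA
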