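import Pool.Agent.H.MP_0ec261_nt.AA.Maj1
import Pool.Agent.H.MP_b3c6db_nt.WI6

/-!
Primes in progressions to a fixed modulus, uniformly in initial segments.
-/

open Finset Filter

namespace Pool.Agent.H.MP_0ec261_nt.AA

/-- theta in a residue class -/
noncomputable def thn (L c x : ℕ) : ℝ := ∑ n ∈ (Icc 1 x).filter (fun n => n.Prime ∧ n % L = c), Real.log n

lemma thn_nonneg (L c x : ℕ) : 0 ≤ thn L c x := by
  unfold thn
  apply sum_nonneg
  intro n _
  exact Real.log_natCast_nonneg n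

lemma thn_le (L c x : ℕ) : thn L c x ≤ 2 * x := by
  have h1 : thn L c x ≤ Chebyshev.theta x := by
    unfold thn Chebyshev.theta
    rw [Nat.floor_natCast]
    apply sum_le_sum_of_subset_of_nonneg
    · intro n hn
      rw [mem_filter, mem_Icc] at hn
      rw [mem_filter, mem_Ioc]
      exact ⟨⟨hn.2.1.pos, hn.1.2⟩, hn.2.1⟩
    · intro n _ _
      exact Real.log_natCast_nonneg n
  have h2 := Chebyshev.theta_le_log4_mul_x (x := (x : ℝ)) (Nat.cast_nonneg _)
  have h3 : Real.log 4 ≤ 2 := by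
    have : Real.log 4 = 2 * Real.log 2 := by
      rw [show (4 : ℝ) = 2 ^ 2 by norm_num, Real.log_pow]; norm_num
    have := Real.log_two_lt_d9
    linarith
  have h4 : Real.log 4 * x ≤ 2 * x := mul_le_mul_of_nonneg_right h3 (Nat.cast_nonneg _)
  linarith

lemma thn_ev (L c : ℕ) (hL : 0 < L) (hc : c < L) {η : ℝ} (hη : 0 < η) :
    ∀ᶠ N : ℕ in atTop, ∀ x : ℕ, x ≤ N →
      |thn L c x - (if Nat.Coprime L c then 1 / (L.totient : ℝ) else 0) * x| ≤ η * N := by
  have hNeZero : NeZero L := ⟨hL.ne'⟩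
  have hφ : (0 : ℝ) < L.totient := by exact_mod_cast Nat.totient_pos.2 hL
  have hφ1 : (1 : ℝ) ≤ L.totient := by exact_mod_cast Nat.totient_pos.2 hL
  by_cases hcop : Nat.Coprime L c
  · rw [if_pos hcop]
    have hu : IsUnit (c : ZMod L) := (ZMod.isUnit_iff_coprime c L).2 hcop.symm
    have h1 := B3WI.thetaq_asymp hu
    rw [Metric.tendsto_atTop] at h1
    obtain ⟨X0, hX0⟩ := h1 η hη
    have hth : ∀ x : ℕ, B3WI.thetaq (c : ZMod L) (x : ℝ) = thn L c x := by
      intro x
      unfold B3WI.thetaq thn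
      rw [Nat.floor_natCast, ← sum_filter]
      apply sum_congr _ (fun _ _ => rfl)
      apply filter_congr
      intro k _
      rw [ZMod.natCast_eq_natCast_iff', Nat.mod_eq_of_lt hc]
    have h2 : ∀ᶠ N : ℕ in atTop, 3 * (|X0| + 1) / η ≤ (N : ℝ) :=
      tendsto_natCast_atTop_atTop.eventually_ge_atTop _
    filter_upwards [h2] with N hN x hx
    have hNη : 3 * (|X0| + 1) ≤ η * N := by
      rw [div_le_iff₀ hη] at hN
      linarith
    have hxN : (x : ℝ) ≤ N := by exact_mod_cast hx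
    rcases le_or_gt (|X0| + 1) (x : ℝ) with h | h
    · have hx0 : (0 : ℝ) < x := by
        have := abs_nonneg X0
        linarith
      have h3 := hX0 (x : ℝ) (by have := le_abs_self X0; linarith)
      rw [hth, Real.dist_eq] at h3
      have e : thn L c x - 1 / (L.totient : ℝ) * x = (thn L c x / x - ((L.totient : ℝ))⁻¹) * x := by
        field_simp
      rw [e, abs_mul, abs_of_pos hx0]
      calc |thn L c x / x - ((L.totient : ℝ))⁻¹| * x ≤ η * x := mul_le_mul_of_nonneg_right h3.le hx0.le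
        _ ≤ η * N := mul_le_mul_of_nonneg_left hxN hη.le
    · have h3 := thn_le L c x
      have h4 := thn_nonneg L c x
      have h5 : 1 / (L.totient : ℝ) * x ≤ x := by
        rw [div_mul_eq_mul_div, one_mul]
        exact div_le_self (Nat.cast_nonneg _) hφ1
      have h6 : 0 ≤ 1 / (L.totient : ℝ) * x := by positivity
      rw [abs_le]
      constructor <;> linarith
  · rw [if_neg hcop]
    have h2 : ∀ᶠ N : ℕ in atTop, (Real.log L) / η ≤ (N : ℝ) :=
      tendsto_natCast_atTop_atTop.eventually_ge_atTop _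
    filter_upwards [h2] with N hN x hx
    rw [zero_mul, sub_zero, abs_of_nonneg (thn_nonneg _ _ _)]
    rw [div_le_iff₀ hη] at hN
    refine le_trans ?_ (by linarith : Real.log L ≤ η * N)
    unfold thn
    obtain ⟨p, hp, hpd⟩ := Nat.exists_prime_and_dvd (n := Nat.gcd L c) hcop
    have hsub : (Icc 1 x).filter (fun n => n.Prime ∧ n % L = c) ⊆ {p} := by
      intro n hn
      rw [mem_filter, mem_Icc] at hn
      rw [mem_singleton]
      obtain ⟨_, hn2, hn3⟩ := hn
      have h3 : p ∣ n := by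
        rw [← Nat.mod_add_div n L, hn3]
        exact (Nat.dvd_add_right (hpd.trans (Nat.gcd_dvd_right _ _))).2
          (Dvd.dvd.mul_right (hpd.trans (Nat.gcd_dvd_left _ _)) _)
      exact ((Nat.prime_dvd_prime_iff_eq hp hn2).1 h3).symm
    refine (sum_le_sum_of_subset_of_nonneg hsub (fun n _ _ => Real.log_natCast_nonneg n)).trans ?_
    rw [sum_singleton]
    apply Real.log_le_log
    · exact_mod_cast hp.pos
    · exact_mod_cast Nat.le_of_dvd hL (hpd.trans (Nat.gcd_dvd_left _ _))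

lemma cnt_mod (L c x : ℕ) (hL : 0 < L) (hc : c < L) :
    |(((Icc 1 x).filter (fun n => n % L = c)).card : ℝ) - x / L| ≤ 1 := by
  have h1 := Nat.Ioc_filter_modEq_card 0 x hL c
  have hset : (Icc 1 x).filter (fun n => n % L = c) = (Ioc 0 x).filter (fun n => n ≡ c [MOD L]) := by
    ext n
    simp only [mem_filter, mem_Icc, mem_Ioc, Nat.ModEq, Nat.mod_eq_of_lt hc]
    constructor
    · rintro ⟨⟨h2, h3⟩, h4⟩; exact ⟨⟨h2, h3⟩, h4⟩
    · rintro ⟨⟨h2, h3⟩, h4⟩; exact ⟨⟨h2, h3⟩, h4⟩
  rw [hset]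
  have hLq : (0 : ℚ) < L := by exact_mod_cast hL
  have h2 : (((Ioc 0 x).filter (fun n => n ≡ c [MOD L])).card : ℤ) =
      max (⌊((x : ℚ) - c) / L⌋ - ⌊(((0 : ℕ) : ℚ) - c) / L⌋) 0 := h1
  set A := ⌊((x : ℚ) - c) / L⌋ with hA
  set B := ⌊(((0 : ℕ) : ℚ) - c) / L⌋ with hB
  have a1 : (A : ℚ) ≤ ((x : ℚ) - c) / L := Int.floor_le _
  have a2 : ((x : ℚ) - c) / L < A + 1 := Int.lt_floor_add_one _
  have b1 : (B : ℚ) ≤ (((0 : ℕ) : ℚ) - c) / L := Int.floor_le _
  have b2 : (((0 : ℕ) : ℚ) - c) / L < B + 1 := Int.lt_floor_add_one _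
  have e : ((x : ℚ) - c) / L - (((0 : ℕ) : ℚ) - c) / L = x / L := by
    push_cast
    field_simp
    ring
  have h3 : |((A - B : ℤ) : ℚ) - x / L| ≤ 1 := by
    push_cast
    rw [← e, abs_le]
    constructor <;> linarith
  have h3' : |((A - B : ℤ) : ℝ) - x / L| ≤ 1 := by
    have h := (Rat.cast_le (K := ℝ)).2 h3
    push_cast at h ⊢
    exact h
  have hx0 : (0 : ℝ) ≤ (x : ℝ) / L := by positivity
  have h4 : ((((Ioc 0 x).filter (fun n => n ≡ c [MOD L])).card : ℤ) : ℝ) = max ((A - B : ℤ) : ℝ) 0 := by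
    rw [h2]
    push_cast
    rfl
  have h5 : (((Ioc 0 x).filter (fun n => n ≡ c [MOD L])).card : ℝ) = max ((A - B : ℤ) : ℝ) 0 := by
    rw [← h4]; simp
  rw [h5]
  rcases le_or_gt ((A - B : ℤ) : ℝ) 0 with h | h
  · rw [max_eq_right h]
    rw [abs_le] at h3' ⊢
    constructor <;> linarith
  · rw [max_eq_left h.le]
    exact h3'

/-- primes of the class `b` with logarithmic weights -/
noncomputable def fb (N W b n : ℕ) : ℝ := if n ∈ PP N ∧ n % W = b then Real.log n else 0

/-- the model -/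
noncomputable def gb (W b n : ℕ) : ℝ := if n % W = b then (W : ℝ) / W.totient else 0

lemma small_primes {N : ℕ} (S : Finset ℕ) (hS : ∀ n ∈ S, 1 ≤ n ∧ n * n ≤ N) :
    |∑ n ∈ S, Real.log n| ≤ Real.sqrt N * Real.log N := by
  rw [abs_of_nonneg (sum_nonneg (fun n _ => Real.log_natCast_nonneg n))]
  have hlogN : 0 ≤ Real.log N := Real.log_natCast_nonneg N
  calc ∑ n ∈ S, Real.log n ≤ ∑ n ∈ S, Real.log N := by
        apply sum_le_sum
        intro n hn
        obtain ⟨h1, h2⟩ := hS n hn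
        apply Real.log_le_log
        · exact_mod_cast h1
        · have : n ≤ n * n := Nat.le_mul_self n
          exact_mod_cast this.trans h2
    _ = (S.card : ℝ) * Real.log N := by rw [sum_const, nsmul_eq_mul]
    _ ≤ _ := by
        apply mul_le_mul_of_nonneg_right _ hlogN
        have hsub : S ⊆ Icc 1 (Nat.sqrt N) := by
          intro n hn
          obtain ⟨h1, h2⟩ := hS n hn
          rw [mem_Icc]
          exact ⟨h1, Nat.le_sqrt.2 h2⟩
        have h3 := card_le_card hsub
        rw [Nat.card_Icc, Nat.add_sub_cancel] at h3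
        have h4 : ((Nat.sqrt N : ℕ) : ℝ) ≤ Real.sqrt N := Real.nat_sqrt_le_real_sqrt
        exact le_trans (by exact_mod_cast h3) h4

/-- one residue class modulo `W q` -/
lemma class_bd {N W q b j x : ℕ} {η : ℝ} (hW : 0 < W) (hq : 0 < q) (hb : Nat.Coprime b W) (hbW : b < W) (hj : j < q)
    (hx : x ≤ N) (h1 : |thn (W * q) (b + W * j) x -
      (if Nat.Coprime (W * q) (b + W * j) then 1 / ((W * q).totient : ℝ) else 0) * x| ≤ η * N)
    (h2 : Real.sqrt N * Real.log N ≤ η * N) (h3 : (W : ℝ) ≤ η * N) :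
    |∑ n ∈ (Icc 1 x).filter (fun n => n % (W * q) = b + W * j), (fb N W b n - gb W b n) -
      ((if Nat.Coprime q (b + W * j) then 1 / ((W * q).totient : ℝ) else 0) - 1 / (q * W.totient)) * x| ≤ 3 * η * N := by
  have hWr : (0 : ℝ) < W := by exact_mod_cast hW
  have hqr : (0 : ℝ) < q := by exact_mod_cast hq
  have hφ : (0 : ℝ) < W.totient := by exact_mod_cast Nat.totient_pos.2 hW
  have hφ1 : (1 : ℝ) ≤ W.totient := by exact_mod_cast Nat.totient_pos.2 hW
  have hc : b + W * j < W * q := by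
    have : W * (j + 1) ≤ W * q := Nat.mul_le_mul_left _ hj
    rw [mul_add, mul_one] at this
    omega
  have hcop : Nat.Coprime (W * q) (b + W * j) ↔ Nat.Coprime q (b + W * j) := by
    rw [Nat.coprime_mul_iff_left]
    constructor
    · exact fun h => h.2
    · intro h
      refine ⟨?_, h⟩
      rw [Nat.coprime_add_mul_left_right]
      exact hb.symm
  simp only [hcop] at h1
  set S := (Icc 1 x).filter (fun n => n % (W * q) = b + W * j) with hS
  have hmod : ∀ n ∈ S, n % W = b := by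
    intro n hn
    rw [hS, mem_filter] at hn
    have h4 : n % (W * q) % W = n % W := Nat.mod_mul_right_mod n W q
    rw [← h4, hn.2, Nat.add_mul_mod_self_left, Nat.mod_eq_of_lt hbW]
  have e1 : ∑ n ∈ S, fb N W b n = thn (W * q) (b + W * j) x -
      ∑ n ∈ (S.filter Nat.Prime).filter (fun n => ¬ n ∈ PP N), Real.log n := by
    have e2 : thn (W * q) (b + W * j) x = ∑ n ∈ S.filter Nat.Prime, Real.log n := by
      unfold thn
      apply sum_congr _ (fun _ _ => rfl)
      rw [hS, filter_filter]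
      apply filter_congr
      intro n _
      tauto
    rw [e2, ← sum_filter_add_sum_filter_not (S.filter Nat.Prime) (fun n => n ∈ PP N) (fun n => Real.log n)]
    rw [add_sub_cancel_right]
    unfold fb
    rw [← sum_filter]
    apply sum_congr _ (fun _ _ => rfl)
    ext n
    constructor
    · intro h
      obtain ⟨h4, h5, _⟩ := mem_filter.1 h
      exact mem_filter.2 ⟨mem_filter.2 ⟨h4, (mem_PP.1 h5).2.1⟩, h5⟩
    · intro h
      obtain ⟨h4, h5⟩ := mem_filter.1 h
      have h6 := (mem_filter.1 h4).1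
      exact mem_filter.2 ⟨h6, h5, hmod n h6⟩
  have e3 : ∑ n ∈ S, gb W b n = (S.card : ℝ) * ((W : ℝ) / W.totient) := by
    rw [← nsmul_eq_mul, ← sum_const]
    apply sum_congr rfl
    intro n hn
    unfold gb
    rw [if_pos (hmod n hn)]
  have h4 : |∑ n ∈ (S.filter Nat.Prime).filter (fun n => ¬ n ∈ PP N), Real.log n| ≤ Real.sqrt N * Real.log N := by
    apply small_primes
    intro n hn
    rw [mem_filter, mem_filter, hS, mem_filter, mem_Icc] at hn
    obtain ⟨⟨⟨⟨h5, h6⟩, _⟩, h7⟩, h8⟩ := hn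
    refine ⟨h5, ?_⟩
    by_contra hcon
    push Not at hcon
    exact h8 (mem_PP.2 ⟨by omega, h7, hcon⟩)
  have h5 := cnt_mod (W * q) (b + W * j) x (Nat.mul_pos hW hq) hc
  rw [sum_sub_distrib, e1, e3]
  push_cast at h5
  have h6 : |(S.card : ℝ) * ((W : ℝ) / W.totient) - 1 / (q * W.totient) * x| ≤ η * N := by
    have e4 : (S.card : ℝ) * ((W : ℝ) / W.totient) - 1 / (q * W.totient) * x =
        ((S.card : ℝ) - x / (W * q)) * ((W : ℝ) / W.totient) := by
      field_simp
    rw [e4, abs_mul, abs_of_pos (by positivity : (0 : ℝ) < (W : ℝ) / W.totient)]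
    calc |(S.card : ℝ) - x / (W * q)| * ((W : ℝ) / W.totient) ≤ 1 * (W / 1) := by
          apply mul_le_mul h5 _ (by positivity) zero_le_one
          exact div_le_div_of_nonneg_left hWr.le one_pos hφ1
      _ = W := by ring
      _ ≤ η * N := h3
  rw [abs_le] at h1 h4 h6 ⊢
  constructor <;> nlinarith only [h1.1, h1.2, h4.1, h4.2, h6.1, h6.2, h2]

end Pool.Agent.H.MP_0ec261_nt.AA
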