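import Pool.Agent.H.MP_0ec261_nt.AA.Maj2

/-!
The difference between the primes of a class and their model, on the major arcs.
-/

open Finset Filter

namespace Pool.Agent.H.MP_0ec261_nt.AA

lemma FG_zero {N W b n : ℕ} (h : n % W ≠ b) : fb N W b n - gb W b n = 0 := by
  unfold fb gb
  rw [if_neg (fun h' => h h'.2), if_neg h, sub_self]

lemma H_ev (W b Q : ℕ) (hW : 0 < W) (hbW : b < W) (hb : Nat.Coprime b W) {η : ℝ} (hη : 0 < η) :
    ∀ᶠ N : ℕ in atTop, ∀ q : ℕ, 0 < q → q ≤ Q → ∀ a : ℤ, ∀ x : ℕ, x ≤ N →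
      ‖∑ n ∈ Icc 1 x, (((fb N W b n - gb W b n : ℝ)) : ℂ) * ee (n * ((a : ℝ) / q)) - kap q W b a * x‖ ≤ η * N := by
  set η' := η / (3 * (Q + 1)) with hη'
  have hη0 : 0 < η' := by positivity
  have h1 : ∀ᶠ N : ℕ in atTop, ∀ q ∈ Icc 1 Q, ∀ c ∈ range (W * q), ∀ x : ℕ, x ≤ N →
      |thn (W * q) c x - (if Nat.Coprime (W * q) c then 1 / ((W * q).totient : ℝ) else 0) * x| ≤ η' * N := by
    rw [eventually_all_finset]
    intro q hq
    rw [eventually_all_finset]
    intro c hc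
    rw [mem_Icc] at hq
    rw [mem_range] at hc
    exact thn_ev (W * q) c (Nat.mul_pos hW (by omega)) hc hη0
  have h2 : ∀ᶠ N : ℕ in atTop, Real.sqrt N * Real.log N ≤ η' * N := by
    have a1 := (isLittleO_log_rpow_atTop (r := 1 / 2) (by norm_num)).bound (c := η') hη0
    have a2 := tendsto_natCast_atTop_atTop (R := ℝ) |>.eventually a1
    filter_upwards [a2, eventually_ge_atTop 1] with N hN hN1
    have hN0 : (0 : ℝ) < N := by exact_mod_cast hN1
    rw [Real.norm_of_nonneg (Real.log_natCast_nonneg N), Real.norm_of_nonneg (by positivity),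
      ← Real.sqrt_eq_rpow] at hN
    calc Real.sqrt N * Real.log N ≤ Real.sqrt N * (η' * Real.sqrt N) := by gcongr
      _ = η' * (Real.sqrt N * Real.sqrt N) := by ring
      _ = η' * N := by rw [Real.mul_self_sqrt hN0.le]
  have h3 : ∀ᶠ N : ℕ in atTop, (W : ℝ) / η' ≤ N := tendsto_natCast_atTop_atTop.eventually_ge_atTop _
  filter_upwards [h1, h2, h3] with N hN1 hN2 hN3 q hq0 hqQ a x hx
  rw [div_le_iff₀ hη0, mul_comm] at hN3
  have hqr : (0 : ℝ) < q := by exact_mod_cast hq0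
  set F : ℕ → ℝ := fun n => fb N W b n - gb W b n with hF
  have e1 : ∑ n ∈ Icc 1 x, ((F n : ℝ) : ℂ) * ee (n * ((a : ℝ) / q)) =
      ∑ j ∈ range q, ee (((b + W * j : ℕ) : ℝ) * ((a : ℝ) / q)) *
        ((∑ n ∈ (Icc 1 x).filter (fun n => n % (W * q) = b + W * j), F n : ℝ) : ℂ) := by
    have e2 : ∑ n ∈ Icc 1 x, ((F n : ℝ) : ℂ) * ee (n * ((a : ℝ) / q)) =
        ∑ n ∈ (Icc 1 x).filter (fun n => n % W = b), ((F n : ℝ) : ℂ) * ee (n * ((a : ℝ) / q)) := by
      rw [sum_filter]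
      apply sum_congr rfl
      intro n _
      split_ifs with h
      · rfl
      · rw [hF]
        simp only
        rw [FG_zero h]
        simp
    rw [e2]
    have hmaps : ∀ n ∈ (Icc 1 x).filter (fun n => n % W = b), n % (W * q) / W ∈ range q := by
      intro n _
      rw [mem_range]
      exact Nat.div_lt_of_lt_mul (Nat.mod_lt _ (Nat.mul_pos hW hq0))
    rw [← sum_fiberwise_of_maps_to hmaps]
    apply sum_congr rfl
    intro j _
    have hset : ((Icc 1 x).filter (fun n => n % W = b)).filter (fun n => n % (W * q) / W = j) =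
        (Icc 1 x).filter (fun n => n % (W * q) = b + W * j) := by
      rw [filter_filter]
      apply filter_congr
      intro n _
      have h4 : n % (W * q) % W = n % W := Nat.mod_mul_right_mod n W q
      constructor
      · rintro ⟨h5, h6⟩
        have h7 := Nat.mod_add_div (n % (W * q)) W
        rw [h4, h5, h6] at h7
        exact h7.symm
      · intro h5
        rw [h5, Nat.add_mul_mod_self_left, Nat.mod_eq_of_lt hbW] at h4
        refine ⟨h4.symm, ?_⟩
        rw [h5, Nat.add_mul_div_left _ _ hW, Nat.div_eq_of_lt hbW, zero_add]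
    rw [hset, Complex.ofReal_sum, mul_sum]
    apply sum_congr rfl
    intro n hn
    rw [mem_filter] at hn
    have e3 : ee (n * ((a : ℝ) / q)) = ee (((b + W * j : ℕ) : ℝ) * ((a : ℝ) / q)) := by
      have h7 := Nat.mod_add_div n (W * q)
      rw [hn.2] at h7
      obtain ⟨m, hm⟩ : ∃ m, m = n / (W * q) := ⟨_, rfl⟩
      rw [← hm] at h7
      have e4 : (n : ℝ) * ((a : ℝ) / q) = ((b + W * j : ℕ) : ℝ) * ((a : ℝ) / q) + ((W * m * a : ℤ) : ℝ) := by
        rw [← h7]
        push_cast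
        field_simp
      rw [e4, ee_add_int]
    rw [e3]
    ring
  rw [e1]
  unfold kap
  rw [sum_mul, ← sum_sub_distrib]
  refine (norm_sum_le _ _).trans ?_
  have h4 : ∀ j ∈ range q, ‖ee (((b + W * j : ℕ) : ℝ) * ((a : ℝ) / q)) *
        ((∑ n ∈ (Icc 1 x).filter (fun n => n % (W * q) = b + W * j), F n : ℝ) : ℂ) -
      ee (((b + W * j : ℕ) : ℝ) * ((a : ℝ) / q)) *
    (((if Nat.Coprime q (b + W * j) then 1 / ((W * q).totient : ℝ) else 0) - 1 / (q * W.totient) : ℝ) : ℂ) * x‖ ≤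
      3 * η' * N := by
    intro j hj
    rw [mem_range] at hj
    have hc : b + W * j < W * q := by
      have : W * (j + 1) ≤ W * q := Nat.mul_le_mul_left _ hj
      rw [mul_add, mul_one] at this
      omega
    have h5 := class_bd hW hq0 hb hbW hj hx
      (hN1 q (mem_Icc.2 ⟨hq0, hqQ⟩) (b + W * j) (mem_range.2 hc) x hx) hN2 hN3
    refine le_trans (le_of_eq ?_) h5
    rw [mul_assoc, ← mul_sub, norm_mul, norm_ee, one_mul, ← Real.norm_eq_abs, ← Complex.norm_real]
    congr 1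
    simp only [hF]
    push_cast
    rfl
  refine (sum_le_sum h4).trans ?_
  rw [sum_const, card_range, nsmul_eq_mul]
  have hqQr : (q : ℝ) ≤ Q := by exact_mod_cast hqQ
  calc (q : ℝ) * (3 * η' * N) ≤ (Q + 1) * (3 * η' * N) := by
        apply mul_le_mul_of_nonneg_right (by linarith) (by positivity)
    _ = η * N := by rw [hη']; field_simp

lemma abel {u : ℕ → ℂ} {N : ℕ} {B : ℝ} (hB : ∀ x ≤ N, ‖∑ n ∈ Icc 1 x, u n‖ ≤ B) (β : ℝ) :
    ‖∑ n ∈ Icc 1 N, u n * ee (n * β)‖ ≤ B * (1 + 2 * Real.pi * |β| * N) := by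
  have hB0 : 0 ≤ B := (norm_nonneg _).trans (hB 0 (Nat.zero_le _))
  have key : ∀ x : ℕ, ∑ n ∈ Icc 1 x, u n * ee (n * β) = (∑ n ∈ Icc 1 x, u n) * ee (x * β) -
      ∑ m ∈ range x, (∑ n ∈ Icc 1 m, u n) * (ee (((m + 1 : ℕ) : ℝ) * β) - ee (m * β)) := by
    intro x
    induction x with
    | zero => simp
    | succ x ih =>
      rw [sum_Icc_succ_top (by omega), ih, sum_Icc_succ_top (by omega), sum_range_succ]
      ring
  rw [key]
  refine (norm_sub_le _ _).trans ?_
  rw [norm_mul, norm_ee, mul_one]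
  have h1 : ‖∑ m ∈ range N, (∑ n ∈ Icc 1 m, u n) * (ee (((m + 1 : ℕ) : ℝ) * β) - ee (m * β))‖ ≤
      N * (B * (2 * Real.pi * |β|)) := by
    refine (norm_sum_le _ _).trans ?_
    calc _ ≤ ∑ m ∈ range N, B * (2 * Real.pi * |β|) := by
          apply sum_le_sum
          intro m hm
          rw [mem_range] at hm
          rw [norm_mul]
          apply mul_le_mul (hB m hm.le) _ (norm_nonneg _) hB0
          refine (norm_ee_sub _ _).trans (le_of_eq ?_)
          congr 2
          push_cast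
          ring
      _ = _ := by rw [sum_const, card_range, nsmul_eq_mul]
  have h2 := hB N le_rfl
  calc _ ≤ B + N * (B * (2 * Real.pi * |β|)) := add_le_add h2 h1
    _ = _ := by ring

/-- **The major arcs.** -/
theorem maj_bound (W b w Q : ℕ) (hW : 0 < W) (hbW : b < W) (hb : Nat.Coprime b W)
    (hw : ∀ p, p.Prime → ¬ p ∣ W → w < p) (hw0 : 0 < w) (hQ : 0 < Q) :
    ∀ᶠ N : ℕ in atTop, ∀ α : ℝ, MajP N Q α →
      ‖∑ n ∈ Icc 1 N, (((fb N W b n - gb W b n : ℝ)) : ℂ) * ee (n * α)‖ ≤ 2 / (w * W.totient) * N := by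
  have hφW : (0 : ℝ) < W.totient := by exact_mod_cast Nat.totient_pos.2 hW
  have hw0r : (0 : ℝ) < w := by exact_mod_cast hw0
  have hQr : (1 : ℝ) ≤ Q := by exact_mod_cast hQ
  have hη : (0 : ℝ) < 1 / (8 * Q * (w * W.totient)) := by positivity
  filter_upwards [H_ev W b Q hW hbW hb hη, eventually_ge_atTop 1] with N hN hN1 α hα
  have hN0 : (0 : ℝ) < N := by exact_mod_cast hN1
  obtain ⟨q0, a0, hq0, hqQ0, hα0⟩ := hα
  -- lowest terms
  obtain ⟨q, a, hq, hqQ, hcop, hα1⟩ : ∃ (q : ℕ) (a : ℤ), 0 < q ∧ q ≤ Q ∧ IsCoprime a (q : ℤ) ∧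
      |α - a / q| ≤ Q / N := by
    set r : ℚ := (a0 : ℚ) / (q0 : ℚ) with hr
    have h1 : (r.den : ℤ) ∣ (q0 : ℤ) := by
      have := Rat.den_dvd a0 (q0 : ℤ)
      rw [Rat.divInt_eq_div] at this
      rw [hr]
      exact_mod_cast this
    have h2 : r.den ≤ q0 := Nat.le_of_dvd hq0 (by exact_mod_cast h1)
    refine ⟨r.den, r.num, r.pos, ?_, ?_, ?_⟩
    · have : (q0 : ℝ) ≤ Q := hqQ0
      have h3 : q0 ≤ Q := by exact_mod_cast this
      omega
    · rw [Int.isCoprime_iff_gcd_eq_one]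
      have := r.reduced
      unfold Nat.Coprime at this
      rw [Int.gcd]
      simpa using this
    · have h3 : (r : ℝ) = r.num / r.den := Rat.cast_def r
      have h4 : (r : ℝ) = (a0 : ℝ) / q0 := by rw [hr]; push_cast; rfl
      rw [← h3, h4]
      exact hα0
  have hHN := hN q hq hqQ a
  set β := α - a / q with hβ
  have e1 : ∑ n ∈ Icc 1 N, (((fb N W b n - gb W b n : ℝ)) : ℂ) * ee (n * α) =
      ∑ n ∈ Icc 1 N, ((((fb N W b n - gb W b n : ℝ)) : ℂ) * ee (n * ((a : ℝ) / q)) - kap q W b a) * ee (n * β) +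
      kap q W b a * ∑ n ∈ Icc 1 N, ee (n * β) := by
    rw [mul_sum, ← sum_add_distrib]
    apply sum_congr rfl
    intro n _
    have : ee (n * α) = ee (n * ((a : ℝ) / q)) * ee (n * β) := by
      rw [← ee_add, hβ]
      congr 1
      ring
    rw [this]
    ring
  have h1 := abel (u := fun n => (((fb N W b n - gb W b n : ℝ)) : ℂ) * ee (n * ((a : ℝ) / q)) - kap q W b a)
    (N := N) (B := 1 / (8 * Q * (w * W.totient)) * N) (by
      intro x hx
      rw [sum_sub_distrib, sum_const, Nat.card_Icc, Nat.add_sub_cancel, nsmul_eq_mul, mul_comm (x : ℂ)]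
      exact hHN x hx) β
  have h2 : ‖kap q W b a * ∑ n ∈ Icc 1 N, ee (n * β)‖ ≤ 1 / (w * W.totient) * N := by
    rw [norm_mul]
    apply mul_le_mul (kap_le hq hW hb hcop hw hw0) _ (norm_nonneg _) (by positivity)
    have := norm_sum_ee_le (Icc 1 N) (fun n => (n : ℝ) * β)
    rwa [Nat.card_Icc, Nat.add_sub_cancel] at this
  have h3 : 1 / (8 * Q * (w * W.totient)) * N * (1 + 2 * Real.pi * |β| * N) ≤ 1 / (w * W.totient) * N := by
    have h4 : |β| * N ≤ Q := by
      rw [le_div_iff₀ hN0] at hα1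
      exact hα1
    have hpi : Real.pi < 3.15 := Real.pi_lt_d2
    have hpi0 := Real.pi_pos
    have h5 : 1 + 2 * Real.pi * |β| * N ≤ 8 * Q := by
      have h6 : Real.pi * (|β| * N) ≤ 3.15 * Q := by
        apply mul_le_mul hpi.le h4 (by positivity) (by norm_num)
      linarith
    calc 1 / (8 * Q * (w * W.totient)) * N * (1 + 2 * Real.pi * |β| * N) ≤
        1 / (8 * Q * (w * W.totient)) * N * (8 * Q) := by gcongr
      _ = 1 / (w * W.totient) * N := by field_simp
  rw [e1]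
  refine (norm_add_le _ _).trans ?_
  have e2 : 2 / ((w : ℝ) * W.totient) * N = 1 / (w * W.totient) * N + 1 / (w * W.totient) * N := by ring
  rw [e2]
  exact add_le_add (h1.trans h3) h2

end Pool.Agent.H.MP_0ec261_nt.AA
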