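import Pool.Agent.H.MP_42e49e_nt.Fund3
import Pool.Agent.H.MP_0ec261_nt.Rough

/-!
The sieve in progressions: asymptotic formula and upper bound for rough numbers.
-/

open Finset

namespace Pool.Agent.H.MP_0ec261_nt.AA

open Pool.MP42e49e
open Pool.Agent.H.MP_3e6494_nt (prm mem_prm)

/-- `∏ (1 - 1/p)` over the primes `p ≤ Z` -/
noncomputable def VV (Z : ℕ) : ℝ := ∏ p ∈ prm Z, (1 - 1 / (p : ℝ))

lemma VV_eq (Z : ℕ) : VV Z = PP (prm Z).toList := (PP_toList _).symm

lemma VV_le {Z : ℕ} (hZ : 2 ≤ Z) : VV Z ≤ Real.exp 17 / Real.log Z := by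
  have hZ0 : (2 : ℝ) ≤ Z := by exact_mod_cast hZ
  have hlog : 0 < Real.log Z := Real.log_pos (by linarith)
  rw [VV_eq]
  refine (PP_le _ (fun q hq => (mem_prm.1 (mem_toList.1 hq)).1.two_le)).trans ?_
  have h1 : rs (prm Z).toList = FF Z := rs_toList _
  have h2 := (Pool.MP42e49e.window (v := 2) le_rfl hZ).2
  have h3 : FF 2 = 1 / 2 := by
    have : prm 2 = {2} := by decide
    unfold FF
    rw [this, sum_singleton]
    norm_num
  have l1 := Real.log_two_gt_d9
  have l2 := Real.log_two_lt_d9
  have h4 : Real.log (Real.log ((2 : ℕ) : ℝ)) ≤ 0 := by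
    push_cast
    apply Real.log_nonpos <;> linarith
  have h5 : 12 / Real.log ((2 : ℕ) : ℝ) ≤ 17.5 := by
    push_cast
    rw [div_le_iff₀ (by linarith)]
    linarith
  have h6 : Real.log (Real.log Z) - 17 ≤ FF Z := by
    push_cast at h2 h4 h5
    rw [h3] at h2
    generalize Real.log (Real.log 2) = u at h2 h4
    generalize 12 / Real.log 2 = v at h2 h5
    linarith
  rw [h1]
  calc Real.exp (-(FF Z)) ≤ Real.exp (17 - Real.log (Real.log Z)) := Real.exp_le_exp.2 (by linarith)
    _ = Real.exp 17 / Real.log Z := by rw [Real.exp_sub, Real.exp_log hlog]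

lemma VV_ge {Z : ℕ} (hZ : 2 ≤ Z) : Real.exp (-21) / Real.log Z ≤ VV Z := by
  have hZ0 : (2 : ℝ) ≤ Z := by exact_mod_cast hZ
  have hlog : 0 < Real.log Z := Real.log_pos (by linarith)
  rw [VV_eq]
  refine le_trans ?_ (PP_ge _ (fun q hq => (mem_prm.1 (mem_toList.1 hq)).1.two_le))
  have h1 : rs (prm Z).toList = FF Z := rs_toList _
  have h2 := FF_le hZ
  have h3 := rs2_prm Z
  rw [h1]
  calc Real.exp (-21) / Real.log Z = Real.exp (-21 - Real.log (Real.log Z)) := by
        rw [Real.exp_sub, Real.exp_log hlog]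
    _ ≤ _ := Real.exp_le_exp.2 (by linarith)

lemma VV_pos {Z : ℕ} (hZ : 2 ≤ Z) : 0 < VV Z := by
  have hZ0 : (2 : ℝ) ≤ Z := by exact_mod_cast hZ
  have hlog : 0 < Real.log Z := Real.log_pos (by linarith)
  exact lt_of_lt_of_le (by positivity) (VV_ge hZ)

/-- primes up to `2 ^ s` -/
lemma rgh_iff_prm {s n : ℕ} (hs : 2 ≤ s) : Rgh (2 ^ s) n ↔ ∀ p ∈ prm (2 ^ s), ¬ p ∣ n := by
  constructor
  · intro h p hp hpn
    rw [mem_prm] at hp
    have h1 := h p hp.1 hpn
    have h2 : p = 2 ^ s := by omega
    rw [h2] at hp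
    exact (Nat.Prime.not_prime_pow hs) hp.1
  · intro h p hp hpn
    by_contra hlt
    push Not at hlt
    exact h p (mem_prm.2 ⟨hp, hlt.le⟩) hpn

/-- the count of rough numbers in a progression -/
noncomputable def cnt (s q x y : ℕ) : ℕ := by
  classical
  exact ((Icc 1 y).filter (fun m => Rgh (2 ^ s) (x + q * m))).card

open Classical in
/-- **The fundamental lemma for rough numbers in a progression.** -/
theorem sieveAP {t R y q x : ℕ} {δ : ℝ} (ht : 500000 ≤ t) (hδ0 : 0 < δ) (hδ : 1000 ≤ δ * t) (hR : 115 ≤ R)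
    (hR2 : 60 ≤ δ * 42 ^ R) (hy : 2 ^ (t * (4 * R + 28)) ≤ y) (hq : 0 < q) (hqt : q < 2 ^ (2 * t))
    (hx : Nat.Coprime x q) :
    |(cnt (2 * t) q x y : ℝ) - y * (q / (q.totient : ℝ)) * VV (2 ^ (2 * t))| ≤
      δ * (y * (q / (q.totient : ℝ)) * VV (2 ^ (2 * t))) := by
  have ht0 : (500000 : ℝ) ≤ t := by exact_mod_cast ht
  have hW2 : (2 ^ t) ^ 2 = 2 ^ (2 * t) := by rw [← pow_mul, mul_comm]
  set V := VV (2 ^ (2 * t)) with hV
  have hlS : lS (2 ^ t) = (prm (2 ^ (2 * t))).toList := by
    unfold lS
    rw [hW2]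
  have hPP : PP (lS (2 ^ t)) = V := by
    rw [hlS, hV, VV_eq]
  have l1 := Real.log_two_gt_d9
  have l2 := Real.log_two_lt_d9
  -- the residue classes
  set b : ℕ → ℕ → ℕ := fun c p => if p ∣ q then c else ((x : ZMod p) * (q : ZMod p)⁻¹).val with hb
  have hfund : ∀ c : ℕ, |((sv (b c) (lS (2 ^ t)) (cls y 1 0)).card : ℝ) - y * V| ≤ δ * (y * V) := by
    intro c
    have h := fund (y := y) (W := 2 ^ t) (R := R) (P0 := 1) (L := Real.exp ((t : ℝ) / 500)) (l := (t : ℝ) / 500)
      (q := t * Real.log 2) (δ := δ) (by linarith) rfl (by nlinarith)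
      (by
        have h1 : ((t : ℝ) / 500) ^ 2 / 2 ≤ Real.exp ((t : ℝ) / 500) := by
          have := Real.quadratic_le_exp_of_nonneg (x := (t : ℝ) / 500) (by positivity)
          linarith [div_nonneg (by positivity : (0 : ℝ) ≤ t) (by norm_num : (0 : ℝ) ≤ 500)]
        nlinarith)
      (by
        rw [mul_comm, Real.exp_mul, Real.exp_log (by norm_num), Real.rpow_natCast]
        push_cast
        exact le_rfl)
      (by
        rw [mul_comm, Real.exp_mul, Real.exp_log (by norm_num), Real.rpow_natCast]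
        push_cast
        have : (0 : ℝ) < 2 ^ t := by positivity
        linarith)
      hδ0 (by linarith) hR hR2
      (by
        have e1 : Real.exp ((4 * (R : ℝ) + 28) * (t * Real.log 2)) = ((2 ^ (t * (4 * R + 28)) : ℕ) : ℝ) := by
          have : (4 * (R : ℝ) + 28) * (t * Real.log 2) = Real.log 2 * ((t * (4 * R + 28) : ℕ) : ℝ) := by
            push_cast; ring
          rw [this, Real.exp_mul, Real.exp_log (by norm_num), Real.rpow_natCast]
          push_cast
          rfl
        rw [e1]
        have : ((2 ^ (t * (4 * R + 28)) : ℕ) : ℝ) ≤ y := by exact_mod_cast hy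
        simpa using this)
      (b c) (d := 1) 0 one_pos le_rfl (fun _ _ => Nat.coprime_one_left _)
    rw [hPP] at h
    simpa using h
  -- double counting
  have hcount : ∑ c ∈ range q, (sv (b c) (lS (2 ^ t)) (cls y 1 0)).card = q.totient * cnt (2 * t) q x y := by
    have e1 : ∀ c, (sv (b c) (lS (2 ^ t)) (cls y 1 0)).card =
        ∑ m ∈ (Icc 1 y).filter (fun m => Rgh (2 ^ (2 * t)) (x + q * m)), if Nat.Coprime q (c + m) then 1 else 0 := by
      intro c
      rw [← card_filter]
      congr 1
      ext m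
      unfold sv cls
      rw [hlS]
      simp only [mem_filter, one_dvd, and_true, mem_toList]
      rw [rgh_iff_prm (by omega)]
      constructor
      · rintro ⟨h1, h2⟩
        refine ⟨⟨h1, ?_⟩, ?_⟩
        · intro p hp hpn
          have hpp := (mem_prm.1 hp).1
          have : Fact p.Prime := ⟨hpp⟩
          by_cases hpq : p ∣ q
          · have hpx : p ∣ x := by
              have := (Nat.dvd_add_left (Dvd.dvd.mul_right hpq m)).1 hpn
              exact this
            have := Nat.dvd_gcd hpx hpq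
            rw [hx] at this
            exact hpp.one_lt.ne' (Nat.dvd_one.1 this)
          · apply h2 p hp
            rw [hb]
            simp only [if_neg hpq]
            have hq0 : (q : ZMod p) ≠ 0 := by
              rwa [Ne, ZMod.natCast_eq_zero_iff]
            rw [← ZMod.natCast_eq_zero_iff]
            push_cast
            rw [ZMod.natCast_zmod_val]
            rw [← ZMod.natCast_eq_zero_iff] at hpn
            push_cast at hpn
            have e2 : ((x : ZMod p) * (q : ZMod p)⁻¹ + m) * q = x + q * m := by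
              field_simp
            have e3 : ((x : ZMod p) * (q : ZMod p)⁻¹ + m) * q = 0 := by rw [e2, hpn]
            rcases mul_eq_zero.1 e3 with h | h
            · exact h
            · exact absurd h hq0
        · rw [Nat.coprime_iff_gcd_eq_one]
          by_contra hne
          obtain ⟨p, hp, hpd⟩ := Nat.exists_prime_and_dvd hne
          have hpq := hpd.trans (Nat.gcd_dvd_left _ _)
          have hpc := hpd.trans (Nat.gcd_dvd_right _ _)
          have hpZ : p ∈ prm (2 ^ (2 * t)) := by
            rw [mem_prm]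
            exact ⟨hp, (Nat.le_of_dvd hq hpq).trans hqt.le⟩
          apply h2 p hpZ
          rw [hb]
          simp only [if_pos hpq]
          exact hpc
      · rintro ⟨⟨h1, h2⟩, h3⟩
        refine ⟨h1, ?_⟩
        intro p hp hpn
        have hpp := (mem_prm.1 hp).1
        have : Fact p.Prime := ⟨hpp⟩
        rw [hb] at hpn
        simp only at hpn
        by_cases hpq : p ∣ q
        · rw [if_pos hpq] at hpn
          have := Nat.dvd_gcd hpq hpn
          rw [Nat.coprime_iff_gcd_eq_one.1 h3] at this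
          exact hpp.one_lt.ne' (Nat.dvd_one.1 this)
        · rw [if_neg hpq] at hpn
          apply h2 p hp
          have hq0 : (q : ZMod p) ≠ 0 := by
            rwa [Ne, ZMod.natCast_eq_zero_iff]
          rw [← ZMod.natCast_eq_zero_iff] at hpn ⊢
          push_cast at hpn ⊢
          rw [ZMod.natCast_zmod_val] at hpn
          have e2 : ((x : ZMod p) * (q : ZMod p)⁻¹ + m) * q = x + q * m := by
            field_simp
          rw [← e2, hpn, zero_mul]
    rw [sum_congr rfl (fun c _ => e1 c), sum_comm]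
    have e2 : ∀ m ∈ (Icc 1 y).filter (fun m => Rgh (2 ^ (2 * t)) (x + q * m)),
        (∑ c ∈ range q, if Nat.Coprime q (c + m) then 1 else 0) = q.totient := by
      intro m _
      rw [← card_filter, ← Nat.filter_coprime_Ico_eq_totient q m]
      apply card_nbij' (fun c => c + m) (fun n => n - m)
      · intro c hc
        rw [mem_coe, mem_filter, mem_range] at hc
        rw [mem_coe, mem_filter, mem_Ico]
        beta_reduce
        exact ⟨⟨by omega, by omega⟩, hc.2⟩
      · intro n hn
        rw [mem_coe, mem_filter, mem_Ico] at hn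
        rw [mem_coe, mem_filter, mem_range]
        beta_reduce
        refine ⟨by omega, ?_⟩
        have : n - m + m = n := by omega
        rw [this]; exact hn.2
      · intro c _; simp
      · intro n hn
        rw [mem_coe, mem_filter, mem_Ico] at hn
        simp only
        omega
    rw [sum_congr rfl e2, sum_const, smul_eq_mul, mul_comm]
    unfold cnt
    rfl
  have hφ : (0 : ℝ) < q.totient := by exact_mod_cast Nat.totient_pos.2 hq
  have hq0 : (0 : ℝ) < q := by exact_mod_cast hq
  have hsum : |(q.totient : ℝ) * cnt (2 * t) q x y - q * (y * V)| ≤ q * (δ * (y * V)) := by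
    have e3 : (q.totient : ℝ) * cnt (2 * t) q x y - q * (y * V) =
        ∑ c ∈ range q, (((sv (b c) (lS (2 ^ t)) (cls y 1 0)).card : ℝ) - y * V) := by
      rw [sum_sub_distrib, sum_const, card_range, nsmul_eq_mul]
      congr 1
      exact_mod_cast hcount.symm
    rw [e3]
    calc _ ≤ ∑ c ∈ range q, |((sv (b c) (lS (2 ^ t)) (cls y 1 0)).card : ℝ) - y * V| :=
          abs_sum_le_sum_abs _ _
      _ ≤ ∑ c ∈ range q, δ * (y * V) := sum_le_sum (fun c _ => hfund c)
      _ = _ := by rw [sum_const, card_range, nsmul_eq_mul]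
  have e4 : (cnt (2 * t) q x y : ℝ) - y * (q / (q.totient : ℝ)) * V =
      ((q.totient : ℝ) * cnt (2 * t) q x y - q * (y * V)) / q.totient := by
    field_simp
  have e5 : δ * (y * (q / (q.totient : ℝ)) * V) = (q * (δ * (y * V))) / q.totient := by
    field_simp
  rw [e4, e5, abs_div, abs_of_pos hφ]
  exact div_le_div_of_nonneg_right hsum hφ.le

open Classical in
/-- upper bound -/
theorem cnt_le {t y q x : ℕ} (ht : 1000001 ≤ t) (hy : 2 ^ (244 * t) ≤ y) (hq : 0 < q) (hqt : q < 2 ^ (t - 1))
    (hx : Nat.Coprime x q) :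
    (cnt t q x y : ℝ) ≤ 4 * Real.exp 17 * (y * (q / (q.totient : ℝ))) / t := by
  set t' := t / 2 with ht'
  have h1 : 2 * t' ≤ t := by omega
  have h2 : t - 1 ≤ 2 * t' := by omega
  have hmono : cnt t q x y ≤ cnt (2 * t') q x y := by
    unfold cnt
    apply card_le_card
    intro m hm
    rw [mem_filter] at hm ⊢
    refine ⟨hm.1, fun p hp hpd => ?_⟩
    exact (Nat.pow_le_pow_right (by norm_num) h1).trans (hm.2 p hp hpd)
  have h3 := sieveAP (t := t') (R := 115) (y := y) (q := q) (x := x) (δ := 1) (by omega) one_pos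
    (by
      have : 500000 ≤ t' := by omega
      have : (500000 : ℝ) ≤ t' := by exact_mod_cast this
      linarith) le_rfl (by norm_num) (by
        refine le_trans ?_ hy
        apply Nat.pow_le_pow_right (by norm_num)
        omega) hq (lt_of_lt_of_le hqt (Nat.pow_le_pow_right (by norm_num) h2)) hx
  rw [one_mul] at h3
  have h4 := (abs_le.1 h3).2
  have hφ : (0 : ℝ) < q.totient := by exact_mod_cast Nat.totient_pos.2 hq
  have hpow : 2 ≤ 2 ^ (2 * t') := by
    calc 2 = 2 ^ 1 := (pow_one 2).symm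
      _ ≤ _ := Nat.pow_le_pow_right (by norm_num) (by omega)
  have h5 := VV_le hpow
  have ht0 : (1000001 : ℝ) ≤ t := by exact_mod_cast ht
  have h6 : Real.log ((2 ^ (2 * t') : ℕ) : ℝ) = (2 * t' : ℕ) * Real.log 2 := by
    push_cast
    rw [Real.log_pow]
    push_cast
    ring
  have h7 : (t : ℝ) / 2 ≤ (2 * t' : ℕ) * Real.log 2 := by
    have l1 := Real.log_two_gt_d9
    have : (t : ℝ) - 1 ≤ (2 * t' : ℕ) := by
      have : t ≤ 2 * t' + 1 := by omega
      have : (t : ℝ) ≤ (2 * t' : ℕ) + 1 := by exact_mod_cast this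
      linarith
    nlinarith
  rw [h6] at h5
  have h8 : VV (2 ^ (2 * t')) ≤ 2 * Real.exp 17 / t := by
    refine h5.trans ?_
    calc Real.exp 17 / ((2 * t' : ℕ) * Real.log 2) ≤ Real.exp 17 / ((t : ℝ) / 2) := by
          apply div_le_div_of_nonneg_left (Real.exp_pos _).le (by linarith) h7
      _ = _ := by field_simp
  have hc : (cnt t q x y : ℝ) ≤ cnt (2 * t') q x y := by exact_mod_cast hmono
  have hnn : (0 : ℝ) ≤ y * (q / (q.totient : ℝ)) := by positivity
  calc (cnt t q x y : ℝ) ≤ 2 * (y * (q / (q.totient : ℝ)) * VV (2 ^ (2 * t'))) := by linarith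
    _ ≤ 2 * (y * (q / (q.totient : ℝ)) * (2 * Real.exp 17 / t)) := by gcongr
    _ = _ := by ring

end Pool.Agent.H.MP_0ec261_nt.AA
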