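import Pool.Agent.H.MP_0ec261_nt.AA.Ram
import Pool.Agent.H.MP_0ec261_nt.AA.Sv

/-!
The exponential sum over rough numbers, frequencies close to a rational with a small denominator.
-/

open Finset

namespace Pool.Agent.H.MP_0ec261_nt.AA

open Classical in
/-- the part of the sum covered by complete blocks -/
lemma rough_main {t R I y q : ℕ} {a0 : ℤ} {β δ : ℝ} (ht : 500000 ≤ t) (hδ0 : 0 < δ) (hδ : 1000 ≤ δ * t)
    (hR : 115 ≤ R) (hR2 : 60 ≤ δ * 42 ^ R) (hy : 2 ^ (t * (4 * R + 28)) ≤ y) (hq : 0 < q)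
    (hqt : q < 2 ^ (2 * t)) (ha0 : IsCoprime a0 (q : ℤ)) :
    ‖∑ n ∈ (Ico q (q + I * (q * y))).filter (fun n => Rgh (2 ^ (2 * t)) n), ee (n * (a0 / q + β))‖ ≤
      (I * (q * y : ℕ) : ℝ) * VV (2 ^ (2 * t)) * δ +
      ‖∑ i ∈ range I, ee (i * (((q * y : ℕ) : ℝ) * β))‖ * (((q * y : ℕ) : ℝ) * VV (2 ^ (2 * t)) / q.totient) +
      4 * Real.pi * (I * (q * y : ℕ) : ℝ) * (((q * y : ℕ) : ℝ) * |β|) := by
  have hφ : (0 : ℝ) < q.totient := by exact_mod_cast Nat.totient_pos.2 hq
  have hq0 : (0 : ℝ) < q := by exact_mod_cast hq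
  have hy0 : 0 < y := lt_of_lt_of_le (by positivity) hy
  have hy0' : (0 : ℝ) < y := by exact_mod_cast hy0
  set V := VV (2 ^ (2 * t)) with hV
  have hV0 : 0 < V := by
    apply VV_pos
    calc 2 = 2 ^ 1 := (pow_one 2).symm
      _ ≤ _ := Nat.pow_le_pow_right (by norm_num) (by omega)
  set B := q * y with hB
  have hBr : (B : ℝ) = q * y := by rw [hB]; push_cast; ring
  -- the index set
  have e1 : ∑ n ∈ (Ico q (q + I * B)).filter (fun n => Rgh (2 ^ (2 * t)) n), ee (n * (a0 / q + β)) =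
      ∑ i ∈ range I, ∑ ρ ∈ range q, ∑ m ∈ (Icc 1 y).filter (fun m => Rgh (2 ^ (2 * t)) (ρ + i * B + q * m)),
        ee (((ρ + i * B + q * m : ℕ) : ℝ) * (a0 / q + β)) := by
    have e2 : ∑ i ∈ range I, ∑ ρ ∈ range q, ∑ m ∈ (Icc 1 y).filter (fun m => Rgh (2 ^ (2 * t)) (ρ + i * B + q * m)),
        ee (((ρ + i * B + q * m : ℕ) : ℝ) * (a0 / q + β)) =
        ∑ z ∈ (range I ×ˢ (range q ×ˢ Icc 1 y)).filter (fun z => Rgh (2 ^ (2 * t)) (z.2.1 + z.1 * B + q * z.2.2)),
          ee (((z.2.1 + z.1 * B + q * z.2.2 : ℕ) : ℝ) * (a0 / q + β)) := by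
      rw [sum_filter, sum_product]
      apply sum_congr rfl
      intro i _
      rw [sum_product]
      apply sum_congr rfl
      intro ρ _
      rw [sum_filter]
    rw [e2]
    symm
    apply sum_bij (fun z _ => z.2.1 + z.1 * B + q * z.2.2)
    · rintro ⟨i, ρ, m⟩ hz
      simp only [mem_filter, mem_product, mem_range, mem_Icc] at hz ⊢
      obtain ⟨⟨h1, h2, h3, h4⟩, h5⟩ := hz
      rw [mem_Ico]
      refine ⟨⟨?_, ?_⟩, h5⟩
      · have : q * 1 ≤ q * m := Nat.mul_le_mul_left _ h3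
        omega
      · have e3 : q * m ≤ B := by rw [hB]; exact Nat.mul_le_mul_left _ h4
        have e4 : (i + 1) * B ≤ I * B := Nat.mul_le_mul_right _ h1
        rw [add_mul, one_mul] at e4
        omega
    · rintro ⟨i, ρ, m⟩ hz ⟨i', ρ', m'⟩ hz' h
      simp only [mem_filter, mem_product, mem_range, mem_Icc] at hz hz' h
      obtain ⟨⟨h1, h2, h3, h4⟩, h5⟩ := hz
      obtain ⟨⟨h1', h2', h3', h4'⟩, h5'⟩ := hz'
      have hm : m = (m - 1) + 1 := by omega
      have hm' : m' = (m' - 1) + 1 := by omega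
      -- n - q = ρ + q * (i * y + (m - 1))
      have k1 : ρ + i * B + q * m = ρ + q * (i * y + m) := by rw [hB]; ring
      have k2 : ρ' + i' * B + q * m' = ρ' + q * (i' * y + m') := by rw [hB]; ring
      rw [k1, k2] at h
      have hρ : ρ = ρ' := by
        have := congrArg (fun n => n % q) h
        simp only [Nat.add_mul_mod_self_left] at this
        rwa [Nat.mod_eq_of_lt h2, Nat.mod_eq_of_lt h2'] at this
      subst hρ
      have h6 : i * y + m = i' * y + m' := Nat.eq_of_mul_eq_mul_left hq (by omega)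
      have h7 : i * y + (m - 1) = i' * y + (m' - 1) := by omega
      have hi : i = i' := by
        have : (i * y + (m - 1)) / y = (i' * y + (m' - 1)) / y := by rw [h7]
        rw [Nat.mul_comm i, Nat.mul_comm i', Nat.mul_add_div hy0, Nat.mul_add_div hy0,
          Nat.div_eq_of_lt (by omega), Nat.div_eq_of_lt (by omega)] at this
        omega
      subst hi
      have : m = m' := by omega
      rw [this]
    · intro n hn
      rw [mem_filter, mem_Ico] at hn
      set N := n - q with hN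
      refine ⟨(N / B, N % q, (N / q) % y + 1), ?_, ?_⟩
      · simp only [mem_filter, mem_product, mem_range, mem_Icc]
        have hdec : N % q + N / B * B + q * ((N / q) % y + 1) = n := by
          have k1 : N / B = N / q / y := by rw [hB, Nat.div_div_eq_div_mul]
          have k2 := Nat.div_add_mod N q
          have k3 := Nat.div_add_mod (N / q) y
          rw [k1]
          have k4 : N / q / y * B = q * (y * (N / q / y)) := by rw [hB]; ring
          rw [k4, mul_add, mul_one]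
          have k5 : q * (y * (N / q / y)) + q * (N / q % y) = q * (N / q) := by rw [← mul_add, k3]
          omega
        refine ⟨⟨?_, Nat.mod_lt _ hq, by omega, ?_⟩, ?_⟩
        · rw [Nat.div_lt_iff_lt_mul (by positivity)]
          omega
        · have := Nat.mod_lt (N / q) hy0
          omega
        · rw [hdec]; exact hn.2
      · have k1 : N / B = N / q / y := by rw [hB, Nat.div_div_eq_div_mul]
        have k2 := Nat.div_add_mod N q
        have k3 := Nat.div_add_mod (N / q) y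
        show N % q + N / B * B + q * ((N / q) % y + 1) = n
        rw [k1]
        have k4 : N / q / y * B = q * (y * (N / q / y)) := by rw [hB]; ring
        rw [k4, mul_add, mul_one]
        have k5 : q * (y * (N / q / y)) + q * (N / q % y) = q * (N / q) := by rw [← mul_add, k3]
        omega
    · intro z _; rfl
  rw [e1]
  -- replacement of the phases
  have hterm : ∀ i ρ m : ℕ, ρ < q → m ≤ y → ‖ee (((ρ + i * B + q * m : ℕ) : ℝ) * (a0 / q + β)) -
      ee (i * ((B : ℝ) * β)) * ee (ρ * ((a0 : ℝ) / q))‖ ≤ 4 * Real.pi * ((B : ℝ) * |β|) := by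
    intro i ρ m hρ hm
    have e3 : ee (((ρ + i * B + q * m : ℕ) : ℝ) * (a0 / q + β)) =
        ee (ρ * ((a0 : ℝ) / q) + ((ρ + i * B + q * m : ℕ) : ℝ) * β) := by
      have : ((ρ + i * B + q * m : ℕ) : ℝ) * (a0 / q + β) =
          (ρ * ((a0 : ℝ) / q) + ((ρ + i * B + q * m : ℕ) : ℝ) * β) + ((((i : ℤ) * y + m) * a0 : ℤ) : ℝ) := by
        push_cast
        rw [hBr]
        field_simp
        ring
      rw [this, ee_add_int]
    rw [e3, ← ee_add]
    refine (norm_ee_sub _ _).trans ?_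
    have e4 : (ρ : ℝ) * ((a0 : ℝ) / q) + ((ρ + i * B + q * m : ℕ) : ℝ) * β -
        (i * ((B : ℝ) * β) + ρ * ((a0 : ℝ) / q)) = ((ρ : ℝ) + q * m) * β := by
      push_cast; ring
    rw [e4, abs_mul]
    have h1 : |(ρ : ℝ) + q * m| ≤ 2 * B := by
      rw [abs_of_nonneg (by positivity), hBr]
      have h2 : (ρ : ℝ) ≤ q := by exact_mod_cast hρ.le
      have h3 : (m : ℝ) ≤ y := by exact_mod_cast hm
      have h4 : (1 : ℝ) ≤ y := by exact_mod_cast hy0
      nlinarith
    calc 2 * Real.pi * (|(ρ : ℝ) + q * m| * |β|) ≤ 2 * Real.pi * ((2 * B) * |β|) := by gcongr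
      _ = _ := by ring
  set F := fun i ρ : ℕ => (cnt (2 * t) q (ρ + i * B) y : ℂ) * (ee (i * ((B : ℝ) * β)) * ee (ρ * ((a0 : ℝ) / q)))
    with hF
  have hrepl : ∀ i ∈ range I, ∀ ρ ∈ range q,
      ‖∑ m ∈ (Icc 1 y).filter (fun m => Rgh (2 ^ (2 * t)) (ρ + i * B + q * m)),
        ee (((ρ + i * B + q * m : ℕ) : ℝ) * (a0 / q + β)) - F i ρ‖ ≤ y * (4 * Real.pi * ((B : ℝ) * |β|)) := by
    intro i _ ρ hρ
    rw [mem_range] at hρ
    have e5 : F i ρ = ∑ m ∈ (Icc 1 y).filter (fun m => Rgh (2 ^ (2 * t)) (ρ + i * B + q * m)),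
        ee (i * ((B : ℝ) * β)) * ee (ρ * ((a0 : ℝ) / q)) := by
      rw [sum_const, nsmul_eq_mul, hF]
      unfold cnt
      rfl
    rw [e5, ← sum_sub_distrib]
    calc _ ≤ ∑ m ∈ (Icc 1 y).filter (fun m => Rgh (2 ^ (2 * t)) (ρ + i * B + q * m)),
          ‖ee (((ρ + i * B + q * m : ℕ) : ℝ) * (a0 / q + β)) - ee (i * ((B : ℝ) * β)) * ee (ρ * ((a0 : ℝ) / q))‖ :=
          norm_sum_le _ _
      _ ≤ ∑ m ∈ (Icc 1 y).filter (fun m => Rgh (2 ^ (2 * t)) (ρ + i * B + q * m)), 4 * Real.pi * ((B : ℝ) * |β|) := by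
          apply sum_le_sum
          intro m hm
          rw [mem_filter, mem_Icc] at hm
          exact hterm i ρ m hρ hm.1.2
      _ = (((Icc 1 y).filter (fun m => Rgh (2 ^ (2 * t)) (ρ + i * B + q * m))).card : ℝ) *
          (4 * Real.pi * ((B : ℝ) * |β|)) := by rw [sum_const, nsmul_eq_mul]
      _ ≤ _ := by
          apply mul_le_mul_of_nonneg_right _ (by positivity)
          have := card_filter_le (Icc 1 y) (fun m => Rgh (2 ^ (2 * t)) (ρ + i * B + q * m))
          rw [Nat.card_Icc, Nat.add_sub_cancel] at this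
          exact_mod_cast this
  have hdiff : ‖∑ i ∈ range I, ∑ ρ ∈ range q, ∑ m ∈ (Icc 1 y).filter (fun m => Rgh (2 ^ (2 * t)) (ρ + i * B + q * m)),
        ee (((ρ + i * B + q * m : ℕ) : ℝ) * (a0 / q + β)) - ∑ i ∈ range I, ∑ ρ ∈ range q, F i ρ‖ ≤
      4 * Real.pi * (I * B : ℝ) * ((B : ℝ) * |β|) := by
    rw [← sum_sub_distrib]
    simp_rw [← sum_sub_distrib]
    calc _ ≤ ∑ i ∈ range I, ∑ ρ ∈ range q, ‖∑ m ∈ (Icc 1 y).filter (fun m => Rgh (2 ^ (2 * t)) (ρ + i * B + q * m)),
          ee (((ρ + i * B + q * m : ℕ) : ℝ) * (a0 / q + β)) - F i ρ‖ :=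
          (norm_sum_le _ _).trans (sum_le_sum (fun _ _ => norm_sum_le _ _))
      _ ≤ ∑ i ∈ range I, ∑ ρ ∈ range q, y * (4 * Real.pi * ((B : ℝ) * |β|)) :=
          sum_le_sum (fun i hi => sum_le_sum (fun ρ hρ => hrepl i hi ρ hρ))
      _ = _ := by
          simp only [sum_const, card_range, nsmul_eq_mul]
          rw [hBr]; ring
  -- evaluation of the main term
  set μ0 := (y : ℝ) * (q / (q.totient : ℝ)) * V with hμ0
  have hμ00 : 0 ≤ μ0 := by positivity
  have hmain : ‖∑ i ∈ range I, ∑ ρ ∈ range q, F i ρ‖ ≤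
      (I * B : ℝ) * V * δ + ‖∑ i ∈ range I, ee (i * ((B : ℝ) * β))‖ * ((B : ℝ) * V / q.totient) := by
    -- only coprime residues
    have hz : ∀ i, ∀ ρ ∈ range q, ¬ Nat.Coprime q ρ → F i ρ = 0 := by
      intro i ρ hρ hnc
      rw [mem_range] at hρ
      have : cnt (2 * t) q (ρ + i * B) y = 0 := by
        unfold cnt
        rw [card_eq_zero, filter_eq_empty_iff]
        intro m _ hrg
        obtain ⟨p, hp, hpd⟩ := Nat.exists_prime_and_dvd hnc
        have hpq := hpd.trans (Nat.gcd_dvd_left _ _)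
        have hpρ := hpd.trans (Nat.gcd_dvd_right _ _)
        have h1 : p ∣ ρ + i * B + q * m := by
          apply dvd_add (dvd_add hpρ _) (Dvd.dvd.mul_right hpq _)
          rw [hB]
          exact Dvd.dvd.mul_left (Dvd.dvd.mul_right hpq _) _
        have h2 := hrg p hp h1
        have h3 := Nat.le_of_dvd hq hpq
        omega
      rw [hF]
      simp only
      rw [this]
      simp
    have hsplit : ∀ i, ∑ ρ ∈ range q, F i ρ =
        ∑ ρ ∈ (range q).filter (fun ρ => Nat.Coprime q ρ), F i ρ := by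
      intro i
      symm
      apply sum_filter_of_ne
      intro ρ hρ hne
      by_contra h
      exact hne (hz i ρ hρ h)
    have hdec : ∑ i ∈ range I, ∑ ρ ∈ range q, F i ρ =
        ∑ i ∈ range I, ∑ ρ ∈ (range q).filter (fun ρ => Nat.Coprime q ρ),
          (((cnt (2 * t) q (ρ + i * B) y : ℝ) - μ0 : ℝ) : ℂ) * (ee (i * ((B : ℝ) * β)) * ee (ρ * ((a0 : ℝ) / q))) +
        (μ0 : ℂ) * ((∑ i ∈ range I, ee (i * ((B : ℝ) * β))) *
          ∑ ρ ∈ (range q).filter (fun ρ => Nat.Coprime q ρ), ee (ρ * ((a0 : ℝ) / q))) := by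
      rw [sum_mul_sum, mul_sum, ← sum_add_distrib]
      apply sum_congr rfl
      intro i _
      rw [hsplit i, mul_sum, ← sum_add_distrib]
      apply sum_congr rfl
      intro ρ _
      rw [hF]
      simp only
      push_cast
      ring
    rw [hdec]
    refine (norm_add_le _ _).trans ?_
    apply add_le_add
    · calc _ ≤ ∑ i ∈ range I, ∑ ρ ∈ (range q).filter (fun ρ => Nat.Coprime q ρ),
          ‖(((cnt (2 * t) q (ρ + i * B) y : ℝ) - μ0 : ℝ) : ℂ) * (ee (i * ((B : ℝ) * β)) * ee (ρ * ((a0 : ℝ) / q)))‖ :=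
          (norm_sum_le _ _).trans (sum_le_sum (fun _ _ => norm_sum_le _ _))
        _ ≤ ∑ i ∈ range I, ∑ ρ ∈ (range q).filter (fun ρ => Nat.Coprime q ρ), δ * μ0 := by
            apply sum_le_sum
            intro i _
            apply sum_le_sum
            intro ρ hρ
            rw [mem_filter, mem_range] at hρ
            rw [norm_mul, norm_mul, norm_ee, norm_ee, mul_one, mul_one, Complex.norm_real, Real.norm_eq_abs]
            apply sieveAP ht hδ0 hδ hR hR2 hy hq hqt
            have h4 : ρ + i * B = ρ + q * (i * y) := by rw [hB]; ring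
            rw [h4, Nat.coprime_add_mul_left_left]
            exact hρ.2.symm
        _ = (I * B : ℝ) * V * δ := by
            simp only [sum_const, card_range, nsmul_eq_mul]
            have : (((range q).filter (fun ρ => Nat.Coprime q ρ)).card : ℝ) = q.totient := by
              rw [Nat.totient]
            rw [this, hμ0, hBr]
            field_simp
    · rw [norm_mul, norm_mul, Complex.norm_real, Real.norm_of_nonneg hμ00]
      have h5 := ram_le hq ha0
      have h6 : μ0 = (B : ℝ) * V / q.totient := by rw [hμ0, hBr]; ring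
      rw [← h6]
      calc μ0 * (‖∑ i ∈ range I, ee (i * ((B : ℝ) * β))‖ *
          ‖∑ ρ ∈ (range q).filter (fun ρ => Nat.Coprime q ρ), ee (ρ * ((a0 : ℝ) / q))‖) ≤
          μ0 * (‖∑ i ∈ range I, ee (i * ((B : ℝ) * β))‖ * 1) := by gcongr
        _ = _ := by ring
  have e9 : ∀ z w : ℂ, ‖z‖ ≤ ‖w‖ + ‖z - w‖ := by
    intro z w
    have : z = w + (z - w) := by ring
    calc ‖z‖ = ‖w + (z - w)‖ := by rw [← this]
      _ ≤ _ := norm_add_le _ _
  refine (e9 _ (∑ i ∈ range I, ∑ ρ ∈ range q, F i ρ)).trans ?_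
  linarith

end Pool.Agent.H.MP_0ec261_nt.AA
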