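import Pool.Agent.H.MP_0ec261_nt.AA.CaseIIb

/-!
The exponential sum over primes outside the major arcs.
-/

open Finset Filter

namespace Pool.Agent.H.MP_0ec261_nt.AA

theorem sup_S : ∃ C : ℝ, 1 ≤ C ∧ ∃ X₀ : ℕ, ∀ X : ℕ, X₀ ≤ X → ∀ K α : ℝ, 1 ≤ K → K ≤ (Real.log X) ^ 12 →
    (∀ (q : ℕ) (a : ℤ), 0 < q → (q : ℝ) ≤ K → K / X < |α - a / q|) →
    ‖∑ p ∈ (Icc 1 X).filter Nat.Prime, ee (p * α)‖ ≤
      C * (K ^ (-(1 / 5) : ℝ) + (Real.log X) ^ (-(9 / 10) : ℝ)) * (X / Real.log X) := by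
  obtain ⟨C1, hC1, X1, h1⟩ := caseI
  obtain ⟨X2, h2⟩ := caseII
  obtain ⟨X3, hX3⟩ := ev_cond.exists_forall_of_atTop
  refine ⟨C1 + 65, by linarith, max X1 (max X2 X3), ?_⟩
  intro X hX K α hK1 hKT hα
  have hX1 : X1 ≤ X := le_trans (le_max_left _ _) hX
  have hX2 : X2 ≤ X := le_trans (le_trans (le_max_left _ _) (le_max_right _ _)) hX
  obtain ⟨hE2, hE1, hℓ3⟩ := hX3 X (le_trans (le_trans (le_max_right _ _) (le_max_right _ _)) hX)
  have h1X := h1 X hX1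
  have h2X := h2 X hX2
  set ℓ := Real.log X with hℓ
  have hℓ0 : 0 < ℓ := by linarith
  have hX0 : (0 : ℝ) < X := by
    have : (0 : ℝ) < 10000 * ℓ ^ 120 := by positivity
    linarith
  have hℓ12 : 0 < ℓ ^ 12 := by positivity
  have hXℓ : ℓ ^ 12 ≤ X := by
    have : ℓ ^ 12 ≤ ℓ ^ 120 := pow_le_pow_right₀ (by linarith) (by norm_num)
    have : 0 < ℓ ^ 120 := by positivity
    linarith
  have hK0 : 0 < K := by linarith
  obtain ⟨n, hn⟩ : ∃ n : ℕ, n = ⌊X / ℓ ^ 12⌋₊ := ⟨_, rfl⟩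
  have hn1 : (n : ℝ) ≤ X / ℓ ^ 12 := by rw [hn]; exact Nat.floor_le (by positivity)
  have hn2 : X / ℓ ^ 12 < (n : ℝ) + 1 := by rw [hn]; exact Nat.lt_floor_add_one _
  have hn0 : 0 < n := by
    rw [hn, Nat.floor_pos, le_div_iff₀ hℓ12, one_mul]
    exact hXℓ
  obtain ⟨r, hr1, hr2⟩ := Real.exists_rat_abs_sub_le_and_den_le α hn0
  obtain ⟨q, hq⟩ : ∃ q : ℕ, q = r.den := ⟨_, rfl⟩
  obtain ⟨a0, ha0⟩ : ∃ a0 : ℤ, a0 = r.num := ⟨_, rfl⟩
  have hq0 : 0 < q := by rw [hq]; exact r.pos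
  have hq0r : (0 : ℝ) < q := by exact_mod_cast hq0
  have hq1r : (1 : ℝ) ≤ q := by exact_mod_cast hq0
  have hcop : IsCoprime a0 (q : ℤ) := by
    rw [Int.isCoprime_iff_gcd_eq_one, ha0, hq]
    have := r.reduced
    unfold Nat.Coprime at this
    rw [Int.gcd]
    simpa using this
  have hrcast : (r : ℝ) = a0 / q := by
    rw [ha0, hq]; exact Rat.cast_def r
  rw [← hq] at hr1 hr2
  rw [hrcast] at hr1
  have hqn : (q : ℝ) ≤ n := by exact_mod_cast hr2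
  have hℓ9 : 0 < ℓ ^ (-(9 / 10) : ℝ) := by positivity
  have hK5 : 0 < K ^ (-(1 / 5) : ℝ) := by positivity
  have hXl : 0 < X / ℓ := by positivity
  have hβ : |α - a0 / q| ≤ ℓ ^ 12 / (X * q) := by
    refine hr1.trans ?_
    have h3 : X * q / ℓ ^ 12 ≤ ((n : ℝ) + 1) * q := by
      calc X * q / ℓ ^ 12 = (X / ℓ ^ 12) * q := by ring
        _ ≤ ((n : ℝ) + 1) * q := mul_le_mul_of_nonneg_right hn2.le hq0r.le
    rw [div_le_div_iff₀ (by positivity) (by positivity), one_mul]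
    rw [div_le_iff₀ hℓ12] at h3
    linarith
  rcases le_or_gt (q : ℝ) (ℓ ^ 12) with hc | hc
  · have hXβ : X * |α - a0 / q| ≤ ℓ ^ 12 := by
      calc X * |α - a0 / q| ≤ X * (ℓ ^ 12 / (X * q)) := by gcongr
        _ = ℓ ^ 12 / q := by field_simp
        _ ≤ ℓ ^ 12 := div_le_self hℓ12.le hq1r
    have hcase : K ≤ q ∨ K ≤ X * |α - a0 / q| := by
      rcases le_or_gt (q : ℝ) K with h | h
      · right
        have h3 := hα q a0 hq0 h
        rw [div_lt_iff₀ hX0] at h3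
        linarith
      · left; exact h.le
    have h3 := h1X q a0 (α - a0 / q) K hq0 hcop hc hXβ hK1 hcase
    have e : ∑ p ∈ (Icc 1 X).filter Nat.Prime, ee (p * (a0 / q + (α - a0 / q))) =
        ∑ p ∈ (Icc 1 X).filter Nat.Prime, ee (p * α) := by
      apply sum_congr rfl
      intro p _
      congr 2
      ring
    rw [e] at h3
    refine h3.trans ?_
    apply mul_le_mul_of_nonneg_right _ hXl.le
    apply mul_le_mul_of_nonneg_right _ (by positivity)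
    linarith
  · have h3 : |α - a0 / q| ≤ 1 / (q : ℝ) ^ 2 := by
      refine hr1.trans ?_
      apply one_div_le_one_div_of_le (by positivity)
      rw [sq]
      apply mul_le_mul_of_nonneg_right _ hq0r.le
      linarith
    have h4 : q * ℓ ^ 12 ≤ X := by
      have : (q : ℝ) ≤ X / ℓ ^ 12 := hqn.trans hn1
      rwa [le_div_iff₀ hℓ12] at this
    refine (h2X q a0 α hq0 hcop h3 hc.le h4).trans ?_
    have hℓinv : 1 / ℓ ≤ ℓ ^ (-(9 / 10) : ℝ) := by
      rw [one_div, ← Real.rpow_neg_one]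
      exact Real.rpow_le_rpow_of_exponent_le (by linarith) (by norm_num)
    calc 65 * (X / ℓ ^ 2) = 65 * (1 / ℓ) * (X / ℓ) := by field_simp
      _ ≤ (C1 + 65) * (K ^ (-(1 / 5) : ℝ) + ℓ ^ (-(9 / 10) : ℝ)) * (X / ℓ) := by
          apply mul_le_mul_of_nonneg_right _ hXl.le
          apply mul_le_mul (by linarith) (by linarith) (by positivity) (by linarith)

/-- the primes in `(√X, X]` -/
def PP (X : ℕ) : Finset ℕ := (Icc 1 X).filter (fun p => p.Prime ∧ X < p * p)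

lemma mem_PP {X p : ℕ} : p ∈ PP X ↔ p ≤ X ∧ p.Prime ∧ X < p * p := by
  unfold PP
  rw [mem_filter, mem_Icc]
  constructor
  · rintro ⟨⟨_, h1⟩, h2⟩
    exact ⟨h1, h2⟩
  · rintro ⟨h1, h2⟩
    exact ⟨⟨h2.1.pos, h1⟩, h2⟩

/-- the sum with logarithmic weights -/
noncomputable def FF (X : ℕ) (α : ℝ) : ℂ := ∑ p ∈ PP X, (Real.log p : ℂ) * ee (p * α)

/-- the difference between the two weights -/
lemma pi_theta : ∃ C : ℝ, 1 ≤ C ∧ ∃ X₀ : ℕ, ∀ X : ℕ, X₀ ≤ X →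
    ∑ p ∈ (Icc 1 X).filter Nat.Prime, (Real.log X - Real.log p) ≤ C * (X / Real.log X) := by
  obtain ⟨C, hC0, hC⟩ := Chebyshev.primeCounting_sub_theta_div_log_isBigO.exists_pos
  have h1 := tendsto_natCast_atTop_atTop (R := ℝ) |>.eventually hC.bound
  have h2 : ∀ᶠ X : ℕ in atTop, (1 : ℝ) ≤ Real.log X :=
    (Real.tendsto_log_atTop.comp tendsto_natCast_atTop_atTop).eventually_ge_atTop _
  obtain ⟨X₀, hX₀⟩ := (h1.and h2).exists_forall_of_atTop
  refine ⟨C + 1, by linarith, X₀, ?_⟩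
  intro X hX
  obtain ⟨h3, h4⟩ := hX₀ X hX
  have hlog : 0 < Real.log X := by linarith
  rw [Nat.floor_natCast] at h3
  have hθ : Chebyshev.theta X = ∑ p ∈ (Icc 1 X).filter Nat.Prime, Real.log p := by
    unfold Chebyshev.theta
    rw [Nat.floor_natCast]
    apply sum_congr _ (fun _ _ => rfl)
    ext p
    simp only [mem_filter, mem_Ioc, mem_Icc]
    constructor
    · rintro ⟨⟨h5, h6⟩, h7⟩
      exact ⟨⟨h5, h6⟩, h7⟩
    · rintro ⟨⟨h5, h6⟩, h7⟩
      exact ⟨⟨h5, h6⟩, h7⟩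
  have hπ : ((Nat.primeCounting X : ℕ) : ℝ) = (((Icc 1 X).filter Nat.Prime).card : ℝ) := by
    congr 1
    rw [Nat.primeCounting, Nat.primeCounting', Nat.count_eq_card_filter_range]
    congr 1
    ext p
    simp only [mem_filter, mem_range, mem_Icc]
    constructor
    · rintro ⟨h5, h6⟩
      exact ⟨⟨h6.pos, by omega⟩, h6⟩
    · rintro ⟨⟨h5, h6⟩, h7⟩
      exact ⟨by omega, h7⟩
  have e1 : ∑ p ∈ (Icc 1 X).filter Nat.Prime, (Real.log X - Real.log p) =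
      (((Nat.primeCounting X : ℕ) : ℝ) - Chebyshev.theta X / Real.log X) * Real.log X := by
    rw [sum_sub_distrib, ← hθ, sum_const, nsmul_eq_mul, ← hπ]
    field_simp
  rw [e1]
  have h5 := (le_abs_self _).trans (Real.norm_eq_abs _ ▸ h3)
  have hX0 : (0 : ℝ) ≤ X := Nat.cast_nonneg _
  rw [Real.norm_of_nonneg (by positivity)] at h5
  calc _ ≤ (C * ((X : ℝ) / Real.log X ^ 2)) * Real.log X := mul_le_mul_of_nonneg_right h5 hlog.le
    _ = C * (X / Real.log X) := by field_simp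
    _ ≤ _ := by
        apply mul_le_mul_of_nonneg_right (by linarith) (by positivity)

theorem sup_F : ∃ C : ℝ, 1 ≤ C ∧ ∃ X₀ : ℕ, ∀ X : ℕ, X₀ ≤ X → ∀ K α : ℝ, 1 ≤ K → K ≤ (Real.log X) ^ 12 →
    (∀ (q : ℕ) (a : ℤ), 0 < q → (q : ℝ) ≤ K → K / X < |α - a / q|) →
    ‖FF X α‖ ≤ C * (K ^ (-(1 / 5) : ℝ) + (Real.log X) ^ (-(9 / 10) : ℝ)) * X := by
  obtain ⟨C1, hC1, X1, h1⟩ := sup_S
  obtain ⟨C2, hC2, X2, h2⟩ := pi_theta
  obtain ⟨X3, hX3⟩ := ev_cond.exists_forall_of_atTop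
  refine ⟨C1 + C2 + 1, by linarith, max X1 (max X2 X3), ?_⟩
  intro X hX K α hK1 hKT hα
  have hX1 : X1 ≤ X := le_trans (le_max_left _ _) hX
  have hX2 : X2 ≤ X := le_trans (le_trans (le_max_left _ _) (le_max_right _ _)) hX
  obtain ⟨hE2, hE1, hℓ3⟩ := hX3 X (le_trans (le_trans (le_max_right _ _) (le_max_right _ _)) hX)
  have h1X := h1 X hX1 K α hK1 hKT hα
  have h2X := h2 X hX2
  set ℓ := Real.log X with hℓ
  have hℓ0 : 0 < ℓ := by linarith
  have hX0 : (0 : ℝ) < X := by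
    have : (0 : ℝ) < 10000 * ℓ ^ 120 := by positivity
    linarith
  have hXN : 0 < X := by exact_mod_cast hX0
  have hK0 : 0 < K := by linarith
  have hℓ9 : 0 < ℓ ^ (-(9 / 10) : ℝ) := by positivity
  have hK5 : 0 < K ^ (-(1 / 5) : ℝ) := by positivity
  have hℓinv : 1 / ℓ ≤ ℓ ^ (-(9 / 10) : ℝ) := by
    rw [one_div, ← Real.rpow_neg_one]
    exact Real.rpow_le_rpow_of_exponent_le (by linarith) (by norm_num)
  have e1 : FF X α = (ℓ : ℂ) * ∑ p ∈ (Icc 1 X).filter Nat.Prime, ee (p * α) -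
      ∑ p ∈ (Icc 1 X).filter Nat.Prime, (((ℓ - Real.log p : ℝ)) : ℂ) * ee (p * α) -
      ∑ p ∈ ((Icc 1 X).filter Nat.Prime).filter (fun p => ¬ X < p * p), (Real.log p : ℂ) * ee (p * α) := by
    have e2 : PP X = ((Icc 1 X).filter Nat.Prime).filter (fun p => X < p * p) := by
      unfold PP
      rw [filter_filter]
    have e3 := sum_filter_add_sum_filter_not ((Icc 1 X).filter Nat.Prime) (fun p => X < p * p)
      (fun p => (Real.log p : ℂ) * ee (p * α))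
    unfold FF
    rw [e2]
    have e4 : (ℓ : ℂ) * ∑ p ∈ (Icc 1 X).filter Nat.Prime, ee (p * α) -
      ∑ p ∈ (Icc 1 X).filter Nat.Prime, (((ℓ - Real.log p : ℝ)) : ℂ) * ee (p * α) =
      ∑ p ∈ (Icc 1 X).filter Nat.Prime, (Real.log p : ℂ) * ee (p * α) := by
      rw [mul_sum, ← sum_sub_distrib]
      apply sum_congr rfl
      intro p _
      push_cast
      ring
    rw [e4, ← e3]
    ring
  have b1 : ‖(ℓ : ℂ) * ∑ p ∈ (Icc 1 X).filter Nat.Prime, ee (p * α)‖ ≤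
      C1 * (K ^ (-(1 / 5) : ℝ) + ℓ ^ (-(9 / 10) : ℝ)) * X := by
    rw [norm_mul, Complex.norm_real, Real.norm_of_nonneg hℓ0.le]
    calc ℓ * ‖∑ p ∈ (Icc 1 X).filter Nat.Prime, ee (p * α)‖ ≤
        ℓ * (C1 * (K ^ (-(1 / 5) : ℝ) + ℓ ^ (-(9 / 10) : ℝ)) * (X / ℓ)) := by gcongr
      _ = _ := by field_simp
  have b2 : ‖∑ p ∈ (Icc 1 X).filter Nat.Prime, (((ℓ - Real.log p : ℝ)) : ℂ) * ee (p * α)‖ ≤ C2 * (X / ℓ) := by
    refine (norm_sum_le _ _).trans (le_trans (le_of_eq ?_) h2X)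
    apply sum_congr rfl
    intro p hp
    rw [mem_filter, mem_Icc] at hp
    rw [norm_mul, norm_ee, mul_one, Complex.norm_real, Real.norm_of_nonneg]
    have : Real.log p ≤ Real.log X := by
      apply Real.log_le_log
      · exact_mod_cast hp.2.pos
      · exact_mod_cast hp.1.2
    linarith
  have hsqX2 : Real.sqrt X * Real.sqrt X = X := Real.mul_self_sqrt hX0.le
  have hsqX0 : 0 < Real.sqrt X := Real.sqrt_pos.2 hX0
  have b3 : ‖∑ p ∈ ((Icc 1 X).filter Nat.Prime).filter (fun p => ¬ X < p * p), (Real.log p : ℂ) * ee (p * α)‖ ≤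
      Real.sqrt X * ℓ := by
    refine (norm_sum_le _ _).trans ?_
    calc _ ≤ ∑ p ∈ ((Icc 1 X).filter Nat.Prime).filter (fun p => ¬ X < p * p), ℓ := by
          apply sum_le_sum
          intro p hp
          rw [mem_filter, mem_filter, mem_Icc] at hp
          have hp1 : (1 : ℝ) ≤ p := by exact_mod_cast hp.1.1.1
          rw [norm_mul, norm_ee, mul_one, Complex.norm_real, Real.norm_of_nonneg (Real.log_nonneg hp1)]
          apply Real.log_le_log (by linarith)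
          exact_mod_cast hp.1.1.2
      _ = ((((Icc 1 X).filter Nat.Prime).filter (fun p => ¬ X < p * p)).card : ℝ) * ℓ := by
          rw [sum_const, nsmul_eq_mul]
      _ ≤ _ := by
          apply mul_le_mul_of_nonneg_right _ hℓ0.le
          have hsub : ((Icc 1 X).filter Nat.Prime).filter (fun p => ¬ X < p * p) ⊆ Icc 1 (Nat.sqrt X) := by
            intro p hp
            rw [mem_filter, mem_filter, mem_Icc] at hp
            rw [mem_Icc]
            exact ⟨hp.1.1.1, Nat.le_sqrt.2 (not_lt.1 hp.2)⟩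
          have h3 := card_le_card hsub
          rw [Nat.card_Icc, Nat.add_sub_cancel] at h3
          have h4 : ((Nat.sqrt X : ℕ) : ℝ) ≤ Real.sqrt X := Real.nat_sqrt_le_real_sqrt
          exact le_trans (by exact_mod_cast h3) h4
  have hsm : Real.sqrt X * ℓ ≤ X / ℓ := by
    rw [le_div_iff₀ hℓ0]
    have h3 : ℓ ^ 2 ≤ Real.sqrt X := by
      apply Real.le_sqrt_of_sq_le
      rw [← pow_mul]
      have : ℓ ^ (2 * 2) ≤ ℓ ^ 120 := pow_le_pow_right₀ (by linarith) (by norm_num)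
      have : 0 < ℓ ^ 120 := by positivity
      linarith
    calc Real.sqrt X * ℓ * ℓ = Real.sqrt X * ℓ ^ 2 := by ring
      _ ≤ Real.sqrt X * Real.sqrt X := by gcongr
      _ = X := hsqX2
  rw [e1]
  refine (norm_sub_le _ _).trans ?_
  refine (add_le_add_left (norm_sub_le _ _) _).trans ?_
  have h5 : (C2 + 1) * (X / ℓ) ≤ (C2 + 1) * (K ^ (-(1 / 5) : ℝ) + ℓ ^ (-(9 / 10) : ℝ)) * X := by
    calc (C2 + 1) * (X / ℓ) = (C2 + 1) * (1 / ℓ) * X := by ring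
      _ ≤ (C2 + 1) * (K ^ (-(1 / 5) : ℝ) + ℓ ^ (-(9 / 10) : ℝ)) * X := by
          gcongr
          linarith
  have h6 : (C1 + C2 + 1) * (K ^ (-(1 / 5) : ℝ) + ℓ ^ (-(9 / 10) : ℝ)) * X =
      C1 * (K ^ (-(1 / 5) : ℝ) + ℓ ^ (-(9 / 10) : ℝ)) * X + (C2 + 1) * (K ^ (-(1 / 5) : ℝ) + ℓ ^ (-(9 / 10) : ℝ)) * X := by
    ring
  rw [h6]
  linarith

end Pool.Agent.H.MP_0ec261_nt.AA
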